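import Pool.Agent.Lib.CoCF.Base

/-!
# Parikh-type decomposition of weighted trees, and its limit form (chunk B)
-/

set_option autoImplicit false

namespace Pool.Agent.Lib.CoCF

variable {L ι : Type} {S : Sys L ι}

/-! ### Basic facts -/

theorem Der.root_mem {l : L} {w : ι → ℕ} {B : Set L} (h : Der S l w B) : l ∈ B := by
  cases h with
  | leaf h => exact Set.mem_singleton _
  | un h h' => exact Set.mem_insert _ _
  | bin h h₁ h₂ => exact Set.mem_insert _ _

theorem Der.split {l l' : L} {w : ι → ℕ} {B : Set L}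
    (h : Der S l w B) (hl : l' ∈ B) :
    ∃ (w₁ w₂ : ι → ℕ) (B' : Set L), Ctx S l l' w₁ ∧ Der S l' w₂ B' ∧ w = w₁ + w₂ := by
  induction h with
  | @leaf l w h =>
    rw [Set.mem_singleton_iff] at hl
    subst hl
    exact ⟨0, w, {l'}, Ctx.refl l', Der.leaf h, (zero_add w).symm⟩
  | @un l w l1 w' B h h' ih =>
    rcases hl with rfl | hl
    · exact ⟨0, _, _, Ctx.refl l', Der.un h h', (zero_add _).symm⟩
    · obtain ⟨w₁, w₂, B', h1, h2, h3⟩ := ih hl
      exact ⟨w + w₁, w₂, B', Ctx.un h h1, h2, by rw [h3, add_assoc]⟩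
  | @bin l l₁ l₂ w₁ w₂ B₁ B₂ h h₁ h₂ ih₁ ih₂ =>
    rcases hl with rfl | hl | hl
    · exact ⟨0, _, _, Ctx.refl l', Der.bin h h₁ h₂, (zero_add _).symm⟩
    · obtain ⟨v₁, v₂, B', h1, h2, h3⟩ := ih₁ hl
      exact ⟨v₁ + w₂, v₂, B', Ctx.left h h1 h₂, h2, by rw [h3]; abel⟩
    · obtain ⟨v₁, v₂, B', h1, h2, h3⟩ := ih₂ hl
      exact ⟨w₁ + v₁, v₂, B', Ctx.right h h₁ h1, h2, by rw [h3]; abel⟩

/-- contexts with their sets of labels -/
inductive CtxB (S : Sys L ι) : L → L → (ι → ℕ) → Set L → Prop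
  | refl (l : L) : CtxB S l l 0 ∅
  | un {l : L} {w : ι → ℕ} {l' l'' : L} {w' : ι → ℕ} {B : Set L} (h : S.un l w l')
      (h' : CtxB S l' l'' w' B) : CtxB S l l'' (w + w') (insert l B)
  | left {l l₁ l₂ l'' : L} {w₁ w₂ : ι → ℕ} {B₁ B₂ : Set L} (h : S.bin l l₁ l₂)
      (h₁ : CtxB S l₁ l'' w₁ B₁) (h₂ : Der S l₂ w₂ B₂) :
      CtxB S l l'' (w₁ + w₂) (insert l (B₁ ∪ B₂))
  | right {l l₁ l₂ l'' : L} {w₁ w₂ : ι → ℕ} {B₁ B₂ : Set L} (h : S.bin l l₁ l₂)
      (h₁ : Der S l₁ w₁ B₁) (h₂ : CtxB S l₂ l'' w₂ B₂) :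
      CtxB S l l'' (w₁ + w₂) (insert l (B₁ ∪ B₂))

theorem CtxB.ctx {l l' : L} {w : ι → ℕ} {B : Set L} (h : CtxB S l l' w B) : Ctx S l l' w := by
  induction h with
  | refl l => exact Ctx.refl l
  | un h h' ih => exact Ctx.un h ih
  | left h h₁ h₂ ih => exact Ctx.left h ih h₂
  | right h h₁ h₂ ih => exact Ctx.right h h₁ ih

theorem CtxB.plug {l l' : L} {w w' : ι → ℕ} {B B' : Set L} (h : CtxB S l l' w B)
    (h' : Der S l' w' B') : Der S l (w + w') (B ∪ B') := by
  induction h with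
  | refl l => rw [zero_add, Set.empty_union]; exact h'
  | @un l w l1 l2 w1 B h h1 ih =>
    have h2 := Der.un h (ih h')
    rw [add_assoc, Set.insert_union]
    exact h2
  | @left l l₁ l₂ l'' w₁ w₂ B₁ B₂ h h₁ h₂ ih =>
    have h3 := Der.bin h (ih h') h₂
    have h4 : w₁ + w₂ + w' = w₁ + w' + w₂ := by abel
    have h5 : insert l (B₁ ∪ B₂) ∪ B' = insert l (B₁ ∪ B' ∪ B₂) := by
      rw [Set.insert_union, Set.union_right_comm]
    rw [h4, h5]
    exact h3
  | @right l l₁ l₂ l'' w₁ w₂ B₁ B₂ h h₁ h₂ ih =>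
    have h3 := Der.bin h h₁ (ih h')
    rw [add_assoc, Set.insert_union, Set.union_assoc]
    exact h3

/-- insertion of a loop at a label of a tree -/
theorem Der.insert_loop {l l' : L} {w w' : ι → ℕ} {B B' : Set L} (h : Der S l w B) (hl : l' ∈ B)
    (h' : CtxB S l' l' w' B') : ∃ B'', B ∪ B' ⊆ B'' ∧ Der S l (w + w') B'' := by
  induction h with
  | @leaf l w h =>
    rw [Set.mem_singleton_iff] at hl
    subst hl
    refine ⟨B' ∪ {l'}, by rw [Set.union_comm], ?_⟩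
    rw [add_comm]
    exact h'.plug (Der.leaf h)
  | @un l w l1 w1 B h h1 ih =>
    rcases hl with rfl | hl
    · refine ⟨B' ∪ insert l' B, by rw [Set.union_comm], ?_⟩
      rw [add_comm]
      exact h'.plug (Der.un h h1)
    · obtain ⟨B'', h2, h3⟩ := ih hl
      refine ⟨insert l B'', ?_, ?_⟩
      · rw [Set.insert_union]
        exact Set.insert_subset_insert h2
      · rw [add_assoc]
        exact Der.un h h3
  | @bin l l₁ l₂ w₁ w₂ B₁ B₂ h h₁ h₂ ih₁ ih₂ =>
    rcases hl with rfl | hl | hl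
    · refine ⟨B' ∪ insert l' (B₁ ∪ B₂), by rw [Set.union_comm], ?_⟩
      rw [add_comm]
      exact h'.plug (Der.bin h h₁ h₂)
    · obtain ⟨B'', h2, h3⟩ := ih₁ hl
      refine ⟨insert l (B'' ∪ B₂), ?_, ?_⟩
      · rw [Set.insert_union, Set.union_right_comm]
        exact Set.insert_subset_insert (Set.union_subset_union_left _ h2)
      · have h4 : w₁ + w₂ + w' = w₁ + w' + w₂ := by abel
        rw [h4]
        exact Der.bin h h3 h₂
    · obtain ⟨B'', h2, h3⟩ := ih₂ hl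
      refine ⟨insert l (B₁ ∪ B''), ?_, ?_⟩
      · rw [Set.insert_union, Set.union_assoc]
        exact Set.insert_subset_insert (Set.union_subset_union_right _ h2)
      · rw [add_assoc]
        exact Der.bin h h₁ h3

/-! ### Trees without repetition on their paths -/

/-- trees without repeated labels on any path -/
inductive NR (S : Sys L ι) : L → (ι → ℕ) → Set L → Prop
  | leaf {l : L} {w : ι → ℕ} (h : S.leaf l w) : NR S l w {l}
  | un {l : L} {w : ι → ℕ} {l' : L} {w' : ι → ℕ} {B : Set L} (h : S.un l w l')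
      (h' : NR S l' w' B) (hl : l ∉ B) : NR S l (w + w') (insert l B)
  | bin {l l₁ l₂ : L} {w₁ w₂ : ι → ℕ} {B₁ B₂ : Set L} (h : S.bin l l₁ l₂)
      (h₁ : NR S l₁ w₁ B₁) (h₂ : NR S l₂ w₂ B₂) (hl : l ∉ B₁ ∪ B₂) :
      NR S l (w₁ + w₂) (insert l (B₁ ∪ B₂))

theorem NR.der {l : L} {w : ι → ℕ} {B : Set L} (h : NR S l w B) : Der S l w B := by
  induction h with
  | leaf h => exact Der.leaf h
  | un h h' hl ih => exact Der.un h ih
  | bin h h₁ h₂ hl ih₁ ih₂ => exact Der.bin h ih₁ ih₂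

/-- sums of at most `n` elements of `W` -/
def Bd (W : Set (ι → ℕ)) (n : ℕ) : Set (ι → ℕ) :=
  {w | ∃ l : List (ι → ℕ), l.length ≤ n ∧ (∀ x ∈ l, x ∈ W) ∧ l.sum = w}

theorem Bd.finite {W : Set (ι → ℕ)} (hW : W.Finite) (n : ℕ) : (Bd W n).Finite := by
  have : Finite W := hW
  have h1 : {l : List W | l.length ≤ n}.Finite := List.finite_length_le W n
  refine (h1.image fun l : List W => (l.map Subtype.val).sum).subset ?_
  rintro w ⟨l, h2, h3, rfl⟩
  refine ⟨l.attach.map fun x => ⟨x.1, h3 x.1 x.2⟩, ?_, ?_⟩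
  · simpa using h2
  · simp only [List.map_map]
    congr 1
    exact List.attach_map_subtype_val l

theorem Bd.add {W : Set (ι → ℕ)} {m n : ℕ} {v w : ι → ℕ} (hv : v ∈ Bd W m) (hw : w ∈ Bd W n) :
    v + w ∈ Bd W (m + n) := by
  obtain ⟨l, h1, h2, rfl⟩ := hv
  obtain ⟨l', h3, h4, rfl⟩ := hw
  refine ⟨l ++ l', by rw [List.length_append]; omega, ?_, by rw [List.sum_append]⟩
  intro x hx
  rcases List.mem_append.1 hx with hx | hx
  · exact h2 x hx
  · exact h4 x hx

theorem Bd.mono {W : Set (ι → ℕ)} {m n : ℕ} (h : m ≤ n) : Bd W m ⊆ Bd W n := by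
  rintro w ⟨l, h1, h2, h3⟩
  exact ⟨l, h1.trans h, h2, h3⟩

theorem Bd.of_mem {W : Set (ι → ℕ)} {w : ι → ℕ} (h : w ∈ W) : w ∈ Bd W 1 :=
  ⟨[w], le_rfl, by simpa using h, by simp⟩

theorem Bd.zero_mem {W : Set (ι → ℕ)} (n : ℕ) : (0 : ι → ℕ) ∈ Bd W n :=
  ⟨[], by simp, by simp, by simp⟩

/-- the data of a finite system -/
structure FinData (S : Sys L ι) (F : Set L) (W : Set (ι → ℕ)) : Prop where
  finF : F.Finite
  finW : W.Finite
  leaf : ∀ l w, S.leaf l w → l ∈ F ∧ w ∈ W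
  un : ∀ l w l', S.un l w l' → l ∈ F ∧ w ∈ W
  bin : ∀ l l₁ l₂, S.bin l l₁ l₂ → l ∈ F

theorem Der.subset {F : Set L} {W : Set (ι → ℕ)} (hF : FinData S F W) {l : L} {w : ι → ℕ}
    {B : Set L} (h : Der S l w B) : B ⊆ F := by
  induction h with
  | leaf h => exact Set.singleton_subset_iff.2 (hF.leaf _ _ h).1
  | un h h' ih => exact Set.insert_subset (hF.un _ _ _ h).1 ih
  | bin h h₁ h₂ ih₁ ih₂ => exact Set.insert_subset (hF.bin _ _ _ h) (Set.union_subset ih₁ ih₂)

theorem CtxB.subset {F : Set L} {W : Set (ι → ℕ)} (hF : FinData S F W) {l l' : L} {w : ι → ℕ}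
    {B : Set L} (h : CtxB S l l' w B) : B ⊆ F := by
  induction h with
  | refl l => exact Set.empty_subset _
  | un h h' ih => exact Set.insert_subset (hF.un _ _ _ h).1 ih
  | left h h₁ h₂ ih =>
    exact Set.insert_subset (hF.bin _ _ _ h) (Set.union_subset ih (h₂.subset hF))
  | right h h₁ h₂ ih =>
    exact Set.insert_subset (hF.bin _ _ _ h) (Set.union_subset (h₁.subset hF) ih)

theorem NR.bd {F : Set L} {W : Set (ι → ℕ)} (hF : FinData S F W) {l : L} {w : ι → ℕ}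
    {B : Set L} (h : NR S l w B) : w ∈ Bd W (2 ^ B.ncard) := by
  induction h with
  | leaf h =>
    refine Bd.mono ?_ (Bd.of_mem (hF.leaf _ _ h).2)
    exact Nat.one_le_two_pow
  | @un l w l' w' B h h' hl ih =>
    refine Bd.mono ?_ (Bd.add (Bd.of_mem (hF.un _ _ _ h).2) ih)
    rw [Set.ncard_insert_of_notMem hl (hF.finF.subset (h'.der.subset hF)), pow_succ]
    have : 1 ≤ 2 ^ B.ncard := Nat.one_le_two_pow
    omega
  | @bin l l₁ l₂ w₁ w₂ B₁ B₂ h h₁ h₂ hl ih₁ ih₂ =>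
    refine Bd.mono ?_ (Bd.add ih₁ ih₂)
    have hfin : (B₁ ∪ B₂).Finite :=
      hF.finF.subset (Set.union_subset (h₁.der.subset hF) (h₂.der.subset hF))
    rw [Set.ncard_insert_of_notMem hl hfin, pow_succ]
    have h3 : 2 ^ B₁.ncard ≤ 2 ^ (B₁ ∪ B₂).ncard :=
      Nat.pow_le_pow_right (by norm_num) (Set.ncard_le_ncard Set.subset_union_left hfin)
    have h4 : 2 ^ B₂.ncard ≤ 2 ^ (B₁ ∪ B₂).ncard :=
      Nat.pow_le_pow_right (by norm_num) (Set.ncard_le_ncard Set.subset_union_right hfin)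
    omega

theorem NR.bd' {F : Set L} {W : Set (ι → ℕ)} (hF : FinData S F W) {l : L} {w : ι → ℕ}
    {B : Set L} (h : NR S l w B) : w ∈ Bd W (2 ^ F.ncard) :=
  Bd.mono (Nat.pow_le_pow_right (by norm_num)
    (Set.ncard_le_ncard (h.der.subset hF) hF.finF)) (h.bd hF)

/-- splitting a tree without repetition -/
theorem NR.split {F : Set L} {W : Set (ι → ℕ)} (hF : FinData S F W) {l l' : L} {w : ι → ℕ}
    {B : Set L} (h : NR S l w B) (hl : l' ∈ B) :
    ∃ (w₁ w₂ : ι → ℕ) (B₁ B₂ : Set L), CtxB S l l' w₁ B₁ ∧ NR S l' w₂ B₂ ∧ w = w₁ + w₂ ∧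
      B ⊆ B₁ ∪ B₂ ∧ w₁ ∈ Bd W (2 ^ B.ncard) := by
  induction h with
  | @leaf l w h =>
    rw [Set.mem_singleton_iff] at hl
    subst hl
    exact ⟨0, w, ∅, {l'}, CtxB.refl l', NR.leaf h, (zero_add w).symm, by simp, Bd.zero_mem _⟩
  | @un l w l1 w' B h h' hl1 ih =>
    rcases hl with rfl | hl
    · exact ⟨0, _, ∅, _, CtxB.refl l', NR.un h h' hl1, (zero_add _).symm,
        Set.subset_union_right, Bd.zero_mem _⟩
    · obtain ⟨w₁, w₂, B₁, B₂, h1, h2, h3, h4, h5⟩ := ih hl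
      refine ⟨w + w₁, w₂, insert l B₁, B₂, CtxB.un h h1, h2, by rw [h3, add_assoc], ?_, ?_⟩
      · rw [Set.insert_union]
        exact Set.insert_subset_insert h4
      · refine Bd.mono ?_ (Bd.add (Bd.of_mem (hF.un _ _ _ h).2) h5)
        rw [Set.ncard_insert_of_notMem hl1 (hF.finF.subset (h'.der.subset hF)), pow_succ]
        have : 1 ≤ 2 ^ B.ncard := Nat.one_le_two_pow
        omega
  | @bin l l₁ l₂ w₁ w₂ B₁ B₂ h h₁ h₂ hl1 ih₁ ih₂ =>
    have hfin : (B₁ ∪ B₂).Finite :=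
      hF.finF.subset (Set.union_subset (h₁.der.subset hF) (h₂.der.subset hF))
    have h3 : 2 ^ B₁.ncard ≤ 2 ^ (B₁ ∪ B₂).ncard :=
      Nat.pow_le_pow_right (by norm_num) (Set.ncard_le_ncard Set.subset_union_left hfin)
    have h4 : 2 ^ B₂.ncard ≤ 2 ^ (B₁ ∪ B₂).ncard :=
      Nat.pow_le_pow_right (by norm_num) (Set.ncard_le_ncard Set.subset_union_right hfin)
    have h5 : 2 ^ B₁.ncard + 2 ^ B₂.ncard ≤ 2 ^ (insert l (B₁ ∪ B₂)).ncard := by
      rw [Set.ncard_insert_of_notMem hl1 hfin, pow_succ]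
      omega
    rcases hl with rfl | hl | hl
    · exact ⟨0, _, ∅, _, CtxB.refl l', NR.bin h h₁ h₂ hl1, (zero_add _).symm,
        Set.subset_union_right, Bd.zero_mem _⟩
    · obtain ⟨v₁, v₂, C₁, C₂, h6, h7, h8, h9, h10⟩ := ih₁ hl
      refine ⟨v₁ + w₂, v₂, insert l (C₁ ∪ B₂), C₂, CtxB.left h h6 h₂.der, h7,
        by rw [h8]; abel, ?_, Bd.mono h5 (Bd.add h10 (h₂.bd hF))⟩
      rw [Set.insert_union, Set.union_right_comm]
      exact Set.insert_subset_insert (Set.union_subset_union_left _ h9)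
    · obtain ⟨v₁, v₂, C₁, C₂, h6, h7, h8, h9, h10⟩ := ih₂ hl
      refine ⟨w₁ + v₁, v₂, insert l (B₁ ∪ C₁), C₂, CtxB.right h h₁.der h6, h7,
        by rw [h8]; abel, ?_, Bd.mono h5 (Bd.add (h₁.bd hF) h10)⟩
      rw [Set.insert_union, Set.union_assoc]
      exact Set.insert_subset_insert (Set.union_subset_union_right _ h9)

/-! ### Decomposition into a tree without repetition and a list of loops -/

/-- loops of the list can be inserted one after the other -/
def Good (S : Sys L ι) (V : Set (ι → ℕ)) : Set L → List (L × (ι → ℕ) × Set L) → Prop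
  | _, [] => True
  | B, x :: xs => x.1 ∈ B ∧ CtxB S x.1 x.1 x.2.1 x.2.2 ∧ x.2.1 ∈ V ∧ Good S V (B ∪ x.2.2) xs

/-- the labels of a list of loops -/
def labs (xs : List (L × (ι → ℕ) × Set L)) : Set L := {l | ∃ x ∈ xs, l ∈ x.2.2}

theorem labs_cons (x : L × (ι → ℕ) × Set L) (xs : List (L × (ι → ℕ) × Set L)) :
    labs (x :: xs) = x.2.2 ∪ labs xs := by
  ext l
  simp [labs]

theorem labs_append (xs ys : List (L × (ι → ℕ) × Set L)) : labs (xs ++ ys) = labs xs ∪ labs ys := by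
  ext l
  simp only [labs, List.mem_append, Set.mem_union]
  constructor
  · rintro ⟨x, hx | hx, h⟩
    · exact Or.inl ⟨x, hx, h⟩
    · exact Or.inr ⟨x, hx, h⟩
  · rintro (⟨x, hx, h⟩ | ⟨x, hx, h⟩)
    · exact ⟨x, Or.inl hx, h⟩
    · exact ⟨x, Or.inr hx, h⟩

theorem Good.mono {V : Set (ι → ℕ)} {B B' : Set L} {xs : List (L × (ι → ℕ) × Set L)}
    (h : Good S V B xs) (hB : B ⊆ B') : Good S V B' xs := by
  induction xs generalizing B B' with
  | nil => trivial
  | cons x xs ih =>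
    obtain ⟨h1, h2, h3, h4⟩ := h
    exact ⟨hB h1, h2, h3, ih h4 (Set.union_subset_union_left _ hB)⟩

theorem Good.append {V : Set (ι → ℕ)} {B : Set L} {xs ys : List (L × (ι → ℕ) × Set L)}
    (h : Good S V B xs) (h' : Good S V (B ∪ labs xs) ys) : Good S V B (xs ++ ys) := by
  induction xs generalizing B with
  | nil => exact h'.mono (by simp [labs])
  | cons x xs ih =>
    obtain ⟨h1, h2, h3, h4⟩ := h
    refine ⟨h1, h2, h3, ih h4 ?_⟩
    rw [labs_cons, ← Set.union_assoc] at h'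
    exact h'

/-- total weight of a list of loops -/
def wts (xs : List (L × (ι → ℕ) × Set L)) : ι → ℕ := (xs.map fun x => x.2.1).sum

theorem wts_append (xs ys : List (L × (ι → ℕ) × Set L)) : wts (xs ++ ys) = wts xs + wts ys := by
  simp [wts]

theorem wts_cons (x : L × (ι → ℕ) × Set L) (xs : List (L × (ι → ℕ) × Set L)) :
    wts (x :: xs) = x.2.1 + wts xs := by
  simp [wts]

theorem Der.reduce {F : Set L} {W : Set (ι → ℕ)} (hF : FinData S F W) {l : L} {w : ι → ℕ}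
    {B : Set L} (h : Der S l w B) :
    ∃ (c : ι → ℕ) (B₀ : Set L) (xs : List (L × (ι → ℕ) × Set L)), NR S l c B₀ ∧
      Good S (Bd W (2 * 2 ^ F.ncard + 1)) B₀ xs ∧ B ⊆ B₀ ∪ labs xs ∧ w = c + wts xs := by
  have hbd : ∀ {l l' : L} {w : ι → ℕ} {B : Set L} {w₁ : ι → ℕ}, NR S l w B →
      w₁ ∈ Bd W (2 ^ B.ncard) → w₁ ∈ Bd W (2 ^ F.ncard) := by
    intro l l' w B w₁ h1 h2
    exact Bd.mono (Nat.pow_le_pow_right (by norm_num)
      (Set.ncard_le_ncard (h1.der.subset hF) hF.finF)) h2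
  induction h with
  | @leaf l w h => exact ⟨w, {l}, [], NR.leaf h, trivial, Set.subset_union_left, by simp [wts]⟩
  | @un l w l' w' B h h' ih =>
    obtain ⟨c, B₀, xs, h1, h2, h3, h4⟩ := ih
    by_cases hl : l ∈ B₀
    · obtain ⟨c₁, c₂, C₁, C₂, h5, h6, h7, h8, h9⟩ := h1.split hF hl
      refine ⟨c₂, C₂, (l, w + c₁, insert l C₁) :: xs, h6, ⟨h6.der.root_mem, CtxB.un h h5, ?_, ?_⟩,
        ?_, ?_⟩
      · refine Bd.mono ?_ (Bd.add (Bd.of_mem (hF.un _ _ _ h).2) (hbd (l' := l) h1 h9))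
        omega
      · refine h2.mono (h8.trans ?_)
        rw [Set.union_comm]
        exact Set.union_subset_union_right _ (Set.subset_insert _ _)
      · rw [labs_cons]
        refine Set.insert_subset (Or.inl h6.der.root_mem) (h3.trans ?_)
        rw [← Set.union_assoc]
        refine Set.union_subset_union_left _ (h8.trans ?_)
        rw [Set.union_comm]
        exact Set.union_subset_union_right _ (Set.subset_insert _ _)
      · rw [wts_cons, h4, h7]
        show w + (c₁ + c₂ + wts xs) = c₂ + (w + c₁ + wts xs)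
        abel
    · refine ⟨w + c, insert l B₀, xs, NR.un h h1 hl, h2.mono (Set.subset_insert _ _), ?_, ?_⟩
      · rw [Set.insert_union]
        exact Set.insert_subset_insert h3
      · rw [h4, add_assoc]
  | @bin l l₁ l₂ w₁ w₂ B₁ B₂ h h₁ h₂ ih₁ ih₂ =>
    obtain ⟨c, B₀, xs, h1, h2, h3, h4⟩ := ih₁
    obtain ⟨c', B₀', xs', h1', h2', h3', h4'⟩ := ih₂
    by_cases hl : l ∈ B₀
    · obtain ⟨c₁, c₂, C₁, C₂, h5, h6, h7, h8, h9⟩ := h1.split hF hl
      refine ⟨c₂, C₂, (l, c₁ + c', insert l (C₁ ∪ B₀')) :: (xs ++ xs'), h6,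
        ⟨h6.der.root_mem, CtxB.left h h5 h1'.der, ?_, ?_⟩, ?_, ?_⟩
      · refine Bd.mono ?_ (Bd.add (hbd (l' := l) h1 h9) (h1'.bd' hF))
        omega
      · refine Good.append (h2.mono ?_) (h2'.mono ?_)
        · intro x hx
          rcases h8 hx with hx | hx
          · exact Or.inr (Or.inr (Or.inl hx))
          · exact Or.inl hx
        · intro x hx
          exact Or.inl (Or.inr (Or.inr (Or.inr hx)))
      · rw [labs_cons, labs_append]
        rintro x (rfl | hx | hx)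
        · exact Or.inl h6.der.root_mem
        · rcases h3 hx with hx | hx
          · rcases h8 hx with hx | hx
            · exact Or.inr (Or.inl (Or.inr (Or.inl hx)))
            · exact Or.inl hx
          · exact Or.inr (Or.inr (Or.inl hx))
        · rcases h3' hx with hx | hx
          · exact Or.inr (Or.inl (Or.inr (Or.inr hx)))
          · exact Or.inr (Or.inr (Or.inr hx))
      · rw [wts_cons, wts_append, h4, h4', h7]
        show c₁ + c₂ + wts xs + (c' + wts xs') = c₂ + (c₁ + c' + (wts xs + wts xs'))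
        abel
    by_cases hl' : l ∈ B₀'
    · obtain ⟨c₁, c₂, C₁, C₂, h5, h6, h7, h8, h9⟩ := h1'.split hF hl'
      refine ⟨c₂, C₂, (l, c + c₁, insert l (B₀ ∪ C₁)) :: (xs ++ xs'), h6,
        ⟨h6.der.root_mem, CtxB.right h h1.der h5, ?_, ?_⟩, ?_, ?_⟩
      · refine Bd.mono ?_ (Bd.add (h1.bd' hF) (hbd (l' := l) h1' h9))
        omega
      · refine Good.append (h2.mono ?_) (h2'.mono ?_)
        · intro x hx
          exact Or.inr (Or.inr (Or.inl hx))
        · intro x hx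
          rcases h8 hx with hx | hx
          · exact Or.inl (Or.inr (Or.inr (Or.inr hx)))
          · exact Or.inl (Or.inl hx)
      · rw [labs_cons, labs_append]
        rintro x (rfl | hx | hx)
        · exact Or.inl h6.der.root_mem
        · rcases h3 hx with hx | hx
          · exact Or.inr (Or.inl (Or.inr (Or.inl hx)))
          · exact Or.inr (Or.inr (Or.inl hx))
        · rcases h3' hx with hx | hx
          · rcases h8 hx with hx | hx
            · exact Or.inr (Or.inl (Or.inr (Or.inr hx)))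
            · exact Or.inl hx
          · exact Or.inr (Or.inr (Or.inr hx))
      · rw [wts_cons, wts_append, h4, h4', h7]
        show c + wts xs + (c₁ + c₂ + wts xs') = c₂ + (c + c₁ + (wts xs + wts xs'))
        abel
    · refine ⟨c + c', insert l (B₀ ∪ B₀'), xs ++ xs', NR.bin h h1 h1' ?_, Good.append
        (h2.mono ?_) (h2'.mono ?_), ?_, ?_⟩
      · rintro (hx | hx)
        · exact hl hx
        · exact hl' hx
      · intro x hx
        exact Or.inr (Or.inl hx)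
      · intro x hx
        exact Or.inl (Or.inr (Or.inr hx))
      · rw [labs_append]
        rintro x (rfl | hx | hx)
        · exact Or.inl (Or.inl rfl)
        · rcases h3 hx with hx | hx
          · exact Or.inl (Or.inr (Or.inl hx))
          · exact Or.inr (Or.inl hx)
        · rcases h3' hx with hx | hx
          · exact Or.inl (Or.inr (Or.inr hx))
          · exact Or.inr (Or.inr hx)
      · rw [wts_append, h4, h4']
        abel

/-! ### Insertion with arbitrary multiplicities -/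

theorem Der.insert_loops {l l' : L} {w w' : ι → ℕ} {B B' : Set L} (h : Der S l w B) (hl : l' ∈ B)
    (h' : CtxB S l' l' w' B') (n : ℕ) :
    ∃ B'', B ⊆ B'' ∧ (1 ≤ n → B' ⊆ B'') ∧ Der S l (w + n • w') B'' := by
  induction n with
  | zero => exact ⟨B, subset_rfl, by simp, by simpa using h⟩
  | succ n ih =>
    obtain ⟨B₁, h1, -, h2⟩ := ih
    obtain ⟨B₂, h3, h4⟩ := h2.insert_loop (h1 hl) h'
    refine ⟨B₂, h1.trans (Set.subset_union_left.trans h3), fun _ => Set.subset_union_right.trans h3,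
      ?_⟩
    have h5 : w + (n + 1) • w' = w + n • w' + w' := by rw [succ_nsmul, add_assoc]
    rw [h5]
    exact h4

open Classical in
theorem Good.realize {V : Set (ι → ℕ)} {l : L} (xs : List (L × (ι → ℕ) × Set L)) :
    ∀ (B₀ : Set L), Good S V B₀ xs → ∀ (dn : Finset (L × (ι → ℕ) × Set L)) (w : ι → ℕ) (B : Set L),
      Der S l w B → B₀ ⊆ B → (∀ x ∈ dn, x.2.2 ⊆ B) → ∀ n : L × (ι → ℕ) × Set L → ℕ,
      (∀ x ∈ xs, 1 ≤ n x) → ∃ B', B ⊆ B' ∧ (∀ x ∈ xs, x.1 ∈ B') ∧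
        Der S l (w + ∑ x ∈ xs.toFinset \ dn, n x • x.2.1) B' := by
  induction xs with
  | nil =>
    intro B₀ _ dn w B h _ _ n _
    exact ⟨B, subset_rfl, by simp, by simpa using h⟩
  | cons x xs ih =>
    intro B₀ hG dn w B h hB hdn n hn
    obtain ⟨h1, h2, h3, h4⟩ := hG
    by_cases hx : x ∈ dn
    · obtain ⟨B', h5, h6, h7⟩ := ih (B₀ ∪ x.2.2) h4 dn w B h
        (Set.union_subset hB (hdn x hx)) hdn n fun y hy => hn y (List.mem_cons_of_mem _ hy)
      refine ⟨B', h5, ?_, ?_⟩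
      · intro y hy
        rcases List.mem_cons.1 hy with rfl | hy
        · exact h5 (hB h1)
        · exact h6 y hy
      · rw [List.toFinset_cons, Finset.insert_sdiff_of_mem _ hx]
        exact h7
    · obtain ⟨B₁, h5, h6, h7⟩ := h.insert_loops (hB h1) h2 (n x)
      have hn1 := hn x List.mem_cons_self
      obtain ⟨B', h8, h9, h10⟩ := ih (B₀ ∪ x.2.2) h4 (insert x dn) (w + n x • x.2.1) B₁ h7
        (Set.union_subset (hB.trans h5) (h6 hn1))
        (by
          intro y hy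
          rcases Finset.mem_insert.1 hy with rfl | hy
          · exact h6 hn1
          · exact (hdn y hy).trans h5)
        n fun y hy => hn y (List.mem_cons_of_mem _ hy)
      refine ⟨B', h5.trans h8, ?_, ?_⟩
      · intro y hy
        rcases List.mem_cons.1 hy with rfl | hy
        · exact h8 (h5 (hB h1))
        · exact h9 y hy
      · have h11 : (x :: xs).toFinset \ dn = insert x (xs.toFinset \ insert x dn) := by
          ext y
          simp only [List.toFinset_cons, Finset.mem_sdiff, Finset.mem_insert]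
          by_cases hy : y = x
          · subst hy
            simp [hx]
          · simp [hy]
        have h12 : x ∉ xs.toFinset \ insert x dn := by simp
        rw [h11, Finset.sum_insert h12, ← add_assoc]
        exact h10

theorem Good.mem {F : Set L} {W V : Set (ι → ℕ)} (hF : FinData S F W)
    {xs : List (L × (ι → ℕ) × Set L)} {B : Set L} (h : Good S V B xs) (hB : B ⊆ F) :
    ∀ x ∈ xs, x.1 ∈ F ∧ x.2.1 ∈ V ∧ x.2.2 ⊆ F ∧ CtxB S x.1 x.1 x.2.1 x.2.2 := by
  induction xs generalizing B with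
  | nil => simp
  | cons x xs ih =>
    obtain ⟨h1, h2, h3, h4⟩ := h
    intro y hy
    rcases List.mem_cons.1 hy with rfl | hy
    · exact ⟨hB h1, h3, h2.subset hF, h2⟩
    · exact ih h4 (Set.union_subset hB (h2.subset hF)) y hy

/-! ### The finite form -/

theorem exists_cnt {α M : Type} [AddCommMonoid M] (l : List α) (f : α → M) :
    ∃ cnt : α → ℕ, (∀ x, cnt x ≠ 0 ↔ x ∈ l) ∧
      ∀ T : Finset α, (∀ x ∈ l, x ∈ T) → (l.map f).sum = ∑ x ∈ T, cnt x • f x := by
  classical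
  refine ⟨fun x => l.count x, fun x => by rw [ne_eq, List.count_eq_zero, not_not], ?_⟩
  intro T hT
  rw [Finset.sum_list_map_count]
  apply Finset.sum_subset
  · intro x hx
    exact hT x (List.mem_toFinset.1 hx)
  · intro x _ hx
    have : l.count x = 0 := List.count_eq_zero.2 fun hx' => hx (List.mem_toFinset.2 hx')
    rw [this, zero_smul]

theorem parikh (S : Sys L ι) (hS : S.Fin) :
    ∃ (T : Finset (L × (ι → ℕ) × Set L)) (V : Set (ι → ℕ)), V.Finite ∧ ∀ l e B, Der S l e B →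
      ∃ c ∈ V, ∃ n : L × (ι → ℕ) × Set L → ℕ, (∀ x, n x ≠ 0 → x ∈ T ∧ Ctx S x.1 x.1 x.2.1) ∧
        e = c + ∑ x ∈ T, n x • x.2.1 ∧
        ∀ n' : L × (ι → ℕ) × Set L → ℕ, (∀ x ∈ T, n x ≠ 0 ↔ n' x ≠ 0) →
          ∃ B', Der S l (c + ∑ x ∈ T, n' x • x.2.1) B' ∧ ∀ x, n x ≠ 0 → x.1 ∈ B' := by
  classical
  obtain ⟨⟨F, hF1, hF2, hF3, hF4⟩, ⟨W, hW1, hW2, hW3⟩⟩ := hS
  have hF : FinData S F W :=
    ⟨hF1, hW1, fun l w h => ⟨hF2 l w h, hW2 l w h⟩, fun l w l' h => ⟨hF3 l w l' h, hW3 l w l' h⟩,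
      hF4⟩
  have hfin : (F ×ˢ (Bd W (2 * 2 ^ F.ncard + 1) ×ˢ F.powerset)).Finite :=
    hF1.prod ((Bd.finite hW1 _).prod hF1.finite_subsets)
  refine ⟨hfin.toFinset, Bd W (2 ^ F.ncard), Bd.finite hW1 _, ?_⟩
  intro l e B h
  obtain ⟨c, B₀, xs, h1, h2, h3, h4⟩ := h.reduce hF
  have hmem := h2.mem hF (h1.der.subset hF)
  have hT : ∀ x ∈ xs, x ∈ hfin.toFinset := by
    intro x hx
    obtain ⟨h5, h6, h7, h8⟩ := hmem x hx
    rw [Set.Finite.mem_toFinset]
    exact ⟨h5, h6, h7⟩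
  obtain ⟨cnt, hcount, hsum⟩ := exists_cnt xs fun x => x.2.1
  refine ⟨c, h1.bd' hF, cnt, ?_, ?_, ?_⟩
  · intro x hx
    have hx' := (hcount x).1 hx
    exact ⟨hT x hx', (hmem x hx').2.2.2.ctx⟩
  · rw [h4]
    congr 1
    exact hsum _ hT
  · intro n' hn'
    have hn1 : ∀ x ∈ xs, 1 ≤ n' x := by
      intro x hx
      exact Nat.one_le_iff_ne_zero.2 ((hn' x (hT x hx)).1 ((hcount x).2 hx))
    obtain ⟨B', h5, h6, h7⟩ := Good.realize xs B₀ h2 ∅ c B₀ h1.der subset_rfl (by simp) n' hn1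
    refine ⟨B', ?_, fun x hx => h6 x ((hcount x).1 hx)⟩
    have h8 : ∑ x ∈ xs.toFinset \ ∅, n' x • x.2.1 = ∑ x ∈ hfin.toFinset, n' x • x.2.1 := by
      rw [Finset.sdiff_empty]
      apply Finset.sum_subset
      · intro x hx
        exact hT x (List.mem_toFinset.1 hx)
      · intro x hxT hx
        have h9 : ¬ cnt x ≠ 0 := fun h10 => hx (List.mem_toFinset.2 ((hcount x).1 h10))
        have h10 : n' x = 0 := by
          by_contra h11
          exact h9 ((hn' x hxT).2 h11)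
        rw [h10, zero_smul]
    rw [← h8]
    exact h7

/-! ### The limit form -/

theorem parikh_limit {L ι : Type} (S : Sys L ι) (hS : S.Fin) (U : Ultrafilter ℕ) (D : ℕ → ℕ)
    (hD : ∀ C : ℕ, ∀ᶠ N in (U : Filter ℕ), C < D N) (l₀ : L) (e : ℕ → ι → ℕ)
    (h : ∀ᶠ N in (U : Filter ℕ), ∃ B, Der S l₀ (e N) B) :
    ∃ (T : Type) (_ : Fintype T) (lab : T → L) (w : T → ι → ℕ) (n : T → ℕ → ℕ) (r : ℕ → ι → ℕ),
      (∀ t, Ctx S (lab t) (lab t) (w t)) ∧
      (∀ᶠ N in (U : Filter ℕ), e N = r N + ∑ t, n t N • w t) ∧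
      (∀ i, ∃ C : ℕ, ∀ᶠ N in (U : Filter ℕ), r N i ≤ C * D N) ∧
      (∀ t, ∀ C : ℕ, ∀ᶠ N in (U : Filter ℕ), C * D N < n t N) ∧
      (∀ᶠ N in (U : Filter ℕ), ∀ n' : T → ℕ, (∀ t, 1 ≤ n' t) →
        ∃ B, Der S l₀ (r N + ∑ t, n' t • w t) B ∧ ∀ t, lab t ∈ B) := by
  classical
  obtain ⟨T, V, hV, hP⟩ := parikh S hS
  -- choose the data for all `N`
  have h1 : ∀ N, ∃ (c : ι → ℕ) (n : L × (ι → ℕ) × Set L → ℕ), (∃ B, Der S l₀ (e N) B) →
      c ∈ V ∧ (∀ x, n x ≠ 0 → x ∈ T ∧ Ctx S x.1 x.1 x.2.1) ∧ e N = c + ∑ x ∈ T, n x • x.2.1 ∧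
        ∀ n' : L × (ι → ℕ) × Set L → ℕ, (∀ x ∈ T, n x ≠ 0 ↔ n' x ≠ 0) →
          ∃ B', Der S l₀ (c + ∑ x ∈ T, n' x • x.2.1) B' ∧ ∀ x, n x ≠ 0 → x.1 ∈ B' := by
    intro N
    by_cases hN : ∃ B, Der S l₀ (e N) B
    · obtain ⟨B, hB⟩ := hN
      obtain ⟨c, hc, n, h2, h3, h4⟩ := hP l₀ (e N) B hB
      exact ⟨c, n, fun _ => ⟨hc, h2, h3, h4⟩⟩
    · exact ⟨0, 0, fun h2 => absurd h2 hN⟩
  choose c n h2 using h1
  -- the base is constant
  obtain ⟨c₀, hc₀, h3⟩ : ∃ c₀ ∈ V, ∀ᶠ N in (U : Filter ℕ), c N = c₀ := by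
    rw [← Ultrafilter.eventually_exists_mem_iff hV]
    filter_upwards [h] with N hN
    exact ⟨c N, (h2 N hN).1, rfl⟩
  let Hv : L × (ι → ℕ) × Set L → Prop := fun x => ∀ C : ℕ, ∀ᶠ N in (U : Filter ℕ), C * D N < n N x
  let TT : Finset (L × (ι → ℕ) × Set L) := T.filter Hv
  refine ⟨{x // x ∈ TT}, inferInstance, fun t => t.1.1, fun t => t.1.2.1, fun t N => n N t.1,
    fun N => c₀ + ∑ x ∈ T.filter (fun x => ¬ Hv x), n N x • x.2.1, ?_, ?_, ?_, ?_, ?_⟩
  · intro t
    have h4 : Hv t.1 := (Finset.mem_filter.1 t.2).2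
    obtain ⟨N, hN1, hN2⟩ := ((h4 0).and h).exists
    rw [zero_mul] at hN1
    exact ((h2 N hN2).2.1 t.1 hN1.ne').2
  · filter_upwards [h, h3] with N hN1 hN2
    rw [(h2 N hN1).2.2.1, hN2, add_assoc]
    congr 1
    rw [Finset.sum_coe_sort TT (fun x => n N x • x.2.1), add_comm]
    exact (Finset.sum_filter_add_sum_filter_not T Hv _).symm
  · intro i
    have h4 : ∀ x ∈ T.filter (fun x => ¬ Hv x), ∃ C : ℕ, ∀ᶠ N in (U : Filter ℕ),
        (n N x • x.2.1) i ≤ C * D N := by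
      intro x hx
      have h5 : ¬ Hv x := (Finset.mem_filter.1 hx).2
      obtain ⟨C, h6⟩ := not_forall.1 h5
      rw [← Ultrafilter.eventually_not] at h6
      refine ⟨C * x.2.1 i, ?_⟩
      filter_upwards [h6] with N hN
      rw [not_lt] at hN
      calc (n N x • x.2.1) i = n N x * x.2.1 i := by simp
        _ ≤ C * D N * x.2.1 i := Nat.mul_le_mul_right _ hN
        _ = C * x.2.1 i * D N := by ring
    have h5 : ∀ Z : Finset (L × (ι → ℕ) × Set L), (∀ x ∈ Z, ∃ C : ℕ, ∀ᶠ N in (U : Filter ℕ),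
        (n N x • x.2.1) i ≤ C * D N) →
        ∃ C : ℕ, ∀ᶠ N in (U : Filter ℕ), (∑ x ∈ Z, n N x • x.2.1) i ≤ C * D N := by
      intro Z
      induction Z using Finset.induction_on with
      | empty =>
        intro _
        exact ⟨0, by simp⟩
      | insert x Z hx ih =>
        intro hZ
        obtain ⟨C₁, h6⟩ := hZ x (Finset.mem_insert_self _ _)
        obtain ⟨C₂, h7⟩ := ih fun y hy => hZ y (Finset.mem_insert_of_mem hy)
        refine ⟨C₁ + C₂, ?_⟩
        filter_upwards [h6, h7] with N hN1 hN2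
        rw [Finset.sum_insert hx, Pi.add_apply, add_mul]
        exact Nat.add_le_add hN1 hN2
    obtain ⟨C, h6⟩ := h5 _ h4
    refine ⟨c₀ i + C, ?_⟩
    filter_upwards [h6, hD 0] with N hN1 hN2
    rw [Pi.add_apply, add_mul]
    exact Nat.add_le_add (Nat.le_mul_of_pos_right _ hN2) hN1
  · intro t
    exact (Finset.mem_filter.1 t.2).2
  · have h4 : ∀ᶠ N in (U : Filter ℕ), ∀ x ∈ TT, n N x ≠ 0 := by
      rw [Filter.eventually_all_finset]
      intro x hx
      filter_upwards [(Finset.mem_filter.1 hx).2 0] with N hN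
      rw [zero_mul] at hN
      exact hN.ne'
    filter_upwards [h, h3, h4] with N hN1 hN2 hN3 n' hn'
    let n'' : L × (ι → ℕ) × Set L → ℕ := fun x => if hx : x ∈ TT then n' ⟨x, hx⟩ else n N x
    obtain ⟨B', h5, h6⟩ := (h2 N hN1).2.2.2 n'' (by
      intro x hxT
      by_cases hx : x ∈ TT
      · have h7 := hN3 x hx
        have h8 := hn' ⟨x, hx⟩
        simp only [n'', dif_pos hx]
        constructor
        · intro _
          omega
        · intro _
          exact h7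
      · simp only [n'', dif_neg hx])
    refine ⟨B', ?_, fun t => h6 t.1 (hN3 t.1 t.2)⟩
    have h7 : c N + ∑ x ∈ T, n'' x • x.2.1 =
        c₀ + ∑ x ∈ T.filter (fun x => ¬ Hv x), n N x • x.2.1 + ∑ t : {x // x ∈ TT}, n' t • t.1.2.1 := by
      rw [hN2, add_assoc]
      congr 1
      rw [← Finset.sum_filter_add_sum_filter_not T Hv, add_comm]
      congr 1
      · apply Finset.sum_congr rfl
        intro x hx
        have h8 : x ∉ TT := fun h9 => (Finset.mem_filter.1 hx).2 (Finset.mem_filter.1 h9).2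
        simp only [n'', dif_neg h8]
      · rw [← Finset.sum_coe_sort]
        apply Finset.sum_congr rfl
        intro t _
        have h8 : t.1 ∈ TT := t.2
        have h9 : n'' t.1 = n' t := by
          show (if hx : t.1 ∈ TT then n' ⟨t.1, hx⟩ else n N t.1) = n' t
          rw [dif_pos h8]
        rw [h9]
    rw [← h7]
    exact h5

end Pool.Agent.Lib.CoCF
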