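import Pool.Agent.Lib.CoCF.Iface
import Pool.Agent.Lib.CoCF.Parikh

/-!
# Chunk D, part 1: annotated tree systems of grammars (`fl_words`)
-/

set_option autoImplicit false

namespace Pool.Agent.Lib.CoCF

/-! ### words with exponents -/

section wd

variable {A : Type}

theorem wd_succ (π : ℕ → A) (m : ℕ) (e : ℕ → ℕ) :
    wd π (m + 1) e = wd π m e ++ List.replicate (e m) (π m) := by
  unfold wd
  rw [List.range_succ, List.flatMap_append]
  simp

theorem wd_eq_nil (π : ℕ → A) (m : ℕ) (e : ℕ → ℕ) (h : ∀ p, p < m → e p = 0) :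
    wd π m e = [] := by
  induction m with
  | zero => rfl
  | succ m ih =>
    rw [wd_succ, ih (fun p hp => h p (Nat.lt_succ_of_lt hp)), h m (Nat.lt_succ_self m)]
    rfl

theorem wd_congr (π : ℕ → A) (m : ℕ) (e e' : ℕ → ℕ) (h : ∀ p, p < m → e p = e' p) :
    wd π m e = wd π m e' := by
  induction m with
  | zero => rfl
  | succ m ih =>
    rw [wd_succ, wd_succ, ih (fun p hp => h p (Nat.lt_succ_of_lt hp)), h m (Nat.lt_succ_self m)]

theorem wd_add (π : ℕ → A) (m : ℕ) (u v : ℕ → ℕ) (h : ∀ p q, u p ≠ 0 → v q ≠ 0 → p ≤ q) :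
    wd π m (u + v) = wd π m u ++ wd π m v := by
  induction m with
  | zero => rfl
  | succ m ih =>
    rw [wd_succ, wd_succ, wd_succ, ih]
    by_cases hu : u m = 0
    · simp [Pi.add_apply, hu]
    · have hv : wd π m v = [] := by
        refine wd_eq_nil _ _ _ fun p hp => ?_
        by_contra hne
        exact absurd (h m p hu hne) (not_le.mpr hp)
      rw [hv, Pi.add_apply, List.replicate_add]
      simp

theorem wd_single (π : ℕ → A) (m p n : ℕ) (hp : p < m) :
    wd π m (Pi.single p n) = List.replicate n (π p) := by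
  induction m with
  | zero => exact absurd hp (Nat.not_lt_zero _)
  | succ m ih =>
    rw [wd_succ]
    rcases Nat.lt_succ_iff_lt_or_eq.mp hp with h | h
    · rw [ih h, Pi.single_eq_of_ne (Nat.ne_of_gt h)]
      simp
    · subst h
      rw [wd_eq_nil _ _ _ (fun q hq => Pi.single_eq_of_ne (Nat.ne_of_lt hq) _), Pi.single_eq_same]
      simp

theorem wd_map (π : ℕ → A) (m : ℕ) (e : ℕ → ℕ) : (wd id m e).map π = wd π m e := by
  unfold wd
  rw [List.map_flatMap]
  simp

theorem mem_wd_id {m : ℕ} {e : ℕ → ℕ} {p : ℕ} (h : p ∈ wd id m e) : p < m ∧ e p ≠ 0 := by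
  unfold wd at h
  rw [List.mem_flatMap] at h
  obtain ⟨q, hq, hp⟩ := h
  rw [List.mem_replicate] at hp
  simp only [id] at hp
  obtain ⟨h1, rfl⟩ := hp
  exact ⟨List.mem_range.mp hq, h1⟩

theorem wd_id_sorted (m : ℕ) (e : ℕ → ℕ) : (wd id m e).Pairwise (· ≤ ·) := by
  induction m with
  | zero => exact List.Pairwise.nil
  | succ m ih =>
    rw [wd_succ, List.pairwise_append]
    refine ⟨ih, ?_, ?_⟩
    · rw [List.pairwise_replicate]
      right; exact le_refl _
    · intro a ha b hb
      rw [List.mem_replicate] at hb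
      rw [hb.2]
      exact (mem_wd_id ha).1.le

theorem count_wd_id (m : ℕ) (e : ℕ → ℕ) (p : ℕ) :
    (wd id m e).count p = if p < m then e p else 0 := by
  induction m with
  | zero => simp [wd]
  | succ m ih =>
    rw [wd_succ, List.count_append, ih, List.count_replicate]
    by_cases h : p < m
    · rw [if_pos h, if_pos (Nat.lt_succ_of_lt h), if_neg]
      · simp
      · simp only [id, beq_iff_eq]
        omega
    · rw [if_neg h]
      by_cases h' : m = p
      · subst h'
        simp
      · rw [if_neg, if_neg (by omega)]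
        simp only [id, beq_iff_eq]
        exact h'

end wd

/-! ### first and last elements -/

theorem headD_append (l₁ l₂ : List ℕ) (a : ℕ) :
    (l₁ ++ l₂).headD a = l₁.headD (l₂.headD a) := by
  cases l₁ <;> simp

theorem getLastD_append (l₁ l₂ : List ℕ) (a : ℕ) :
    (l₁ ++ l₂).getLastD a = l₂.getLastD (l₁.getLastD a) := by
  induction l₁ generalizing a with
  | nil => simp
  | cons b l ih => rw [List.cons_append, List.getLastD_cons, List.getLastD_cons, ih]

theorem headD_mem (l : List ℕ) (a : ℕ) : l.headD a = a ∨ l.headD a ∈ l := by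
  cases l <;> simp

theorem getLastD_mem (l : List ℕ) (a : ℕ) : (l = [] ∧ l.getLastD a = a) ∨ l.getLastD a ∈ l := by
  induction l generalizing a with
  | nil => simp
  | cons b l ih =>
    right
    rw [List.getLastD_cons]
    rcases ih b with ⟨h, h'⟩ | h
    · rw [h']; simp
    · exact List.mem_cons_of_mem _ h

theorem headD_le_getLastD (l : List ℕ) (a : ℕ) (h : l.Pairwise (· ≤ ·)) :
    l.headD a ≤ l.getLastD a := by
  cases l with
  | nil => simp
  | cons b l =>
    rw [List.getLastD_cons]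
    rcases getLastD_mem l b with ⟨_, h'⟩ | h'
    · rw [h']; simp
    · exact (List.pairwise_cons.mp h).1 _ h'

theorem headD_lt {l : List ℕ} {a m : ℕ} (h : ∀ p ∈ l, p < m) (ha : a < m) : l.headD a < m := by
  rcases headD_mem l a with h' | h'
  · rw [h']; exact ha
  · exact h _ h'

theorem getLastD_lt {l : List ℕ} {a m : ℕ} (h : ∀ p ∈ l, p < m) (ha : a < m) :
    l.getLastD a < m := by
  rcases getLastD_mem l a with ⟨_, h'⟩ | h'
  · rw [h']; exact ha
  · exact h _ h'

theorem mid_le (l₁ l₂ : List ℕ) (a : ℕ) (h : (l₁ ++ l₂).Pairwise (· ≤ ·)) :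
    l₁.getLastD (l₂.headD a) ≤ l₂.headD (l₁.getLastD a) := by
  rw [List.pairwise_append] at h
  rcases getLastD_mem l₁ (l₂.headD a) with ⟨h1, h2⟩ | h1
  · subst h1; simp
  · cases l₂ with
    | nil => simp
    | cons b l =>
      simp only [List.headD_cons] at h1 ⊢
      exact h.2.2 _ h1 _ (by simp)

/-! ### the annotated system: completeness -/

section asys

variable {A X : Type}

theorem asys_complete (G : Gram A X) (π : ℕ → A) (m : ℕ) {x : X} {w : List A} (h : G.D x w) :
    ∀ (ps : List ℕ), ps.Pairwise (· ≤ ·) → (∀ p ∈ ps, p < m) → ps.map π = w → ∀ p₀, p₀ < m →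
      ∃ B, Der (G.asys π m) (ps.headD p₀, x, ps.getLastD p₀) (fun p => ps.count p) B := by
  induction h with
  | leaf h =>
    intro ps _ _ hw p₀ hp₀
    have : ps = [] := by simpa using hw
    subst this
    refine ⟨_, Der.leaf ⟨h, ?_, ?_, ?_⟩⟩
    · simp
    · simpa using hp₀
    · funext p; simp
  | @un x y o w h h' ih =>
    intro ps hs hm hw p₀ hp₀
    cases o with
    | none =>
      simp only [Option.toList_none, List.nil_append] at hw
      obtain ⟨B, hB⟩ := ih ps hs hm hw p₀ hp₀
      refine ⟨insert (ps.headD p₀, x, ps.getLastD p₀) B, ?_⟩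
      have := Der.un (S := G.asys π m) (l := (ps.headD p₀, x, ps.getLastD p₀)) (w := 0) (l' := (ps.headD p₀, y, ps.getLastD p₀))
        ⟨le_refl _, headD_le_getLastD _ _ hs, rfl, getLastD_lt hm hp₀, Or.inl ⟨h, rfl, rfl⟩⟩ hB
      rw [zero_add] at this
      exact this
    | some a =>
      simp only [Option.toList_some, List.singleton_append] at hw
      cases ps with
      | nil => simp at hw
      | cons p ps =>
        rw [List.map_cons, List.cons.injEq] at hw
        have hpm : p < m := hm p (by simp)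
        have hs' := List.pairwise_cons.mp hs
        obtain ⟨B, hB⟩ := ih ps hs'.2 (fun q hq => hm q (List.mem_cons_of_mem _ hq)) hw.2 p hpm
        refine ⟨insert ((p :: ps).headD p₀, x, (p :: ps).getLastD p₀) B, ?_⟩
        have := Der.un (S := G.asys π m) (l := ((p :: ps).headD p₀, x, (p :: ps).getLastD p₀)) (w := Pi.single p 1)
          (l' := (ps.headD p, y, ps.getLastD p))
          ⟨?_, headD_le_getLastD _ _ hs'.2, ?_, ?_, Or.inr ⟨?_, ?_⟩⟩ hB
        · have e : (fun q => (p :: ps).count q) = (Pi.single p 1 : ℕ → ℕ) + fun q => ps.count q := by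
            funext q
            rw [Pi.add_apply, List.count_cons, Pi.single_apply]
            by_cases hq : p = q
            · subst hq; simp; omega
            · rw [if_neg (by simpa using hq), if_neg (fun h => hq h.symm)]; omega
          rw [e]
          exact this
        · rcases headD_mem ps p with h1 | h1
          · rw [h1]; simp
          · simpa using hs'.1 _ h1
        · rw [List.getLastD_cons]
        · rw [List.getLastD_cons]
          exact getLastD_lt (fun q hq => hm q (List.mem_cons_of_mem _ hq)) hpm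
        · simpa [hw.1] using h
        · simp
  | @bin x y z u v h h₁ h₂ ih₁ ih₂ =>
    intro ps hs hm hw p₀ hp₀
    obtain ⟨ps₁, ps₂, rfl, h1, h2⟩ := List.map_eq_append_iff.mp hw
    have hs' := List.pairwise_append.mp hs
    have hm₁ : ∀ p ∈ ps₁, p < m := fun p hp => hm p (List.mem_append_left _ hp)
    have hm₂ : ∀ p ∈ ps₂, p < m := fun p hp => hm p (List.mem_append_right _ hp)
    obtain ⟨B₁, hB₁⟩ := ih₁ ps₁ hs'.1 hm₁ h1 (ps₂.headD p₀) (headD_lt hm₂ hp₀)
    obtain ⟨B₂, hB₂⟩ := ih₂ ps₂ hs'.2.1 hm₂ h2 (ps₁.getLastD p₀) (getLastD_lt hm₁ hp₀)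
    refine ⟨insert ((ps₁ ++ ps₂).headD p₀, x, (ps₁ ++ ps₂).getLastD p₀) (B₁ ∪ B₂), ?_⟩
    have := Der.bin (S := G.asys π m) (l := ((ps₁ ++ ps₂).headD p₀, x, (ps₁ ++ ps₂).getLastD p₀))
      ⟨h, ?_, headD_le_getLastD _ _ hs'.1, mid_le _ _ _ hs, headD_le_getLastD _ _ hs'.2.1, ?_, ?_⟩ hB₁ hB₂
    · have e : (fun q => (ps₁ ++ ps₂).count q) = (fun q => ps₁.count q) + fun q => ps₂.count q := by
        funext q
        rw [Pi.add_apply, List.count_append]
      rw [e]
      exact this
    · exact (headD_append _ _ _).symm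
    · exact (getLastD_append _ _ _).symm
    · exact getLastD_lt hm hp₀

/-! ### soundness -/

theorem asys_sound (G : Gram A X) (π : ℕ → A) (m : ℕ) {l : ℕ × X × ℕ} {w : ℕ → ℕ}
    {B : Set (ℕ × X × ℕ)} (h : Der (G.asys π m) l w B) :
    l.1 ≤ l.2.2 ∧ l.2.2 < m ∧ (∀ p, w p ≠ 0 → l.1 ≤ p ∧ p ≤ l.2.2) ∧ G.D l.2.1 (wd π m w) := by
  induction h with
  | @leaf l w h =>
    obtain ⟨h1, h2, h3, rfl⟩ := h
    refine ⟨h2.le, h2 ▸ h3, fun p hp => absurd rfl hp, ?_⟩
    rw [wd_eq_nil π m 0 (fun _ _ => rfl)]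
    exact Gram.D.leaf h1
  | @un l w l' w' B h h' ih =>
    obtain ⟨i1, i2, i3, i4⟩ := ih
    obtain ⟨h1, h2, h3, h4, h5⟩ := h
    rcases h5 with ⟨h5, h6, rfl⟩ | ⟨h5, rfl⟩
    · refine ⟨by omega, h4, fun p hp => ?_, ?_⟩
      · rw [zero_add] at hp
        have := i3 p hp
        omega
      · rw [zero_add]
        have := Gram.D.un h5 i4
        simpa using this
    · refine ⟨by omega, h4, fun p hp => ?_, ?_⟩
      · rw [Pi.add_apply] at hp
        by_cases hp' : w' p = 0
        · rw [hp', add_zero, Pi.single_apply] at hp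
          have : p = l.1 := by
            by_contra hne
            exact hp (if_neg hne)
          subst this
          omega
        · have := i3 p hp'
          omega
      · rw [wd_add, wd_single _ _ _ _ (by omega)]
        · exact Gram.D.un h5 i4
        · intro p q hp hq
          have hq' := i3 q hq
          have : p = l.1 := by
            by_contra hne
            rw [Pi.single_apply, if_neg hne] at hp
            exact hp rfl
          omega
  | @bin l l₁ l₂ w₁ w₂ B₁ B₂ h h₁ h₂ ih₁ ih₂ =>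
    obtain ⟨i1, i2, i3, i4⟩ := ih₁
    obtain ⟨j1, j2, j3, j4⟩ := ih₂
    obtain ⟨h1, h2, h3, h4, h5, h6, h7⟩ := h
    refine ⟨by omega, h7, fun p hp => ?_, ?_⟩
    · rw [Pi.add_apply] at hp
      by_cases hp' : w₁ p = 0
      · have := j3 p (by omega)
        omega
      · have := i3 p hp'
        omega
    · rw [wd_add]
      · exact Gram.D.bin h1 i4 j4
      · intro p q hp hq
        have := i3 p hp
        have := j3 q hq
        omega

/-- labels of a tree are nested and noncrossing -/
theorem asys_nested (G : Gram A X) (π : ℕ → A) (m : ℕ) {l : ℕ × X × ℕ} {w : ℕ → ℕ}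
    {B : Set (ℕ × X × ℕ)} (h : Der (G.asys π m) l w B) :
    (l.1 ≤ l.2.2 ∧ l.2.2 < m) ∧ (∀ l' ∈ B, l.1 ≤ l'.1 ∧ l'.1 ≤ l'.2.2 ∧ l'.2.2 ≤ l.2.2) ∧
      ∀ l₁ ∈ B, ∀ l₂ ∈ B, ¬ (l₁.1 < l₂.1 ∧ l₂.1 < l₁.2.2 ∧ l₁.2.2 < l₂.2.2) := by
  induction h with
  | @leaf l w h =>
    obtain ⟨h1, h2, h3, rfl⟩ := h
    refine ⟨by omega, ?_, ?_⟩
    · rintro l' rfl
      omega
    · rintro l₁ rfl l₂ rfl
      omega
  | @un l w l' w' B h h' ih =>
    obtain ⟨i1, i2, i3⟩ := ih
    obtain ⟨h1, h2, h3, h4, -⟩ := h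
    refine ⟨by omega, ?_, ?_⟩
    · rintro l'' (rfl | hl)
      · omega
      · have := i2 _ hl
        omega
    · rintro l₁ (rfl | hl₁) l₂ (rfl | hl₂)
      · omega
      · have := i2 _ hl₂
        omega
      · have := i2 _ hl₁
        omega
      · exact i3 _ hl₁ _ hl₂
  | @bin l l₁ l₂ w₁ w₂ B₁ B₂ h h₁ h₂ ih₁ ih₂ =>
    obtain ⟨i1, i2, i3⟩ := ih₁
    obtain ⟨j1, j2, j3⟩ := ih₂
    obtain ⟨h1, h2, h3, h4, h5, h6, h7⟩ := h
    refine ⟨by omega, ?_, ?_⟩
    · rintro l'' (rfl | hl | hl)
      · omega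
      · have := i2 _ hl
        omega
      · have := j2 _ hl
        omega
    · rintro a (rfl | ha | ha) b (rfl | hb | hb)
      · omega
      · have := i2 _ hb
        omega
      · have := j2 _ hb
        omega
      · have := i2 _ ha
        omega
      · exact i3 _ ha _ hb
      · have := i2 _ ha
        have := j2 _ hb
        omega
      · have := j2 _ ha
        omega
      · have := i2 _ hb
        have := j2 _ ha
        omega
      · exact j3 _ ha _ hb

/-- contexts -/
theorem asys_ctx (G : Gram A X) (π : ℕ → A) (m : ℕ) {l l' : ℕ × X × ℕ} {w : ℕ → ℕ}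
    (h : Ctx (G.asys π m) l l' w) :
    l.1 ≤ l'.1 ∧ l'.2.2 ≤ l.2.2 ∧ ∃ u v : ℕ → ℕ, w = u + v ∧
      (∀ p, u p ≠ 0 → l.1 ≤ p ∧ p ≤ l'.1) ∧ (∀ p, v p ≠ 0 → l'.2.2 ≤ p ∧ p ≤ l.2.2 ∧ p < m) ∧
      ∀ y, G.D l'.2.1 y → G.D l.2.1 (wd π m u ++ y ++ wd π m v) := by
  induction h with
  | refl l =>
    refine ⟨le_refl _, le_refl _, 0, 0, (zero_add 0).symm, fun p hp => absurd rfl hp, fun p hp => absurd rfl hp, ?_⟩
    intro y hy
    rw [wd_eq_nil π m 0 (fun _ _ => rfl)]
    simpa using hy
  | @un l w l' l'' w' h h' ih =>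
    obtain ⟨i1, i2, u, v, rfl, i3, i4, i5⟩ := ih
    obtain ⟨h1, h2, h3, h4, h5⟩ := h
    rcases h5 with ⟨h5, h6, rfl⟩ | ⟨h5, rfl⟩
    · refine ⟨by omega, by omega, u, v, zero_add _, fun p hp => ?_, fun p hp => ?_, ?_⟩
      · have := i3 p hp
        omega
      · have := i4 p hp
        omega
      · intro y hy
        simpa using Gram.D.un h5 (i5 y hy)
    · refine ⟨by omega, by omega, Pi.single l.1 1 + u, v, (add_assoc _ _ _).symm, fun p hp => ?_,
        fun p hp => ?_, ?_⟩
      · rw [Pi.add_apply] at hp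
        by_cases hp' : u p = 0
        · rw [hp', add_zero, Pi.single_apply] at hp
          have : p = l.1 := by
            by_contra hne
            exact hp (if_neg hne)
          subst this
          omega
        · have := i3 p hp'
          omega
      · have := i4 p hp
        omega
      · intro y hy
        rw [wd_add, wd_single _ _ _ _ (by omega)]
        · simpa using Gram.D.un h5 (i5 y hy)
        · intro p q hp hq
          have hq' := i3 q hq
          have : p = l.1 := by
            by_contra hne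
            rw [Pi.single_apply, if_neg hne] at hp
            exact hp rfl
          omega
  | @left l l₁ l₂ l'' w₁ w₂ B h h₁ h₂ ih =>
    obtain ⟨i1, i2, u, v, rfl, i3, i4, i5⟩ := ih
    obtain ⟨j1, j2, j3, j4⟩ := asys_sound G π m h₂
    obtain ⟨h1, h2, h3, h4, h5, h6, h7⟩ := h
    refine ⟨by omega, by omega, u, v + w₂, add_assoc _ _ _, fun p hp => ?_, fun p hp => ?_, ?_⟩
    · have := i3 p hp
      omega
    · rw [Pi.add_apply] at hp
      by_cases hp' : v p = 0
      · have := j3 p (by omega)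
        omega
      · have := i4 p hp'
        omega
    · intro y hy
      rw [wd_add]
      · simpa using Gram.D.bin h1 (i5 y hy) j4
      · intro p q hp hq
        have := i4 p hp
        have := j3 q hq
        omega
  | @right l l₁ l₂ l'' w₁ w₂ B h h₁ h₂ ih =>
    obtain ⟨i1, i2, u, v, rfl, i3, i4, i5⟩ := ih
    obtain ⟨j1, j2, j3, j4⟩ := asys_sound G π m h₁
    obtain ⟨h1, h2, h3, h4, h5, h6, h7⟩ := h
    refine ⟨by omega, by omega, w₁ + u, v, (add_assoc _ _ _).symm, fun p hp => ?_, fun p hp => ?_, ?_⟩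
    · rw [Pi.add_apply] at hp
      by_cases hp' : u p = 0
      · have := j3 p (by omega)
        omega
      · have := i3 p hp'
        omega
    · have := i4 p hp
      omega
    · intro y hy
      rw [wd_add]
      · simpa using Gram.D.bin h1 j4 (i5 y hy)
      · intro p q hp hq
        have := i3 q hq
        have := j3 p hp
        omega

theorem asys_fin (G : Gram A X) (hG : G.Fin) (π : ℕ → A) (m : ℕ) : (G.asys π m).Fin := by
  obtain ⟨F, hF, h1, h2, h3⟩ := hG
  refine ⟨⟨Set.Iio m ×ˢ F ×ˢ Set.Iio m, ?_, ?_, ?_, ?_⟩,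
    ⟨insert 0 ((fun p => Pi.single p 1) '' Set.Iio m), ?_, ?_, ?_⟩⟩
  · exact (Set.finite_Iio m).prod (hF.prod (Set.finite_Iio m))
  · rintro ⟨a, x, b⟩ w ⟨h, h', h'', -⟩
    simp only at h h' h''
    subst h'
    exact ⟨h'', h1 _ h, h''⟩
  · rintro ⟨a, x, b⟩ w ⟨a', x', b'⟩ ⟨h, h', h'', h3', h4⟩
    simp only at h h' h'' h3' h4
    refine ⟨?_, ?_, h3'⟩
    · simp only [Set.mem_Iio]; omega
    · rcases h4 with h4 | h4
      · exact h2 _ _ _ h4.1
      · exact h2 _ _ _ h4.1
  · rintro ⟨a, x, b⟩ ⟨a', x', b'⟩ ⟨a'', x'', b''⟩ ⟨h, h', h'', h3', h4, h5, h6⟩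
    simp only at h h' h'' h3' h4 h5 h6
    refine ⟨?_, h3 _ _ _ h, h6⟩
    simp only [Set.mem_Iio]; omega
  · exact ((Set.finite_Iio m).image _).insert _
  · rintro l w ⟨-, -, -, rfl⟩
    exact Set.mem_insert _ _
  · rintro l w l' ⟨h, h', h'', h3', h4⟩
    rcases h4 with ⟨-, -, rfl⟩ | ⟨-, rfl⟩
    · exact Set.mem_insert _ _
    · refine Set.mem_insert_of_mem _ ⟨l.1, ?_, rfl⟩
      simp only [Set.mem_Iio]; omega

/-- a single root label works for all `N` -/
theorem asys_root (G : Gram A X) (π : ℕ → A) (m : ℕ) (hm : 0 < m) (U : Ultrafilter ℕ) (x : X)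
    (e : ℕ → ℕ → ℕ) (he : ∀ᶠ N in (U : Filter ℕ), ∀ p, m ≤ p → e N p = 0)
    (h : ∀ᶠ N in (U : Filter ℕ), G.D x (wd π m (e N))) :
    ∃ l₀ : ℕ × X × ℕ, l₀.2.1 = x ∧ ∀ᶠ N in (U : Filter ℕ), ∃ B, Der (G.asys π m) l₀ (e N) B := by
  have key : ∀ᶠ N in (U : Filter ℕ), ∃ q ∈ (Set.Iio m ×ˢ Set.Iio m : Set (ℕ × ℕ)),
      ∃ B, Der (G.asys π m) (q.1, x, q.2) (e N) B := by
    filter_upwards [he, h] with N h1 h2
    obtain ⟨B, hB⟩ := asys_complete G π m h2 (wd id m (e N)) (wd_id_sorted _ _)
      (fun p hp => (mem_wd_id hp).1) (wd_map _ _ _) 0 hm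
    refine ⟨((wd id m (e N)).headD 0, (wd id m (e N)).getLastD 0), ⟨headD_lt (fun p hp => (mem_wd_id hp).1) hm,
      getLastD_lt (fun p hp => (mem_wd_id hp).1) hm⟩, B, ?_⟩
    have e1 : (fun p => (wd id m (e N)).count p) = e N := by
      funext p
      rw [count_wd_id]
      by_cases hp : p < m
      · rw [if_pos hp]
      · rw [if_neg hp, h1 p (not_lt.mp hp)]
    rw [e1] at hB
    exact hB
  rw [Ultrafilter.eventually_exists_mem_iff ((Set.finite_Iio m).prod (Set.finite_Iio m))] at key
  obtain ⟨q, -, hq⟩ := key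
  exact ⟨(q.1, x, q.2), rfl, hq⟩

theorem fl_words (G : Gram A X) (hG : G.Fin) (π : ℕ → A) (m : ℕ)
    (U : Ultrafilter ℕ) (D : ℕ → ℕ) (hD : ∀ C : ℕ, ∀ᶠ N in (U : Filter ℕ), C < D N) (x : X)
    (e : ℕ → ℕ → ℕ) (he : ∀ᶠ N in (U : Filter ℕ), ∀ p, m ≤ p → e N p = 0)
    (h : ∀ᶠ N in (U : Filter ℕ), G.D x (wd π m (e N))) :
    ∃ H : HD U D e, (∀ t p, H.w t p ≠ 0 → p < m) ∧
      (∀ᶠ N in (U : Filter ℕ), ∀ n' : H.T → ℕ, (∀ t, 1 ≤ n' t) →
        G.D x (wd π m fun p => H.r N p + ∑ t, n' t * H.w t p)) ∧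
      ∀ t, H.lo t < H.hi t → ∃ x' : X,
        (∀ y, G.D x' y → G.D x' (List.replicate (H.w t (H.lo t)) (π (H.lo t)) ++ y ++
          List.replicate (H.w t (H.hi t)) (π (H.hi t)))) ∧
        ∀ᶠ N in (U : Filter ℕ), ∃ (u v : ℕ → ℕ) (y : List A), (∀ p, u p ≠ 0 → p ≤ H.lo t) ∧
          (∀ p, v p ≠ 0 → H.hi t ≤ p) ∧ wd π m (e N) = wd π m u ++ y ++ wd π m v ∧ G.D x' y ∧
          ∀ y', G.D x' y' → G.D x (wd π m u ++ y' ++ wd π m v) := by
  classical
  rcases Nat.eq_zero_or_pos m with rfl | hm
  · refine ⟨{ T := Empty, fin := inferInstance, w := fun t => t.elim, lo := fun t => t.elim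
              hi := fun t => t.elim, n := fun t => t.elim, r := e
              le := fun t => t.elim
              supp := fun t => t.elim
              nc := fun t => t.elim
              eq := Filter.Eventually.of_forall fun N p => by simp
              small := fun p => ⟨0, ?_⟩
              big := fun t => t.elim }, fun t => t.elim, ?_, fun t => t.elim⟩
    · filter_upwards [he] with N hN
      rw [hN p (Nat.zero_le _)]
      exact Nat.zero_le _
    · filter_upwards [h] with N hN n' _
      exact hN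
  obtain ⟨l₀, rfl, hl₀⟩ := asys_root G π m hm U x e he h
  obtain ⟨T, fT, lab, w, n, r, hctx, heq, hsmall, hbig, hreal⟩ :=
    parikh_limit (G.asys π m) (asys_fin G hG π m) U D hD l₀ e hl₀
  -- one tree containing all labels
  obtain ⟨N₀, hN₀⟩ := hreal.exists
  obtain ⟨B₀, hB₀, hlab⟩ := hN₀ (fun _ => 1) (fun _ => le_refl _)
  have hnest := asys_nested G π m hB₀
  have hle : ∀ t, (lab t).1 ≤ (lab t).2.2 := fun t => (hnest.2.1 _ (hlab t)).2.1
  have hhi : ∀ t, (lab t).2.2 < m := fun t =>
    lt_of_le_of_lt (hnest.2.1 _ (hlab t)).2.2 hnest.1.2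
  have hsupp : ∀ t p, w t p ≠ 0 → p = (lab t).1 ∨ p = (lab t).2.2 := by
    intro t p hp
    obtain ⟨-, -, u, v, hw, hu, hv, -⟩ := asys_ctx G π m (hctx t)
    rw [hw, Pi.add_apply] at hp
    by_cases hp' : u p = 0
    · have := hv p (by omega)
      omega
    · have := hu p hp'
      omega
  let H : HD U D e :=
    { T := T, fin := fT, w := w, lo := fun t => (lab t).1, hi := fun t => (lab t).2.2
      n := n, r := r
      le := hle
      supp := hsupp
      nc := fun t t' => hnest.2.2 _ (hlab t) _ (hlab t')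
      eq := by
        filter_upwards [heq] with N hN p
        rw [hN, Pi.add_apply, Finset.sum_apply]
        simp
      small := hsmall
      big := hbig }
  refine ⟨H, ?_, ?_, ?_⟩
  · intro t p hp
    have h1 := hle t
    have h2 := hhi t
    rcases hsupp t p hp with h | h <;> omega
  · filter_upwards [hreal] with N hN n' hn'
    obtain ⟨B, hB, -⟩ := hN n' hn'
    have := (asys_sound G π m hB).2.2.2
    have e1 : (fun p => H.r N p + ∑ t, n' t * H.w t p) = r N + ∑ t, n' t • w t := by
      funext p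
      rw [Pi.add_apply, Finset.sum_apply]
      simp [H]
    rw [e1]
    exact this
  · intro t ht
    refine ⟨(lab t).2.1, ?_, ?_⟩
    · obtain ⟨-, -, u, v, hw, hu, hv, hy⟩ := asys_ctx G π m (hctx t)
      have hlt : (lab t).1 < (lab t).2.2 := ht
      have e1 : u = Pi.single (lab t).1 (w t (lab t).1) := by
        funext p
        by_cases hp : p = (lab t).1
        · subst hp
          rw [Pi.single_eq_same, hw, Pi.add_apply]
          by_contra hne
          have := hv (lab t).1 (by omega)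
          omega
        · rw [Pi.single_eq_of_ne hp]
          by_contra hne
          have := hu p hne
          omega
      have e2 : v = Pi.single (lab t).2.2 (w t (lab t).2.2) := by
        funext p
        by_cases hp : p = (lab t).2.2
        · subst hp
          rw [Pi.single_eq_same, hw, Pi.add_apply]
          by_contra hne
          have := hu (lab t).2.2 (by omega)
          omega
        · rw [Pi.single_eq_of_ne hp]
          by_contra hne
          have := hv p hne
          omega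
      intro y hy'
      have := hy y hy'
      rw [e1, e2, wd_single _ _ _ _ (lt_trans hlt (hhi t)), wd_single _ _ _ _ (hhi t)] at this
      exact this
    · have hbig' : ∀ᶠ N in (U : Filter ℕ), ∀ t, 0 < n t N := by
        rw [Filter.eventually_all]
        intro t
        filter_upwards [hbig t 0] with N hN
        omega
      filter_upwards [hreal, hbig', heq] with N hN hN' hN''
      obtain ⟨B, hB, hlabB⟩ := hN (fun t => n t N) (fun t => hN' t)
      rw [← hN''] at hB
      obtain ⟨w₁, w₂, B', hc, hd, hw⟩ := hB.split (hlabB t)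
      obtain ⟨-, -, u, v, rfl, hu, hv, hy⟩ := asys_ctx G π m hc
      obtain ⟨s1, s2, s3, s4⟩ := asys_sound G π m hd
      refine ⟨u, v, wd π m w₂, fun p hp => (hu p hp).2, fun p hp => (hv p hp).1, ?_, s4, hy⟩
      have e1 : e N = (u + w₂) + v := by rw [hw, add_assoc, add_comm v, ← add_assoc]
      rw [e1, wd_add, wd_add]
      · intro p q hp hq
        have := hu p hp
        have := s3 q hq
        omega
      · intro p q hp hq
        rw [Pi.add_apply] at hp
        have := hv q hq
        by_cases hp' : u p = 0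
        · have := s3 p (by omega)
          omega
        · have := hu p hp'
          omega

end asys

end Pool.Agent.Lib.CoCF
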