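import Pool.Agent.Lib.CoCF.Iface

/-!
# Assembly, part 1: words `wd`
-/

set_option autoImplicit false

namespace Pool.Agent.Lib.CoCF.Asm

open Pool.Agent.Lib.CoCF

variable {A : Type}

theorem wd_zero (π : ℕ → A) (e : ℕ → ℕ) : wd π 0 e = [] := by
  simp [wd]

theorem wd_succ (π : ℕ → A) (m : ℕ) (e : ℕ → ℕ) :
    wd π (m + 1) e = wd π m e ++ List.replicate (e m) (π m) := by
  simp [wd, List.range_succ]

theorem wd_congr (π : ℕ → A) (m : ℕ) (e e' : ℕ → ℕ) (h : ∀ p, p < m → e p = e' p) :
    wd π m e = wd π m e' := by
  induction m with
  | zero => rw [wd_zero, wd_zero]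
  | succ m ih =>
    rw [wd_succ, wd_succ, ih (fun p hp => h p (Nat.lt_succ_of_lt hp)), h m (Nat.lt_succ_self m)]

theorem wd_congr_pi (π π' : ℕ → A) (m : ℕ) (e : ℕ → ℕ) (h : ∀ p, p < m → π p = π' p) :
    wd π m e = wd π' m e := by
  induction m with
  | zero => rw [wd_zero, wd_zero]
  | succ m ih =>
    rw [wd_succ, wd_succ, ih (fun p hp => h p (Nat.lt_succ_of_lt hp)), h m (Nat.lt_succ_self m)]

theorem wd_length (π : ℕ → A) (m : ℕ) (e : ℕ → ℕ) :
    (wd π m e).length = ∑ p ∈ Finset.range m, e p := by
  induction m with
  | zero => simp [wd_zero]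
  | succ m ih => rw [wd_succ, List.length_append, ih, List.length_replicate, Finset.sum_range_succ]

theorem wd_eq_nil (π : ℕ → A) (m : ℕ) (e : ℕ → ℕ) (h : ∀ p, p < m → e p = 0) : wd π m e = [] := by
  apply List.eq_nil_of_length_eq_zero
  rw [wd_length]
  exact Finset.sum_eq_zero fun p hp => h p (Finset.mem_range.1 hp)

theorem wd_extend (π : ℕ → A) (m m' : ℕ) (hm : m ≤ m') (e : ℕ → ℕ)
    (h : ∀ p, m ≤ p → p < m' → e p = 0) : wd π m' e = wd π m e := by
  induction m', hm using Nat.le_induction with
  | base => rfl
  | succ k hk ih =>
    rw [wd_succ, h k hk (Nat.lt_succ_self k), List.replicate_zero, List.append_nil]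
    exact ih fun p hp hp' => h p hp (Nat.lt_succ_of_lt hp')

/-- concatenation of words with sorted supports -/
theorem wd_add (π : ℕ → A) (m z : ℕ) (f g : ℕ → ℕ) (hf : ∀ p, f p ≠ 0 → p ≤ z)
    (hg : ∀ p, g p ≠ 0 → z ≤ p) :
    wd π m f ++ wd π m g = wd π m fun p => f p + g p := by
  induction m with
  | zero => simp [wd_zero]
  | succ m ih =>
    rw [wd_succ, wd_succ, wd_succ, ← ih]
    by_cases hm : f m = 0
    · rw [hm, List.replicate_zero, List.append_nil, Nat.zero_add, List.append_assoc]
    · have hz : m ≤ z := hf m hm
      have hg0 : wd π m g = [] := by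
        apply wd_eq_nil
        intro p hp
        by_contra h
        have := hg p h
        omega
      rw [hg0, List.append_nil, List.nil_append, List.append_assoc, List.replicate_append_replicate]

/-- splitting a word -/
theorem wd_split (π : ℕ → A) (m : ℕ) (hm : 0 < m) (e : ℕ → ℕ) (u v : List A)
    (h : u ++ v = wd π m e) :
    ∃ (z : ℕ) (f g : ℕ → ℕ), z < m ∧ u = wd π m f ∧ v = wd π m g ∧
      (∀ p, p < z → f p = e p ∧ g p = 0) ∧ (∀ p, z < p → f p = 0 ∧ (p < m → g p = e p)) ∧
      f z + g z = e z ∧ ∀ p, m ≤ p → g p = 0 := by
  induction m generalizing u v with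
  | zero => exact absurd hm (lt_irrefl 0)
  | succ m ih =>
    rw [wd_succ] at h
    rcases List.append_eq_append_iff.1 h with ⟨a', h1, h2⟩ | ⟨c', h1, h2⟩
    · -- `u` is a prefix of `wd π m e`
      by_cases hm0 : m = 0
      · subst hm0
        rw [wd_zero] at h1
        have h3 : u = [] := (List.append_eq_nil_iff.1 h1.symm).1
        have h4 : a' = [] := (List.append_eq_nil_iff.1 h1.symm).2
        subst h3 h4
        rw [List.nil_append] at h2
        refine ⟨0, fun _ => 0, fun p => if p = 0 then e 0 else 0, Nat.zero_lt_one, ?_, ?_, ?_, ?_,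
          ?_, ?_⟩
        · rw [wd_eq_nil π _ _ fun _ _ => rfl]
        · rw [wd_succ, wd_zero, List.nil_append, h2]
          simp
        · intro p hp
          exact absurd hp (Nat.not_lt_zero p)
        · intro p hp
          refine ⟨rfl, fun hp' => ?_⟩
          omega
        · simp
        · intro p hp
          have : p ≠ 0 := by omega
          simp [this]
      · obtain ⟨z, f, g, hz, hu, hv, h3, h4, h5, h6⟩ := ih (Nat.pos_of_ne_zero hm0) u a' h1.symm
        refine ⟨z, f, fun p => if p = m then e m else g p, Nat.lt_succ_of_lt hz, ?_, ?_, ?_, ?_, ?_,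
          ?_⟩
        · rw [wd_succ, (h4 m hz).1, List.replicate_zero, List.append_nil]
          exact hu
        · rw [wd_succ, h2, hv]
          simp only [if_true]
          congr 1
          apply wd_congr
          intro p hp
          have : p ≠ m := by omega
          simp [this]
        · intro p hp
          have : p ≠ m := by omega
          simp only [this, if_false]
          exact h3 p hp
        · intro p hp
          refine ⟨(h4 p hp).1, fun hp' => ?_⟩
          by_cases hpm : p = m
          · simp [hpm]
          · simp only [hpm, if_false]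
            exact (h4 p hp).2 (by omega)
        · have : z ≠ m := by omega
          simp only [this, if_false]
          exact h5
        · intro p hp
          have : p ≠ m := by omega
          simp only [this, if_false]
          exact h6 p (by omega)
    · -- the cut is in the last block
      have h3 : c'.length ≤ e m := by
        have := congrArg List.length h2
        rw [List.length_replicate, List.length_append] at this
        omega
      have h4 : c' = List.replicate c'.length (π m) ∧ v = List.replicate v.length (π m) := by
        have h5 := List.append_eq_replicate_iff.1 h2.symm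
        exact ⟨h5.2.1, h5.2.2⟩
      have h5 : c'.length + v.length = e m := by
        have := congrArg List.length h2
        rw [List.length_replicate, List.length_append] at this
        omega
      refine ⟨m, fun p => if p < m then e p else if p = m then c'.length else 0,
        fun p => if p = m then v.length else 0, Nat.lt_succ_self m, ?_, ?_, ?_, ?_, ?_, ?_⟩
      · rw [wd_succ, h1]
        simp only [lt_irrefl, if_false, if_true]
        rw [← h4.1]
        congr 1
        apply wd_congr
        intro p hp
        simp [hp]
      · rw [wd_succ, wd_eq_nil π m _ (fun p hp => by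
          have : p ≠ m := by omega
          simp [this]), List.nil_append]
        simp only [if_true]
        exact h4.2
      · intro p hp
        have : p ≠ m := by omega
        simp [hp, this]
      · intro p hp
        have h6 : ¬ p < m := by omega
        have h7 : p ≠ m := by omega
        simp only [h6, h7, if_false, true_and]
        intro h8
        omega
      · simp [h5]
      · intro p hp
        have : p ≠ m := by omega
        simp [this]

theorem wd_split_at (π : ℕ → A) (mV m : ℕ) (h : mV ≤ m) (e : ℕ → ℕ) :
    wd π m e = wd π mV e ++ wdF π mV m e := by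
  obtain ⟨k, rfl⟩ := Nat.exists_eq_add_of_le h
  induction k with
  | zero =>
    unfold wdF
    simp [wd_zero]
  | succ k ih =>
    have h1 := ih (Nat.le_add_right _ _)
    unfold wdF at h1 ⊢
    rw [Nat.add_sub_cancel_left] at h1 ⊢
    rw [← Nat.add_assoc, wd_succ, h1, wd_succ, List.append_assoc]

theorem wd_only (π : ℕ → A) (m x : ℕ) (hx : x < m) (e : ℕ → ℕ) (h : ∀ p, p < m → p ≠ x → e p = 0) :
    wd π m e = List.replicate (e x) (π x) := by
  induction m with
  | zero => exact absurd hx (Nat.not_lt_zero x)
  | succ m ih =>
    rw [wd_succ]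
    by_cases hm : x = m
    · subst hm
      rw [wd_eq_nil π x e fun p hp => h p (Nat.lt_succ_of_lt hp) (by omega), List.nil_append]
    · rw [ih (by omega) fun p hp hp' => h p (Nat.lt_succ_of_lt hp) hp',
        h m (Nat.lt_succ_self m) (Ne.symm hm), List.replicate_zero, List.append_nil]

/-- adding letters at both ends -/
theorem wd_ends (π : ℕ → A) (l : ℕ) (i j : ℕ) (f : ℕ → ℕ) :
    List.replicate i (π 0) ++ wd π (l + 1) f ++ List.replicate j (π l) =
      wd π (l + 1) fun p => f p + (if p = 0 then i else 0) + (if p = l then j else 0) := by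
  have h1 : List.replicate i (π 0) = wd π (l + 1) fun p => if p = 0 then i else 0 := by
    rw [wd_only π (l + 1) 0 (Nat.succ_pos l) _ (fun p _ hp => by simp [hp])]
    simp
  have h2 : List.replicate j (π l) = wd π (l + 1) fun p => if p = l then j else 0 := by
    rw [wd_only π (l + 1) l (Nat.lt_succ_self l) _ (fun p _ hp => by simp [hp])]
    simp
  rw [h1, h2, wd_add π (l + 1) 0 _ f (fun p hp => by
    by_contra h
    apply hp
    have : p ≠ 0 := by omega
    simp [this]) (fun p _ => Nat.zero_le p)]
  have h3 : (wd π (l + 1) fun p => (if p = 0 then i else 0) + f p) =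
      wd π (l + 1) fun p => if p < l + 1 then (if p = 0 then i else 0) + f p else 0 :=
    wd_congr _ _ _ _ fun p hp => by simp [hp]
  rw [h3, wd_add π (l + 1) l _ _ (fun p hp => by
    by_contra h
    apply hp
    have : ¬ p < l + 1 := by omega
    simp [this]) (fun p hp => by
    by_contra h
    apply hp
    have : p ≠ l := by omega
    simp [this])]
  apply wd_congr
  intro p hp
  simp only [hp, if_true]
  omega

end Pool.Agent.Lib.CoCF.Asm
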