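import Pool.Agent.Lib.CoCF.Asm9

/-!
# Assembly, part 10: families of middle words
-/

set_option autoImplicit false

namespace Pool.Agent.Lib.CoCF.Asm

open Pool.Agent.Lib.CoCF

/-- degrees cut off at the end of the pattern -/
def degM (k R c p : ℕ) : ℕ := if p < mP k R then degI (allI k R c) p else 0

/-- A family of exponents which, completed by `s ^ i` on the left and `s⁻¹ ^ j` on the right, is a
word `w_c` with both outer exponents shifted by `xs`. -/
structure Fam (U : Ultrafilter ℕ) (D : ℕ → ℕ) (k R c : ℕ) (e : ℕ → ℕ → ℕ) (i j : ℕ → ℕ)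
    (xs : ℕ → ℤ) : Prop where
  bound : ∃ C : ℕ, ∀ᶠ N in (U : Filter ℕ), i N ≤ C * D N ∧ j N ≤ C * D N ∧ |xs N| ≤ C * D N
  tot : ∀ᶠ N in (U : Filter ℕ), ∀ p, (e N p : ℤ) + (if p = 0 then (i N : ℤ) else 0) +
    (if p = xrP k R then (j N : ℤ) else 0) = tot k R c (D N) (xs N) p

section

variable {U : Ultrafilter ℕ} {D : ℕ → ℕ} {k R c : ℕ} {e : ℕ → ℕ → ℕ} {i j : ℕ → ℕ} {xs : ℕ → ℤ}

theorem Fam.zero (hF : Fam U D k R c e i j xs) :
    ∀ᶠ N in (U : Filter ℕ), ∀ p, mP k R ≤ p → e N p = 0 := by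
  filter_upwards [hF.tot] with N hN p hp
  rw [mP_eq] at hp
  have h1 := hN p
  have hpos := xrP_pos k R
  have h2 : p ≠ 0 := by omega
  have h3 : p ≠ xrP k R := by omega
  have h4 : p ≠ 7 * (nU k R + 3) := h3
  unfold Asm.tot at h1
  rw [expo_big k R c (D N) p (by unfold xrP at hp; omega)] at h1
  simp only [h2, h3, h4, if_false] at h1
  simpa using h1

theorem Fam.profile (hD : ∀ C : ℕ, ∀ᶠ N in (U : Filter ℕ), C < D N)
    (hF : Fam U D k R c e i j xs) : Profile U D e (mP k R) (degM k R c) none := by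
  refine ⟨?_, hF.zero⟩
  intro p _
  obtain ⟨C, hC⟩ := hF.bound
  obtain ⟨C', hC'⟩ := base_profile (k := k) (R := R) (c := c) hD p
  by_cases hpm : p < mP k R
  · refine ⟨4 * C + C', ?_⟩
    filter_upwards [hC, hC', hF.tot] with N h1 h2 h3
    have h4 := h3 p
    unfold Asm.tot at h4
    unfold degM
    rw [if_pos hpm]
    have h5 : (e N p : ℤ) = (expo (D N) (allI k R c) p : ℤ) +
        ((if p = 0 then xs N else 0) + (if p = 7 * (nU k R + 3) then xs N else 0) -
          (if p = 0 then (i N : ℤ) else 0) - (if p = xrP k R then (j N : ℤ) else 0)) := by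
      linarith
    rw [h5]
    have hi : (0 : ℤ) ≤ i N ∧ (i N : ℤ) ≤ C * D N := ⟨by positivity, by exact_mod_cast h1.1⟩
    have hj : (0 : ℤ) ≤ j N ∧ (j N : ℤ) ≤ C * D N := ⟨by positivity, by exact_mod_cast h1.2.1⟩
    have hx := abs_le.1 h1.2.2
    have h2' := abs_le.1 h2
    have h0 : (0 : ℤ) ≤ C * D N := by positivity
    rw [abs_le]
    push_cast
    generalize (if 2 ≤ degI (allI k R c) p then (D N : ℤ) ^ degI (allI k R c) p else 0) = A at *
    constructor
    · split_ifs <;> linarith [h2'.1, h2'.2, hi.1, hi.2, hj.1, hj.2, hx.1, hx.2]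
    · split_ifs <;> linarith [h2'.1, h2'.2, hi.1, hi.2, hj.1, hj.2, hx.1, hx.2]
  · refine ⟨0, ?_⟩
    filter_upwards [hF.zero] with N h1
    rw [h1 p (by omega)]
    unfold degM
    simp [hpm]

theorem degM_or (p : ℕ) : degM k R c p = degI (allI k R c) p ∨ degM k R c p = 0 := by
  unfold degM
  split_ifs
  · exact Or.inl rfl
  · exact Or.inr rfl

open Classical in
/-- the label function of heavy data: connected (`false`, label D) or not (`true`, label T) -/
noncomputable def labH (H : HD U D e) (a : ℕ) : Bool := decide (¬ H.Conn (7 * a) (7 * a + 6))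

theorem Fam.zone (hD : ∀ C : ℕ, ∀ᶠ N in (U : Filter ℕ), C < D N)
    (hF : Fam U D k R c e i j xs) (H : HD U D e) (a : ℕ) (ha : IsZ k R a) :
    (H.Conn (7 * a) (7 * a + 6) →
      ∃ t : ℚ, uv (7 * a + 1) + uv (7 * a + 5) + t • uv (7 * a) ∈ H.span) ∧
    (¬ H.Conn (7 * a) (7 * a + 6) → uv (7 * a) ∈ H.span ∨ uv (7 * a + 6) ∈ H.span) := by
  refine zone_app (c := c) hD H (degM k R c) none (hF.profile hD) (fun p => degM_or p) a ha
    (fun p h1 h2 => ?_) fun p hp => by cases hp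
  unfold degM
  rw [if_pos]
  have := ha.le
  unfold mP
  omega

theorem Fam.realiz (hF : Fam U D k R c e i j xs) (H : HD U D e)
    (hreal : ∀ᶠ N in (U : Filter ℕ), ∀ n' : H.T → ℕ, (∀ t, 1 ≤ n' t) →
      evw (List.replicate (i N) .s ++ wd (pat (allI k R c)) (mP k R)
        (fun p => H.r N p + ∑ t, n' t * H.w t p) ++ List.replicate (j N) .si) ≠ 1) :
    Realiz U D k R c xs (fun t p => (H.w t p : ℤ)) := by
  intro C
  filter_upwards [real_of_HD H (fun N f => evw (List.replicate (i N) .s ++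
    wd (pat (allI k R c)) (mP k R) f ++ List.replicate (j N) .si) ≠ 1) hreal C, hF.tot]
    with N h1 h2 m hm
  obtain ⟨f, hf1, hf2, _⟩ := h1 m hm
  refine ⟨fun p => f p + (if p = 0 then i N else 0) + (if p = xrP k R then j N else 0), ?_, ?_⟩
  · intro p
    rw [← h2 p]
    push_cast
    rw [hf1 p]
    ring
  · have h3 := wd_ends (pat (allI k R c)) (xrP k R) (i N) (j N) f
    rw [pat_zero, pat_last] at h3
    have h4 : 7 * (nU k R + 3) + 1 = xrP k R + 1 := rfl
    rw [h4, ← h3]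
    exact hf2

end

section

variable {U : Ultrafilter ℕ} {D : ℕ → ℕ} {κ R c : ℕ} {e : ℕ → ℕ → ℕ} {i j : ℕ → ℕ} {xs : ℕ → ℤ}

theorem Fam.noflag (hD : ∀ C : ℕ, ∀ᶠ N in (U : Filter ℕ), C < D N)
    (hdiv : ∀ K : ℕ, 0 < K → ∀ᶠ N in (U : Filter ℕ), K ∣ D N)
    (hF : Fam U D (3 * κ) R c e i j xs) (H : HD U D e)
    (hk : ∀ lab bad, ∃ F, KG κ R lab bad F) (hc : c < κ)
    (hreal : ∀ᶠ N in (U : Filter ℕ), ∀ n' : H.T → ℕ, (∀ t, 1 ≤ n' t) →
      evw (List.replicate (i N) .s ++ wd (pat (allI (3 * κ) R c)) (mP (3 * κ) R)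
        (fun p => H.r N p + ∑ t, n' t * H.w t p) ++ List.replicate (j N) .si) ≠ 1) :
    uv 0 ∉ H.span ∧ uv (xrP (3 * κ) R) ∉ H.span := by
  classical
  obtain ⟨F, hKG⟩ := hk (labH H) 0
  have h1 := hF.realiz H hreal
  have h2 := fun hflag => kill_flag hD hdiv hKG hc xs _ h1 (fun a ha hl => by
      rw [← span_eq_spn]
      exact (hF.zone hD H a ha.1).2 (by simpa [labH] using hl)) (fun a ha hl => by
      rw [← span_eq_spn]
      exact (hF.zone hD H a ha.1).1 (by simpa [labH] using hl)) hflag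
  rw [← span_eq_spn] at h2
  exact ⟨fun h => h2 (Or.inl h), fun h => h2 (Or.inr h)⟩

theorem Fam.label (hD : ∀ C : ℕ, ∀ᶠ N in (U : Filter ℕ), C < D N)
    (hF : Fam U D (3 * κ) R c e i j xs) (H : HD U D e) (F : Set ℕ) (bad : ℕ)
    (hKG : KG κ R (labH H) bad F) (hc : c < κ)
    (hreal : ∀ᶠ N in (U : Filter ℕ), ∀ n' : H.T → ℕ, (∀ t, 1 ≤ n' t) →
      evw (List.replicate (i N) .s ++ wd (pat (allI (3 * κ) R c)) (mP (3 * κ) R)
        (fun p => H.r N p + ∑ t, n' t * H.w t p) ++ List.replicate (j N) .si) ≠ 1) :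
    ∃ t ∈ suppC c, F = {t} := by
  have h1 := hF.realiz H hreal
  refine kill_noflag hD hKG hc xs _ h1 (fun a ha hl => ?_) fun a ha hl => ?_
  · rw [← span_eq_spn]
    exact (hF.zone hD H a ha.1).2 (by simpa [labH] using hl)
  · rw [← span_eq_spn]
    exact (hF.zone hD H a ha.1).1 (by simpa [labH] using hl)

end

/-! ### the periods -/

/-- `x` is closed under adding `s ^ α … s⁻¹ ^ α` -/
def Per (M : MG Ltr) (x : M.X) (α : ℕ) : Prop :=
  ∀ y, M.G.D x y → M.G.D x (List.replicate α .s ++ y ++ List.replicate α .si)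

theorem Per.mul {M : MG Ltr} {x : M.X} {α : ℕ} (h : Per M x α) (m : ℕ) : Per M x (m * α) := by
  induction m with
  | zero =>
    intro y hy
    simpa using hy
  | succ m ih =>
    intro y hy
    have h1 := h _ (ih y hy)
    have h2 : List.replicate ((m + 1) * α) Ltr.s = List.replicate α .s ++
        List.replicate (m * α) .s := by
      rw [List.replicate_append_replicate]
      congr 1
      ring
    have h3 : List.replicate ((m + 1) * α) Ltr.si = List.replicate (m * α) .si ++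
        List.replicate α .si := by
      rw [List.replicate_append_replicate]
      congr 1
      ring
    rw [h2, h3]
    simp only [List.append_assoc] at h1 ⊢
    exact h1

theorem exists_Astar (M : MG Ltr) : ∃ A : ℕ, 0 < A ∧ ∀ x y, M.G.D x y →
    (∃ α, 0 < α ∧ Per M x α) → ∀ m, Per M x (m * A) := by
  classical
  obtain ⟨F, hFf, hF1, hF2, hF3⟩ := M.finG
  have hmem : ∀ x y, M.G.D x y → x ∈ F := by
    intro x y h
    cases h with
    | leaf h => exact hF1 _ h
    | un h _ => exact hF2 _ _ _ h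
    | bin h _ _ => exact hF3 _ _ _ h
  let a : M.X → ℕ := fun x => if h : ∃ α, 0 < α ∧ Per M x α then h.choose else 1
  have ha : ∀ x, 0 < a x := by
    intro x
    simp only [a]
    split_ifs with h
    · exact h.choose_spec.1
    · exact Nat.one_pos
  refine ⟨∏ x ∈ hFf.toFinset, a x, Finset.prod_pos fun x _ => ha x, ?_⟩
  intro x y hy hx m
  have h1 : Per M x (a x) := by
    simp only [a]
    rw [dif_pos hx]
    exact hx.choose_spec.2
  obtain ⟨q, hq⟩ : a x ∣ ∏ x ∈ hFf.toFinset, a x :=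
    Finset.dvd_prod_of_mem a (hFf.mem_toFinset.2 (hmem x y hy))
  rw [hq]
  have h2 := h1.mul (m * q)
  rwa [show m * (a x * q) = m * q * a x by ring]

end Pool.Agent.Lib.CoCF.Asm
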