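import Pool.Agent.Lib.CoCF.Asm10

/-!
# Assembly, part 11: pumping the outer blocks
-/

set_option autoImplicit false

namespace Pool.Agent.Lib.CoCF.Asm

open Pool.Agent.Lib.CoCF

theorem th_span_le {U : Ultrafilter ℕ} {D : ℕ → ℕ} {e : ℕ → ℕ → ℕ} (H : HD U D e) :
    Submodule.span ℚ {x | ∃ t, H.TH t ∧ x = fun p => (H.w t p : ℚ)} ≤ H.span := by
  unfold HD.span
  apply Submodule.span_mono
  rintro x ⟨t, _, rfl⟩
  exact ⟨t, rfl⟩

/-- the pair of outer blocks -/
theorem Fam.pairX {U : Ultrafilter ℕ} {D : ℕ → ℕ} {k R c : ℕ} {e : ℕ → ℕ → ℕ} {i j : ℕ → ℕ}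
    {xs : ℕ → ℤ} (hD : ∀ C : ℕ, ∀ᶠ N in (U : Filter ℕ), C < D N)
    (hF : Fam U D k R c e i j xs) (H : HD U D e) :
    uv 0 + uv (xrP k R) ∈
      Submodule.span ℚ {x | ∃ t, H.TH t ∧ x = fun p => (H.w t p : ℚ)} := by
  have hpos := xrP_pos k R
  have h0 : degM k R c 0 = nU k R + 7 := by
    unfold degM
    rw [if_pos (by rw [mP_eq]; omega), deg_zero]
  have hl : degM k R c (xrP k R) = nU k R + 7 := by
    unfold degM
    rw [if_pos (by rw [mP_eq]; omega)]
    exact deg_last k R c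
  refine pair_lemma hD H (mP k R) (degM k R c) (hF.profile hD) 0 (xrP k R) (by omega)
    (nU k R + 7) (by omega) (by rw [mP_eq]; omega) (by rw [mP_eq]; omega) h0 hl ?_
  intro p hp
  by_cases hpm : p < mP k R
  swap
  · exact Or.inr (Or.inr (by omega))
  unfold degM at hp
  rw [if_pos hpm] at hp
  rcases deg_cases k R c p with h | h | ⟨a, hZ, _, h⟩ | h | h
  · omega
  · omega
  · have := hZ.le
    omega
  · exact Or.inl h
  · exact Or.inr (Or.inl h)

theorem pump (U : Ultrafilter ℕ) (D : ℕ → ℕ)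
    (hD : ∀ C : ℕ, ∀ᶠ N in (U : Filter ℕ), C < D N)
    (hdiv : ∀ K : ℕ, 0 < K → ∀ᶠ N in (U : Filter ℕ), K ∣ D N)
    (M : MG Ltr) (κ R c : ℕ) (hk : ∀ lab bad, ∃ F, KG κ R lab bad F) (hc : c < κ)
    (A : ℕ) (hA : ∀ x y, M.G.D x y → (∃ α, 0 < α ∧ Per M x α) → ∀ m, Per M x (m * A))
    (x : M.X) (i j : ℕ → ℕ) (C : ℕ)
    (hij : ∀ᶠ N in (U : Filter ℕ), i N ≤ C * D N ∧ j N ≤ C * D N)
    (hV : ∀ᶠ N in (U : Filter ℕ), M.G.D x
      (wd (pat (allI (3 * κ) R c)) (mP (3 * κ) R) (eV (3 * κ) R c (D N) (i N) (j N))))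
    (hctx : ∀ᶠ N in (U : Filter ℕ), ∀ V, M.G.D x V →
        evw (List.replicate (i N) .s ++ V ++ List.replicate (j N) .si) ≠ 1) :
    ∀ᶠ N in (U : Filter ℕ), ∀ m, M.G.D x (List.replicate (m * A) .s ++
      wd (pat (allI (3 * κ) R c)) (mP (3 * κ) R) (eV (3 * κ) R c (D N) (i N) (j N)) ++
      List.replicate (m * A) .si) := by
  classical
  obtain ⟨k, hkk⟩ : ∃ k, k = 3 * κ := ⟨_, rfl⟩
  have hpos := xrP_pos (3 * κ) R
  -- the family
  have hlarge : ∀ᶠ N in (U : Filter ℕ), 2 * (C * D N) < D N ^ (nU (3 * κ) R + 7) := by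
    filter_upwards [hD (2 * C + 1)] with N hN
    calc 2 * (C * D N) = (2 * C) * D N := by ring
      _ < D N * D N := Nat.mul_lt_mul_of_pos_right (by omega) (by omega)
      _ = D N ^ 2 := by ring
      _ ≤ D N ^ (nU (3 * κ) R + 7) := Nat.pow_le_pow_right (by omega) (by omega)
  have hF : Fam U D (3 * κ) R c (fun N => eV (3 * κ) R c (D N) (i N) (j N)) i j (fun _ => 0) := by
    refine ⟨⟨C, ?_⟩, ?_⟩
    · filter_upwards [hij] with N h1
      refine ⟨h1.1, h1.2, ?_⟩
      simp
      positivity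
    · filter_upwards [hij, hlarge] with N h1 h2 p
      unfold eV Asm.tot
      by_cases hp0 : p = 0
      · subst hp0
        have h3 : (0 : ℕ) ≠ xrP (3 * κ) R := by omega
        have h4 : (0 : ℕ) ≠ 7 * (nU (3 * κ) R + 3) := by omega
        simp only [if_true, h3, h4, if_false]
        rw [expo_zero]
        have h5 : D N ^ (nU (3 * κ) R + 7) - i N - 0 + i N = D N ^ (nU (3 * κ) R + 7) := by omega
        have h6 : ((D N ^ (nU (3 * κ) R + 7) - i N - 0 : ℕ) : ℤ) + (i N : ℤ) =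
            ((D N ^ (nU (3 * κ) R + 7) : ℕ) : ℤ) := by exact_mod_cast h5
        linarith
      · by_cases hpl : p = xrP (3 * κ) R
        · have h4 : p = 7 * (nU (3 * κ) R + 3) := hpl
          simp only [if_true, hp0, hpl, if_false]
          have h6 : xrP (3 * κ) R ≠ 0 := by omega
          have h7 : xrP (3 * κ) R = 7 * (nU (3 * κ) R + 3) := rfl
          simp only [h6, if_false]
          rw [← h7]
          simp only [if_true]
          rw [h7, expo_last]
          have h5 : D N ^ (nU (3 * κ) R + 7) - 0 - j N + j N = D N ^ (nU (3 * κ) R + 7) := by omega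
          have h6 : ((D N ^ (nU (3 * κ) R + 7) - 0 - j N : ℕ) : ℤ) + (j N : ℤ) =
              ((D N ^ (nU (3 * κ) R + 7) : ℕ) : ℤ) := by exact_mod_cast h5
          linarith
        · have h4 : p ≠ 7 * (nU (3 * κ) R + 3) := hpl
          simp only [hp0, hpl, h4, if_false]
          simp
  obtain ⟨H, hHm, hH, hpair⟩ := fl_words M.G M.finG (pat (allI (3 * κ) R c)) (mP (3 * κ) R) U D hD
    x _ hF.zero hV
  have hreal : ∀ᶠ N in (U : Filter ℕ), ∀ n' : H.T → ℕ, (∀ t, 1 ≤ n' t) →
      evw (List.replicate (i N) .s ++ wd (pat (allI (3 * κ) R c)) (mP (3 * κ) R)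
        (fun p => H.r N p + ∑ t, n' t * H.w t p) ++ List.replicate (j N) .si) ≠ 1 := by
    filter_upwards [hH, hctx] with N h1 h2 n' hn'
    exact h2 _ (h1 n' hn')
  obtain ⟨hn0, hnl⟩ := hF.noflag hD hdiv H hk hc hreal
  have hpX := th_span_le H (hF.pairX hD H)
  -- the dominating loop
  have hg1 : ∀ C : ℕ, ∀ᶠ N in (U : Filter ℕ), C * D N < D N ^ (nU (3 * κ) R + 7) := by
    intro C
    filter_upwards [hD (C + 1)] with N hN
    calc C * D N < D N * D N := Nat.mul_lt_mul_of_pos_right (by omega) (by omega)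
      _ = D N ^ 2 := by ring
      _ ≤ D N ^ (nU (3 * κ) R + 7) := Nat.pow_le_pow_right (by omega) (by omega)
  have hx1 : ∀ᶠ N in (U : Filter ℕ), D N ^ (nU (3 * κ) R + 7) ≤
      2 * eV (3 * κ) R c (D N) (i N) (j N) 0 := by
    filter_upwards [hij, hlarge] with N h1 h2
    unfold eV
    have h3 : (0 : ℕ) ≠ xrP (3 * κ) R := by omega
    simp only [if_true, h3, if_false]
    rw [expo_zero]
    omega
  have hy1 : ∀ p, p ≠ 0 → p ≠ xrP (3 * κ) R → ∀ C : ℕ, ∀ᶠ N in (U : Filter ℕ),
      C * eV (3 * κ) R c (D N) (i N) (j N) p < D N ^ (nU (3 * κ) R + 7) := by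
    intro p hp hp' C'
    filter_upwards [expo_small (k := 3 * κ) (R := R) (c := c) hD p hp hp' C'] with N h1
    unfold eV
    simp only [hp, hp', if_false]
    exact h1
  obtain ⟨t, ht1, ht2, _⟩ := dominant_lemma hD H 0 (xrP (3 * κ) R)
    (fun N => D N ^ (nU (3 * κ) R + 7)) hg1 hx1 hy1
  have ht3 : H.w t (xrP (3 * κ) R) ≠ 0 := by
    intro h0
    apply hn0
    refine uv_mem_of_single H 0 t ht1 fun p hp => ?_
    by_cases hpl : p = xrP (3 * κ) R
    · rw [hpl]
      exact h0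
    · exact ht2 p hp hpl
  have hvec : (fun p => (H.w t p : ℚ)) =
      (H.w t 0 : ℚ) • uv 0 + (H.w t (xrP (3 * κ) R) : ℚ) • uv (xrP (3 * κ) R) := by
    funext p
    rw [Pi.add_apply, Pi.smul_apply, Pi.smul_apply, uv_apply, uv_apply]
    by_cases hp0 : p = 0
    · subst hp0
      have h3 : (0 : ℕ) ≠ xrP (3 * κ) R := by omega
      simp [h3]
    · by_cases hpl : p = xrP (3 * κ) R
      · subst hpl
        simp [hp0]
      · simp [hp0, hpl, ht2 p hp0 hpl]
  have hab : H.w t 0 = H.w t (xrP (3 * κ) R) := by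
    by_contra hne
    apply hnl
    have h1 : (fun p => (H.w t p : ℚ)) ∈ H.span := Submodule.subset_span ⟨t, rfl⟩
    rw [hvec] at h1
    have h2 := Submodule.sub_mem _ h1 (Submodule.smul_mem _ (H.w t 0 : ℚ) hpX)
    have h3 : (H.w t 0 : ℚ) • uv 0 + (H.w t (xrP (3 * κ) R) : ℚ) • uv (xrP (3 * κ) R) -
        (H.w t 0 : ℚ) • (uv 0 + uv (xrP (3 * κ) R)) =
        ((H.w t (xrP (3 * κ) R) : ℚ) - H.w t 0) • uv (xrP (3 * κ) R) := by
      rw [smul_add, sub_smul]
      abel
    rw [h3] at h2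
    refine (Submodule.smul_mem_iff _ ?_).1 h2
    intro h4
    apply hne
    have h5 : (H.w t 0 : ℚ) = H.w t (xrP (3 * κ) R) := by linarith
    exact_mod_cast h5
  have hlo : H.lo t = 0 ∧ H.hi t = xrP (3 * κ) R := by
    have h1 := H.supp t 0 ht1
    have h2 := H.supp t _ ht3
    have h3 := H.le t
    omega
  obtain ⟨x', hx', hex⟩ := hpair t (by omega)
  rw [hlo.1, hlo.2, pat_zero, pat_last, ← hab] at hx'
  have hper : ∃ α, 0 < α ∧ Per M x' α := ⟨H.w t 0, Nat.pos_of_ne_zero ht1, hx'⟩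
  filter_upwards [hex] with N hN m
  obtain ⟨u, v, y, hu, hv, hw, hy, hrep⟩ := hN
  rw [hlo.1] at hu
  rw [hlo.2] at hv
  have h1 := hrep _ (hA x' y hy hper m y hy)
  have hu' : wd (pat (allI (3 * κ) R c)) (mP (3 * κ) R) u = List.replicate (u 0) .s := by
    rw [wd_only _ _ 0 (by rw [mP_eq]; omega) u (fun p _ hp => ?_), pat_zero]
    by_contra h
    have := hu p h
    omega
  have hv' : wd (pat (allI (3 * κ) R c)) (mP (3 * κ) R) v =
      List.replicate (v (xrP (3 * κ) R)) .si := by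
    rw [wd_only _ _ (xrP (3 * κ) R) (by rw [mP_eq]; omega) v (fun p hp hp' => ?_), pat_last]
    by_contra h
    have := hv p h
    rw [mP_eq] at hp
    omega
  rw [hu', hv'] at h1 hw
  have h2 : List.replicate (u 0) Ltr.s ++ (List.replicate (m * A) .s ++ y ++
      List.replicate (m * A) .si) ++ List.replicate (v (xrP (3 * κ) R)) .si =
      List.replicate (m * A) .s ++ (List.replicate (u 0) .s ++ y ++
      List.replicate (v (xrP (3 * κ) R)) .si) ++ List.replicate (m * A) .si := by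
    have h3 : List.replicate (u 0) Ltr.s ++ List.replicate (m * A) .s =
        List.replicate (m * A) .s ++ List.replicate (u 0) .s := by
      rw [List.replicate_append_replicate, List.replicate_append_replicate, Nat.add_comm]
    have h4 : List.replicate (m * A) Ltr.si ++ List.replicate (v (xrP (3 * κ) R)) .si =
        List.replicate (v (xrP (3 * κ) R)) .si ++ List.replicate (m * A) .si := by
      rw [List.replicate_append_replicate, List.replicate_append_replicate, Nat.add_comm]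
    calc List.replicate (u 0) Ltr.s ++ (List.replicate (m * A) .s ++ y ++
      List.replicate (m * A) .si) ++ List.replicate (v (xrP (3 * κ) R)) .si
        = (List.replicate (u 0) Ltr.s ++ List.replicate (m * A) .s) ++ y ++
          (List.replicate (m * A) .si ++ List.replicate (v (xrP (3 * κ) R)) .si) := by
          simp only [List.append_assoc]
      _ = _ := by
          rw [h3, h4]
          simp only [List.append_assoc]
  rw [hw, ← h2]
  exact h1

end Pool.Agent.Lib.CoCF.Asm
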