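import Pool.Agent.Lib.CoCF.Asm11

/-!
# Assembly, part 12: the joint family
-/

set_option autoImplicit false

namespace Pool.Agent.Lib.CoCF.Asm

open Pool.Agent.Lib.CoCF

/-- the two halves of a zone -/
theorem Fam.pairZ {U : Ultrafilter ℕ} {D : ℕ → ℕ} {k R c : ℕ} {e : ℕ → ℕ → ℕ} {i j : ℕ → ℕ}
    {xs : ℕ → ℤ} (hD : ∀ C : ℕ, ∀ᶠ N in (U : Filter ℕ), C < D N)
    (hF : Fam U D k R c e i j xs) (H : HD U D e) (a : ℕ) (ha : IsZ k R a) :
    uv (7 * a) + uv (7 * a + 6) ∈
      Submodule.span ℚ {x | ∃ t, H.TH t ∧ x = fun p => (H.w t p : ℚ)} := by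
  have hle := ha.le
  have h1 := ha.1
  obtain ⟨h2, h3, _⟩ := deg_zone k R c a ha
  have hm1 : 7 * a < mP k R := by
    unfold mP
    omega
  have hm2 : 7 * a + 6 < mP k R := by
    unfold mP
    omega
  refine pair_lemma hD H (mP k R) (degM k R c) (hF.profile hD) (7 * a) (7 * a + 6) (by omega)
    (a + 3) (by omega) hm1 hm2 (by unfold degM; rw [if_pos hm1, h2])
    (by unfold degM; rw [if_pos hm2, h3]) ?_
  intro p hp
  by_cases hpm : p < mP k R
  swap
  · exact Or.inr (Or.inr (by omega))
  unfold degM at hp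
  rw [if_pos hpm] at hp
  rcases deg_cases k R c p with h | h | ⟨a', hZ, hpa, h⟩ | h | h
  · omega
  · omega
  · have : a' = a := by omega
    subst this
    rcases hpa with h | h
    · exact Or.inl h
    · exact Or.inr (Or.inl h)
  · rw [h, deg_zero] at hp
    omega
  · rw [h, deg_last] at hp
    omega

/-- exponents of the family of future `ε` -/
def eP (mV : ℕ) (e : ℕ → Option Bool × ℕ → ℕ) (ε : Bool) (N p : ℕ) : ℕ :=
  if p < mV then e N (none, p) else e N (some ε, p)

/-- projection of joint heavy data to a future -/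
def projHD {U : Ultrafilter ℕ} {D : ℕ → ℕ} {mV : ℕ} {e : ℕ → Option Bool × ℕ → ℕ}
    (H : JHD U D mV e) (ε : Bool) : HD U D (eP mV e ε) where
  T := H.T
  fin := H.fin
  w := fun t p => if p < mV then H.w t (none, p) else H.w t (some ε, p)
  lo := H.lo ε
  hi := H.hi ε
  n := H.n
  r := fun N p => if p < mV then H.r N (none, p) else H.r N (some ε, p)
  le := H.le ε
  supp := by
    intro t p hp
    by_cases h : p < mV
    · rw [if_pos h] at hp
      exact (H.suppV ε t p hp).2
    · rw [if_neg h] at hp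
      exact (H.suppY ε t p hp).2
  nc := H.nc ε
  eq := by
    filter_upwards [H.eq] with N hN p
    unfold eP
    by_cases h : p < mV
    · simp only [h, if_true]
      exact hN _
    · simp only [h, if_false]
      exact hN _
  small := by
    intro p
    by_cases h : p < mV
    · simp only [h, if_true]
      exact H.small _
    · simp only [h, if_false]
      exact H.small _
  big := H.big

/-- positions of the common word -/
def mVP (k R : ℕ) : ℕ := 7 * (nU k R + 1)

theorem joint_contra (U : Ultrafilter ℕ) (D : ℕ → ℕ)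
    (hD : ∀ C : ℕ, ∀ᶠ N in (U : Filter ℕ), C < D N)
    (hdiv : ∀ K : ℕ, 0 < K → ∀ᶠ N in (U : Filter ℕ), K ∣ D N)
    (M : MG Ltr) (κ R : ℕ) (hk : ∀ lab bad, ∃ F, KG κ R lab bad F)
    (q : M.Q) (Z : M.Γ) (b₁ b₂ : Option M.Q) (c₁ c₂ : ℕ) (hc₁ : c₁ < κ) (hc₂ : c₂ < κ)
    (hne : c₁ ≠ c₂) (i₁ j₁ i₂ j₂ : ℕ → ℕ) (C : ℕ)
    (hij : ∀ᶠ N in (U : Filter ℕ), i₁ N ≤ C * D N ∧ j₁ N ≤ C * D N ∧ i₂ N ≤ C * D N ∧
      j₂ N ≤ C * D N)
    (hle : ∀ᶠ N in (U : Filter ℕ), i₁ N ≤ i₂ N)
    (hV₁ : ∀ᶠ N in (U : Filter ℕ), M.G.D (M.pp q Z b₁)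
      (wd (pat (allI (3 * κ) R c₁)) (mP (3 * κ) R) (eV (3 * κ) R c₁ (D N) (i₁ N) (j₁ N))))
    (hV₂ : ∀ᶠ N in (U : Filter ℕ), M.G.D (M.pp q Z b₂)
      (List.replicate (i₂ N - i₁ N) .s ++
        wd (pat (allI (3 * κ) R c₂)) (mP (3 * κ) R) (eV (3 * κ) R c₂ (D N) (i₂ N) (j₂ N)) ++
        List.replicate (i₂ N - i₁ N) .si))
    (hctx₁ : ∀ᶠ N in (U : Filter ℕ), ∀ V, M.G.D (M.pp q Z b₁) V →
        evw (List.replicate (i₁ N) .s ++ V ++ List.replicate (j₁ N) .si) ≠ 1)
    (hctx₂ : ∀ᶠ N in (U : Filter ℕ), ∀ V, M.G.D (M.pp q Z b₂) V →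
        evw (List.replicate (i₂ N) .s ++ V ++ List.replicate (j₂ N) .si) ≠ 1) : False := by
  classical
  have hpos := xrP_pos (3 * κ) R
  have hmVm : mVP (3 * κ) R ≤ mP (3 * κ) R := by
    unfold mVP mP
    omega
  have hmVx : mVP (3 * κ) R ≤ xrP (3 * κ) R := by
    unfold mVP xrP
    omega
  have hmV0 : 0 < mVP (3 * κ) R := by
    unfold mVP
    omega
  have hxm : xrP (3 * κ) R < mP (3 * κ) R := by
    rw [mP_eq]
    omega
  have hlarge : ∀ᶠ N in (U : Filter ℕ), 2 * (C * D N) < D N ^ (nU (3 * κ) R + 7) := by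
    filter_upwards [hD (2 * C + 1)] with N hN
    calc 2 * (C * D N) = (2 * C) * D N := by ring
      _ < D N * D N := Nat.mul_lt_mul_of_pos_right (by omega) (by omega)
      _ = D N ^ 2 := by ring
      _ ≤ D N ^ (nU (3 * κ) R + 7) := Nat.pow_le_pow_right (by omega) (by omega)
  -- exponents of the two middle words
  let e₁ : ℕ → ℕ → ℕ := fun N => eV (3 * κ) R c₁ (D N) (i₁ N) (j₁ N)
  let e₂ : ℕ → ℕ → ℕ := fun N p => eV (3 * κ) R c₂ (D N) (i₂ N) (j₂ N) p +
    (if p = 0 then i₂ N - i₁ N else 0) + (if p = xrP (3 * κ) R then i₂ N - i₁ N else 0)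
  have hV₂' : ∀ᶠ N in (U : Filter ℕ), M.G.D (M.pp q Z b₂)
      (wd (pat (allI (3 * κ) R c₁)) (mP (3 * κ) R) (e₂ N)) := by
    filter_upwards [hV₂] with N hN
    have h1 := wd_ends (pat (allI (3 * κ) R c₂)) (xrP (3 * κ) R) (i₂ N - i₁ N) (i₂ N - i₁ N)
      (eV (3 * κ) R c₂ (D N) (i₂ N) (j₂ N))
    rw [pat_zero, pat_last] at h1
    rw [mP_eq, h1, pat_indep (3 * κ) R c₂ c₁] at hN
    rw [mP_eq]
    exact hN
  -- the joint family
  let eJ : ℕ → Option Bool × ℕ → ℕ := fun N x => match x with
    | (none, p) => if p < mVP (3 * κ) R then e₁ N p else 0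
    | (some false, p) => if mVP (3 * κ) R ≤ p ∧ p < mP (3 * κ) R then e₁ N p else 0
    | (some true, p) => if mVP (3 * κ) R ≤ p ∧ p < mP (3 * κ) R then e₂ N p else 0
  have hcommon : ∀ᶠ N in (U : Filter ℕ), ∀ p, p < mVP (3 * κ) R → e₂ N p = e₁ N p := by
    filter_upwards [hij, hlarge, hle] with N h1 h2 h3 p hp
    simp only [e₁, e₂]
    unfold eV
    have hpx : p ≠ xrP (3 * κ) R := by omega
    rw [expo_indep (3 * κ) R c₂ c₁ (D N) p hp]
    by_cases hp0 : p = 0
    · subst hp0
      rw [expo_zero]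
      simp only [if_true, hpx, if_false]
      omega
    · simp [hp0, hpx]
  let π := pat (allI (3 * κ) R c₁)
  have hwV : ∀ N, (wd π (mVP (3 * κ) R) fun p => eJ N (none, p)) =
      wd π (mVP (3 * κ) R) (e₁ N) := by
    intro N
    apply wd_congr
    intro p hp
    simp [eJ, hp]
  have hwF : ∀ (f g : ℕ → ℕ), (∀ p, mVP (3 * κ) R ≤ p → p < mP (3 * κ) R → f p = g p) →
      wdF π (mVP (3 * κ) R) (mP (3 * κ) R) f = wdF π (mVP (3 * κ) R) (mP (3 * κ) R) g := by
    intro f g h
    unfold wdF
    apply wd_congr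
    intro p hp
    exact h _ (Nat.le_add_right _ _) (by omega)
  have hJ : ∀ᶠ N in (U : Filter ℕ), JGram.D M.G M.K (M.jj q Z b₁ b₂)
      (wd π (mVP (3 * κ) R) fun p => eJ N (none, p))
      (wdF π (mVP (3 * κ) R) (mP (3 * κ) R) fun p => eJ N (some false, p))
      (wdF π (mVP (3 * κ) R) (mP (3 * κ) R) fun p => eJ N (some true, p)) := by
    filter_upwards [hV₁, hV₂', hcommon] with N h1 h2 h3
    rw [M.joint, hwV]
    constructor
    · rw [hwF (fun p => eJ N (some false, p)) (e₁ N) (fun p h4 h5 => by simp [eJ, h4, h5]),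
        ← wd_split_at π _ _ hmVm]
      exact h1
    · rw [hwF (fun p => eJ N (some true, p)) (e₂ N) (fun p h4 h5 => by simp [eJ, h4, h5]),
        wd_congr π (mVP (3 * κ) R) (e₁ N) (e₂ N) (fun p hp => (h3 p hp).symm),
        ← wd_split_at π _ _ hmVm]
      exact h2
  obtain ⟨H, hHm, hH⟩ := fl_joint M.G M.finG M.K M.finK π (mVP (3 * κ) R) (mP (3 * κ) R) hmV0
    (by omega) U D hD (M.jj q Z b₁ b₂) eJ
    (Filter.Eventually.of_forall fun N p hp => by
      have : ¬ p < mVP (3 * κ) R := by omega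
      simp [eJ, this])
    (Filter.Eventually.of_forall fun N ε p hp => by
      have : ¬ (mVP (3 * κ) R ≤ p ∧ p < mP (3 * κ) R) := by omega
      cases ε <;> simp [eJ, this]) hJ
  -- the two families
  have hF₁ : Fam U D (3 * κ) R c₁ (eP (mVP (3 * κ) R) eJ false) i₁ j₁ (fun _ => 0) := by
    refine ⟨⟨C, ?_⟩, ?_⟩
    · filter_upwards [hij] with N h1
      refine ⟨h1.1, h1.2.1, ?_⟩
      simp
      positivity
    · filter_upwards [hij, hlarge] with N h1 h2 p
      have h3 : (eP (mVP (3 * κ) R) eJ false N p : ℕ) = if p < mP (3 * κ) R then e₁ N p else 0 := by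
        unfold eP
        simp only [eJ]
        by_cases h4 : p < mVP (3 * κ) R
        · have h5 : p < mP (3 * κ) R := by omega
          simp [h4, h5]
        · have h5 : mVP (3 * κ) R ≤ p := by omega
          simp [h4, h5]
      rw [h3]
      simp only [e₁]
      unfold eV Asm.tot
      by_cases hp0 : p = 0
      · subst hp0
        have h4 : (0 : ℕ) ≠ xrP (3 * κ) R := by omega
        have h5 : (0 : ℕ) ≠ 7 * (nU (3 * κ) R + 3) := by omega
        have h6 : 0 < mP (3 * κ) R := by omega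
        simp only [if_true, h4, h5, h6, if_false]
        rw [expo_zero]
        have h7 : D N ^ (nU (3 * κ) R + 7) - i₁ N - 0 + i₁ N = D N ^ (nU (3 * κ) R + 7) := by omega
        have h8 : ((D N ^ (nU (3 * κ) R + 7) - i₁ N - 0 : ℕ) : ℤ) + (i₁ N : ℤ) =
            ((D N ^ (nU (3 * κ) R + 7) : ℕ) : ℤ) := by exact_mod_cast h7
        linarith
      · by_cases hpl : p = xrP (3 * κ) R
        · subst hpl
          have h7 : xrP (3 * κ) R = 7 * (nU (3 * κ) R + 3) := rfl
          simp only [hp0, hxm, if_true, if_false]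
          rw [← h7]
          simp only [if_true]
          rw [h7, expo_last]
          have h5 : D N ^ (nU (3 * κ) R + 7) - 0 - j₁ N + j₁ N = D N ^ (nU (3 * κ) R + 7) := by
            omega
          have h6 : ((D N ^ (nU (3 * κ) R + 7) - 0 - j₁ N : ℕ) : ℤ) + (j₁ N : ℤ) =
              ((D N ^ (nU (3 * κ) R + 7) : ℕ) : ℤ) := by exact_mod_cast h5
          linarith
        · have h4 : p ≠ 7 * (nU (3 * κ) R + 3) := hpl
          simp only [hp0, hpl, h4, if_false]
          by_cases h5 : p < mP (3 * κ) R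
          · simp [h5]
          · rw [if_neg h5, expo_big]
            rw [mP_eq] at h5
            unfold xrP at h5 hpl
            omega
  have hF₂ : Fam U D (3 * κ) R c₂ (eP (mVP (3 * κ) R) eJ true) i₂ j₂
      (fun N => ((i₂ N - i₁ N : ℕ) : ℤ)) := by
    refine ⟨⟨C, ?_⟩, ?_⟩
    · filter_upwards [hij] with N h1
      refine ⟨h1.2.2.1, h1.2.2.2, ?_⟩
      rw [abs_of_nonneg (by positivity)]
      have : i₂ N - i₁ N ≤ C * D N := by omega
      exact_mod_cast this
    · filter_upwards [hij, hlarge, hcommon] with N h1 h2 hcom p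
      have h3 : (eP (mVP (3 * κ) R) eJ true N p : ℕ) = if p < mP (3 * κ) R then e₂ N p else 0 := by
        unfold eP
        simp only [eJ]
        by_cases h4 : p < mVP (3 * κ) R
        · have h5 : p < mP (3 * κ) R := by omega
          simp only [h4, h5, if_true]
          exact (hcom p h4).symm
        · have h5 : mVP (3 * κ) R ≤ p := by omega
          simp [h4, h5]
      rw [h3]
      simp only [e₂]
      unfold eV Asm.tot
      by_cases hp0 : p = 0
      · subst hp0
        have h4 : (0 : ℕ) ≠ xrP (3 * κ) R := by omega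
        have h5 : (0 : ℕ) ≠ 7 * (nU (3 * κ) R + 3) := by omega
        have h6 : 0 < mP (3 * κ) R := by omega
        simp only [if_true, h4, h5, h6, if_false]
        rw [expo_zero]
        have h7 : D N ^ (nU (3 * κ) R + 7) - i₂ N - 0 + (i₂ N - i₁ N) + 0 + i₂ N =
            D N ^ (nU (3 * κ) R + 7) + (i₂ N - i₁ N) := by omega
        have h8 : ((D N ^ (nU (3 * κ) R + 7) - i₂ N - 0 + (i₂ N - i₁ N) + 0 : ℕ) : ℤ) +
            (i₂ N : ℤ) = ((D N ^ (nU (3 * κ) R + 7) : ℕ) : ℤ) + ((i₂ N - i₁ N : ℕ) : ℤ) := by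
          exact_mod_cast h7
        linarith
      · by_cases hpl : p = xrP (3 * κ) R
        · subst hpl
          have h7 : xrP (3 * κ) R = 7 * (nU (3 * κ) R + 3) := rfl
          simp only [hp0, hxm, if_true, if_false]
          rw [← h7]
          simp only [if_true]
          rw [h7, expo_last]
          have h5 : D N ^ (nU (3 * κ) R + 7) - 0 - j₂ N + 0 + (i₂ N - i₁ N) + j₂ N =
              D N ^ (nU (3 * κ) R + 7) + (i₂ N - i₁ N) := by
            omega
          have h6 : ((D N ^ (nU (3 * κ) R + 7) - 0 - j₂ N + 0 + (i₂ N - i₁ N) : ℕ) : ℤ) +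
              (j₂ N : ℤ) = ((D N ^ (nU (3 * κ) R + 7) : ℕ) : ℤ) + ((i₂ N - i₁ N : ℕ) : ℤ) := by
            exact_mod_cast h5
          linarith
        · have h4 : p ≠ 7 * (nU (3 * κ) R + 3) := hpl
          simp only [hp0, hpl, h4, if_false]
          by_cases h5 : p < mP (3 * κ) R
          · simp [h5]
          · rw [if_neg h5, expo_big]
            rw [mP_eq] at h5
            unfold xrP at h5 hpl
            omega
  -- realizability for both futures
  have hcomb : ∀ (r : Option Bool × ℕ → ℕ) (ε : Bool),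
      (wd π (mVP (3 * κ) R) fun p => r (none, p)) ++
        (wdF π (mVP (3 * κ) R) (mP (3 * κ) R) fun p => r (some ε, p)) =
      wd π (mP (3 * κ) R) fun p => if p < mVP (3 * κ) R then r (none, p) else r (some ε, p) := by
    intro r ε
    rw [wd_split_at π _ _ hmVm (fun p => if p < mVP (3 * κ) R then r (none, p) else r (some ε, p))]
    congr 1
    · apply wd_congr
      intro p hp
      simp [hp]
    · apply hwF
      intro p hp _
      have : ¬ p < mVP (3 * κ) R := by omega
      simp [this]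
  have hreal₁ : ∀ᶠ N in (U : Filter ℕ), ∀ n' : (projHD H false).T → ℕ, (∀ t, 1 ≤ n' t) →
      evw (List.replicate (i₁ N) .s ++ wd (pat (allI (3 * κ) R c₁)) (mP (3 * κ) R)
        (fun p => (projHD H false).r N p + ∑ t, n' t * (projHD H false).w t p) ++
        List.replicate (j₁ N) .si) ≠ 1 := by
    filter_upwards [hH, hctx₁] with N h1 h2 n' hn'
    apply h2
    have h3 := ((M.joint q Z b₁ b₂ _ _ _).1 (h1 n' hn')).1
    have h4 := hcomb (fun x => H.r N x + ∑ t : H.T, n' t * H.w t x) false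
    rw [h4] at h3
    refine (congrArg (M.G.D (M.pp q Z b₁)) ?_).mp h3
    apply wd_congr
    intro p _
    show _ = (if p < mVP (3 * κ) R then H.r N (none, p) else H.r N (some false, p)) +
      ∑ t : H.T, n' t * (if p < mVP (3 * κ) R then H.w t (none, p) else H.w t (some false, p))
    by_cases hp : p < mVP (3 * κ) R
    · simp [hp]
    · simp [hp]
  have hreal₂ : ∀ᶠ N in (U : Filter ℕ), ∀ n' : (projHD H true).T → ℕ, (∀ t, 1 ≤ n' t) →
      evw (List.replicate (i₂ N) .s ++ wd (pat (allI (3 * κ) R c₂)) (mP (3 * κ) R)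
        (fun p => (projHD H true).r N p + ∑ t, n' t * (projHD H true).w t p) ++
        List.replicate (j₂ N) .si) ≠ 1 := by
    filter_upwards [hH, hctx₂] with N h1 h2 n' hn'
    apply h2
    have h3 := ((M.joint q Z b₁ b₂ _ _ _).1 (h1 n' hn')).2
    have h4 := hcomb (fun x => H.r N x + ∑ t : H.T, n' t * H.w t x) true
    rw [h4] at h3
    rw [pat_indep (3 * κ) R c₂ c₁]
    refine (congrArg (M.G.D (M.pp q Z b₂)) ?_).mp h3
    apply wd_congr
    intro p _
    show _ = (if p < mVP (3 * κ) R then H.r N (none, p) else H.r N (some true, p)) +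
      ∑ t : H.T, n' t * (if p < mVP (3 * κ) R then H.w t (none, p) else H.w t (some true, p))
    by_cases hp : p < mVP (3 * κ) R
    · simp [hp]
    · simp [hp]
  obtain ⟨hn₁, _⟩ := hF₁.noflag hD hdiv (projHD H false) hk hc₁ hreal₁
  obtain ⟨hn₂, _⟩ := hF₂.noflag hD hdiv (projHD H true) hk hc₂ hreal₂
  -- the labels agree
  let TH : H.T → Prop := fun t => ∀ C : ℕ, ∀ᶠ N in (U : Filter ℕ), C * D N ^ 2 < H.n t N
  let pr : Bool → H.T → ℕ → ℚ := fun ε t p => (((projHD H ε).w t p : ℕ) : ℚ)
  have hprsp : ∀ ε, {x | ∃ t, TH t ∧ x = pr ε t} =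
      {x | ∃ t, (projHD H ε).TH t ∧ x = fun p => ((projHD H ε).w t p : ℚ)} := by
    intro ε
    rfl
  have hagree : ∀ t, TH t → pr false t = pr true t := by
    refine label_agree hD H (mP (3 * κ) R) 0 (xrP (3 * κ) R) hmV0 hmVx hxm
      (Filter.Eventually.of_forall fun N x hx => ?_)
      (fun p => ∃ a, IsZ (3 * κ) R a ∧ (p = 7 * a ∨ p = 7 * a + 6))
      (fun p => if p % 7 = 0 then p + 6 else p - 6) ?_ ?_ ?_ pr ?_ TH (fun t => Iff.rfl) ?_ ?_ ?_
    · obtain ⟨o, p⟩ := x
      have hp : mP (3 * κ) R ≤ p := hx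
      have h1 : ¬ p < mVP (3 * κ) R := by omega
      have h2 : ¬ p < mP (3 * κ) R := by omega
      rcases o with _ | _ | _ <;> simp [eJ, h1, h2]
    · rintro p ⟨a, ha, hpa⟩
      have hle' := ha.le
      have ha1 := ha.1
      have h0 : 7 * a % 7 = 0 := by omega
      have h6 : (7 * a + 6) % 7 = 6 := by omega
      have hmv : 7 * a + 6 < mVP (3 * κ) R := by
        unfold mVP
        omega
      have hmv0 : 7 * a < mVP (3 * κ) R := by omega
      have hx1 : 7 * a ≠ xrP (3 * κ) R := by omega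
      have hx2 : 7 * a + 6 ≠ xrP (3 * κ) R := by omega
      have hx3 : 7 * a ≠ 0 := by omega
      have heq : ∀ N, eJ N (none, 7 * a) = eJ N (none, 7 * a + 6) := by
        intro N
        simp only [eJ, hmv, hmv0, if_true, e₁]
        unfold eV
        obtain ⟨he1, he2⟩ := expo_zone (3 * κ) R c₁ (D N) a ha
        rw [he1, he2]
        simp [hx1, hx2, hx3]
      rcases hpa with rfl | rfl
      · rw [if_pos h0, if_neg (by omega)]
        refine ⟨⟨a, ha, Or.inr rfl⟩, by omega, hmv0, by omega, ?_⟩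
        exact Filter.Eventually.of_forall fun N => (heq N).symm
      · rw [if_neg (by omega)]
        have h7 : 7 * a + 6 - 6 = 7 * a := by omega
        rw [h7, if_pos h0]
        refine ⟨⟨a, ha, Or.inl rfl⟩, by omega, hmv, by omega, ?_⟩
        exact Filter.Eventually.of_forall fun N => heq N
    · intro p hp hp0
      by_cases hpV : p < mVP (3 * κ) R
      swap
      · refine ⟨0, Filter.Eventually.of_forall fun N => ?_⟩
        simp [eJ, hpV]
      obtain ⟨C', hC'⟩ := expo_prof (allI (3 * κ) R c₁) p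
      refine ⟨C' + 1, ?_⟩
      filter_upwards [hD 0] with N hN
      have h1 := (abs_le.1 (hC' (D N) hN)).2
      have hpx : p ≠ xrP (3 * κ) R := by omega
      have h2 : eJ N (none, p) = expo (D N) (allI (3 * κ) R c₁) p := by
        simp only [eJ, hpV, if_true, e₁]
        unfold eV
        simp [hp0, hpx]
      rw [h2]
      have h3 : (if 2 ≤ degI (allI (3 * κ) R c₁) p then
          (D N : ℤ) ^ degI (allI (3 * κ) R c₁) p else 0) ≤ (D N : ℤ) ^ 2 := by
        rcases deg_cases (3 * κ) R c₁ p with h | h | ⟨a, hZ, hpa, h⟩ | h | h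
        · rw [h]
          simp
        · rw [h]
          simp
        · exact absurd ⟨a, hZ, hpa⟩ hp
        · exact absurd h hp0
        · exact absurd h hpx
      have h4 : (1 : ℤ) ≤ D N := by exact_mod_cast hN
      have h5 : (C' : ℤ) * D N ≤ C' * (D N : ℤ) ^ 2 := by
        apply mul_le_mul_of_nonneg_left _ (by positivity)
        nlinarith
      have h6 : (expo (D N) (allI (3 * κ) R c₁) p : ℤ) ≤ (C' + 1) * (D N : ℤ) ^ 2 := by
        linarith
      exact_mod_cast h6
    · intro ε p hpx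
      by_cases hpV : mVP (3 * κ) R ≤ p ∧ p < mP (3 * κ) R
      swap
      · refine ⟨0, Filter.Eventually.of_forall fun N => ?_⟩
        cases ε <;> simp [eJ, hpV]
      have hp0 : p ≠ 0 := by omega
      have main : ∀ c : ℕ, ∃ C' : ℕ, ∀ᶠ N in (U : Filter ℕ),
          expo (D N) (allI (3 * κ) R c) p ≤ C' * D N ^ 2 := by
        intro c
        obtain ⟨C', hC'⟩ := expo_prof (allI (3 * κ) R c) p
        refine ⟨C' + 1, ?_⟩
        filter_upwards [hD 0] with N hN
        have h1 := (abs_le.1 (hC' (D N) hN)).2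
        have h3 : (if 2 ≤ degI (allI (3 * κ) R c) p then
            (D N : ℤ) ^ degI (allI (3 * κ) R c) p else 0) ≤ (D N : ℤ) ^ 2 := by
          rcases deg_cases (3 * κ) R c p with h | h | ⟨a, hZ, hpa, h⟩ | h | h
          · rw [h]
            simp
          · rw [h]
            simp
          · exfalso
            have := hZ.le
            have h5 := hpV.1
            unfold mVP at h5
            omega
          · exact absurd h hp0
          · exact absurd h hpx
        have h4 : (1 : ℤ) ≤ D N := by exact_mod_cast hN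
        have h5 : (C' : ℤ) * D N ≤ C' * (D N : ℤ) ^ 2 := by
          apply mul_le_mul_of_nonneg_left _ (by positivity)
          nlinarith
        have h6 : (expo (D N) (allI (3 * κ) R c) p : ℤ) ≤ (C' + 1) * (D N : ℤ) ^ 2 := by
          linarith
        exact_mod_cast h6
      rcases ε with _ | _
      · obtain ⟨C', hC'⟩ := main c₁
        refine ⟨C', hC'.mono fun N hN => ?_⟩
        simp only [eJ, hpV, and_self, if_true, e₁]
        unfold eV
        simp only [hp0, hpx, if_false, Nat.sub_zero]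
        exact hN
      · obtain ⟨C', hC'⟩ := main c₂
        refine ⟨C', hC'.mono fun N hN => ?_⟩
        simp only [eJ, hpV, and_self, if_true, e₂]
        unfold eV
        simp only [hp0, hpx, if_false, Nat.sub_zero, Nat.add_zero]
        exact hN
    · intro ε t p
      simp only [pr]
      show (((if p < mVP (3 * κ) R then H.w t (none, p) else H.w t (some ε, p) : ℕ)) : ℚ) = _
      split_ifs <;> rfl
    · intro ε p
      rintro ⟨a, ha, hpa⟩
      rw [hprsp]
      have h0 : 7 * a % 7 = 0 := by omega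
      have h6 : ¬ (7 * a + 6) % 7 = 0 := by omega
      have h7 : 7 * a + 6 - 6 = 7 * a := by omega
      have key : uv (7 * a) + uv (7 * a + 6) ∈ Submodule.span ℚ
          {x | ∃ t, (projHD H ε).TH t ∧ x = fun p => ((projHD H ε).w t p : ℚ)} := by
        rcases ε with _ | _
        · exact hF₁.pairZ hD (projHD H false) a ha
        · exact hF₂.pairZ hD (projHD H true) a ha
      rcases hpa with rfl | rfl
      · rw [if_pos h0]
        exact key
      · rw [if_neg h6, h7, add_comm]
        exact key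
    · intro ε
      rw [hprsp]
      rcases ε with _ | _
      · exact hF₁.pairX hD (projHD H false)
      · exact hF₂.pairX hD (projHD H true)
    · intro ε
      rw [hprsp]
      rcases ε with _ | _
      · exact fun h => hn₁ (th_span_le _ h)
      · exact fun h => hn₂ (th_span_le _ h)
  have hw : ∀ t, TH t → ∀ p, (projHD H false).w t p = (projHD H true).w t p := by
    intro t ht p
    have h1 := congrFun (hagree t ht) p
    simp only [pr] at h1
    exact_mod_cast h1
  have hconn : ∀ x y, (projHD H false).Conn x y ↔ (projHD H true).Conn x y := by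
    intro x y
    constructor
    · intro h
      refine Relation.ReflTransGen.mono (fun a b hab => ?_) x y h
      obtain ⟨t, ht, h1, h2⟩ := hab
      refine ⟨t, ht, ?_, ?_⟩
      · rw [← hw t ht a]
        exact h1
      · rw [← hw t ht b]
        exact h2
    · intro h
      refine Relation.ReflTransGen.mono (fun a b hab => ?_) x y h
      obtain ⟨t, ht, h1, h2⟩ := hab
      refine ⟨t, ht, ?_, ?_⟩
      · rw [hw t ht a]
        exact h1
      · rw [hw t ht b]
        exact h2
  have hlab : labH (projHD H false) = labH (projHD H true) := by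
    funext a
    unfold labH
    simp only [hconn]
  obtain ⟨F, hKG⟩ := hk (labH (projHD H false)) 0
  obtain ⟨t₁, ht₁, hF1⟩ := hF₁.label hD (projHD H false) F 0 hKG hc₁ hreal₁
  rw [hlab] at hKG
  obtain ⟨t₂, ht₂, hF2⟩ := hF₂.label hD (projHD H true) F 0 hKG hc₂ hreal₂
  have h1 : t₁ = t₂ := by
    have h2 : t₁ ∈ F := by rw [hF1]; exact rfl
    rw [hF2] at h2
    exact h2
  unfold suppC at ht₁ ht₂
  simp only [Set.mem_insert_iff, Set.mem_singleton_iff] at ht₁ ht₂
  omega

end Pool.Agent.Lib.CoCF.Asm
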