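import Pool.Agent.Lib.CoCF.Asm12

/-!
# Assembly, part 13: the main theorem
-/

set_option autoImplicit false

namespace Pool.Agent.Lib.CoCF.Asm

open Pool.Agent.Lib.CoCF

theorem base_ne_one (k R c D : ℕ) (hD : 1 ≤ D) : evw (wC k R c D) ≠ 1 := by
  have h1 : wC k R c D = wd (pat (allI k R c)) (7 * (allI k R c).length) (expo D (allI k R c)) := by
    unfold wC
    rw [allI_length]
    symm
    apply wd_extend
    · unfold mP
      omega
    · intro p hp _
      apply expo_big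
      unfold mP at hp
      omega
  rw [h1, eval_words k R c D hD 0 0 0 0 0 (fun a => by
    have : (1 : ℤ) ≤ D := by exact_mod_cast hD
    simp only [Pi.zero_apply, add_zero]
    nlinarith) _ (fun a h => by simp at h) (fun p _ => by simp)]
  have h2 : valI D (fun a => (0 : ℕ → ℤ) a + (0 : ℕ → ℤ) a) 0 1 (UI k R) = 1 := by
    have h3 : (fun a => (0 : ℕ → ℤ) a + (0 : ℕ → ℤ) a) = 0 := by
      funext a
      simp
    rw [h3]
    exact valI_UI_one D k R 1
  rw [h2, one_mul]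
  intro h
  apply omv_ne_one D c hD
  have h4 : (sg 0) ^ ((D : ℤ) ^ ((allI k R c).length + 3) + 0) * omv D c *
      ((sg 0) ^ ((D : ℤ) ^ ((allI k R c).length + 3) + 0))⁻¹ = 1 := by
    rw [← zpow_neg]
    rw [← h]
    congr 2
  have h5 := mul_inv_eq_one.1 h4
  exact mul_eq_left.1 h5

theorem main : ¬ ∃ M : DPDA Ltr, ∀ w, w ∈ M.guessLang ↔ evw w ≠ 1 := by
  classical
  rintro ⟨M₀, hM₀⟩
  obtain ⟨M, hM⟩ := exists_MG M₀
  have hL : ∀ w, M.G.D (M.st M.q₀) w ↔ evw w ≠ 1 := fun w => (hM w).trans (hM₀ w)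
  let U : Ultrafilter ℕ := Filter.hyperfilter ℕ
  let D : ℕ → ℕ := fun N => N.factorial
  have hev : ∀ (P : ℕ → Prop), (∃ N₀, ∀ N, N₀ ≤ N → P N) → ∀ᶠ N in (U : Filter ℕ), P N := by
    intro P hP
    exact Nat.hyperfilter_le_atTop (Filter.eventually_atTop.2 hP)
  have hD : ∀ C : ℕ, ∀ᶠ N in (U : Filter ℕ), C < D N := fun C =>
    hev _ ⟨C + 1, fun N hN => lt_of_lt_of_le (Nat.lt_of_succ_le hN) (Nat.self_le_factorial N)⟩
  have hdiv : ∀ K : ℕ, 0 < K → ∀ᶠ N in (U : Filter ℕ), K ∣ D N := fun K hK =>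
    hev _ ⟨K, fun N hN => Nat.dvd_factorial hK hN⟩
  obtain ⟨A, hA0, hA⟩ := exists_Astar M
  have := M.finQ
  have := M.finΓ
  let κ : ℕ := Nat.card (M.Q × M.Γ × Fin A) + 2
  obtain ⟨R, hR⟩ := kill_group κ (by omega)
  have hk : ∀ lab bad, ∃ F, KG κ R lab bad F := hR
  have hmid := fun c : Fin κ => middle U D hD hdiv M hL κ R c hk c.2
    ((hD 0).mono fun N hN => base_ne_one _ _ _ _ hN)
  choose C q Z b i j hij hV hctx using hmid
  have hres : ∀ c : Fin κ, ∃ ρ : Fin A, ∀ᶠ N in (U : Filter ℕ), i c N % A = ρ := by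
    intro c
    obtain ⟨ρ, h1, h2⟩ := uf_const_nat U (fun N => i c N % A) A
      (Filter.Eventually.of_forall fun N => Nat.mod_lt _ hA0)
    exact ⟨⟨ρ, h1⟩, h2⟩
  choose ρ hρ using hres
  obtain ⟨c₁, c₂, hne, heq⟩ : ∃ c₁ c₂ : Fin κ, c₁ ≠ c₂ ∧
      (q c₁, Z c₁, ρ c₁) = (q c₂, Z c₂, ρ c₂) := by
    by_contra hcon
    push Not at hcon
    have hinj : Function.Injective fun c : Fin κ => ((q c, Z c, ρ c) : M.Q × M.Γ × Fin A) := by
      intro c c' h
      by_contra hne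
      exact hcon c c' hne h
    have h1 := Nat.card_le_card_of_injective _ hinj
    rw [Nat.card_eq_fintype_card, Fintype.card_fin] at h1
    omega
  have hq : q c₁ = q c₂ := congrArg Prod.fst heq
  have hZ : Z c₁ = Z c₂ := congrArg (fun x => x.2.1) heq
  have hr : ρ c₁ = ρ c₂ := congrArg (fun x => x.2.2) heq
  have key : ∀ c c' : Fin κ, c ≠ c' → q c = q c' → Z c = Z c' → ρ c = ρ c' →
      (∀ᶠ N in (U : Filter ℕ), i c N ≤ i c' N) → False := by
    intro c c' hne hq hZ hr hle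
    have hp := pump U D hD hdiv M κ R c' hk c'.2 A hA (M.pp (q c') (Z c') (b c')) (i c') (j c')
      (C c') (hij c') (hV c') (hctx c')
    refine joint_contra U D hD hdiv M κ R hk (q c) (Z c) (b c) (b c') c c' c.2 c'.2
      (fun h => hne (Fin.ext h)) (i c) (j c) (i c') (j c') (C c + C c') ?_ hle (hV c) ?_ (hctx c) ?_
    · filter_upwards [hij c, hij c'] with N h1 h2
      refine ⟨h1.1.trans ?_, h1.2.trans ?_, h2.1.trans ?_, h2.2.trans ?_⟩
      · exact Nat.mul_le_mul_right _ (Nat.le_add_right _ _)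
      · exact Nat.mul_le_mul_right _ (Nat.le_add_right _ _)
      · exact Nat.mul_le_mul_right _ (Nat.le_add_left _ _)
      · exact Nat.mul_le_mul_right _ (Nat.le_add_left _ _)
    · filter_upwards [hp, hle, hρ c, hρ c'] with N h1 h2 h3 h4
      rw [hq, hZ]
      have h5 : A ∣ i c' N - i c N := by
        rw [← Nat.modEq_iff_dvd' h2]
        unfold Nat.ModEq
        rw [h3, h4, hr]
      obtain ⟨m, hm⟩ := h5
      rw [hm, Nat.mul_comm A m]
      exact h1 m
    · rw [hq, hZ]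
      exact hctx c'
  have hor : ∀ᶠ N in (U : Filter ℕ), i c₁ N ≤ i c₂ N ∨ i c₂ N ≤ i c₁ N :=
    Filter.Eventually.of_forall fun N => le_total _ _
  rcases Ultrafilter.eventually_or.1 hor with h | h
  · exact key c₁ c₂ hne hq hZ hr h
  · exact key c₂ c₁ (Ne.symm hne) hq.symm hZ.symm hr.symm h

end Pool.Agent.Lib.CoCF.Asm
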