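import Pool.Agent.Lib.CoCF.Asm1

/-!
# Assembly, part 2: the exponents of the words
-/

set_option autoImplicit false

namespace Pool.Agent.Lib.CoCF.Asm

open Pool.Agent.Lib.CoCF

theorem ex_prof (x : Item) (n a b : ℕ) : ∃ C : ℕ, ∀ D : ℕ, 1 ≤ D →
    |(x.ex D n a b : ℤ) - (if 2 ≤ x.deg n a b then (D : ℤ) ^ x.deg n a b else 0)| ≤ C * D := by
  have key : ∀ (u v C : ℕ) (D : ℕ), (u : ℤ) ≤ v + C * D → v ≤ u →
      |(u : ℤ) - (v : ℤ)| ≤ C * D := by
    intro u v C D h1 h2
    rw [abs_le]
    constructor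
    · have : (0 : ℤ) ≤ C * D := by positivity
      push_cast at *
      linarith [(by exact_mod_cast h2 : (v : ℤ) ≤ u)]
    · linarith
  have hmul : ∀ i D : ℕ, D * i - 1 ≤ i * D := by
    intro i D
    rw [Nat.mul_comm]
    omega
  rcases x with _ | _ | ⟨i, j⟩ | ⟨i, j⟩ | t
  · rcases b with _ | b
    · refine ⟨0, fun D hD => ?_⟩
      simp [Item.ex, Item.deg]
    · refine ⟨0, fun D hD => ?_⟩
      simp [Item.ex, Item.deg]
  · rcases b with _ | b
    · refine ⟨0, fun D hD => ?_⟩
      simp [Item.ex, Item.deg]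
    · refine ⟨0, fun D hD => ?_⟩
      simp [Item.ex, Item.deg]
  · rcases b with _ | _ | _ | _ | _ | _ | _ | b
    · refine ⟨0, fun D hD => ?_⟩
      simp [Item.ex, Item.deg]
    · refine ⟨i, fun D hD => ?_⟩
      simp only [Item.ex, Item.deg, le_refl, if_true, Nat.zero_add]
      push_cast
      rw [abs_le]
      constructor <;> nlinarith [(by positivity : (0 : ℤ) ≤ D * i)]
    · refine ⟨j, fun D hD => ?_⟩
      have h1 : D * (j - i) - 1 ≤ j * D :=
        (hmul (j - i) D).trans (Nat.mul_le_mul_right D (Nat.sub_le j i))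
      have := key (D * (j - i) - 1) 0 j D (by push_cast; rw [zero_add]; exact_mod_cast h1)
        (Nat.zero_le _)
      simpa [Item.ex, Item.deg] using this
    · refine ⟨1, fun D hD => ?_⟩
      simp [Item.ex, Item.deg]
      exact_mod_cast hD
    · refine ⟨j, fun D hD => ?_⟩
      have h1 : D * (j - i) - 1 ≤ j * D :=
        (hmul (j - i) D).trans (Nat.mul_le_mul_right D (Nat.sub_le j i))
      have := key (D * (j - i) - 1) 0 j D (by push_cast; rw [zero_add]; exact_mod_cast h1)
        (Nat.zero_le _)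
      simpa [Item.ex, Item.deg] using this
    · refine ⟨i, fun D hD => ?_⟩
      simp only [Item.ex, Item.deg, le_refl, if_true, Nat.zero_add]
      push_cast
      rw [abs_le]
      constructor <;> nlinarith [(by positivity : (0 : ℤ) ≤ D * i)]
    · refine ⟨0, fun D hD => ?_⟩
      simp [Item.ex, Item.deg]
    · refine ⟨0, fun D hD => ?_⟩
      simp [Item.ex, Item.deg]
  · rcases b with _ | _ | _ | _ | _ | b
    · refine ⟨i, fun D hD => ?_⟩
      simp [Item.ex, Item.deg]
      rw [mul_comm]
    · refine ⟨j, fun D hD => ?_⟩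
      have h1 : D * (j - i) - 1 ≤ j * D :=
        (hmul (j - i) D).trans (Nat.mul_le_mul_right D (Nat.sub_le j i))
      have := key (D * (j - i) - 1) 0 j D (by push_cast; rw [zero_add]; exact_mod_cast h1)
        (Nat.zero_le _)
      simpa [Item.ex, Item.deg] using this
    · refine ⟨1, fun D hD => ?_⟩
      simp [Item.ex, Item.deg]
      exact_mod_cast hD
    · refine ⟨j, fun D hD => ?_⟩
      have h1 : D * (j - i) - 1 ≤ j * D :=
        (hmul (j - i) D).trans (Nat.mul_le_mul_right D (Nat.sub_le j i))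
      have := key (D * (j - i) - 1) 0 j D (by push_cast; rw [zero_add]; exact_mod_cast h1)
        (Nat.zero_le _)
      simpa [Item.ex, Item.deg] using this
    · refine ⟨i, fun D hD => ?_⟩
      simp [Item.ex, Item.deg]
      rw [mul_comm]
    · refine ⟨0, fun D hD => ?_⟩
      simp [Item.ex, Item.deg]
  · rcases b with _ | _ | _ | _ | _ | b
    · refine ⟨t + 1, fun D hD => ?_⟩
      simp only [Item.ex, Item.deg]
      norm_num
      rw [abs_le]
      have : (1 : ℤ) ≤ D := by exact_mod_cast hD
      constructor <;> nlinarith [(by positivity : (0 : ℤ) ≤ D * t)]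
    · refine ⟨t, fun D hD => ?_⟩
      simp only [Item.ex, Item.deg, le_refl, if_true, Nat.zero_add]
      push_cast
      rw [abs_le]
      constructor <;> nlinarith [(by positivity : (0 : ℤ) ≤ D * t)]
    · refine ⟨1, fun D hD => ?_⟩
      simp [Item.ex, Item.deg]
      exact_mod_cast hD
    · refine ⟨t, fun D hD => ?_⟩
      simp only [Item.ex, Item.deg, le_refl, if_true, Nat.zero_add]
      push_cast
      rw [abs_le]
      constructor <;> nlinarith [(by positivity : (0 : ℤ) ≤ D * t)]
    · refine ⟨t + 1, fun D hD => ?_⟩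
      simp only [Item.ex, Item.deg]
      norm_num
      rw [abs_le]
      have : (1 : ℤ) ≤ D := by exact_mod_cast hD
      constructor <;> nlinarith [(by positivity : (0 : ℤ) ≤ D * t)]
    · refine ⟨0, fun D hD => ?_⟩
      simp [Item.ex, Item.deg]

theorem expo_prof (l : List Item) (p : ℕ) : ∃ C : ℕ, ∀ D : ℕ, 1 ≤ D →
    |(expo D l p : ℤ) - (if 2 ≤ degI l p then (D : ℤ) ^ degI l p else 0)| ≤ C * D := by
  unfold expo degI
  by_cases h : p / 7 < l.length
  · simp only [h, if_true]
    exact ex_prof _ _ _ _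
  · refine ⟨0, fun D hD => ?_⟩
    simp [h]

end Pool.Agent.Lib.CoCF.Asm
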