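import Pool.Agent.Lib.CoCF.Asm2

/-!
# Assembly, part 3: positions and degrees in the list of items of `w_c`
-/

set_option autoImplicit false

namespace Pool.Agent.Lib.CoCF.Asm

open Pool.Agent.Lib.CoCF

/-- number of items of `UI` -/
def nU (k R : ℕ) : ℕ := (UI k R).length

theorem allI_length (k R c : ℕ) : (allI k R c).length = nU k R + 4 := by
  unfold allI omI nU
  simp

theorem allI_zero (k R c : ℕ) : (allI k R c).getD 0 .xl = .xl := by
  unfold allI
  simp

theorem allI_U (k R c a : ℕ) (h1 : 1 ≤ a) (h2 : a ≤ nU k R) :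
    (allI k R c).getD a .xl = (UI k R).getD (a - 1) .xl := by
  obtain ⟨b, rfl⟩ := Nat.exists_eq_add_of_le' h1
  unfold nU at h2
  unfold allI
  rw [Nat.add_sub_cancel, List.getD_eq_getElem?_getD, List.getD_eq_getElem?_getD]
  simp only [List.cons_append, List.nil_append, List.append_assoc, List.getElem?_cons_succ]
  rw [List.getElem?_append_left (by omega)]

theorem allI_ge (k R c a : ℕ) (h1 : nU k R + 1 ≤ a) :
    (allI k R c).getD a .xl = (omI c ++ [Item.xr]).getD (a - (nU k R + 1)) .xl := by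
  obtain ⟨b, rfl⟩ := Nat.exists_eq_add_of_le' (by omega : 1 ≤ a)
  unfold nU at h1 ⊢
  unfold allI
  rw [List.getD_eq_getElem?_getD, List.getD_eq_getElem?_getD]
  simp only [List.cons_append, List.nil_append, List.append_assoc, List.getElem?_cons_succ]
  rw [List.getElem?_append_right (by omega), Nat.add_sub_add_right]

theorem om_get (c b : ℕ) : (omI c ++ [Item.xr]).getD b .xl =
    if b = 0 then .aop (3 * c + 1) (3 * c + 2) else if b = 1 then .aop (3 * c + 2) (3 * c + 3)
    else if b = 2 then .xr else .xl := by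
  unfold omI
  rcases b with _ | _ | _ | b <;> simp

theorem mem_UI (k R : ℕ) (x : Item) (h : x ∈ UI k R) :
    (∃ i j, x = .zone i j) ∨ (∃ i j, x = .aop i j) ∨ ∃ t, x = .csw t := by
  unfold UI at h
  rw [List.mem_flatten] at h
  obtain ⟨l, hl, hx⟩ := h
  rw [List.mem_replicate] at hl
  rw [hl.2] at hx
  unfold roundI at hx
  rw [List.mem_flatMap] at hx
  obtain ⟨t, _, hx⟩ := hx
  rw [List.mem_append, List.mem_append] at hx
  rcases hx with (hx | hx) | hx
  · rw [List.mem_singleton] at hx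
    exact Or.inr (Or.inr ⟨t, hx⟩)
  · unfold stepI at hx
    rw [List.mem_flatMap] at hx
    obtain ⟨g, _, hx⟩ := hx
    rw [List.mem_flatMap] at hx
    obtain ⟨h, _, hx⟩ := hx
    unfold cell at hx
    simp only [List.mem_append, List.mem_replicate, List.mem_singleton] at hx
    rcases hx with ((⟨_, hx⟩ | hx) | ⟨_, hx⟩) | hx
    · exact Or.inl ⟨_, _, hx⟩
    · exact Or.inr (Or.inl ⟨_, _, hx⟩)
    · exact Or.inl ⟨_, _, hx⟩
    · exact Or.inr (Or.inl ⟨_, _, hx⟩)
  · rw [List.mem_singleton] at hx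
    exact Or.inr (Or.inr ⟨t, hx⟩)

theorem U_get (k R a : ℕ) (h1 : 1 ≤ a) (h2 : a ≤ nU k R) :
    ∃ x, (UI k R)[a - 1]? = some x ∧ (UI k R).getD (a - 1) .xl = x ∧
      ((∃ i j, x = .zone i j) ∨ (∃ i j, x = .aop i j) ∨ ∃ t, x = .csw t) := by
  have h3 : a - 1 < (UI k R).length := by
    unfold nU at h2
    omega
  refine ⟨(UI k R)[a - 1], List.getElem?_eq_getElem h3, ?_, mem_UI k R _ (List.getElem_mem h3)⟩
  rw [List.getD_eq_getElem?_getD, List.getElem?_eq_getElem h3]
  rfl

/-- item number `a` is a zone -/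
def IsZ (k R a : ℕ) : Prop := 1 ≤ a ∧ ∃ i j, (UI k R)[a - 1]? = some (.zone i j)

theorem IsZ.le {k R a : ℕ} (h : IsZ k R a) : a ≤ nU k R := by
  obtain ⟨h1, i, j, h2⟩ := h
  have := (List.getElem?_eq_some_iff.1 h2).1
  unfold nU
  omega

theorem IsZ.get {k R a : ℕ} (h : IsZ k R a) (c : ℕ) : ∃ i j, (allI k R c).getD a .xl = .zone i j := by
  obtain ⟨h1, i, j, h2⟩ := id h
  refine ⟨i, j, ?_⟩
  rw [allI_U k R c a h1 h.le, List.getD_eq_getElem?_getD, h2]
  rfl

theorem pat_indep (k R c c' : ℕ) : pat (allI k R c) = pat (allI k R c') := by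
  funext p
  unfold pat
  by_cases h1 : p / 7 = 0
  · rw [h1, allI_zero, allI_zero]
  · by_cases h2 : p / 7 ≤ nU k R
    · rw [allI_U k R c _ (by omega) h2, allI_U k R c' _ (by omega) h2]
    · rw [allI_ge k R c _ (by omega), allI_ge k R c' _ (by omega), om_get, om_get]
      have key : ∀ i j i' j' b : ℕ, (Item.aop i j).ltr b = (Item.aop i' j').ltr b := by
        intro i j i' j' b
        rcases b with _ | _ | _ | _ | b <;> rfl
      split_ifs
      · exact key _ _ _ _ _
      · exact key _ _ _ _ _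
      · rfl
      · rfl

theorem expo_indep (k R c c' D p : ℕ) (hp : p < 7 * (nU k R + 1)) :
    expo D (allI k R c) p = expo D (allI k R c') p := by
  unfold expo
  rw [allI_length, allI_length]
  have h0 : p / 7 < nU k R + 4 := by omega
  simp only [h0, if_true]
  by_cases h1 : p / 7 = 0
  · rw [h1, allI_zero, allI_zero]
  · rw [allI_U k R c _ (by omega) (by omega), allI_U k R c' _ (by omega) (by omega)]

theorem expo_zero (k R c D : ℕ) : expo D (allI k R c) 0 = D ^ (nU k R + 7) := by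
  unfold expo
  rw [allI_length, Nat.zero_div, allI_zero, if_pos (by omega)]
  rfl

theorem expo_last (k R c D : ℕ) : expo D (allI k R c) (7 * (nU k R + 3)) = D ^ (nU k R + 7) := by
  unfold expo
  rw [allI_length]
  have h1 : 7 * (nU k R + 3) / 7 = nU k R + 3 := by omega
  have h2 : 7 * (nU k R + 3) % 7 = 0 := by omega
  rw [h1, h2, allI_ge k R c _ (by omega), om_get]
  have h3 : nU k R + 3 - (nU k R + 1) = 2 := by omega
  simp [h3, Item.ex]

theorem expo_big (k R c D p : ℕ) (hp : 7 * (nU k R + 3) < p) : expo D (allI k R c) p = 0 := by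
  unfold expo
  rw [allI_length]
  by_cases h1 : p / 7 < nU k R + 4
  · have h2 : p / 7 = nU k R + 3 := by omega
    obtain ⟨b, hb⟩ : ∃ b, p % 7 = b + 1 := ⟨p % 7 - 1, by omega⟩
    rw [h2, allI_ge k R c _ (by omega), om_get]
    have h3 : nU k R + 3 - (nU k R + 1) = 2 := by omega
    rw [h3, hb]
    simp [Item.ex]
  · simp [h1]

theorem expo_zone (k R c D a : ℕ) (h : IsZ k R a) :
    expo D (allI k R c) (7 * a) = D ^ (a + 3) ∧ expo D (allI k R c) (7 * a + 6) = D ^ (a + 3) := by
  obtain ⟨i, j, h1⟩ := h.get c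
  have h2 := h.le
  unfold expo
  rw [allI_length]
  have h3 : 7 * a / 7 = a := by omega
  have h4 : 7 * a % 7 = 0 := by omega
  have h5 : (7 * a + 6) / 7 = a := by omega
  have h6 : (7 * a + 6) % 7 = 6 := by omega
  have h7 : a < nU k R + 4 := by omega
  rw [h3, h4, h5, h6, h1]
  simp [h7, Item.ex]

theorem deg_zone (k R c a : ℕ) (h : IsZ k R a) :
    degI (allI k R c) (7 * a) = a + 3 ∧ degI (allI k R c) (7 * a + 6) = a + 3 ∧
    degI (allI k R c) (7 * a + 1) = 2 ∧ degI (allI k R c) (7 * a + 5) = 2 ∧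
    ∀ p, 7 * a < p → p < 7 * a + 6 → degI (allI k R c) p = 2 → p = 7 * a + 1 ∨ p = 7 * a + 5 := by
  obtain ⟨i, j, h1⟩ := h.get c
  have h2 := h.le
  have key : ∀ b, b < 7 → degI (allI k R c) (7 * a + b) =
      (Item.zone i j).deg (nU k R + 4) a b := by
    intro b hb
    unfold degI
    rw [allI_length]
    have h3 : (7 * a + b) / 7 = a := by omega
    have h4 : (7 * a + b) % 7 = b := by omega
    have h7 : a < nU k R + 4 := by omega
    rw [h3, h4, h1]
    simp [h7]
  have k0 := key 0 (by norm_num)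
  rw [Nat.add_zero] at k0
  refine ⟨k0, key 6 (by norm_num), key 1 (by norm_num), key 5 (by norm_num), ?_⟩
  intro p hp1 hp2 hd
  obtain ⟨b, rfl⟩ := Nat.exists_eq_add_of_lt hp1
  have hb : b < 5 := by omega
  rw [show 7 * a + b + 1 = 7 * a + (b + 1) by ring, key (b + 1) (by omega)] at hd
  interval_cases b
  · exact Or.inl rfl
  · simp [Item.deg] at hd
  · simp [Item.deg] at hd
  · simp [Item.deg] at hd
  · exact Or.inr rfl

theorem deg_zero (k R c : ℕ) : degI (allI k R c) 0 = nU k R + 7 := by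
  unfold degI
  rw [allI_length, Nat.zero_div, allI_zero, if_pos (by omega)]
  rfl

theorem deg_last (k R c : ℕ) : degI (allI k R c) (7 * (nU k R + 3)) = nU k R + 7 := by
  unfold degI
  rw [allI_length]
  have h1 : 7 * (nU k R + 3) / 7 = nU k R + 3 := by omega
  have h2 : 7 * (nU k R + 3) % 7 = 0 := by omega
  rw [h1, h2, allI_ge k R c _ (by omega), om_get]
  have h3 : nU k R + 3 - (nU k R + 1) = 2 := by omega
  simp [h3, Item.deg]

/-- the possible degrees -/
theorem deg_cases (k R c p : ℕ) : degI (allI k R c) p = 0 ∨ degI (allI k R c) p = 2 ∨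
    (∃ a, IsZ k R a ∧ (p = 7 * a ∨ p = 7 * a + 6) ∧ degI (allI k R c) p = a + 3) ∨
    (p = 0 ∨ p = 7 * (nU k R + 3)) := by
  by_cases hp0 : p = 0
  · exact Or.inr (Or.inr (Or.inr (Or.inl hp0)))
  by_cases hpl : p = 7 * (nU k R + 3)
  · exact Or.inr (Or.inr (Or.inr (Or.inr hpl)))
  have hp7 : p = 7 * (p / 7) + p % 7 := by omega
  have hmod : p % 7 < 7 := Nat.mod_lt _ (by norm_num)
  unfold degI
  rw [allI_length]
  by_cases h0 : p / 7 < nU k R + 4
  swap
  · simp [h0]
  simp only [h0, if_true]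
  by_cases h1 : p / 7 = 0
  · rw [h1, allI_zero]
    obtain ⟨b, hb⟩ : ∃ b, p % 7 = b + 1 := ⟨p % 7 - 1, by omega⟩
    rw [hb]
    exact Or.inl rfl
  by_cases h2 : p / 7 ≤ nU k R
  · obtain ⟨x, hx1, hx2, hx3⟩ := U_get k R (p / 7) (by omega) h2
    rw [allI_U k R c _ (by omega) h2, hx2]
    rcases hx3 with ⟨i, j, rfl⟩ | ⟨i, j, rfl⟩ | ⟨t, rfl⟩
    · have hz : IsZ k R (p / 7) := ⟨by omega, i, j, hx1⟩
      generalize p % 7 = b at hp7 hmod ⊢
      interval_cases b
      · exact Or.inr (Or.inr (Or.inl ⟨p / 7, hz, Or.inl (by omega), rfl⟩))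
      · exact Or.inr (Or.inl rfl)
      · exact Or.inl rfl
      · exact Or.inl rfl
      · exact Or.inl rfl
      · exact Or.inr (Or.inl rfl)
      · exact Or.inr (Or.inr (Or.inl ⟨p / 7, hz, Or.inr (by omega), rfl⟩))
    · left
      generalize p % 7 = b at hp7 hmod ⊢
      interval_cases b <;> rfl
    · generalize p % 7 = b at hp7 hmod ⊢
      interval_cases b
      · exact Or.inl rfl
      · exact Or.inr (Or.inl rfl)
      · exact Or.inl rfl
      · exact Or.inr (Or.inl rfl)
      · exact Or.inl rfl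
      · exact Or.inl rfl
      · exact Or.inl rfl
  · rw [allI_ge k R c _ (by omega), om_get]
    left
    split_ifs with h3 h4 h5
    · generalize p % 7 = b at hp7 hmod ⊢
      interval_cases b <;> rfl
    · generalize p % 7 = b at hp7 hmod ⊢
      interval_cases b <;> rfl
    · obtain ⟨b, hb⟩ : ∃ b, p % 7 = b + 1 := ⟨p % 7 - 1, by omega⟩
      rw [hb]
      rfl
    · omega

end Pool.Agent.Lib.CoCF.Asm
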