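import Pool.Agent.Lib.CoCF.Iface

/-!
# Growth and linear algebra (chunk E of BLUEPRINT.md)
-/

set_option autoImplicit false

namespace Pool.Agent.Lib.CoCF

open Filter Polynomial

/-! ### Bounded growth along an ultrafilter -/

/-- `f` is at most of order `D ^ k` along `U` -/
def BdO (U : Ultrafilter ℕ) (D : ℕ → ℕ) (k : ℕ) (f : ℕ → ℚ) : Prop :=
  ∃ C : ℕ, ∀ᶠ N in (U : Filter ℕ), |f N| ≤ C * (D N : ℚ) ^ k

section Growth

variable {U : Ultrafilter ℕ} {D : ℕ → ℕ}

theorem BdO.add {k : ℕ} {f g : ℕ → ℚ} (hf : BdO U D k f) (hg : BdO U D k g) :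
    BdO U D k (fun N => f N + g N) := by
  obtain ⟨C, hC⟩ := hf
  obtain ⟨C', hC'⟩ := hg
  refine ⟨C + C', ?_⟩
  filter_upwards [hC, hC'] with N h h'
  refine (abs_add_le _ _).trans ?_
  push_cast
  linarith

theorem BdO.zero (k : ℕ) : BdO U D k (fun _ => 0) :=
  ⟨0, Eventually.of_forall fun N => by simp⟩

theorem BdO.sum {k : ℕ} {ι : Type*} (s : Finset ι) {f : ι → ℕ → ℚ} (hf : ∀ i ∈ s, BdO U D k (f i)) :
    BdO U D k (fun N => ∑ i ∈ s, f i N) := by
  classical
  induction s using Finset.induction_on with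
  | empty => simpa using BdO.zero k
  | insert a s ha ih =>
    simp only [Finset.sum_insert ha]
    exact (hf a (Finset.mem_insert_self a s)).add (ih fun i hi => hf i (Finset.mem_insert_of_mem hi))

theorem BdO.const_mul {k : ℕ} {f : ℕ → ℚ} (c : ℚ) (hf : BdO U D k f) : BdO U D k (fun N => c * f N) := by
  obtain ⟨C, hC⟩ := hf
  refine ⟨⌈|c|⌉₊ * C, ?_⟩
  filter_upwards [hC] with N h
  rw [abs_mul]
  push_cast
  have h1 : |c| ≤ ⌈|c|⌉₊ := Nat.le_ceil _
  calc |c| * |f N| ≤ ⌈|c|⌉₊ * (C * (D N : ℚ) ^ k) :=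
        mul_le_mul h1 h (abs_nonneg _) (by positivity)
    _ = ⌈|c|⌉₊ * C * (D N : ℚ) ^ k := by ring

theorem BdO.mul_const {k : ℕ} {f : ℕ → ℚ} (c : ℚ) (hf : BdO U D k f) : BdO U D k (fun N => f N * c) := by
  simpa [mul_comm] using hf.const_mul c

theorem BdO.congr {k : ℕ} {f g : ℕ → ℚ} (hf : BdO U D k f) (h : ∀ᶠ N in (U : Filter ℕ), f N = g N) :
    BdO U D k g := by
  obtain ⟨C, hC⟩ := hf
  refine ⟨C, ?_⟩
  filter_upwards [hC, h] with N h1 h2
  rw [← h2]; exact h1

theorem BdO.mono {k k' : ℕ} (hD : ∀ C : ℕ, ∀ᶠ N in (U : Filter ℕ), C < D N) (h : k ≤ k') {f : ℕ → ℚ}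
    (hf : BdO U D k f) : BdO U D k' f := by
  obtain ⟨C, hC⟩ := hf
  refine ⟨C, ?_⟩
  filter_upwards [hC, hD 0] with N h1 h2
  refine h1.trans ?_
  have : (1 : ℚ) ≤ D N := by exact_mod_cast h2
  exact mul_le_mul_of_nonneg_left (pow_le_pow_right₀ this h) (by positivity)

theorem tendsto_D (hD : ∀ C : ℕ, ∀ᶠ N in (U : Filter ℕ), C < D N) :
    Tendsto (fun N => (D N : ℚ)) (U : Filter ℕ) atTop := by
  rw [tendsto_atTop]
  intro b
  filter_upwards [hD ⌈b⌉₊] with N h
  have h1 : b ≤ ⌈b⌉₊ := Nat.le_ceil b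
  have h2 : ((⌈b⌉₊ : ℕ) : ℚ) < D N := by exact_mod_cast h
  linarith

/-- a polynomial in `D` that is `O(D ^ k)` has degree at most `k` -/
theorem BdO.coeff_eq_zero (hD : ∀ C : ℕ, ∀ᶠ N in (U : Filter ℕ), C < D N) {k : ℕ} (P : ℚ[X])
    (h : BdO U D k (fun N => P.eval (D N : ℚ))) (l : ℕ) (hl : k < l) : P.coeff l = 0 := by
  by_contra hne
  have hdeg : (X ^ k : ℚ[X]).degree < P.degree := by
    rw [degree_X_pow]
    refine lt_of_lt_of_le ?_ (le_degree_of_ne_zero hne)
    exact_mod_cast hl
  have hQ : (X ^ k : ℚ[X]) ≠ 0 := pow_ne_zero _ X_ne_zero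
  have h1 := (abs_div_tendsto_atTop_atTop_of_degree_gt P (X ^ k : ℚ[X]) hdeg hQ).comp (tendsto_D hD)
  obtain ⟨C, hC⟩ := h
  have h2 := h1.eventually_gt_atTop (C : ℚ)
  have h3 : ∀ᶠ N in (U : Filter ℕ), False := by
    filter_upwards [h2, hC, hD 0] with N h4 h5 h6
    simp only [Function.comp_apply, eval_pow, eval_X, abs_div] at h4
    have hpos : (0 : ℚ) < D N := by exact_mod_cast h6
    rw [abs_of_pos (pow_pos hpos k), lt_div_iff₀ (pow_pos hpos k)] at h4
    linarith
  exact (U.neBot).ne (eventually_false_iff_eq_bot.1 h3)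

end Growth

/-! ### Linear algebra -/

/-- separation by a linear functional -/
theorem mem_of_functional (S : Submodule ℚ (ℕ → ℚ)) (x : ℕ → ℚ)
    (h : ∀ φ : (ℕ → ℚ) →ₗ[ℚ] ℚ, (∀ s ∈ S, φ s = 0) → φ x = 0) : x ∈ S := by
  by_contra hx
  obtain ⟨f, hf, hf'⟩ := S.exists_dual_map_eq_bot_of_notMem hx inferInstance
  refine hf (h f fun s hs => ?_)
  have : f s ∈ S.map f := Submodule.mem_map_of_mem hs
  rw [hf'] at this
  simpa using this

theorem exists_functional (S : Submodule ℚ (ℕ → ℚ)) (x : ℕ → ℚ) (hx : x ∉ S) :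
    ∃ φ : (ℕ → ℚ) →ₗ[ℚ] ℚ, φ x = 1 ∧ ∀ s ∈ S, φ s = 0 := by
  obtain ⟨f, hf, hf'⟩ := S.exists_dual_map_eq_bot_of_notMem hx inferInstance
  refine ⟨(f x)⁻¹ • f, ?_, ?_⟩
  · simp [inv_mul_cancel₀ hf]
  · intro s hs
    have : f s ∈ S.map f := Submodule.mem_map_of_mem hs
    rw [hf'] at this
    have h0 : f s = 0 := by simpa using this
    simp [h0]

theorem uv_apply (p q : ℕ) : uv p q = if q = p then 1 else 0 := by
  simp [uv, Pi.single_apply]

/-- a vector supported below `m` is a combination of unit vectors -/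
theorem eq_sum_uv (m : ℕ) (x : ℕ → ℚ) (hx : ∀ p, m ≤ p → x p = 0) :
    x = ∑ p ∈ Finset.range m, x p • uv p := by
  funext q
  simp only [Finset.sum_apply, Pi.smul_apply, uv_apply, smul_eq_mul, mul_ite, mul_one, mul_zero,
    Finset.sum_ite_eq, Finset.mem_range]
  split_ifs with h
  · rfl
  · exact hx q (not_lt.1 h)

section HDlemmas

variable {U : Ultrafilter ℕ} {D : ℕ → ℕ} {e : ℕ → ℕ → ℕ}

/-- the rational vector of `t` -/
def HD.wv (H : HD U D e) (t : H.T) : ℕ → ℚ := fun p => (H.w t p : ℚ)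

theorem HD.w_zero (H : HD U D e) {m : ℕ} (hm : ∀ᶠ N in (U : Filter ℕ), ∀ p, m ≤ p → e N p = 0)
    (t : H.T) (p : ℕ) (hp : m ≤ p) : H.w t p = 0 := by
  have h : ∀ᶠ N in (U : Filter ℕ), H.w t p = 0 := by
    filter_upwards [hm, H.eq, H.big t 0] with N h1 h2 h3
    have h4 := h2 p
    rw [h1 p hp] at h4
    have h5 : ∑ t, H.n t N * H.w t p = 0 := by omega
    have h6 := (Finset.sum_eq_zero_iff.1 h5) t (Finset.mem_univ t)
    rcases Nat.mul_eq_zero.1 h6 with h | h
    · omega
    · exact h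
  exact h.exists.choose_spec

theorem HD.phi_wv (H : HD U D e) {m : ℕ} (hm : ∀ᶠ N in (U : Filter ℕ), ∀ p, m ≤ p → e N p = 0)
    (φ : (ℕ → ℚ) →ₗ[ℚ] ℚ) (t : H.T) :
    φ (H.wv t) = ∑ p ∈ Finset.range m, (H.w t p : ℚ) * φ (uv p) := by
  rw [eq_sum_uv m (H.wv t) fun p hp => by simp [HD.wv, H.w_zero hm t p hp], map_sum]
  simp [HD.wv]

/-- Coefficient extraction. -/
theorem HD.extract_phi (hD : ∀ C : ℕ, ∀ᶠ N in (U : Filter ℕ), C < D N) (H : HD U D e) (m : ℕ)
    (deg : ℕ → ℕ) (z : Option ℕ) (hP : Profile U D e m deg z) (φ : (ℕ → ℚ) →ₗ[ℚ] ℚ)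
    (hz : ∀ p, z = some p → φ (uv p) = 0) (k : ℕ) (hk : 1 ≤ k)
    (hφ : ∀ t, φ (H.wv t) ≠ 0 → BdO U D k (fun N => (H.n t N : ℚ))) (l : ℕ) (hl : 2 ≤ l)
    (hkl : k < l) : ∑ p ∈ (Finset.range m).filter (fun p => deg p = l), φ (uv p) = 0 := by
  classical
  obtain ⟨hP1, hm⟩ := hP
  set P : ℚ[X] := ∑ p ∈ Finset.range m,
    if 2 ≤ deg p then C (φ (uv p)) * X ^ (deg p) else 0 with hPdef
  have hcoeff : P.coeff l = ∑ p ∈ (Finset.range m).filter (fun p => deg p = l), φ (uv p) := by
    rw [hPdef, finsetSum_coeff, Finset.sum_filter]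
    apply Finset.sum_congr rfl
    intro p _
    by_cases h2 : 2 ≤ deg p
    · rw [if_pos h2, coeff_C_mul_X_pow]
      by_cases hpl : deg p = l
      · rw [if_pos hpl, if_pos hpl.symm]
      · rw [if_neg hpl, if_neg (Ne.symm hpl)]
    · rw [if_neg h2, coeff_zero, if_neg (by omega)]
  rw [← hcoeff]
  refine BdO.coeff_eq_zero hD P ?_ l hkl
  have heval : ∀ N, P.eval (D N : ℚ) =
      ∑ p ∈ Finset.range m, φ (uv p) * (if 2 ≤ deg p then (D N : ℚ) ^ deg p else 0) := by
    intro N
    rw [hPdef, eval_finsetSum]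
    apply Finset.sum_congr rfl
    intro p _
    split_ifs <;> simp
  -- first part: differences
  have h1 : BdO U D k (fun N => ∑ p ∈ Finset.range m, φ (uv p) *
      ((if 2 ≤ deg p then (D N : ℚ) ^ deg p else 0) - e N p)) := by
    refine BdO.sum _ fun p _ => ?_
    by_cases hpz : some p = z
    · rw [hz p hpz.symm]
      simpa using BdO.zero k
    · refine BdO.mono hD hk ((?_ : BdO U D 1 _).const_mul _)
      obtain ⟨C, hC⟩ := hP1 p hpz
      refine ⟨C, ?_⟩
      filter_upwards [hC] with N hN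
      rw [abs_sub_comm, pow_one]
      have : ((|(e N p : ℤ) - (if 2 ≤ deg p then (D N : ℤ) ^ deg p else 0)| : ℤ) : ℚ) ≤
          ((C * D N : ℤ) : ℚ) := by exact_mod_cast hN
      push_cast at this
      split_ifs at this ⊢ <;> simpa using this
  have h2 : BdO U D k (fun N => ∑ p ∈ Finset.range m, (H.r N p : ℚ) * φ (uv p)) := by
    refine BdO.sum _ fun p _ => (BdO.mono hD hk ?_).mul_const _
    obtain ⟨C, hC⟩ := H.small p
    refine ⟨C, ?_⟩
    filter_upwards [hC] with N hN
    rw [pow_one, abs_of_nonneg (by positivity)]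
    exact_mod_cast hN
  have h3 : BdO U D k (fun N => ∑ t, (H.n t N : ℚ) * φ (H.wv t)) := by
    refine BdO.sum _ fun t _ => ?_
    by_cases ht : φ (H.wv t) = 0
    · rw [ht]
      simpa using BdO.zero k
    · exact (hφ t ht).mul_const _
  have h4 : ∀ᶠ N in (U : Filter ℕ), ∑ p ∈ Finset.range m, (e N p : ℚ) * φ (uv p) =
      ∑ p ∈ Finset.range m, (H.r N p : ℚ) * φ (uv p) + ∑ t, (H.n t N : ℚ) * φ (H.wv t) := by
    filter_upwards [H.eq] with N hN
    have : ∀ t, (H.n t N : ℚ) * φ (H.wv t) =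
        ∑ p ∈ Finset.range m, (H.n t N : ℚ) * ((H.w t p : ℚ) * φ (uv p)) := by
      intro t
      rw [H.phi_wv hm φ t, Finset.mul_sum]
    simp_rw [this]
    rw [Finset.sum_comm, ← Finset.sum_add_distrib]
    apply Finset.sum_congr rfl
    intro p _
    have h5 := hN p
    have h6 : (e N p : ℚ) = H.r N p + ∑ t, (H.n t N : ℚ) * H.w t p := by
      rw [h5]; push_cast; rfl
    rw [h6, add_mul, Finset.sum_mul]
    congr 1
    apply Finset.sum_congr rfl
    intro t _
    ring
  refine (h1.add (h2.add h3)).congr ?_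
  filter_upwards [h4] with N h5
  rw [heval, ← h5, ← Finset.sum_add_distrib]
  apply Finset.sum_congr rfl
  intro p _
  ring

/-- indicator function of a set of positions, rational valued -/
theorem sum_uv_eq (m : ℕ) (Q : ℕ → Prop) [DecidablePred Q] :
    (fun p => if p < m ∧ Q p then (1 : ℚ) else 0) = ∑ p ∈ (Finset.range m).filter Q, uv p := by
  funext q
  simp only [Finset.sum_apply, uv_apply, Finset.sum_ite_eq, Finset.mem_filter, Finset.mem_range]

/-- Coefficient extraction as a membership. -/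
theorem HD.extract_mem (hD : ∀ C : ℕ, ∀ᶠ N in (U : Filter ℕ), C < D N) (H : HD U D e) (m : ℕ)
    (deg : ℕ → ℕ) (z : Option ℕ) (hP : Profile U D e m deg z) (S : Submodule ℚ (ℕ → ℚ)) (k : ℕ)
    (hk : 1 ≤ k) (hS : ∀ t, H.wv t ∉ S → BdO U D k (fun N => (H.n t N : ℚ))) (l : ℕ) (hl : 2 ≤ l)
    (hkl : k < l) : ∃ c : ℕ → ℚ, (∀ p, some p ≠ z → c p = 0) ∧
      (fun p => if p < m ∧ deg p = l then (1 : ℚ) else 0) + c ∈ S := by
  classical
  set Z : Submodule ℚ (ℕ → ℚ) := Submodule.span ℚ {v | ∃ p, z = some p ∧ v = uv p} with hZ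
  have hx : (fun p => if p < m ∧ deg p = l then (1 : ℚ) else 0) ∈ S ⊔ Z := by
    apply mem_of_functional
    intro φ hφ
    rw [sum_uv_eq, map_sum]
    refine H.extract_phi hD m deg z hP φ ?_ k hk ?_ l hl hkl
    · intro p hp
      exact hφ _ (Submodule.mem_sup_right (Submodule.subset_span ⟨p, hp, rfl⟩))
    · intro t ht
      refine hS t fun hmem => ht ?_
      exact hφ _ (Submodule.mem_sup_left hmem)
  obtain ⟨s, hs, c, hc, hsc⟩ := Submodule.mem_sup.1 hx
  refine ⟨-c, ?_, ?_⟩
  · intro p hp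
    have hle : Z ≤ LinearMap.ker (LinearMap.proj (R := ℚ) (φ := fun _ : ℕ => ℚ) p) := by
      rw [hZ, Submodule.span_le]
      rintro v ⟨q, hq, rfl⟩
      simp only [SetLike.mem_coe, LinearMap.mem_ker, LinearMap.proj_apply, uv_apply]
      rw [if_neg]
      rintro rfl
      exact hp hq.symm
    have := hle hc
    simp only [LinearMap.mem_ker, LinearMap.proj_apply] at this
    simp [this]
  · rw [← hsc]
    simpa using hs

/-- restriction of a vector of a span to a set of positions that is compatible with the generators -/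
theorem indicator_mem (W : Set (ℕ → ℚ)) (K : Set ℕ)
    (hW : ∀ w ∈ W, (∀ p, w p ≠ 0 → p ∈ K) ∨ (∀ p, w p ≠ 0 → p ∉ K)) (x : ℕ → ℚ)
    (hx : x ∈ Submodule.span ℚ W) : K.indicator x ∈ Submodule.span ℚ W := by
  induction hx using Submodule.span_induction with
  | mem w hw =>
    rcases hW w hw with h | h
    · have : K.indicator w = w := by
        rw [Set.indicator_eq_self]
        intro p hp
        exact h p hp
      rw [this]
      exact Submodule.subset_span hw
    · have : K.indicator w = 0 := by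
        rw [Set.indicator_eq_zero']
        rw [Set.disjoint_left]
        intro p hp
        exact h p hp
      rw [this]
      exact Submodule.zero_mem _
  | zero => rw [Set.indicator_zero']; exact Submodule.zero_mem _
  | add x y _ _ hx hy => rw [Set.indicator_add']; exact Submodule.add_mem _ hx hy
  | smul a x _ hx =>
    have : K.indicator (a • x) = a • K.indicator x := by
      exact Set.indicator_const_smul K a x
    rw [this]
    exact Submodule.smul_mem _ a hx

/-- the span of the vectors that are heavy at the scale `D ^ 3` -/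
def HD.spanT (H : HD U D e) : Submodule ℚ (ℕ → ℚ) :=
  Submodule.span ℚ {x | ∃ t, H.TH t ∧ x = fun p => (H.w t p : ℚ)}

theorem HD.spanT_le (H : HD U D e) : H.spanT ≤ H.span := by
  apply Submodule.span_mono
  rintro x ⟨t, _, rfl⟩
  exact ⟨t, rfl⟩

theorem HD.wv_mem_span (H : HD U D e) (t : H.T) : H.wv t ∈ H.span := Submodule.subset_span ⟨t, rfl⟩

theorem HD.wv_mem_spanT (H : HD U D e) (t : H.T) (ht : H.TH t) : H.wv t ∈ H.spanT :=
  Submodule.subset_span ⟨t, ht, rfl⟩

theorem not_TH_iff (n : ℕ → ℕ) (h : ¬ ∀ C : ℕ, ∀ᶠ N in (U : Filter ℕ), C * D N ^ 2 < n N) :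
    BdO U D 2 (fun N => (n N : ℚ)) := by
  push Not at h
  obtain ⟨C, hC⟩ := h
  refine ⟨C, ?_⟩
  filter_upwards [hC] with N hN
  rw [abs_of_nonneg (by positivity)]
  exact_mod_cast hN

theorem HD.extract_T (hD : ∀ C : ℕ, ∀ᶠ N in (U : Filter ℕ), C < D N) (H : HD U D e) (m : ℕ)
    (deg : ℕ → ℕ) (z : Option ℕ) (hP : Profile U D e m deg z) (l : ℕ) (hl : 3 ≤ l) :
    ∃ c : ℕ → ℚ, (∀ p, some p ≠ z → c p = 0) ∧
      (fun p => if p < m ∧ deg p = l then (1 : ℚ) else 0) + c ∈ H.spanT := by
  refine H.extract_mem hD m deg z hP H.spanT 2 (by norm_num) ?_ l (by omega) (by omega)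
  intro t ht
  exact not_TH_iff _ fun h => ht (H.wv_mem_spanT t h)

theorem HD.extract_D (hD : ∀ C : ℕ, ∀ᶠ N in (U : Filter ℕ), C < D N) (H : HD U D e) (m : ℕ)
    (deg : ℕ → ℕ) (z : Option ℕ) (hP : Profile U D e m deg z) :
    ∃ c : ℕ → ℚ, (∀ p, some p ≠ z → c p = 0) ∧
      (fun p => if p < m ∧ deg p = 2 then (1 : ℚ) else 0) + c ∈ H.span := by
  refine H.extract_mem hD m deg z hP H.span 1 le_rfl ?_ 2 le_rfl (by omega)
  intro t ht
  exact absurd (H.wv_mem_span t) ht

theorem pair_lemma (hD : ∀ C : ℕ, ∀ᶠ N in (U : Filter ℕ), C < D N) (H : HD U D e) (m : ℕ)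
    (deg : ℕ → ℕ)
    (hP : Profile U D e m deg none) (L R : ℕ) (hLR : L ≠ R) (l : ℕ) (hl : 3 ≤ l)
    (hLm : L < m) (hRm : R < m)
    (hL : deg L = l) (hR : deg R = l) (honly : ∀ p, deg p = l → p = L ∨ p = R ∨ m ≤ p) :
    uv L + uv R ∈ Submodule.span ℚ {x | ∃ t, H.TH t ∧ x = fun p => (H.w t p : ℚ)} := by
  obtain ⟨c, hc, hmem⟩ := H.extract_T hD m deg none hP l hl
  have hc0 : c = 0 := by
    funext p
    exact hc p (by simp)
  rw [hc0, add_zero] at hmem
  change _ ∈ H.spanT
  convert hmem using 1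
  funext p
  simp only [Pi.add_apply, uv_apply]
  by_cases h1 : p = L
  · subst h1
    simp [hLR, hLm, hL]
  · by_cases h2 : p = R
    · subst h2
      simp [h1, hRm, hR]
    · rw [if_neg h1, if_neg h2, if_neg]
      · simp
      · rintro ⟨h3, h4⟩
        rcases honly p h4 with h | h | h
        · exact h1 h
        · exact h2 h
        · omega

/-! ### Connectivity -/

/-- connectedness by an arbitrary family of vectors -/
def HD.Cn (H : HD U D e) (A : H.T → Prop) : ℕ → ℕ → Prop :=
  Relation.ReflTransGen fun p p' => ∃ t, A t ∧ H.w t p ≠ 0 ∧ H.w t p' ≠ 0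

theorem HD.Cn.symm {H : HD U D e} {A : H.T → Prop} {p p' : ℕ} (h : H.Cn A p p') : H.Cn A p' p := by
  induction h with
  | refl => exact Relation.ReflTransGen.refl
  | tail _ hpq ih =>
    obtain ⟨t, h1, h2, h3⟩ := hpq
    exact Relation.ReflTransGen.head ⟨t, h1, h3, h2⟩ ih

theorem HD.Cn.edge {H : HD U D e} {A : H.T → Prop} {t : H.T} (ht : A t) {p p' : ℕ}
    (h1 : H.w t p ≠ 0) (h2 : H.w t p' ≠ 0) : H.Cn A p p' :=
  Relation.ReflTransGen.single ⟨t, ht, h1, h2⟩

/-- a component is compatible with the vectors of the family -/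
theorem HD.Cn.compat {H : HD U D e} {A : H.T → Prop} (p₀ : ℕ) {t : H.T} (ht : A t) :
    (∀ p, H.wv t p ≠ 0 → p ∈ {p | H.Cn A p₀ p}) ∨ (∀ p, H.wv t p ≠ 0 → p ∉ {p | H.Cn A p₀ p}) := by
  by_cases h : ∃ p, H.w t p ≠ 0 ∧ H.Cn A p₀ p
  · obtain ⟨p, hp, hc⟩ := h
    left
    intro q hq
    have hq' : H.w t q ≠ 0 := by simpa [HD.wv] using hq
    exact hc.trans (HD.Cn.edge ht hp hq')
  · right
    intro q hq hc
    have hq' : H.w t q ≠ 0 := by simpa [HD.wv] using hq
    exact h ⟨q, hq', hc⟩

/-- positions in the support of one vector -/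
theorem HD.two (H : HD U D e) {t : H.T} {a b : ℕ} (ha : H.w t a ≠ 0) (hb : H.w t b ≠ 0)
    (hab : a < b) : H.lo t = a ∧ H.hi t = b := by
  have h1 := H.supp t a ha
  have h2 := H.supp t b hb
  have h3 := H.le t
  omega

/-- noncrossing: a component that has a point strictly between two connected points `a < b` (connected
by one vector) and does not contain `a` stays between them -/
theorem HD.inside (H : HD U D e) {t' : H.T} {a b : ℕ} (ha : H.w t' a ≠ 0) (hb : H.w t' b ≠ 0)
    (hab : a < b) (A : H.T → Prop) (hA : A t') (x : ℕ) (hax : a < x) (hxb : x < b)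
    (hn : ¬ H.Cn A a x) (p : ℕ) (hp : H.Cn A x p) : a < p ∧ p < b := by
  induction hp with
  | refl => exact ⟨hax, hxb⟩
  | @tail p q hxp hpq ih =>
    obtain ⟨t, ht, hp, hq⟩ := hpq
    obtain ⟨h1, h2⟩ := ih
    have hxq : H.Cn A x q := hxp.tail ⟨t, ht, hp, hq⟩
    have hqa : q ≠ a := by
      rintro rfl
      exact hn hxq.symm
    have hqb : q ≠ b := by
      rintro rfl
      exact hn ((HD.Cn.edge hA ha hb).trans hxq.symm)
    obtain ⟨h3, h4⟩ := H.two ha hb hab
    rcases lt_trichotomy q p with h | h | h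
    · obtain ⟨h5, h6⟩ := H.two hq hp h
      have := H.nc t t'
      have := H.nc t' t
      omega
    · subst h
      exact ⟨h1, h2⟩
    · obtain ⟨h5, h6⟩ := H.two hp hq h
      have := H.nc t t'
      have := H.nc t' t
      omega

/-- unit vectors of one component are proportional modulo the span -/
theorem HD.prop_mod (H : HD U D e) (x p : ℕ) (hp : H.Cn (fun _ => True) x p) :
    ∃ r : ℚ, uv p + r • uv x ∈ H.span := by
  induction hp with
  | refl =>
    refine ⟨-1, ?_⟩
    simp
  | @tail p q hxp hpq ih =>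
    obtain ⟨r, hr⟩ := ih
    obtain ⟨t, -, hp, hq⟩ := hpq
    by_cases hpq : p = q
    · subst hpq
      exact ⟨r, hr⟩
    · -- `w = α p + β q`
      have hw : H.wv t = (H.w t p : ℚ) • uv p + (H.w t q : ℚ) • uv q := by
        funext s
        simp only [HD.wv, Pi.add_apply, Pi.smul_apply, uv_apply, smul_eq_mul, mul_ite, mul_one,
          mul_zero]
        by_cases hsp : s = p
        · subst hsp
          simp [hpq]
        · by_cases hsq : s = q
          · subst hsq
            simp [Ne.symm hpq]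
          · rw [if_neg hsp, if_neg hsq]
            have : H.w t s = 0 := by
              by_contra hs
              rcases H.supp t s hs with h | h <;> rcases H.supp t p hp with h' | h' <;>
                rcases H.supp t q hq with h'' | h'' <;> omega
            simp [this]
      have hβ : (H.w t q : ℚ) ≠ 0 := by exact_mod_cast hq
      refine ⟨-((H.w t p : ℚ) / (H.w t q : ℚ)) * r, ?_⟩
      have h1 : ((H.w t q : ℚ))⁻¹ • H.wv t - ((H.w t p : ℚ) / (H.w t q : ℚ)) • (uv p + r • uv x) ∈
          H.span := Submodule.sub_mem _ (Submodule.smul_mem _ _ (H.wv_mem_span t))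
            (Submodule.smul_mem _ _ hr)
      convert h1 using 1
      rw [hw]
      funext s
      simp only [Pi.add_apply, Pi.sub_apply, Pi.smul_apply, smul_eq_mul]
      field_simp
      ring

theorem zone_lemma
    (hD : ∀ C : ℕ, ∀ᶠ N in (U : Filter ℕ), C < D N) (H : HD U D e) (m : ℕ) (deg : ℕ → ℕ)
    (z : Option ℕ) (hP : Profile U D e m deg z) (L u d R : ℕ) (hLu : L < u) (hud : u < d)
    (hdR : d < R) (hRm : R < m) (hz : ∀ p, z = some p → p < L ∨ R < p) (l : ℕ) (hl : 3 ≤ l)
    (hL : deg L = l) (hR : deg R = l) (honly : ∀ p, deg p = l → p = L ∨ p = R ∨ some p = z ∨ m ≤ p)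
    (hu : deg u = 2) (hd : deg d = 2)
    (hY : ∀ p, L < p → p < R → deg p = 2 → p = u ∨ p = d) :
    (H.Conn L R → ∃ t : ℚ, uv u + uv d + t • uv L ∈ H.span) ∧
      (¬ H.Conn L R → uv L ∈ H.span ∨ uv R ∈ H.span) := by
  classical
  constructor
  · -- connected case
    intro hconn
    obtain ⟨c, hc, hmem⟩ := H.extract_D hD m deg z hP
    set K : Set ℕ := {p | H.Cn (fun _ => True) L p} with hK
    have hRK : R ∈ K := by
      have hmono : ∀ a b, H.Conn a b → H.Cn (fun _ => True) a b := by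
        intro a b hab
        induction hab with
        | refl => exact Relation.ReflTransGen.refl
        | tail _ hpq ih =>
          obtain ⟨t, h1, h2, h3⟩ := hpq
          exact ih.tail ⟨t, trivial, h2, h3⟩
      exact hmono L R hconn
    set M : Set ℕ := {p | L < p ∧ p < R ∧ p ∉ K} with hM
    have hcompat : ∀ w ∈ Set.range (fun t p => (H.w t p : ℚ)),
        (∀ p, w p ≠ 0 → p ∈ M) ∨ (∀ p, w p ≠ 0 → p ∉ M) := by
      rintro w ⟨t, rfl⟩
      by_cases h : ∃ a, H.w t a ≠ 0 ∧ a ∈ M
      · left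
        obtain ⟨a, ha, hLa, haR, haK⟩ := h
        intro b hb
        have hb' : H.w t b ≠ 0 := by simpa using hb
        have hab : H.Cn (fun _ => True) a b := HD.Cn.edge trivial ha hb'
        have hbK : b ∉ K := fun h => haK (h.trans hab.symm)
        have hbL : b ≠ L := by
          rintro rfl
          exact hbK Relation.ReflTransGen.refl
        have hbR : b ≠ R := by
          rintro rfl
          exact hbK hRK
        refine ⟨?_, ?_, hbK⟩
        · by_contra hlt
          have hbL' : b < L := by omega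
          have hba : b < a := by omega
          have := H.inside hb' ha hba (fun _ => True) trivial L hbL' hLa
            (fun h => hbK h.symm) R hRK
          omega
        · by_contra hlt
          have hRb : R < b := by omega
          have hab' : a < b := by omega
          have := H.inside ha hb' hab' (fun _ => True) trivial R haR hRb
            (fun h => haK (hRK.trans h.symm)) L (HD.Cn.symm hRK)
          omega
      · right
        intro b hb hbM
        exact h ⟨b, by simpa using hb, hbM⟩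
    have hres := indicator_mem _ M hcompat _ hmem
    obtain ⟨ru, hru⟩ : ∃ r : ℚ, (if u ∈ K then uv u else 0) + r • uv L ∈ H.span := by
      by_cases h : u ∈ K
      · obtain ⟨r, hr⟩ := H.prop_mod L u h
        exact ⟨r, by simpa [h] using hr⟩
      · exact ⟨0, by simp [h]⟩
    obtain ⟨rd, hrd⟩ : ∃ r : ℚ, (if d ∈ K then uv d else 0) + r • uv L ∈ H.span := by
      by_cases h : d ∈ K
      · obtain ⟨r, hr⟩ := H.prop_mod L d h
        exact ⟨r, by simpa [h] using hr⟩
      · exact ⟨0, by simp [h]⟩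
    refine ⟨ru + rd, ?_⟩
    have h3 := Submodule.add_mem _ hres (Submodule.add_mem _ hru hrd)
    change _ ∈ H.span at h3
    convert h3 using 1
    funext p
    have hind : M.indicator ((fun p => if p < m ∧ deg p = 2 then (1 : ℚ) else 0) + c) p =
        (if u ∈ K then 0 else uv u p) + (if d ∈ K then 0 else uv d p) := by
      by_cases hpM : p ∈ M
      · rw [Set.indicator_of_mem hpM]
        obtain ⟨h4, h5, h6⟩ := hpM
        have hcp : c p = 0 := by
          apply hc
          intro h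
          have := hz p h.symm
          omega
        simp only [Pi.add_apply, hcp, add_zero, uv_apply]
        by_cases hdeg : deg p = 2
        · rw [if_pos ⟨by omega, hdeg⟩]
          rcases hY p h4 h5 hdeg with h | h
          · subst h
            rw [if_neg h6]
            have : p ≠ d := by omega
            simp [this]
          · subst h
            rw [if_neg (c := p ∈ K) h6]
            have : p ≠ u := by omega
            simp [this]
        · have h7 : p ≠ u := by rintro rfl; exact hdeg hu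
          have h8 : p ≠ d := by rintro rfl; exact hdeg hd
          simp [hdeg, h7, h8]
      · rw [Set.indicator_of_notMem hpM]
        simp only [uv_apply]
        by_cases hpu : p = u
        · subst hpu
          have : p ∈ K := by
            by_contra h
            exact hpM ⟨by omega, by omega, h⟩
          have h9 : p ≠ d := by omega
          simp [this, h9]
        · by_cases hpd : p = d
          · subst hpd
            have : p ∈ K := by
              by_contra h
              exact hpM ⟨by omega, by omega, h⟩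
            simp [this, hpu]
          · simp [hpu, hpd]
    simp only [Pi.add_apply, Pi.smul_apply, smul_eq_mul] at hind ⊢
    rw [hind]
    split_ifs <;> simp <;> ring
  · -- disconnected case
    intro hconn
    obtain ⟨c, hc, hmem⟩ := H.extract_T hD m deg z hP l hl
    have hsymm : ∀ p q, H.Conn p q → H.Conn q p := fun p q h => HD.Cn.symm (A := H.TH) h
    have hval : ∀ p, some p ≠ z →
        ((fun p => if p < m ∧ deg p = l then (1 : ℚ) else 0) + c) p = uv L p + uv R p := by
      intro p hp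
      simp only [Pi.add_apply, hc p hp, add_zero, uv_apply]
      by_cases h1 : p = L
      · subst h1
        have : p ≠ R := by omega
        have : p < m := by omega
        simp [*]
      · by_cases h2 : p = R
        · subst h2
          simp [h1, hRm, hR]
        · rw [if_neg h1, if_neg h2, if_neg]
          · simp
          · rintro ⟨h3, h4⟩
            rcases honly p h4 with h | h | h | h
            · exact h1 h
            · exact h2 h
            · exact hp h
            · omega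
    have hLR : L ≠ R := by omega
    have key : ∀ x y, (x = L ∧ y = R ∨ x = R ∧ y = L) → (∀ p, some p = z → ¬ H.Conn x p) →
        uv x ∈ H.span := by
      intro x y hxy hzx
      apply H.spanT_le
      have hxyn : ¬ H.Conn x y := by
        rcases hxy with ⟨rfl, rfl⟩ | ⟨rfl, rfl⟩
        · exact hconn
        · exact fun h => hconn (hsymm _ _ h)
      have h1 := indicator_mem _ {p | H.Cn H.TH x p} (by
        rintro w ⟨t, ht, rfl⟩
        exact HD.Cn.compat x ht) _ hmem
      change _ ∈ H.spanT at h1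
      convert h1 using 1
      funext p
      by_cases hp : p ∈ {p | H.Cn H.TH x p}
      · rw [Set.indicator_of_mem hp, hval p fun h => hzx p h hp]
        have hpy : p ≠ y := by
          rintro rfl
          exact hxyn hp
        rcases hxy with ⟨rfl, rfl⟩ | ⟨rfl, rfl⟩
        · simp [uv_apply, hpy]
        · simp [uv_apply, hpy]
      · rw [Set.indicator_of_notMem hp, uv_apply, if_neg]
        rintro rfl
        exact hp Relation.ReflTransGen.refl
    by_cases hzL : ∀ p, some p = z → ¬ H.Conn L p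
    · exact Or.inl (key L R (Or.inl ⟨rfl, rfl⟩) hzL)
    · right
      push Not at hzL
      obtain ⟨p, hp, hLp⟩ := hzL
      refine key R L (Or.inr ⟨rfl, rfl⟩) fun q hq hRq => ?_
      have : p = q := by
        rw [← hq] at hp
        exact Option.some_injective _ hp
      subst this
      exact hconn (hLp.trans (hsymm _ _ hRq))

/-- a position that dominates all others except possibly `y` carries a heavy vector supported in
`{x, y}` -/
theorem dominant_lemma
    (_hD : ∀ C : ℕ, ∀ᶠ N in (U : Filter ℕ), C < D N) (H : HD U D e) (x y : ℕ)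
    (g : ℕ → ℕ) (hg : ∀ C : ℕ, ∀ᶠ N in (U : Filter ℕ), C * D N < g N)
    (hx : ∀ᶠ N in (U : Filter ℕ), g N ≤ 2 * e N x)
    (hy : ∀ p, p ≠ x → p ≠ y → ∀ C : ℕ, ∀ᶠ N in (U : Filter ℕ), C * e N p < g N) :
    ∃ t, H.w t x ≠ 0 ∧ (∀ p, p ≠ x → p ≠ y → H.w t p = 0) ∧
      ∃ C : ℕ, ∀ᶠ N in (U : Filter ℕ), g N ≤ C * H.n t N := by
  obtain ⟨C₀, hC₀⟩ := H.small x
  have h1 : ∀ᶠ N in (U : Filter ℕ), g N < 4 * ∑ t, H.n t N * H.w t x := by
    filter_upwards [hC₀, hx, H.eq, hg (4 * C₀)] with N h1 h2 h3 h4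
    have h5 := h3 x
    have h6 : 4 * H.r N x ≤ 4 * C₀ * D N := by
      calc 4 * H.r N x ≤ 4 * (C₀ * D N) := by omega
        _ = 4 * C₀ * D N := by ring
    omega
  have h2 : ∃ t, ∀ᶠ N in (U : Filter ℕ), g N < 4 * Fintype.card H.T * (H.n t N * H.w t x) := by
    by_contra hcon
    push Not at hcon
    have h3 : ∀ᶠ N in (U : Filter ℕ), ∀ t : H.T, 4 * Fintype.card H.T * (H.n t N * H.w t x) ≤ g N :=
      eventually_all.2 hcon
    obtain ⟨N, h4, h5⟩ := (h1.and h3).exists
    have h6 : ∑ t : H.T, 4 * Fintype.card H.T * (H.n t N * H.w t x) ≤ ∑ _t : H.T, g N :=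
      Finset.sum_le_sum fun t _ => h5 t
    rw [← Finset.mul_sum, Finset.sum_const, Finset.card_univ, smul_eq_mul] at h6
    have hpos : 0 < Fintype.card H.T := by
      rcases Nat.eq_zero_or_pos (Fintype.card H.T) with h | h
      · have : IsEmpty H.T := Fintype.card_eq_zero_iff.1 h
        simp at h4
      · exact h
    have h7 : Fintype.card H.T * (4 * ∑ t, H.n t N * H.w t x) ≤ Fintype.card H.T * g N := by
      calc _ = 4 * Fintype.card H.T * ∑ t, H.n t N * H.w t x := by ring
        _ ≤ _ := h6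
    have h8 := Nat.le_of_mul_le_mul_left h7 hpos
    omega
  obtain ⟨t, ht⟩ := h2
  have hwx : H.w t x ≠ 0 := by
    intro h
    obtain ⟨N, hN⟩ := ht.exists
    rw [h] at hN
    simp at hN
  have hle : ∀ᶠ N in (U : Filter ℕ), g N ≤ (4 * Fintype.card H.T * H.w t x) * H.n t N := by
    filter_upwards [ht] with N hN
    calc g N ≤ 4 * Fintype.card H.T * (H.n t N * H.w t x) := hN.le
      _ = _ := by ring
  refine ⟨t, hwx, ?_, _, hle⟩
  intro p hpx hpy
  by_contra hp
  obtain ⟨N, h3, h4, h5⟩ := (hle.and ((hy p hpx hpy (4 * Fintype.card H.T * H.w t x)).and H.eq)).exists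
  have h6 : H.n t N ≤ e N p := by
    rw [h5 p]
    have h7 : H.n t N * H.w t p ≤ ∑ t, H.n t N * H.w t p :=
      Finset.single_le_sum (f := fun t => H.n t N * H.w t p) (fun _ _ => Nat.zero_le _)
        (Finset.mem_univ t)
    have h8 : H.n t N * 1 ≤ H.n t N * H.w t p := Nat.mul_le_mul_left _ (Nat.one_le_iff_ne_zero.2 hp)
    omega
  have h9 : (4 * Fintype.card H.T * H.w t x) * H.n t N ≤ (4 * Fintype.card H.T * H.w t x) * e N p :=
    Nat.mul_le_mul_left _ h6
  omega

/-- from the rational span to integer combinations -/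
theorem span_int (H : HD U D e) (x : ℕ → ℚ) (hx : x ∈ H.span) :
    ∃ (K : ℕ) (c : H.T → ℤ), 0 < K ∧ ∀ p, (K : ℚ) * x p = ∑ t, (c t : ℚ) * H.w t p := by
  classical
  obtain ⟨a, ha⟩ := (Submodule.mem_span_range_iff_exists_fun ℚ).1 hx
  refine ⟨∏ t, (a t).den, fun t => (a t).num * ∏ t' ∈ Finset.univ.erase t, ((a t').den : ℤ),
    Finset.prod_pos fun t _ => (a t).den_pos, ?_⟩
  intro p
  rw [← ha]
  simp only [Finset.sum_apply, Pi.smul_apply, smul_eq_mul]
  rw [Finset.mul_sum]
  apply Finset.sum_congr rfl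
  intro t _
  rw [← Finset.mul_prod_erase Finset.univ (fun t => (a t).den) (Finset.mem_univ t)]
  push_cast
  have h1 : ((a t).den : ℚ) * a t = (a t).num := by
    rw [mul_comm]
    exact Rat.mul_den_eq_num (a t)
  rw [← h1]
  ring

end HDlemmas

/-! ### Labels agree -/

/-- labels agree (section 11) -/
theorem label_agree {U : Ultrafilter ℕ} {D : ℕ → ℕ} {mV : ℕ} {e : ℕ → Option Bool × ℕ → ℕ}
    (hD : ∀ C : ℕ, ∀ᶠ N in (U : Filter ℕ), C < D N) (H : JHD U D mV e) (m XL XR : ℕ)
    (hXL : XL < mV) (hXR : mV ≤ XR) (_hXRm : XR < m)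
    (_hm : ∀ᶠ N in (U : Filter ℕ), ∀ p, m ≤ p.2 → e N p = 0)
    -- `part p` is the other half of the zone block `p`
    (isT : ℕ → Prop) (part : ℕ → ℕ)
    (hT : ∀ p, isT p → isT (part p) ∧ part (part p) = p ∧ p < mV ∧ p ≠ XL ∧
      ∀ᶠ N in (U : Filter ℕ), e N (none, part p) = e N (none, p))
    (hsmall : ∀ p, ¬ isT p → p ≠ XL → ∃ C : ℕ, ∀ᶠ N in (U : Filter ℕ), e N (none, p) ≤ C * D N ^ 2)
    (hsmallY : ∀ ε p, p ≠ XR → ∃ C : ℕ, ∀ᶠ N in (U : Filter ℕ), e N (some ε, p) ≤ C * D N ^ 2)
    -- projections to the future `ε` as vectors on positions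
    (pr : Bool → H.T → ℕ → ℚ)
    (hpr : ∀ ε t p, pr ε t p = if p < mV then (H.w t (none, p) : ℚ) else (H.w t (some ε, p) : ℚ))
    (TH : H.T → Prop) (hTH : ∀ t, TH t ↔ ∀ C : ℕ, ∀ᶠ N in (U : Filter ℕ), C * D N ^ 2 < H.n t N)
    (hsp : ∀ ε p, isT p → uv p + uv (part p) ∈ Submodule.span ℚ {x | ∃ t, TH t ∧ x = pr ε t})
    (hspX : ∀ ε, uv XL + uv XR ∈ Submodule.span ℚ {x | ∃ t, TH t ∧ x = pr ε t})
    (hno : ∀ ε, uv XL ∉ Submodule.span ℚ {x | ∃ t, TH t ∧ x = pr ε t}) :
    ∀ t, TH t → pr false t = pr true t := by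
  classical
  -- vectors with `D ^ 2`-small coordinates are not heavy
  have hbig : ∀ t, TH t → ∀ q C, (∀ᶠ N in (U : Filter ℕ), e N q ≤ C * D N ^ 2) → H.w t q = 0 := by
    intro t ht q C hC
    by_contra hw
    obtain ⟨N, h1, h2, h3⟩ := (hC.and (((hTH t).1 ht C).and H.eq)).exists
    have h4 := h3 q
    have h5 : H.n t N * H.w t q ≤ ∑ t, H.n t N * H.w t q :=
      Finset.single_le_sum (f := fun t => H.n t N * H.w t q) (fun _ _ => Nat.zero_le _)
        (Finset.mem_univ t)
    have h6 : H.n t N * 1 ≤ H.n t N * H.w t q := Nat.mul_le_mul_left _ (Nat.one_le_iff_ne_zero.2 hw)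
    omega
  have hV : ∀ t, TH t → ∀ p, H.w t (none, p) ≠ 0 → isT p ∨ p = XL := by
    intro t ht p hp
    by_contra hcon
    push Not at hcon
    obtain ⟨C, hC⟩ := hsmall p hcon.1 hcon.2
    exact hp (hbig t ht _ C hC)
  have hY : ∀ t, TH t → ∀ ε p, H.w t (some ε, p) ≠ 0 → p = XR := by
    intro t ht ε p hp
    by_contra hcon
    obtain ⟨C, hC⟩ := hsmallY ε p hcon
    exact hp (hbig t ht _ C hC)
  -- the functionals
  have hφ : ∀ ε, ∃ φ : (ℕ → ℚ) →ₗ[ℚ] ℚ, φ (uv XL) = 1 ∧
      ∀ s ∈ Submodule.span ℚ {x | ∃ t, TH t ∧ x = pr ε t}, φ s = 0 := by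
    intro ε
    exact exists_functional _ _ (hno ε)
  choose φ hφ1 hφ0 using hφ
  have hXR1 : ∀ ε, φ ε (uv XR) = -1 := by
    intro ε
    have := hφ0 ε _ (hspX ε)
    rw [map_add, hφ1] at this
    linarith
  have hpart : ∀ ε p, isT p → φ ε (uv (part p)) = -φ ε (uv p) := by
    intro ε p hp
    have := hφ0 ε _ (hsp ε p hp)
    rw [map_add] at this
    linarith
  -- the basic relation
  have hrel : ∀ ε t, TH t → ∑ p ∈ Finset.range mV, (H.w t (none, p) : ℚ) * φ ε (uv p) =
      H.w t (some ε, XR) := by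
    intro ε t ht
    have h1 : pr ε t = ∑ p ∈ Finset.range mV, (H.w t (none, p) : ℚ) • uv p +
        (H.w t (some ε, XR) : ℚ) • uv XR := by
      funext q
      rw [hpr]
      simp only [Pi.add_apply, Finset.sum_apply, Pi.smul_apply, uv_apply, smul_eq_mul, mul_ite,
        mul_one, mul_zero, Finset.sum_ite_eq, Finset.mem_range]
      by_cases hq : q < mV
      · have : q ≠ XR := by omega
        simp [hq, this]
      · by_cases hqX : q = XR
        · subst hqX
          simp [hq]
        · have : H.w t (some ε, q) = 0 := by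
            by_contra h
            exact hqX (hY t ht ε q h)
          simp [hq, hqX, this]
    have h2 : φ ε (pr ε t) = 0 := hφ0 ε _ (Submodule.subset_span ⟨t, ht, rfl⟩)
    rw [h1, map_add, map_sum] at h2
    simp only [map_smul, smul_eq_mul, hXR1] at h2
    linarith
  -- the class of `XL`
  let Int : H.T → Prop := fun t => ∀ ε p, H.w t (some ε, p) = 0
  let Rel : ℕ → ℕ → Prop := fun p q =>
    (∃ t, TH t ∧ Int t ∧ H.w t (none, p) ≠ 0 ∧ H.w t (none, q) ≠ 0) ∨ (isT p ∧ q = part p)
  have hRsymm : ∀ p q, Rel p q → Rel q p := by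
    rintro p q (⟨t, h1, h2, h3, h4⟩ | ⟨h1, rfl⟩)
    · exact Or.inl ⟨t, h1, h2, h4, h3⟩
    · exact Or.inr ⟨(hT p h1).1, (hT p h1).2.1.symm⟩
  set Cl : Set ℕ := {p | Relation.ReflTransGen Rel XL p} with hCl
  have hclosed : ∀ p q, Rel p q → p ∈ Cl → q ∈ Cl := fun p q h hp => hp.tail h
  have hXLCl : XL ∈ Cl := Relation.ReflTransGen.refl
  have hagree : ∀ p ∈ Cl, φ false (uv p) = φ true (uv p) := by
    intro p hp
    induction hp with
    | refl => rw [hφ1, hφ1]
    | @tail p q _ hpq ih =>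
      rcases hpq with ⟨t, ht, hint, hp, hq⟩ | ⟨hp, rfl⟩
      · by_cases hpq : p = q
        · rw [← hpq]; exact ih
        · have hsum : ∀ ε, (H.w t (none, p) : ℚ) * φ ε (uv p) + (H.w t (none, q) : ℚ) * φ ε (uv q) = 0 := by
            intro ε
            have h1 := hrel ε t ht
            rw [hint ε XR] at h1
            have hpV := (H.suppV false t p hp).1
            have hqV := (H.suppV false t q hq).1
            rw [← Finset.add_sum_erase _ _ (Finset.mem_range.2 hpV),
              ← Finset.add_sum_erase _ _ (Finset.mem_erase.2 ⟨Ne.symm hpq, Finset.mem_range.2 hqV⟩),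
              Finset.sum_eq_zero (s := ((Finset.range mV).erase p).erase q)] at h1
            · push_cast at h1
              linarith
            · intro s hs
              simp only [Finset.mem_erase, Finset.mem_range] at hs
              have : H.w t (none, s) = 0 := by
                by_contra hws
                have h2 := (H.suppV false t s hws).2
                have h3 := (H.suppV false t p hp).2
                have h4 := (H.suppV false t q hq).2
                omega
              simp [this]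
          have h1 := hsum false
          have h2 := hsum true
          have hq0 : (H.w t (none, q) : ℚ) ≠ 0 := by exact_mod_cast hq
          rw [ih] at h1
          exact mul_left_cancel₀ hq0 (by linarith)
      · rw [hpart _ _ hp, hpart _ _ hp, ih]
  -- the complementary set
  set O : Finset ℕ := (Finset.range mV).filter (fun q => isT q ∧ q ∉ Cl) with hO
  have hmemO : ∀ q, q ∈ O ↔ isT q ∧ q ∉ Cl := by
    intro q
    rw [hO, Finset.mem_filter, Finset.mem_range]
    exact ⟨fun h => h.2, fun h => ⟨(hT q h.1).2.2.1, h⟩⟩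
  have hOpart : ∀ q ∈ O, part q ∈ O := by
    intro q hq
    rw [hmemO] at hq ⊢
    refine ⟨(hT q hq.1).1, fun h => hq.2 ?_⟩
    exact hclosed _ _ (hRsymm _ _ (Or.inr ⟨hq.1, rfl⟩)) h
  have hpair : ∀ ε, ∀ᶠ N in (U : Filter ℕ), ∑ q ∈ O, (e N (none, q) : ℚ) * φ ε (uv q) = 0 := by
    intro ε
    have h1 : ∀ᶠ N in (U : Filter ℕ), ∀ q ∈ O, e N (none, part q) = e N (none, q) := by
      rw [Filter.eventually_all_finset]
      intro q hq
      exact (hT q ((hmemO q).1 hq).1).2.2.2.2
    filter_upwards [h1] with N hN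
    have h2 : ∑ q ∈ O, (e N (none, q) : ℚ) * φ ε (uv q) =
        ∑ q ∈ O, -((e N (none, q) : ℚ) * φ ε (uv q)) := by
      refine Finset.sum_nbij' part part hOpart hOpart ?_ ?_ ?_
      · intro q hq
        exact (hT q ((hmemO q).1 hq).1).2.1
      · intro q hq
        exact (hT q ((hmemO q).1 hq).1).2.1
      · intro q hq
        rw [hN q hq, hpart ε q ((hmemO q).1 hq).1]
        ring
    rw [Finset.sum_neg_distrib] at h2
    linarith
  -- the sums over `O` of heavy vectors
  let SO : Bool → H.T → ℚ := fun ε t => ∑ q ∈ O, (H.w t (none, q) : ℚ) * φ ε (uv q)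
  have hOV : O ⊆ Finset.range mV := Finset.filter_subset _ _
  have hSOfull : ∀ ε t, TH t → (∀ q, H.w t (none, q) ≠ 0 → q ∉ Cl) →
      SO ε t = H.w t (some ε, XR) := by
    intro ε t ht hq
    rw [← hrel ε t ht]
    refine Finset.sum_subset hOV fun q _ hqO => ?_
    by_cases hw : H.w t (none, q) = 0
    · simp [hw]
    · exfalso
      apply hqO
      rw [hmemO]
      refine ⟨?_, hq q hw⟩
      rcases hV t ht q hw with h | h
      · exact h
      · subst h
        exact absurd hXLCl (hq _ hw)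
  have hSOempty : ∀ ε t, (∀ q, H.w t (none, q) ≠ 0 → q ∈ Cl) → SO ε t = 0 := by
    intro ε t hq
    apply Finset.sum_eq_zero
    intro q hqO
    by_cases hw : H.w t (none, q) = 0
    · simp [hw]
    · exact absurd (hq q hw) ((hmemO q).1 hqO).2
  have hdich : ∀ t, TH t → (∀ q, H.w t (none, q) ≠ 0 → q ∈ Cl) ∨
      (∀ q, H.w t (none, q) ≠ 0 → q ∉ Cl) := by
    intro t ht
    by_cases h : ∃ p, H.w t (none, p) ≠ 0 ∧ p ∈ Cl
    · left
      obtain ⟨p, hp, hpC⟩ := h
      intro q hq
      rcases H.kind t with hk | ⟨b, hb⟩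
      · exact hclosed p q (Or.inl ⟨t, ht, hk, hp, hq⟩) hpC
      · rw [hb q hq, ← hb p hp]
        exact hpC
    · right
      intro q hq hqC
      exact h ⟨q, hq, hqC⟩
  have hSOnonneg : ∀ ε t, TH t → 0 ≤ SO ε t := by
    intro ε t ht
    rcases hdich t ht with h | h
    · rw [hSOempty ε t h]
    · rw [hSOfull ε t ht h]
      positivity
  -- a heavy vector outside the class of `XL` is internal
  have hzero : ∀ ε t, TH t → (∀ q, H.w t (none, q) ≠ 0 → q ∉ Cl) → H.w t (some ε, XR) = 0 := by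
    intro ε t₀ ht₀ hq₀
    by_contra hne
    have hpos : 0 < SO ε t₀ := by
      rw [hSOfull ε t₀ ht₀ hq₀]
      exact_mod_cast Nat.pos_of_ne_zero hne
    have hsum : ∀ᶠ N in (U : Filter ℕ), ∑ q ∈ O, (H.r N (none, q) : ℚ) * φ ε (uv q) +
        ∑ t, (H.n t N : ℚ) * SO ε t = 0 := by
      filter_upwards [H.eq, hpair ε] with N h1 h2
      rw [← h2]
      have : ∀ t, (H.n t N : ℚ) * SO ε t =
          ∑ q ∈ O, (H.n t N : ℚ) * ((H.w t (none, q) : ℚ) * φ ε (uv q)) := by
        intro t
        rw [Finset.mul_sum]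
      simp_rw [this]
      rw [Finset.sum_comm, ← Finset.sum_add_distrib]
      apply Finset.sum_congr rfl
      intro q _
      have h3 : (e N (none, q) : ℚ) = H.r N (none, q) + ∑ t, (H.n t N : ℚ) * H.w t (none, q) := by
        rw [h1]; push_cast; rfl
      rw [h3, add_mul, Finset.sum_mul]
      congr 1
      apply Finset.sum_congr rfl
      intro t _
      ring
    -- `n t₀` is at most quadratic
    have hbd : BdO U D 2 (fun N => (∑ q ∈ O, (H.r N (none, q) : ℚ) * φ ε (uv q)) +
        ∑ t ∈ Finset.univ.filter (fun t => ¬ TH t), (H.n t N : ℚ) * SO ε t) := by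
      refine BdO.add (BdO.sum _ fun q _ => (BdO.mono hD (by norm_num : 1 ≤ 2) ?_).mul_const _)
        (BdO.sum _ fun t ht => BdO.mul_const _ ?_)
      · obtain ⟨C, hC⟩ := H.small (none, q)
        refine ⟨C, ?_⟩
        filter_upwards [hC] with N hN
        rw [pow_one, abs_of_nonneg (by positivity)]
        exact_mod_cast hN
      · rw [Finset.mem_filter] at ht
        exact not_TH_iff _ fun h => ht.2 ((hTH t).2 h)
    obtain ⟨C, hC⟩ := hbd
    obtain ⟨C', hC'⟩ := exists_nat_gt ((C : ℚ) / SO ε t₀)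
    obtain ⟨N, h1, h2, h3⟩ := (hC.and (((hTH t₀).1 ht₀ C').and hsum)).exists
    have h4 : ∑ t, (H.n t N : ℚ) * SO ε t =
        ∑ t ∈ Finset.univ.filter (fun t => TH t), (H.n t N : ℚ) * SO ε t +
        ∑ t ∈ Finset.univ.filter (fun t => ¬ TH t), (H.n t N : ℚ) * SO ε t :=
      (Finset.sum_filter_add_sum_filter_not _ _ _).symm
    have h5 : (H.n t₀ N : ℚ) * SO ε t₀ ≤
        ∑ t ∈ Finset.univ.filter (fun t => TH t), (H.n t N : ℚ) * SO ε t := by
      refine Finset.single_le_sum (f := fun t => (H.n t N : ℚ) * SO ε t) (fun t ht => ?_)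
        (Finset.mem_filter.2 ⟨Finset.mem_univ _, ht₀⟩)
      exact mul_nonneg (Nat.cast_nonneg _) (hSOnonneg ε t (Finset.mem_filter.1 ht).2)
    have h6 := (abs_le.1 h1).1
    have h7 : (H.n t₀ N : ℚ) * SO ε t₀ ≤ C * (D N : ℚ) ^ 2 := by
      rw [h4] at h3
      linarith
    have h8 : (C' : ℚ) * (D N : ℚ) ^ 2 < H.n t₀ N := by exact_mod_cast h2
    have h9 : (C : ℚ) < C' * SO ε t₀ := by
      rwa [div_lt_iff₀ hpos] at hC'
    have h10 : (C : ℚ) * (D N : ℚ) ^ 2 ≤ C' * SO ε t₀ * (D N : ℚ) ^ 2 :=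
      mul_le_mul_of_nonneg_right h9.le (by positivity)
    have h11 : (C' : ℚ) * (D N : ℚ) ^ 2 * SO ε t₀ < H.n t₀ N * SO ε t₀ :=
      mul_lt_mul_of_pos_right h8 hpos
    nlinarith
  -- conclusion
  intro t ht
  have hXReq : H.w t (some false, XR) = H.w t (some true, XR) := by
    rcases hdich t ht with h | h
    · have h1 := hrel false t ht
      have h2 := hrel true t ht
      have h3 : ∑ p ∈ Finset.range mV, (H.w t (none, p) : ℚ) * φ false (uv p) =
          ∑ p ∈ Finset.range mV, (H.w t (none, p) : ℚ) * φ true (uv p) := by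
        apply Finset.sum_congr rfl
        intro p _
        by_cases hw : H.w t (none, p) = 0
        · simp [hw]
        · rw [hagree p (h p hw)]
      rw [h1, h2] at h3
      exact_mod_cast h3
    · rw [hzero false t ht h, hzero true t ht h]
  funext q
  rw [hpr, hpr]
  split_ifs with hq
  · rfl
  · by_cases hqX : q = XR
    · rw [hqX, hXReq]
    · have h1 : H.w t (some false, q) = 0 := by
        by_contra h
        exact hqX (hY t ht false q h)
      have h2 : H.w t (some true, q) = 0 := by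
        by_contra h
        exact hqX (hY t ht true q h)
      rw [h1, h2]

end Pool.Agent.Lib.CoCF
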