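import Pool.Agent.Lib.CoCF.Items

/-!
# Interface definitions shared by the chunks
-/

set_option autoImplicit false

namespace Pool.Agent.Lib.CoCF

/-- Everything the assembly needs from the automaton. -/
structure MG (A : Type) where
  Q : Type
  Γ : Type
  finQ : Finite Q
  finΓ : Finite Γ
  X : Type
  J : Type
  G : Gram A X
  K : JGram A X J
  finG : G.Fin
  finK : K.Fin
  q₀ : Q
  /-- accepted from `q` with some guess -/
  st : Q → X
  /-- read from `q₀` with some guess exactly popped, ending in the given state -/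
  pr : Q → X
  /-- from `q`, popping `Z` and ending in a state, or accepting (`none`) -/
  pp : Q → Γ → Option Q → X
  jj : Q → Γ → Option Q → Option Q → J
  pr_nil : G.D (pr q₀) []
  pr_pp : ∀ q Z c u v, G.D (pr q) u → G.D (pp q Z (some c)) v → G.D (pr c) (u ++ v)
  pr_st : ∀ q u v, G.D (pr q) u → G.D (st q) v → G.D (st q₀) (u ++ v)
  st_none : ∀ q Z u, G.D (pp q Z none) u → G.D (st q) u
  st_some : ∀ q Z c u v, G.D (pp q Z (some c)) u → G.D (st c) v → G.D (st q) (u ++ v)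
  /-- induction principle for `st` -/
  st_ind : ∀ (P : Q → List A → Prop), (∀ q, P q []) → (∀ q Z u, G.D (pp q Z none) u → P q u) →
    (∀ q Z c u v, G.D (pp q Z (some c)) u → G.D (st c) v → P c v → P q (u ++ v)) →
    ∀ q w, G.D (st q) w → P q w
  joint : ∀ q Z b₁ b₂ v y₁ y₂, JGram.D G K (jj q Z b₁ b₂) v y₁ y₂ ↔
    (G.D (pp q Z b₁) (v ++ y₁) ∧ G.D (pp q Z b₂) (v ++ y₂))

/-- Heavy data of a joint family: `e N (none, p)` for `p < mV` are the exponents of the common word,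
`e N (some ε, p)` for `mV ≤ p < m` those of the future `ε`. -/
structure JHD (U : Ultrafilter ℕ) (D : ℕ → ℕ) (mV : ℕ) (e : ℕ → Option Bool × ℕ → ℕ) where
  T : Type
  fin : Fintype T
  w : T → Option Bool × ℕ → ℕ
  lo : Bool → T → ℕ
  hi : Bool → T → ℕ
  n : T → ℕ → ℕ
  r : ℕ → Option Bool × ℕ → ℕ
  le : ∀ ε t, lo ε t ≤ hi ε t
  suppV : ∀ ε t p, w t (none, p) ≠ 0 → p < mV ∧ (p = lo ε t ∨ p = hi ε t)
  suppY : ∀ ε t p, w t (some ε, p) ≠ 0 → mV ≤ p ∧ (p = lo ε t ∨ p = hi ε t)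
  nc : ∀ ε t t', ¬ (lo ε t < lo ε t' ∧ lo ε t' < hi ε t ∧ hi ε t < hi ε t')
  /-- internal, or at most one position of the common word -/
  kind : ∀ t, (∀ ε p, w t (some ε, p) = 0) ∨ ∃ p, ∀ p', w t (none, p') ≠ 0 → p' = p
  eq : ∀ᶠ N in (U : Filter ℕ), ∀ p, e N p = r N p + ∑ t, n t N * w t p
  small : ∀ p, ∃ C, ∀ᶠ N in (U : Filter ℕ), r N p ≤ C * D N
  big : ∀ t C, ∀ᶠ N in (U : Filter ℕ), C * D N < n t N

attribute [instance] JHD.fin

/-- the word of future positions -/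
def wdF {A : Type} (π : ℕ → A) (mV m : ℕ) (e : ℕ → ℕ) : List A :=
  wd (fun p => π (mV + p)) (m - mV) fun p => e (mV + p)

/-- `deg` describes the growth of the exponents, except possibly at `z` -/
def Profile (U : Ultrafilter ℕ) (D : ℕ → ℕ) (e : ℕ → ℕ → ℕ) (m : ℕ) (deg : ℕ → ℕ)
    (z : Option ℕ) : Prop :=
  (∀ p, some p ≠ z → ∃ C : ℕ, ∀ᶠ N in (U : Filter ℕ),
    |(e N p : ℤ) - (if 2 ≤ deg p then (D N : ℤ) ^ deg p else 0)| ≤ C * D N) ∧
  ∀ᶠ N in (U : Filter ℕ), ∀ p, m ≤ p → e N p = 0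

def roundLen (k : ℕ) : ℕ := (roundI k).length

/-- an admissible perturbation -/
def Adm (k R bad : ℕ) (lab : ℕ → Bool) (sl : ℕ → ℚ) (K C D : ℕ) (mm EE : ℕ → ℤ) : Prop :=
  ∀ a, (|mm a| ≤ C * D ∧ |EE a| ≤ C * D) ∧
    (mm a ≠ 0 ∨ EE a ≠ 0 →
      (1 ≤ a ∧ ∃ i j, (UI k R)[a - 1]? = some (.zone i j)) ∧ (a - 1) / roundLen k ≠ bad ∧
      (lab a = true → EE a = 0 ∧ (K : ℤ) ∣ mm a) ∧
      (lab a = false → (K : ℤ) ∣ EE a ∧ (mm a : ℚ) = sl a * EE a))

/-- value of `ω_c` -/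
noncomputable def omv (D c : ℕ) : Equiv.Perm (Rays 3) := valI D 0 0 0 (omI c)


end Pool.Agent.Lib.CoCF
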