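import Pool.Agent.Lib.CoCF.Parikh
import Pool.Agent.Lib.CoCF.Iface

/-!
# The annotated joint system: `fl_joint`

Auxiliary lemmas are in the namespace `HJ`.
-/

set_option autoImplicit false

namespace Pool.Agent.Lib.CoCF.HJ

/-! ### Words of patterns -/

section wd

variable {A : Type} (π : ℕ → A)

theorem wd_zero_len (e : ℕ → ℕ) : wd π 0 e = [] := by
  simp [wd]

theorem wd_succ (m : ℕ) (e : ℕ → ℕ) :
    wd π (m + 1) e = wd π m e ++ List.replicate (e m) (π m) := by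
  simp [wd, List.range_succ]

theorem wd_eq_nil {m : ℕ} {e : ℕ → ℕ} (h : ∀ p, p < m → e p = 0) : wd π m e = [] := by
  induction m with
  | zero => simp [wd]
  | succ m ih => rw [wd_succ, ih (fun p hp => h p (by omega)), h m (by omega)]; simp

theorem wd_zero (m : ℕ) : wd π m 0 = [] := wd_eq_nil π fun _ _ => rfl

theorem wd_congr {m : ℕ} {e e' : ℕ → ℕ} (h : ∀ p, p < m → e p = e' p) : wd π m e = wd π m e' := by
  induction m with
  | zero => simp [wd]
  | succ m ih => rw [wd_succ, wd_succ, ih (fun p hp => h p (by omega)), h m (by omega)]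

theorem eq_zero_of_wd_nil {m : ℕ} {e : ℕ → ℕ} (h : wd π m e = []) : ∀ p, p < m → e p = 0 := by
  induction m with
  | zero => intro p hp; omega
  | succ m ih =>
    rw [wd_succ] at h
    simp only [List.append_eq_nil_iff, List.replicate_eq_nil_iff] at h
    intro p hp
    rcases Nat.lt_succ_iff_lt_or_eq.1 hp with h' | h'
    · exact ih h.1 p h'
    · rw [h']; exact h.2

theorem wd_add {m c : ℕ} {e₁ e₂ : ℕ → ℕ} (h₁ : ∀ p, e₁ p ≠ 0 → p ≤ c)
    (h₂ : ∀ p, e₂ p ≠ 0 → c ≤ p) : wd π m (e₁ + e₂) = wd π m e₁ ++ wd π m e₂ := by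
  induction m with
  | zero => simp [wd]
  | succ m ih =>
    rw [wd_succ, wd_succ, wd_succ, ih, Pi.add_apply, List.replicate_add]
    by_cases hm : m ≤ c
    · have : wd π m e₂ = [] := wd_eq_nil π fun p hp => by
        by_contra hne
        have := h₂ p hne
        omega
      rw [this]
      simp
    · have : e₁ m = 0 := by
        by_contra hne
        have := h₁ m hne
        omega
      rw [this]
      simp

theorem wd_single {m p n : ℕ} (hp : p < m) :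
    wd π m (Pi.single p n) = List.replicate n (π p) := by
  induction m with
  | zero => omega
  | succ m ih =>
    rw [wd_succ]
    by_cases h : p = m
    · subst h
      rw [wd_eq_nil π (fun q hq => by rw [Pi.single_eq_of_ne (by omega)])]
      simp
    · rw [ih (by omega), Pi.single_eq_of_ne (by omega)]
      simp

/-- removing the first letter of a pattern word -/
theorem wd_head {m : ℕ} {e : ℕ → ℕ} {x : A} {w : List A} {a b : ℕ} (hb : b < m)
    (he : ∀ p, e p ≠ 0 → a ≤ p ∧ p ≤ b) (h : x :: w = wd π m e) :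
    ∃ (p : ℕ) (e' : ℕ → ℕ), a ≤ p ∧ p ≤ b ∧ x = π p ∧ e = Pi.single p 1 + e' ∧
      (∀ q, e' q ≠ 0 → p ≤ q ∧ q ≤ b) ∧ w = wd π m e' := by
  have hex : ∃ p, e p ≠ 0 := by
    by_contra hne
    push Not at hne
    rw [wd_eq_nil π (fun p _ => hne p)] at h
    exact absurd h (by simp)
  classical
  set p := Nat.find hex with hp
  have hp0 : e p ≠ 0 := Nat.find_spec hex
  have hmin : ∀ q, e q ≠ 0 → p ≤ q := fun q hq => Nat.find_min' hex hq
  obtain ⟨hap, hpb⟩ := he p hp0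
  refine ⟨p, e - Pi.single p 1, hap, hpb, ?_⟩
  have heq : e = Pi.single p 1 + (e - Pi.single p 1) := by
    funext q
    simp only [Pi.add_apply, Pi.sub_apply]
    by_cases hq : q = p
    · subst hq
      simp only [Pi.single_eq_same]
      omega
    · rw [Pi.single_eq_of_ne hq]
      omega
  have hsupp : ∀ q, (e - Pi.single p 1 : ℕ → ℕ) q ≠ 0 → p ≤ q ∧ q ≤ b := by
    intro q hq
    have : e q ≠ 0 := by
      intro h0
      apply hq
      simp [h0]
    exact ⟨hmin q this, (he q this).2⟩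
  have hw : wd π m e = π p :: wd π m (e - Pi.single p 1) := by
    conv_lhs => rw [heq]
    rw [wd_add π (c := p), wd_single π (by omega)]
    · rfl
    · intro q hq
      by_contra hlt
      exact hq (Pi.single_eq_of_ne (by omega) 1)
    · intro q hq
      exact (hsupp q hq).1
  rw [hw] at h
  injection h with h1 h2
  exact ⟨h1, heq, hsupp, h2⟩

/-- splitting a pattern word -/
theorem wd_split {m : ℕ} {u v : List A} : ∀ {e : ℕ → ℕ} {a b : ℕ}, a ≤ b → b < m →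
    (∀ p, e p ≠ 0 → a ≤ p ∧ p ≤ b) → u ++ v = wd π m e →
    ∃ (c : ℕ) (e₁ e₂ : ℕ → ℕ), a ≤ c ∧ c ≤ b ∧ e = e₁ + e₂ ∧
      (∀ q, e₁ q ≠ 0 → a ≤ q ∧ q ≤ c) ∧ (∀ q, e₂ q ≠ 0 → c ≤ q ∧ q ≤ b) ∧
      u = wd π m e₁ ∧ v = wd π m e₂ := by
  induction u with
  | nil =>
    intro e a b hab hb he h
    exact ⟨a, 0, e, le_rfl, hab, by simp, fun q hq => absurd rfl hq, he, (wd_zero π m).symm, h⟩
  | cons x u ih =>
    intro e a b hab hb he h
    obtain ⟨p, e', hap, hpb, hx, hee, hs, hw⟩ := wd_head π hb he h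
    obtain ⟨c, e₁, e₂, hpc, hcb, he', h1, h2, hu, hv⟩ := ih hpb hb hs hw
    refine ⟨c, Pi.single p 1 + e₁, e₂, le_trans hap hpc, hcb, ?_, ?_, h2, ?_, hv⟩
    · rw [hee, he', add_assoc]
    · intro q hq
      by_cases hqp : q = p
      · subst hqp
        exact ⟨hap, hpc⟩
      · have : e₁ q ≠ 0 := by
          intro h0
          apply hq
          simp [h0, hqp]
        have := h1 q this
        omega
    · rw [wd_add π (c := p), wd_single π (by omega), ← hu, hx]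
      · rfl
      · intro q hq
        by_contra hlt
        exact hq (Pi.single_eq_of_ne (by omega) 1)
      · intro q hq
        exact (h1 q hq).1

end wd

/-! ### Interval annotations of an abstract system -/

/-- `R l`: the label `l` is visible; `lo l, hi l` its interval; `c i` the position of the coordinate `i`
if it is visible -/
structure Ann {L ι : Type} (S : Sys L ι) (R : L → Prop) (lo hi : L → ℕ) (c : ι → Option ℕ) :
    Prop where
  leaf_le : ∀ l w, S.leaf l w → R l → lo l ≤ hi l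
  leaf_w : ∀ l w, S.leaf l w → w = 0
  un_R : ∀ l w l', S.un l w l' → R l' → R l
  un_R' : ∀ l w l', S.un l w l' → R l → R l'
  un_le : ∀ l w l', S.un l w l' → R l' → lo l ≤ lo l' ∧ lo l' ≤ hi l' ∧ hi l' ≤ hi l
  un_w : ∀ l w l', S.un l w l' → ∀ i p, w i ≠ 0 → c i = some p → R l ∧ lo l ≤ p ∧ p ≤ lo l'
  bin₁ : ∀ l l₁ l₂, S.bin l l₁ l₂ → R l₁ → R l ∧ lo l ≤ lo l₁ ∧ lo l₁ ≤ hi l₁ ∧ hi l₁ ≤ hi l
  bin₂ : ∀ l l₁ l₂, S.bin l l₁ l₂ → R l₂ → R l ∧ lo l ≤ lo l₂ ∧ lo l₂ ≤ hi l₂ ∧ hi l₂ ≤ hi l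
  bin₀ : ∀ l l₁ l₂, S.bin l l₁ l₂ → R l₁ → R l₂ → hi l₁ ≤ lo l₂
  bin_le : ∀ l l₁ l₂, S.bin l l₁ l₂ → R l → lo l ≤ hi l

section ann

variable {L ι : Type} {S : Sys L ι} {R : L → Prop} {lo hi : L → ℕ} {c : ι → Option ℕ}

theorem Ann.der_le (hA : Ann S R lo hi c) {l : L} {w : ι → ℕ} {B : Set L} (h : Der S l w B) :
    R l → lo l ≤ hi l := by
  intro hR
  cases h with
  | leaf h => exact hA.leaf_le _ _ h hR
  | un h h' =>
    have := hA.un_le _ _ _ h (hA.un_R' _ _ _ h hR)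
    omega
  | bin h h₁ h₂ => exact hA.bin_le _ _ _ h hR

theorem Ann.der_mem (hA : Ann S R lo hi c) {l : L} {w : ι → ℕ} {B : Set L} (h : Der S l w B) :
    ∀ l' ∈ B, R l' → R l ∧ lo l ≤ lo l' ∧ lo l' ≤ hi l' ∧ hi l' ≤ hi l := by
  induction h with
  | leaf h =>
    intro l' hl' hR
    rw [Set.mem_singleton_iff] at hl'
    subst hl'
    exact ⟨hR, le_rfl, hA.leaf_le _ _ h hR, le_rfl⟩
  | @un l w l₁ w' B h h' ih =>
    intro l' hl' hR
    rcases Set.mem_insert_iff.1 hl' with rfl | hl'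
    · exact ⟨hR, le_rfl, hA.der_le (Der.un h h') hR, le_rfl⟩
    · obtain ⟨h1, h2, h3, h4⟩ := ih l' hl' hR
      have := hA.un_le _ _ _ h h1
      exact ⟨hA.un_R _ _ _ h h1, by omega, h3, by omega⟩
  | @bin l l₁ l₂ w₁ w₂ B₁ B₂ h h₁ h₂ ih₁ ih₂ =>
    intro l' hl' hR
    rcases Set.mem_insert_iff.1 hl' with rfl | hl'
    · exact ⟨hR, le_rfl, hA.der_le (Der.bin h h₁ h₂) hR, le_rfl⟩
    · rcases hl' with hl' | hl'
      · obtain ⟨h1, h2, h3, h4⟩ := ih₁ l' hl' hR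
        have := hA.bin₁ _ _ _ h h1
        exact ⟨this.1, by omega, h3, by omega⟩
      · obtain ⟨h1, h2, h3, h4⟩ := ih₂ l' hl' hR
        have := hA.bin₂ _ _ _ h h1
        exact ⟨this.1, by omega, h3, by omega⟩

theorem Ann.der_supp (hA : Ann S R lo hi c) {l : L} {w : ι → ℕ} {B : Set L} (h : Der S l w B) :
    ∀ i p, w i ≠ 0 → c i = some p → R l ∧ lo l ≤ p ∧ p ≤ hi l := by
  induction h with
  | leaf h =>
    intro i p hi' _
    rw [hA.leaf_w _ _ h] at hi'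
    exact absurd rfl hi'
  | @un l w l₁ w' B h h' ih =>
    intro i p hi' hc
    by_cases h0 : w i = 0
    · have h1 : w' i ≠ 0 := by
        intro h2; apply hi'; simp [h0, h2]
      obtain ⟨h2, h3, h4⟩ := ih i p h1 hc
      have := hA.un_le _ _ _ h h2
      exact ⟨hA.un_R _ _ _ h h2, by omega, by omega⟩
    · obtain ⟨h2, h3, h4⟩ := hA.un_w _ _ _ h i p h0 hc
      have := hA.un_le _ _ _ h (hA.un_R' _ _ _ h h2)
      exact ⟨h2, h3, by omega⟩
  | @bin l l₁ l₂ w₁ w₂ B₁ B₂ h h₁ h₂ ih₁ ih₂ =>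
    intro i p hi' hc
    by_cases h0 : w₁ i = 0
    · have h1 : w₂ i ≠ 0 := by
        intro h2; apply hi'; simp [h0, h2]
      obtain ⟨h2, h3, h4⟩ := ih₂ i p h1 hc
      have := hA.bin₂ _ _ _ h h2
      exact ⟨this.1, by omega, by omega⟩
    · obtain ⟨h2, h3, h4⟩ := ih₁ i p h0 hc
      have := hA.bin₁ _ _ _ h h2
      exact ⟨this.1, by omega, by omega⟩

theorem Ann.ctx_le (hA : Ann S R lo hi c) {l l' : L} {w : ι → ℕ} (h : Ctx S l l' w) :
    R l' → R l ∧ lo l ≤ lo l' ∧ hi l' ≤ hi l := by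
  induction h with
  | refl l => exact fun h => ⟨h, le_rfl, le_rfl⟩
  | un h h' ih =>
    intro hR
    obtain ⟨h1, h2, h3⟩ := ih hR
    have := hA.un_le _ _ _ h h1
    exact ⟨hA.un_R _ _ _ h h1, by omega, by omega⟩
  | left h h₁ h₂ ih =>
    intro hR
    obtain ⟨h1, h2, h3⟩ := ih hR
    have := hA.bin₁ _ _ _ h h1
    exact ⟨this.1, by omega, by omega⟩
  | right h h₁ h₂ ih =>
    intro hR
    obtain ⟨h1, h2, h3⟩ := ih hR
    have := hA.bin₂ _ _ _ h h1
    exact ⟨this.1, by omega, by omega⟩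

theorem Ann.ctx_R (hA : Ann S R lo hi c) {l l' : L} {w : ι → ℕ} (h : Ctx S l l' w) :
    ∀ i p, w i ≠ 0 → c i = some p → R l := by
  induction h with
  | refl l => exact fun i p h => absurd rfl h
  | @un l w l₁ l'' w' h h' ih =>
    intro i p hi' hc
    by_cases h0 : w i = 0
    · have h1 : w' i ≠ 0 := by
        intro h2; apply hi'; simp [h0, h2]
      exact hA.un_R _ _ _ h (ih i p h1 hc)
    · exact (hA.un_w _ _ _ h i p h0 hc).1
  | @left l l₁ l₂ l'' w₁ w₂ B h h₁ h₂ ih =>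
    intro i p hi' hc
    by_cases h0 : w₁ i = 0
    · have h1 : w₂ i ≠ 0 := by
        intro h2; apply hi'; simp [h0, h2]
      exact (hA.bin₂ _ _ _ h (hA.der_supp h₂ i p h1 hc).1).1
    · exact (hA.bin₁ _ _ _ h (ih i p h0 hc)).1
  | @right l l₁ l₂ l'' w₁ w₂ B h h₁ h₂ ih =>
    intro i p hi' hc
    by_cases h0 : w₁ i = 0
    · have h1 : w₂ i ≠ 0 := by
        intro h2; apply hi'; simp [h0, h2]
      exact (hA.bin₂ _ _ _ h (ih i p h1 hc)).1
    · exact (hA.bin₁ _ _ _ h (hA.der_supp h₁ i p h0 hc).1).1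

theorem Ann.ctx_supp (hA : Ann S R lo hi c) {l l' : L} {w : ι → ℕ} (h : Ctx S l l' w) :
    R l' → ∀ i p, w i ≠ 0 → c i = some p →
      (lo l ≤ p ∧ p ≤ lo l') ∨ (hi l' ≤ p ∧ p ≤ hi l) := by
  induction h with
  | refl l => exact fun _ i p h => absurd rfl h
  | @un l w l₁ l'' w' h h' ih =>
    intro hR i p hi' hc
    have hle := hA.ctx_le h' hR
    have hun := hA.un_le _ _ _ h hle.1
    by_cases h0 : w i = 0
    · have h1 : w' i ≠ 0 := by
        intro h2; apply hi'; simp [h0, h2]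
      have := ih hR i p h1 hc
      omega
    · have := hA.un_w _ _ _ h i p h0 hc
      omega
  | @left l l₁ l₂ l'' w₁ w₂ B h h₁ h₂ ih =>
    intro hR i p hi' hc
    have hle := hA.ctx_le h₁ hR
    have hb := hA.bin₁ _ _ _ h hle.1
    by_cases h0 : w₁ i = 0
    · have h1 : w₂ i ≠ 0 := by
        intro h2; apply hi'; simp [h0, h2]
      have h3 := hA.der_supp h₂ i p h1 hc
      have h4 := hA.bin₂ _ _ _ h h3.1
      have h5 := hA.bin₀ _ _ _ h hle.1 h3.1
      omega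
    · have := ih hR i p h0 hc
      omega
  | @right l l₁ l₂ l'' w₁ w₂ B h h₁ h₂ ih =>
    intro hR i p hi' hc
    have hle := hA.ctx_le h₂ hR
    have hb := hA.bin₂ _ _ _ h hle.1
    by_cases h0 : w₁ i = 0
    · have h1 : w₂ i ≠ 0 := by
        intro h2; apply hi'; simp [h0, h2]
      have := ih hR i p h1 hc
      omega
    · have h3 := hA.der_supp h₁ i p h0 hc
      have h4 := hA.bin₁ _ _ _ h h3.1
      have h5 := hA.bin₀ _ _ _ h h3.1 hle.1
      omega

theorem Ann.nc (hA : Ann S R lo hi c) {l : L} {w : ι → ℕ} {B : Set L} (h : Der S l w B) :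
    ∀ l₁ ∈ B, ∀ l₂ ∈ B, R l₁ → R l₂ → ¬ (lo l₁ < lo l₂ ∧ lo l₂ < hi l₁ ∧ hi l₁ < hi l₂) := by
  induction h with
  | leaf h =>
    intro l₁ h₁ l₂ h₂ _ _
    rw [Set.mem_singleton_iff] at h₁ h₂
    subst h₁
    subst h₂
    omega
  | @un l w l' w' B h h' ih =>
    intro l₁ h₁ l₂ h₂ R₁ R₂
    have a₁ := hA.der_mem (Der.un h h') l₁ h₁ R₁
    have a₂ := hA.der_mem (Der.un h h') l₂ h₂ R₂
    rcases Set.mem_insert_iff.1 h₁ with rfl | h₁
    · omega
    rcases Set.mem_insert_iff.1 h₂ with rfl | h₂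
    · omega
    exact ih l₁ h₁ l₂ h₂ R₁ R₂
  | @bin l l' l'' w₁ w₂ B₁ B₂ h hh₁ hh₂ ih₁ ih₂ =>
    intro l₁ h₁ l₂ h₂ R₁ R₂
    have a₁ := hA.der_mem (Der.bin h hh₁ hh₂) l₁ h₁ R₁
    have a₂ := hA.der_mem (Der.bin h hh₁ hh₂) l₂ h₂ R₂
    rcases Set.mem_insert_iff.1 h₁ with rfl | h₁
    · omega
    rcases Set.mem_insert_iff.1 h₂ with rfl | h₂
    · omega
    rcases h₁ with h₁ | h₁ <;> rcases h₂ with h₂ | h₂
    · exact ih₁ l₁ h₁ l₂ h₂ R₁ R₂
    · have b₁ := hA.der_mem hh₁ l₁ h₁ R₁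
      have b₂ := hA.der_mem hh₂ l₂ h₂ R₂
      have := hA.bin₀ _ _ _ h b₁.1 b₂.1
      omega
    · have b₁ := hA.der_mem hh₂ l₁ h₁ R₁
      have b₂ := hA.der_mem hh₁ l₂ h₂ R₂
      have := hA.bin₀ _ _ _ h b₂.1 b₁.1
      omega
    · exact ih₂ l₁ h₁ l₂ h₂ R₁ R₂

end ann


variable {A X J : Type}

theorem Gram.asys_ann (G : Gram A X) (π : ℕ → A) (m : ℕ) :
    Ann (G.asys π m) (fun _ => True) (fun l => l.1) (fun l => l.2.2) some where
  leaf_le := fun l w h _ => le_of_eq h.2.1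
  leaf_w := fun l w h => h.2.2.2
  un_R := fun _ _ _ _ _ => trivial
  un_R' := fun _ _ _ _ _ => trivial
  un_le := fun l w l' h _ => ⟨h.1, h.2.1, le_of_eq h.2.2.1⟩
  un_w := fun l w l' h i p hi hc => by
    obtain ⟨h1, h2, h3, h4, h5⟩ := h
    cases hc
    rcases h5 with ⟨_, _, rfl⟩ | ⟨_, rfl⟩
    · exact absurd rfl hi
    · have : i = l.1 := by
        by_contra hne
        exact hi (Pi.single_eq_of_ne hne 1)
      subst this
      exact ⟨trivial, le_rfl, h1⟩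
  bin₁ := fun l l₁ l₂ h _ => by
    obtain ⟨h0, h1, h2, h3, h4, h5, h6⟩ := h
    exact ⟨trivial, le_of_eq h1.symm, h2, by omega⟩
  bin₂ := fun l l₁ l₂ h _ => by
    obtain ⟨h0, h1, h2, h3, h4, h5, h6⟩ := h
    exact ⟨trivial, by omega, h4, by omega⟩
  bin₀ := fun l l₁ l₂ h _ _ => by
    obtain ⟨h0, h1, h2, h3, h4, h5, h6⟩ := h
    exact h3
  bin_le := fun l l₁ l₂ h _ => by
    obtain ⟨h0, h1, h2, h3, h4, h5, h6⟩ := h
    omega

/-- all labels of a tree are inside the pattern -/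
theorem Gram.asys_lt {G : Gram A X} {π : ℕ → A} {m : ℕ} {l : ℕ × X × ℕ} {w : ℕ → ℕ}
    {B : Set (ℕ × X × ℕ)} (h : Der (G.asys π m) l w B) : ∀ l' ∈ B, l'.1 ≤ l'.2.2 ∧ l'.2.2 < m := by
  induction h with
  | leaf h =>
    intro l' hl'
    rw [Set.mem_singleton_iff] at hl'
    subst hl'
    obtain ⟨h1, h2, h3, h4⟩ := h
    omega
  | un h h' ih =>
    intro l' hl'
    rcases Set.mem_insert_iff.1 hl' with rfl | hl'
    · obtain ⟨h1, h2, h3, h4, h5⟩ := h
      omega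
    · exact ih l' hl'
  | bin h h₁ h₂ ih₁ ih₂ =>
    intro l' hl'
    rcases Set.mem_insert_iff.1 hl' with rfl | hl'
    · obtain ⟨h0, h1, h2, h3, h4, h5, h6⟩ := h
      omega
    · rcases hl' with hl' | hl'
      · exact ih₁ l' hl'
      · exact ih₂ l' hl'

/-- the supports of the weights of trees -/
theorem Gram.asys_supp {G : Gram A X} {π : ℕ → A} {m : ℕ} {l : ℕ × X × ℕ} {w : ℕ → ℕ}
    {B : Set (ℕ × X × ℕ)} (h : Der (G.asys π m) l w B) : ∀ p, w p ≠ 0 → l.1 ≤ p ∧ p ≤ l.2.2 :=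
  fun p hp => ((Gram.asys_ann G π m).der_supp h p p hp rfl).2

/-- soundness -/
theorem Gram.sound {G : Gram A X} {π : ℕ → A} {m : ℕ} {l : ℕ × X × ℕ} {w : ℕ → ℕ}
    {B : Set (ℕ × X × ℕ)} (h : Der (G.asys π m) l w B) : G.D l.2.1 (wd π m w) := by
  induction h with
  | leaf h =>
    obtain ⟨h1, h2, h3, h4⟩ := h
    rw [h4, wd_zero]
    exact Gram.D.leaf h1
  | @un l w l' w' B h h' ih =>
    obtain ⟨h1, h2, h3, h4, h5⟩ := h
    rcases h5 with ⟨h5, _, rfl⟩ | ⟨h5, rfl⟩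
    · rw [zero_add]
      exact Gram.D.un h5 ih
    · have hs := Gram.asys_supp h'
      rw [wd_add π (c := l.1), wd_single π (by omega)]
      · exact Gram.D.un h5 ih
      · intro q hq
        by_contra hlt
        exact hq (Pi.single_eq_of_ne (by omega) 1)
      · intro q hq
        have := hs q hq
        omega
  | @bin l l₁ l₂ w₁ w₂ B₁ B₂ h h₁ h₂ ih₁ ih₂ =>
    obtain ⟨h0, h1, h2, h3, h4, h5, h6⟩ := h
    have hs₁ := Gram.asys_supp h₁
    have hs₂ := Gram.asys_supp h₂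
    rw [wd_add π (c := l₁.2.2)]
    · exact Gram.D.bin h0 ih₁ ih₂
    · intro q hq
      exact (hs₁ q hq).2
    · intro q hq
      have := hs₂ q hq
      omega

/-- completeness -/
theorem Gram.complete {G : Gram A X} (π : ℕ → A) (m : ℕ) {x : X} {w : List A} (h : G.D x w) :
    ∀ (a b : ℕ) (e : ℕ → ℕ), a ≤ b → b < m → (∀ p, e p ≠ 0 → a ≤ p ∧ p ≤ b) → w = wd π m e →
      ∃ lo hi B, a ≤ lo ∧ lo ≤ hi ∧ hi ≤ b ∧ Der (G.asys π m) (lo, x, hi) e B := by
  induction h with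
  | @leaf x h =>
    intro a b e hab hb he hw
    have : e = 0 := by
      funext p
      by_contra hp
      have h1 := he p hp
      exact hp (eq_zero_of_wd_nil π hw.symm p (by omega))
    subst this
    exact ⟨a, a, _, le_rfl, le_rfl, hab, Der.leaf ⟨h, rfl, by dsimp only; omega, rfl⟩⟩
  | @un x y o w h h' ih =>
    intro a b e hab hb he hw
    cases o with
    | none =>
      obtain ⟨lo, hi, B, h1, h2, h3, h4⟩ := ih a b e hab hb he (by simpa using hw)
      have := Der.un (S := G.asys π m) (l := (lo, x, hi)) (l' := (lo, y, hi)) (w := 0) ⟨le_rfl, h2, rfl,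
        by dsimp only; omega, Or.inl ⟨h, rfl, rfl⟩⟩ h4
      rw [zero_add] at this
      exact ⟨lo, hi, _, h1, h2, h3, this⟩
    | some o =>
      have hw' : o :: w = wd π m e := by simpa using hw
      obtain ⟨p, e', hap, hpb, hx, hee, hs, hw''⟩ := wd_head π hb he hw'
      obtain ⟨lo, hi, B, h1, h2, h3, h4⟩ := ih p b e' hpb hb hs hw''
      have := Der.un (S := G.asys π m) (l := (p, x, hi)) (l' := (lo, y, hi)) (w := Pi.single p 1)
        ⟨h1, h2, rfl, by dsimp only; omega, Or.inr ⟨by rw [← hx]; exact h, rfl⟩⟩ h4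
      rw [← hee] at this
      exact ⟨p, hi, _, hap, by omega, h3, this⟩
  | @bin x y z u v h h₁ h₂ ih₁ ih₂ =>
    intro a b e hab hb he hw
    obtain ⟨c, e₁, e₂, hac, hcb, hee, hs₁, hs₂, hu, hv⟩ := wd_split π hab hb he hw
    obtain ⟨lo₁, hi₁, B₁, a1, a2, a3, a4⟩ := ih₁ a c e₁ hac (by omega) hs₁ hu
    obtain ⟨lo₂, hi₂, B₂, b1, b2, b3, b4⟩ := ih₂ c b e₂ hcb hb hs₂ hv
    have := Der.bin (S := G.asys π m) (l := (lo₁, x, hi₂)) (l₁ := (lo₁, y, hi₁))
      (l₂ := (lo₂, z, hi₂)) ⟨h, rfl, a2, by dsimp only; omega, b2, rfl, by dsimp only; omega⟩ a4 b4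
    rw [← hee] at this
    exact ⟨lo₁, hi₂, _, a1, by omega, b3, this⟩

/-- contexts as word contexts -/
theorem Gram.sound_ctx {G : Gram A X} {π : ℕ → A} {m : ℕ} {l l' : ℕ × X × ℕ} {w : ℕ → ℕ}
    (h : Ctx (G.asys π m) l l' w) :
    ∃ u v : ℕ → ℕ, w = u + v ∧ (∀ p, u p ≠ 0 → l.1 ≤ p ∧ p ≤ l'.1) ∧
      (∀ p, v p ≠ 0 → l'.2.2 ≤ p ∧ p ≤ l.2.2) ∧
      ∀ y, G.D l'.2.1 y → G.D l.2.1 (wd π m u ++ y ++ wd π m v) := by
  have hA := Gram.asys_ann G π m
  induction h with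
  | refl l =>
    refine ⟨0, 0, by simp, fun p h => absurd rfl h, fun p h => absurd rfl h, fun y hy => ?_⟩
    rw [wd_zero]
    simpa using hy
  | @un l w l₁ l'' w' h h' ih =>
    have hle := hA.ctx_le h' trivial
    obtain ⟨u, v, hw, hu, hv, hs⟩ := ih
    obtain ⟨h1, h2, h3, h4, h5⟩ := h
    rcases h5 with ⟨h5, h6, rfl⟩ | ⟨h5, rfl⟩
    · refine ⟨u, v, by rw [hw, zero_add], fun p hp => ?_, fun p hp => ?_, fun y hy => ?_⟩
      · have := hu p hp
        omega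
      · have := hv p hp
        omega
      · exact Gram.D.un h5 (hs y hy)
    · refine ⟨Pi.single l.1 1 + u, v, by rw [hw, add_assoc], fun p hp => ?_, fun p hp => ?_,
        fun y hy => ?_⟩
      · by_cases hpl : p = l.1
        · subst hpl
          omega
        · have : u p ≠ 0 := by
            intro h0
            apply hp
            simp [h0, hpl]
          have := hu p this
          omega
      · have := hv p hp
        omega
      · rw [wd_add π (c := l.1), wd_single π (by omega)]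
        · simpa using Gram.D.un h5 (hs y hy)
        · intro q hq
          by_contra hlt
          exact hq (Pi.single_eq_of_ne (by omega) 1)
        · intro q hq
          have := hu q hq
          omega
  | @left l l₁ l₂ l'' w₁ w₂ B h h₁ h₂ ih =>
    have hle := hA.ctx_le h₁ trivial
    have hs₂ := Gram.asys_supp h₂
    obtain ⟨u, v, hw, hu, hv, hs⟩ := ih
    obtain ⟨h0, h1, h2, h3, h4, h5, h6⟩ := h
    refine ⟨u, v + w₂, by rw [hw, add_assoc], fun p hp => ?_, fun p hp => ?_, fun y hy => ?_⟩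
    · have := hu p hp
      omega
    · by_cases h0 : v p = 0
      · have : w₂ p ≠ 0 := by
          intro h0'
          apply hp
          simp [h0, h0']
        have := hs₂ p this
        omega
      · have := hv p h0
        omega
    · rw [wd_add π (c := l₁.2.2)]
      · have := Gram.D.bin h0 (hs y hy) (Gram.sound h₂)
        simpa only [List.append_assoc] using this
      · intro q hq
        exact (hv q hq).2
      · intro q hq
        have := hs₂ q hq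
        omega
  | @right l l₁ l₂ l'' w₁ w₂ B h h₁ h₂ ih =>
    have hle := hA.ctx_le h₂ trivial
    have hs₁ := Gram.asys_supp h₁
    obtain ⟨u, v, hw, hu, hv, hs⟩ := ih
    obtain ⟨h0, h1, h2, h3, h4, h5, h6⟩ := h
    refine ⟨w₁ + u, v, by rw [hw, add_assoc], fun p hp => ?_, fun p hp => ?_, fun y hy => ?_⟩
    · by_cases h0 : u p = 0
      · have : w₁ p ≠ 0 := by
          intro h0'
          apply hp
          simp [h0, h0']
        have := hs₁ p this
        omega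
      · have := hu p h0
        omega
    · have := hv p hp
      omega
    · rw [wd_add π (c := l₁.2.2)]
      · have := Gram.D.bin h0 (Gram.sound h₁) (hs y hy)
        simpa only [List.append_assoc] using this
      · intro q hq
        exact (hs₁ q hq).2
      · intro q hq
        have := hu q hq
        omega

theorem Gram.asys_fin {G : Gram A X} (hG : G.Fin) (π : ℕ → A) (m : ℕ) : (G.asys π m).Fin := by
  obtain ⟨F, hF, h1, h2, h3⟩ := hG
  refine ⟨⟨Set.Iio m ×ˢ F ×ˢ Set.Iio m, ?_, ?_, ?_, ?_⟩, ?_⟩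
  · exact (Set.finite_Iio m).prod (hF.prod (Set.finite_Iio m))
  · rintro ⟨lo, x, hi⟩ w ⟨h, h', h'', _⟩
    dsimp only at h h' h''
    exact ⟨h'', h1 _ h, by rw [← h']; exact h''⟩
  · rintro ⟨lo, x, hi⟩ w ⟨lo', x', hi'⟩ ⟨a1, a2, a3, a4, a5⟩
    dsimp only at a1 a2 a3 a4 a5
    refine ⟨show lo < m by omega, ?_, a4⟩
    rcases a5 with ⟨a5, _⟩ | ⟨a5, _⟩
    · exact h2 _ _ _ a5
    · exact h2 _ _ _ a5
  · rintro ⟨lo, x, hi⟩ ⟨lo₁, x₁, hi₁⟩ ⟨lo₂, x₂, hi₂⟩ ⟨a0, a1, a2, a3, a4, a5, a6⟩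
    dsimp only at a0 a1 a2 a3 a4 a5 a6
    exact ⟨show lo < m by omega, h3 _ _ _ a0, a6⟩
  · refine ⟨insert 0 ((fun p => Pi.single p 1) '' Set.Iio m), ?_, ?_, ?_⟩
    · exact ((Set.finite_Iio m).image _).insert _
    · rintro l w ⟨_, _, _, rfl⟩
      exact Set.mem_insert _ _
    · rintro l w l' ⟨a1, a2, a3, a4, a5⟩
      rcases a5 with ⟨_, _, rfl⟩ | ⟨_, rfl⟩
      · exact Set.mem_insert _ _
      · exact Set.mem_insert_of_mem _ ⟨l.1, show l.1 < m by omega, rfl⟩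

/-- finite pigeonhole along an ultrafilter -/
theorem ev_pigeon (U : Ultrafilter ℕ) {β : Type*} [Finite β] {P : ℕ → β → Prop}
    (h : ∀ᶠ N in (U : Filter ℕ), ∃ b, P N b) : ∃ b, ∀ᶠ N in (U : Filter ℕ), P N b := by
  by_contra hne
  push Not at hne
  have h1 : ∀ b, ∀ᶠ N in (U : Filter ℕ), ¬ P N b := hne
  have h2 : ∀ᶠ N in (U : Filter ℕ), ∀ b, ¬ P N b := Filter.eventually_all.2 h1
  obtain ⟨N, ⟨b, hb⟩, hN⟩ := (h.and h2).exists
  exact hN b hb



/-- labels visible from the future `ε` -/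
def LJ.vis (ε : Bool) : LJ X J → Prop
  | .v _ _ _ => True
  | .y ε' _ _ _ => ε' = ε
  | .j _ _ _ _ => True

def LJ.lo (ε : Bool) : LJ X J → ℕ
  | .v lo _ _ => lo
  | .y ε' lo _ _ => if ε' = ε then lo else 0
  | .j lo _ _ _ => lo

def LJ.hi (ε : Bool) : LJ X J → ℕ
  | .v _ _ hi => hi
  | .y ε' _ _ hi => if ε' = ε then hi else 0
  | .j _ _ h₁ h₂ => if ε then h₂ else h₁

def jc (ε : Bool) (i : Option Bool × ℕ) : Option ℕ :=
  if i.1 = some (!ε) then none else some i.2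

theorem jc_none (ε : Bool) (p : ℕ) : jc ε (none, p) = some p := by simp [jc]

theorem jc_some (ε : Bool) (p : ℕ) : jc ε (some ε, p) = some p := by
  cases ε <;> simp [jc]

theorem single_ne {ι : Type} [DecidableEq ι] {i j : ι}
    (h : (Pi.single j 1 : ι → ℕ) i ≠ 0) : i = j := by
  by_contra hne
  exact h (Pi.single_eq_of_ne hne 1)

theorem JGram.asys_ann (G : Gram A X) (K : JGram A X J) (π : ℕ → A) (mV m : ℕ) (ε : Bool) :
    Ann (JGram.asys G K π mV m) (LJ.vis ε) (LJ.lo ε) (LJ.hi ε) (jc ε) where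
  leaf_le := by
    rintro (⟨lo, x, hi⟩ | ⟨ε', lo, x, hi⟩ | ⟨lo, k, h₁, h₂⟩) w h hR
    · obtain ⟨h0, h1, h2, h3⟩ := h
      exact le_of_eq h2
    · obtain ⟨h0, h1, h2, h3⟩ := h
      have : ε' = ε := hR
      simp only [LJ.lo, LJ.hi, if_pos this]
      exact le_of_eq h2
    · exact absurd h.2 (by simp)
  leaf_w := fun l w h => h.1
  un_R := by
    rintro (⟨lo, x, hi⟩ | ⟨ε', lo, x, hi⟩ | ⟨lo, k, h₁, h₂⟩) w
      (⟨lo', x', hi'⟩ | ⟨ε'', lo', x', hi'⟩ | ⟨lo', k', h₁', h₂'⟩) h hR <;>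
      simp only [JGram.asys] at h <;> simp only [LJ.vis] at hR ⊢
    exact h.1 ▸ hR
  un_R' := by
    rintro (⟨lo, x, hi⟩ | ⟨ε', lo, x, hi⟩ | ⟨lo, k, h₁, h₂⟩) w
      (⟨lo', x', hi'⟩ | ⟨ε'', lo', x', hi'⟩ | ⟨lo', k', h₁', h₂'⟩) h hR <;>
      simp only [JGram.asys] at h <;> simp only [LJ.vis] at hR ⊢
    rw [h.1]; exact hR
  un_le := by
    rintro (⟨lo, x, hi⟩ | ⟨ε', lo, x, hi⟩ | ⟨lo, k, h₁, h₂⟩) w
      (⟨lo', x', hi'⟩ | ⟨ε'', lo', x', hi'⟩ | ⟨lo', k', h₁', h₂'⟩) h hR <;>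
      simp only [JGram.asys] at h <;> simp only [LJ.vis] at hR <;> simp only [LJ.lo, LJ.hi]
    · omega
    · have h1 : ε' = ε := by rw [← h.1]; exact hR
      rw [if_pos h1, if_pos hR, if_pos hR, if_pos h1]
      omega
    · obtain ⟨a1, a2, rfl, rfl, a5, a6, a7, a8, a9⟩ := h
      cases ε <;> simp <;> omega
  un_w := by
    rintro (⟨lo, x, hi⟩ | ⟨ε', lo, x, hi⟩ | ⟨lo, k, h₁, h₂⟩) w
      (⟨lo', x', hi'⟩ | ⟨ε'', lo', x', hi'⟩ | ⟨lo', k', h₁', h₂'⟩) h i p hi0 hc <;>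
      simp only [JGram.asys] at h <;> simp only [LJ.lo, LJ.vis]
    · obtain ⟨a1, a2, a3, a4, ⟨_, _, rfl⟩ | ⟨_, rfl⟩⟩ := h
      · exact absurd rfl hi0
      · have := single_ne hi0
        subst this
        rw [jc_none] at hc
        cases hc
        exact ⟨trivial, le_rfl, a1⟩
    · obtain ⟨a0, a1, a2, a3, a4, a5, ⟨_, _, rfl⟩ | ⟨_, rfl⟩⟩ := h
      · exact absurd rfl hi0
      · have := single_ne hi0
        subst this
        subst a0
        by_cases hε : ε'' = ε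
        · subst hε
          rw [jc_some] at hc
          cases hc
          simp only [if_true]
          exact ⟨trivial, le_rfl, a2⟩
        · have : ε'' = !ε := by cases ε'' <;> cases ε <;> simp_all
          subst this
          simp [jc] at hc
    · obtain ⟨a1, a2, a3, a4, a5, a6, a7, a8, ⟨_, _, rfl⟩ | ⟨_, rfl⟩⟩ := h
      · exact absurd rfl hi0
      · have := single_ne hi0
        subst this
        rw [jc_none] at hc
        cases hc
        exact ⟨trivial, le_rfl, a1⟩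
  bin₁ := by
    rintro (⟨lo, x, hi⟩ | ⟨ε₀, lo, x, hi⟩ | ⟨lo, k, h₁, h₂⟩)
      (⟨lo₁, x₁, hi₁⟩ | ⟨ε₁, lo₁, x₁, hi₁⟩ | ⟨lo₁, k₁, h₁₁, h₂₁⟩)
      (⟨lo₂, x₂, hi₂⟩ | ⟨ε₂, lo₂, x₂, hi₂⟩ | ⟨lo₂, k₂, h₁₂, h₂₂⟩) h hR <;>
      simp only [JGram.asys] at h <;> simp only [LJ.vis] at hR <;>
      simp only [LJ.lo, LJ.hi, LJ.vis, true_and]
    · omega
    · obtain ⟨rfl, rfl, a1, a2, a3, a4, a5, a6, a7, a8⟩ := h
      subst hR
      simp only [if_true, true_and]
      omega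
    · obtain ⟨a1, a2, a3, a4, a5, rfl, rfl, a8, a9, a10, a11⟩ := h
      cases ε <;> simp <;> omega
    · obtain ⟨rfl, rfl, a1, a2, a3, a4, a5, a6, a7, a8, a9⟩ := h
      subst hR
      simp
      omega
    · obtain ⟨rfl, a1, a2, a3, a4, a5, ⟨rfl, a6, a7, a8, a9, a10⟩ | ⟨rfl, a6, a7, a8, a9, a10⟩⟩ := h
      · cases ε <;> simp <;> omega
      · cases ε <;> simp <;> omega
  bin₂ := by
    rintro (⟨lo, x, hi⟩ | ⟨ε₀, lo, x, hi⟩ | ⟨lo, k, h₁, h₂⟩)
      (⟨lo₁, x₁, hi₁⟩ | ⟨ε₁, lo₁, x₁, hi₁⟩ | ⟨lo₁, k₁, h₁₁, h₂₁⟩)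
      (⟨lo₂, x₂, hi₂⟩ | ⟨ε₂, lo₂, x₂, hi₂⟩ | ⟨lo₂, k₂, h₁₂, h₂₂⟩) h hR <;>
      simp only [JGram.asys] at h <;> simp only [LJ.vis] at hR <;>
      simp only [LJ.lo, LJ.hi, LJ.vis, true_and]
    · omega
    · obtain ⟨rfl, rfl, a1, a2, a3, a4, a5, a6, a7, a8⟩ := h
      subst hR
      simp only [if_true, true_and]
      omega
    · obtain ⟨a1, a2, a3, a4, a5, rfl, rfl, a8, a9, a10, a11⟩ := h
      cases ε <;> simp <;> omega
    · obtain ⟨rfl, rfl, a1, a2, a3, a4, a5, a6, a7, a8, a9⟩ := h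
      subst hR
      simp
      omega
    · obtain ⟨rfl, a1, a2, a3, a4, a5, ⟨rfl, a6, a7, a8, a9, a10⟩ | ⟨rfl, a6, a7, a8, a9, a10⟩⟩ := h
      · subst hR
        simp
        omega
      · subst hR
        simp
        omega
  bin₀ := by
    rintro (⟨lo, x, hi⟩ | ⟨ε₀, lo, x, hi⟩ | ⟨lo, k, h₁, h₂⟩)
      (⟨lo₁, x₁, hi₁⟩ | ⟨ε₁, lo₁, x₁, hi₁⟩ | ⟨lo₁, k₁, h₁₁, h₂₁⟩)
      (⟨lo₂, x₂, hi₂⟩ | ⟨ε₂, lo₂, x₂, hi₂⟩ | ⟨lo₂, k₂, h₁₂, h₂₂⟩) h hR hR' <;>
      simp only [JGram.asys] at h <;> simp only [LJ.vis] at hR hR' <;> simp only [LJ.lo, LJ.hi]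
    · omega
    · obtain ⟨rfl, rfl, a1, a2, a3, a4, a5, a6, a7, a8⟩ := h
      subst hR
      simp only [if_true]
      omega
    · omega
    · obtain ⟨rfl, rfl, a1, a2, a3, a4, a5, a6, a7, a8, a9⟩ := h
      subst hR
      exact absurd hR' (by simp)
    · obtain ⟨rfl, a1, a2, a3, a4, a5, ⟨rfl, a6, a7, a8, a9, a10⟩ | ⟨rfl, a6, a7, a8, a9, a10⟩⟩ := h
      · subst hR'
        simp
        omega
      · subst hR'
        simp
        omega
  bin_le := by
    rintro (⟨lo, x, hi⟩ | ⟨ε₀, lo, x, hi⟩ | ⟨lo, k, h₁, h₂⟩)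
      (⟨lo₁, x₁, hi₁⟩ | ⟨ε₁, lo₁, x₁, hi₁⟩ | ⟨lo₁, k₁, h₁₁, h₂₁⟩)
      (⟨lo₂, x₂, hi₂⟩ | ⟨ε₂, lo₂, x₂, hi₂⟩ | ⟨lo₂, k₂, h₁₂, h₂₂⟩) h hR <;>
      simp only [JGram.asys] at h <;> simp only [LJ.vis] at hR <;> simp only [LJ.lo, LJ.hi]
    · omega
    · obtain ⟨rfl, rfl, a1, a2, a3, a4, a5, a6, a7, a8⟩ := h
      subst hR
      simp only [if_true]
      omega
    · obtain ⟨a1, a2, a3, a4, a5, rfl, rfl, a8, a9, a10, a11⟩ := h
      cases ε <;> simp <;> omega
    · obtain ⟨rfl, rfl, a1, a2, a3, a4, a5, a6, a7, a8, a9⟩ := h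
      cases ε <;> simp <;> omega
    · obtain ⟨rfl, a1, a2, a3, a4, a5, ⟨rfl, a6, a7, a8, a9, a10⟩ | ⟨rfl, a6, a7, a8, a9, a10⟩⟩ := h
      · cases ε <;> simp <;> omega
      · cases ε <;> simp <;> omega


/-! ### generic invariants -/

theorem Der.forall_label {L ι : Type} {S : Sys L ι} {P : L → Prop} (h1 : ∀ l w, S.leaf l w → P l)
    (h2 : ∀ l w l', S.un l w l' → P l) (h3 : ∀ l l₁ l₂, S.bin l l₁ l₂ → P l) {l : L} {w : ι → ℕ}
    {B : Set L} (h : Der S l w B) : ∀ l' ∈ B, P l' := by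
  induction h with
  | leaf h =>
    intro l' hl'
    rw [Set.mem_singleton_iff] at hl'
    subst hl'
    exact h1 _ _ h
  | un h h' ih =>
    intro l' hl'
    rcases Set.mem_insert_iff.1 hl' with rfl | hl'
    · exact h2 _ _ _ h
    · exact ih l' hl'
  | bin h h₁ h₂ ih₁ ih₂ =>
    intro l' hl'
    rcases Set.mem_insert_iff.1 hl' with rfl | hl'
    · exact h3 _ _ _ h
    · rcases hl' with hl' | hl'
      · exact ih₁ l' hl'
      · exact ih₂ l' hl'

theorem add_ne_cases {ι : Type} {w w' : ι → ℕ} {i : ι} (h : (w + w') i ≠ 0) :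
    w i ≠ 0 ∨ w' i ≠ 0 := by
  by_contra hne
  push Not at hne
  exact h (by rw [Pi.add_apply, hne.1, hne.2])

theorem Der.forall_weight {L ι : Type} {S : Sys L ι} {P : ι → Prop}
    (h1 : ∀ l w, S.leaf l w → ∀ i, w i ≠ 0 → P i)
    (h2 : ∀ l w l', S.un l w l' → ∀ i, w i ≠ 0 → P i) {l : L} {w : ι → ℕ}
    {B : Set L} (h : Der S l w B) : ∀ i, w i ≠ 0 → P i := by
  induction h with
  | leaf h => exact h1 _ _ h
  | un h h' ih =>
    intro i hi
    rcases add_ne_cases hi with hi | hi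
    · exact h2 _ _ _ h i hi
    · exact ih i hi
  | bin h h₁ h₂ ih₁ ih₂ =>
    intro i hi
    rcases add_ne_cases hi with hi | hi
    · exact ih₁ i hi
    · exact ih₂ i hi

theorem Ctx.forall_weight {L ι : Type} {S : Sys L ι} {P : ι → Prop}
    (h1 : ∀ l w, S.leaf l w → ∀ i, w i ≠ 0 → P i)
    (h2 : ∀ l w l', S.un l w l' → ∀ i, w i ≠ 0 → P i) {l l' : L} {w : ι → ℕ}
    (h : Ctx S l l' w) : ∀ i, w i ≠ 0 → P i := by
  induction h with
  | refl l => exact fun i h => absurd rfl h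
  | un h h' ih =>
    intro i hi
    rcases add_ne_cases hi with hi | hi
    · exact h2 _ _ _ h i hi
    · exact ih i hi
  | left h h₁ h₂ ih =>
    intro i hi
    rcases add_ne_cases hi with hi | hi
    · exact ih i hi
    · exact Der.forall_weight h1 h2 h₂ i hi
  | right h h₁ h₂ ih =>
    intro i hi
    rcases add_ne_cases hi with hi | hi
    · exact Der.forall_weight h1 h2 h₁ i hi
    · exact ih i hi

/-! ### validity of labels and coordinates -/

def LJ.ok (mV m : ℕ) : LJ X J → Prop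
  | .v lo _ hi => lo ≤ hi ∧ hi < mV
  | .y _ lo _ hi => mV ≤ lo ∧ lo ≤ hi ∧ hi < m
  | .j lo _ h₁ h₂ => lo < mV ∧ mV ≤ h₁ ∧ h₁ < m ∧ mV ≤ h₂ ∧ h₂ < m

def posOK (mV m : ℕ) (i : Option Bool × ℕ) : Prop :=
  (i.1 = none → i.2 < mV) ∧ ∀ ε, i.1 = some ε → mV ≤ i.2 ∧ i.2 < m

section

variable {G : Gram A X} {K : JGram A X J} {π : ℕ → A} {mV m : ℕ}

theorem JGram.ok_leaf : ∀ l w, (JGram.asys G K π mV m).leaf l w → LJ.ok mV m l := by
  rintro (⟨lo, x, hi⟩ | ⟨ε', lo, x, hi⟩ | ⟨lo, k, h₁, h₂⟩) w h <;>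
    simp only [JGram.asys] at h <;> simp only [LJ.ok]
  · omega
  · omega
  · exact h.2.elim

theorem JGram.ok_un : ∀ l w l', (JGram.asys G K π mV m).un l w l' → LJ.ok mV m l := by
  rintro (⟨lo, x, hi⟩ | ⟨ε', lo, x, hi⟩ | ⟨lo, k, h₁, h₂⟩) w
    (⟨lo', x', hi'⟩ | ⟨ε'', lo', x', hi'⟩ | ⟨lo', k', h₁', h₂'⟩) h <;>
    simp only [JGram.asys] at h <;> simp only [LJ.ok] <;> omega

theorem JGram.ok_bin : ∀ l l₁ l₂, (JGram.asys G K π mV m).bin l l₁ l₂ → LJ.ok mV m l := by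
  rintro (⟨lo, x, hi⟩ | ⟨ε₀, lo, x, hi⟩ | ⟨lo, k, h₁, h₂⟩)
    (⟨lo₁, x₁, hi₁⟩ | ⟨ε₁, lo₁, x₁, hi₁⟩ | ⟨lo₁, k₁, h₁₁, h₂₁⟩)
    (⟨lo₂, x₂, hi₂⟩ | ⟨ε₂, lo₂, x₂, hi₂⟩ | ⟨lo₂, k₂, h₁₂, h₂₂⟩) h <;>
    simp only [JGram.asys] at h <;> simp only [LJ.ok] <;> omega

theorem JGram.pos_leaf : ∀ l w, (JGram.asys G K π mV m).leaf l w → ∀ i, w i ≠ 0 → posOK mV m i := by
  intro l w h i hi
  rw [h.1] at hi
  exact absurd rfl hi

theorem JGram.pos_un : ∀ l w l', (JGram.asys G K π mV m).un l w l' →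
    ∀ i, w i ≠ 0 → posOK mV m i := by
  rintro (⟨lo, x, hi⟩ | ⟨ε', lo, x, hi⟩ | ⟨lo, k, h₁, h₂⟩) w
    (⟨lo', x', hi'⟩ | ⟨ε'', lo', x', hi'⟩ | ⟨lo', k', h₁', h₂'⟩) h i hi0 <;>
    simp only [JGram.asys] at h
  · obtain ⟨a1, a2, a3, a4, ⟨_, _, rfl⟩ | ⟨_, rfl⟩⟩ := h
    · exact absurd rfl hi0
    · have := single_ne hi0
      subst this
      exact ⟨fun _ => by dsimp only; omega, fun ε hε => by simp at hε⟩
  · obtain ⟨a0, a1, a2, a3, a4, a5, ⟨_, _, rfl⟩ | ⟨_, rfl⟩⟩ := h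
    · exact absurd rfl hi0
    · have := single_ne hi0
      subst this
      exact ⟨fun hε => by simp at hε, fun _ _ => by dsimp only; omega⟩
  · obtain ⟨a1, a2, a3, a4, a5, a6, a7, a8, ⟨_, _, rfl⟩ | ⟨_, rfl⟩⟩ := h
    · exact absurd rfl hi0
    · have := single_ne hi0
      subst this
      exact ⟨fun _ => by dsimp only; omega, fun ε hε => by simp at hε⟩

theorem JGram.der_ok {l : LJ X J} {w : Option Bool × ℕ → ℕ} {B : Set (LJ X J)}
    (h : Der (JGram.asys G K π mV m) l w B) : ∀ l' ∈ B, LJ.ok mV m l' :=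
  Der.forall_label JGram.ok_leaf JGram.ok_un JGram.ok_bin h

theorem JGram.der_pos {l : LJ X J} {w : Option Bool × ℕ → ℕ} {B : Set (LJ X J)}
    (h : Der (JGram.asys G K π mV m) l w B) : ∀ i, w i ≠ 0 → posOK mV m i :=
  Der.forall_weight JGram.pos_leaf JGram.pos_un h

theorem JGram.ctx_pos {l l' : LJ X J} {w : Option Bool × ℕ → ℕ}
    (h : Ctx (JGram.asys G K π mV m) l l' w) : ∀ i, w i ≠ 0 → posOK mV m i :=
  Ctx.forall_weight JGram.pos_leaf JGram.pos_un h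

/-! ### soundness -/

/-- what a tree with the given root says -/
def LJ.Snd (G : Gram A X) (K : JGram A X J) (π : ℕ → A) (mV m : ℕ) :
    LJ X J → (Option Bool × ℕ → ℕ) → Prop
  | .v _ x _, w => G.D x (wd π mV fun p => w (none, p)) ∧ ∀ ε p, w (some ε, p) = 0
  | .y ε _ x _, w => G.D x (wdF π mV m fun p => w (some ε, p)) ∧ (∀ p, w (none, p) = 0) ∧
      ∀ p, w (some (!ε), p) = 0
  | .j _ k _ _, w => JGram.D G K k (wd π mV fun p => w (none, p))
      (wdF π mV m fun p => w (some false, p)) (wdF π mV m fun p => w (some true, p))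

theorem wdF_zero (π : ℕ → A) (mV m : ℕ) {e : ℕ → ℕ} (h : ∀ p, e p = 0) : wdF π mV m e = [] :=
  wd_eq_nil _ fun _ _ => h _

theorem wdF_add (π : ℕ → A) (mV m : ℕ) {c : ℕ} {e e₁ e₂ : ℕ → ℕ} (he : ∀ p, e p = e₁ p + e₂ p)
    (h₁ : ∀ p, e₁ p ≠ 0 → p ≤ c) (h₂ : ∀ p, e₂ p ≠ 0 → c ≤ p) :
    wdF π mV m e = wdF π mV m e₁ ++ wdF π mV m e₂ := by
  unfold wdF
  have : (fun p => e (mV + p)) = (fun p => e₁ (mV + p)) + fun p => e₂ (mV + p) := by
    funext p
    exact he _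
  rw [this, wd_add (c := c - mV)]
  · intro p hp
    have := h₁ _ hp
    omega
  · intro p hp
    have := h₂ _ hp
    omega

theorem wdF_single (π : ℕ → A) (mV m : ℕ) {p n : ℕ} (h1 : mV ≤ p) (h2 : p < m) {e : ℕ → ℕ}
    (he : ∀ q, e q = (Pi.single p n : ℕ → ℕ) q) :
    wdF π mV m e = List.replicate n (π p) := by
  unfold wdF
  have : (fun q => e (mV + q)) = Pi.single (p - mV) n := by
    funext q
    rw [he]
    by_cases hq : q = p - mV
    · subst hq
      rw [show mV + (p - mV) = p by omega]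
      simp
    · rw [Pi.single_eq_of_ne hq, Pi.single_eq_of_ne (by omega)]
  rw [this, wd_single _ (by omega)]
  congr 2
  omega

theorem wd_add' (π : ℕ → A) (m : ℕ) {c : ℕ} {e e₁ e₂ : ℕ → ℕ} (he : ∀ p, e p = e₁ p + e₂ p)
    (h₁ : ∀ p, e₁ p ≠ 0 → p ≤ c) (h₂ : ∀ p, e₂ p ≠ 0 → c ≤ p) :
    wd π m e = wd π m e₁ ++ wd π m e₂ := by
  have : e = e₁ + e₂ := by
    funext p
    exact he p
  rw [this, wd_add π h₁ h₂]

theorem wd_single' (π : ℕ → A) (m : ℕ) {p n : ℕ} (h2 : p < m) {e : ℕ → ℕ}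
    (he : ∀ q, e q = (Pi.single p n : ℕ → ℕ) q) : wd π m e = List.replicate n (π p) := by
  rw [← wd_single π h2]
  congr 1
  funext q
  exact he q

theorem single_pair {β : Type} [DecidableEq β] (b : β) (p q n : ℕ) :
    (Pi.single (b, p) n : β × ℕ → ℕ) (b, q) = (Pi.single p n : ℕ → ℕ) q := by
  by_cases h : q = p
  · subst h
    simp
  · rw [Pi.single_eq_of_ne h, Pi.single_eq_of_ne (by simp [h])]

theorem single_pair_ne {β : Type} [DecidableEq β] {b b' : β} (hb : b' ≠ b) (p q n : ℕ) :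
    (Pi.single (b, p) n : β × ℕ → ℕ) (b', q) = 0 := by
  rw [Pi.single_eq_of_ne (by simp [hb])]

theorem JGram.sound {l : LJ X J} {w : Option Bool × ℕ → ℕ} {B : Set (LJ X J)}
    (h : Der (JGram.asys G K π mV m) l w B) : LJ.Snd G K π mV m l w := by
  induction h with
  | @leaf l w h =>
    rcases l with ⟨lo, x, hi⟩ | ⟨ε', lo, x, hi⟩ | ⟨lo, k, h₁, h₂⟩ <;>
      simp only [JGram.asys] at h
    · obtain ⟨rfl, h1, _⟩ := h
      refine ⟨?_, fun _ _ => rfl⟩
      simp only [Pi.zero_apply]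
      rw [wd_eq_nil π fun _ _ => rfl]
      exact Gram.D.leaf h1
    · obtain ⟨rfl, h1, _⟩ := h
      refine ⟨?_, fun _ => rfl, fun _ => rfl⟩
      simp only [Pi.zero_apply]
      rw [wdF_zero π mV m fun _ => rfl]
      exact Gram.D.leaf h1
    · exact h.2.elim
  | @un l w l₁ w' B h h' ih =>
    have hok := JGram.der_ok h' l₁ (by cases h' <;> simp)
    rcases l with ⟨lo, x, hi⟩ | ⟨ε', lo, x, hi⟩ | ⟨lo, k, h₁, h₂⟩ <;>
    rcases l₁ with ⟨lo', x', hi'⟩ | ⟨ε'', lo', x', hi'⟩ | ⟨lo', k', h₁', h₂'⟩ <;>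
      simp only [JGram.asys] at h
    · obtain ⟨a1, a2, a3, a4, ⟨a5, _, rfl⟩ | ⟨a5, rfl⟩⟩ := h
      · rw [zero_add]
        exact ⟨Gram.D.un a5 ih.1, ih.2⟩
      · refine ⟨?_, fun ε p => ?_⟩
        · simp only [Pi.add_apply]
          rw [wd_add' π mV (c := lo) (fun p => rfl), wd_single' π mV (by omega)
            (fun q => single_pair _ _ _ _)]
          · exact Gram.D.un a5 ih.1
          · intro p hp
            rw [single_pair] at hp
            exact le_of_eq (single_ne hp)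
          · intro p hp
            have := ((JGram.asys_ann G K π mV m false).der_supp h' (none, p) p hp (jc_none _ _)).2
            simp only [LJ.lo, LJ.hi] at this
            omega
        · rw [Pi.add_apply, single_pair_ne (by simp), ih.2, zero_add]
    · obtain ⟨rfl, a1, a2, a3, a4, a5, ⟨a6, _, rfl⟩ | ⟨a6, rfl⟩⟩ := h
      · rw [zero_add]
        exact ⟨Gram.D.un a6 ih.1, ih.2⟩
      · refine ⟨?_, fun p => ?_, fun p => ?_⟩
        · simp only [Pi.add_apply]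
          rw [wdF_add π mV m (c := lo) (fun p => rfl), wdF_single π mV m (by omega) (by omega)
            (fun q => single_pair _ _ _ _)]
          · exact Gram.D.un a6 ih.1
          · intro p hp
            rw [single_pair] at hp
            exact le_of_eq (single_ne hp)
          · intro p hp
            have := ((JGram.asys_ann G K π mV m ε'').der_supp h' (some ε'', p) p hp
              (jc_some _ _)).2
            simp only [LJ.lo, LJ.hi, if_true] at this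
            omega
        · rw [Pi.add_apply, single_pair_ne (by simp), ih.2.1, zero_add]
        · rw [Pi.add_apply, single_pair_ne (by simp), ih.2.2, zero_add]
    · obtain ⟨a1, a2, rfl, rfl, a5, a6, a7, a8, ⟨a9, _, rfl⟩ | ⟨a9, rfl⟩⟩ := h
      · rw [zero_add]
        exact JGram.D.un a9 ih
      · have e1 : wd π mV (fun p => ((Pi.single (none, lo) 1 : Option Bool × ℕ → ℕ) + w') (none, p))
            = π lo :: wd π mV (fun p => w' (none, p)) := by
          simp only [Pi.add_apply]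
          rw [wd_add' π mV (c := lo) (fun p => rfl), wd_single' π mV (by omega)
            (fun q => single_pair _ _ _ _)]
          · rfl
          · intro p hp
            rw [single_pair] at hp
            exact le_of_eq (single_ne hp)
          · intro p hp
            have := ((JGram.asys_ann G K π mV m false).der_supp h' (none, p) p hp (jc_none _ _)).2
            simp only [LJ.lo, LJ.hi] at this
            omega
        have e2 : ∀ ε, (fun p => ((Pi.single (none, lo) 1 : Option Bool × ℕ → ℕ) + w') (some ε, p))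
            = fun p => w' (some ε, p) := by
          intro ε
          funext p
          rw [Pi.add_apply, single_pair_ne (by simp), zero_add]
        simp only [LJ.Snd]
        rw [e1, e2, e2]
        exact JGram.D.un a9 ih
  | @bin l l₁ l₂ w₁ w₂ B₁ B₂ h h₁ h₂ ih₁ ih₂ =>
    have s₁ := fun ε => (JGram.asys_ann G K π mV m ε).der_supp h₁
    have s₂ := fun ε => (JGram.asys_ann G K π mV m ε).der_supp h₂
    rcases l with ⟨lo, x, hi⟩ | ⟨ε₀, lo, x, hi⟩ | ⟨lo, k, hh₁, hh₂⟩ <;>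
    rcases l₁ with ⟨lo₁, x₁, hi₁⟩ | ⟨ε₁, lo₁, x₁, hi₁⟩ | ⟨lo₁, k₁, h₁₁, h₂₁⟩ <;>
    rcases l₂ with ⟨lo₂, x₂, hi₂⟩ | ⟨ε₂, lo₂, x₂, hi₂⟩ | ⟨lo₂, k₂, h₁₂, h₂₂⟩ <;>
      simp only [JGram.asys] at h
    · obtain ⟨a1, a2, a3, a4, a5, a6, a7⟩ := h
      refine ⟨?_, fun ε p => ?_⟩
      · simp only [Pi.add_apply]
        rw [wd_add' π mV (c := hi₁) (fun p => rfl)]
        · exact Gram.D.bin a1 ih₁.1 ih₂.1
        · intro p hp
          exact (s₁ false (none, p) p hp (jc_none _ _)).2.2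
        · intro p hp
          exact a4.trans (s₂ false (none, p) p hp (jc_none _ _)).2.1
      · rw [Pi.add_apply, ih₁.2, ih₂.2]
    · obtain ⟨rfl, rfl, a1, a2, a3, a4, a5, a6, a7, a8⟩ := h
      refine ⟨?_, fun p => ?_, fun p => ?_⟩
      · simp only [Pi.add_apply]
        rw [wdF_add π mV m (c := hi₁) (fun p => rfl)]
        · exact Gram.D.bin a1 ih₁.1 ih₂.1
        · intro p hp
          have := (s₁ _ (_, p) p hp (jc_some _ _)).2.2
          simpa only [LJ.hi, if_true] using this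
        · intro p hp
          have := (s₂ _ (_, p) p hp (jc_some _ _)).2.1
          simp only [LJ.lo, if_true] at this
          omega
      · rw [Pi.add_apply, ih₁.2.1, ih₂.2.1]
      · rw [Pi.add_apply, ih₁.2.2, ih₂.2.2]
    · obtain ⟨a1, a2, a3, a4, a5, rfl, rfl, a8, a9, a10, a11⟩ := h
      have e1 : wd π mV (fun p => (w₁ + w₂) (none, p)) = wd π mV (fun p => w₁ (none, p)) ++
          wd π mV (fun p => w₂ (none, p)) := by
        simp only [Pi.add_apply]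
        rw [wd_add' π mV (c := hi₁) (fun p => rfl)]
        · intro p hp
          exact (s₁ false (none, p) p hp (jc_none _ _)).2.2
        · intro p hp
          exact a4.trans (s₂ false (none, p) p hp (jc_none _ _)).2.1
      have e2 : ∀ ε, (fun p => (w₁ + w₂) (some ε, p)) = fun p => w₂ (some ε, p) := by
        intro ε
        funext p
        rw [Pi.add_apply, ih₁.2, zero_add]
      simp only [LJ.Snd]
      rw [e1, e2, e2]
      exact JGram.D.first a1 ih₁.1 ih₂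
    · obtain ⟨rfl, rfl, a1, a2, a3, a4, a5, a6, a7, a8, a9⟩ := h
      have e1 : wd π mV (fun p => (w₁ + w₂) (none, p)) = [] := by
        refine wd_eq_nil π fun p _ => ?_
        rw [Pi.add_apply, ih₁.2.1, ih₂.2.1]
      have e2 : (fun p => (w₁ + w₂) (some false, p)) = fun p => w₁ (some false, p) := by
        funext p
        have := ih₂.2.2 p
        simp only [Bool.not_true] at this
        rw [Pi.add_apply, this, add_zero]
      have e3 : (fun p => (w₁ + w₂) (some true, p)) = fun p => w₂ (some true, p) := by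
        funext p
        have := ih₁.2.2 p
        simp only [Bool.not_false] at this
        rw [Pi.add_apply, this, zero_add]
      simp only [LJ.Snd]
      rw [e1, e2, e3]
      exact JGram.D.stop a1 ih₁.1 ih₂.1
    · obtain ⟨rfl, a1, a2, a3, a4, a5, ⟨rfl, a6, a7, a8, a9, a10⟩ | ⟨rfl, a6, a7, a8, a9, a10⟩⟩ := h
      · have e1 : (fun p => (w₁ + w₂) (none, p)) = fun p => w₁ (none, p) := by
          funext p
          rw [Pi.add_apply, ih₂.2.1, add_zero]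
        have e2 : wdF π mV m (fun p => (w₁ + w₂) (some false, p)) =
            wdF π mV m (fun p => w₁ (some false, p)) ++ wdF π mV m (fun p => w₂ (some false, p)) := by
          simp only [Pi.add_apply]
          rw [wdF_add π mV m (c := lo₂) (fun p => rfl)]
          · intro p hp
            have := (s₁ false (_, p) p hp (jc_some _ _)).2.2
            simp only [LJ.hi] at this
            simp at this
            omega
          · intro p hp
            have := (s₂ false (_, p) p hp (jc_some _ _)).2.1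
            simp only [LJ.lo, if_true] at this
            exact this
        have e3 : (fun p => (w₁ + w₂) (some true, p)) = fun p => w₁ (some true, p) := by
          funext p
          have := ih₂.2.2 p
          simp only [Bool.not_false] at this
          rw [Pi.add_apply, this, add_zero]
        simp only [LJ.Snd]
        rw [e1, e2, e3]
        exact JGram.D.in1 a6 ih₁ ih₂.1
      · have e1 : (fun p => (w₁ + w₂) (none, p)) = fun p => w₁ (none, p) := by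
          funext p
          rw [Pi.add_apply, ih₂.2.1, add_zero]
        have e2 : wdF π mV m (fun p => (w₁ + w₂) (some true, p)) =
            wdF π mV m (fun p => w₁ (some true, p)) ++ wdF π mV m (fun p => w₂ (some true, p)) := by
          simp only [Pi.add_apply]
          rw [wdF_add π mV m (c := lo₂) (fun p => rfl)]
          · intro p hp
            have := (s₁ true (_, p) p hp (jc_some _ _)).2.2
            simp only [LJ.hi] at this
            simp at this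
            omega
          · intro p hp
            have := (s₂ true (_, p) p hp (jc_some _ _)).2.1
            simp only [LJ.lo, if_true] at this
            exact this
        have e3 : (fun p => (w₁ + w₂) (some false, p)) = fun p => w₁ (some false, p) := by
          funext p
          have := ih₂.2.2 p
          simp only [Bool.not_true] at this
          rw [Pi.add_apply, this, add_zero]
        simp only [LJ.Snd]
        rw [e1, e2, e3]
        exact JGram.D.in2 a6 ih₁ ih₂.1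

/-! ### completeness -/

/-- the weight with parts `eV`, `f₁`, `f₂` (the last two relative to `mV`) -/
def jw (mV : ℕ) (eV f₁ f₂ : ℕ → ℕ) : Option Bool × ℕ → ℕ
  | (none, p) => eV p
  | (some false, p) => if mV ≤ p then f₁ (p - mV) else 0
  | (some true, p) => if mV ≤ p then f₂ (p - mV) else 0

theorem jw_add (mV : ℕ) (a b c a' b' c' : ℕ → ℕ) :
    jw mV (a + a') (b + b') (c + c') = jw mV a b c + jw mV a' b' c' := by
  funext i
  obtain ⟨_ | _ | _, p⟩ := i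
  · rfl
  · simp only [jw, Pi.add_apply]
    split_ifs <;> rfl
  · simp only [jw, Pi.add_apply]
    split_ifs <;> rfl

theorem jw_zero (mV : ℕ) : jw mV 0 0 0 = 0 := by
  funext i
  obtain ⟨_ | _ | _, p⟩ := i <;> simp [jw]

theorem jw_single (mV p : ℕ) : jw mV (Pi.single p 1) 0 0 = Pi.single (none, p) 1 := by
  funext i
  obtain ⟨_ | _ | _, q⟩ := i
  · rw [single_pair]
    rfl
  · rw [single_pair_ne (by simp)]
    simp [jw]
  · rw [single_pair_ne (by simp)]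
    simp [jw]

/-- the weight of a future tree -/
def jy (mV : ℕ) (ε : Bool) (f : ℕ → ℕ) : Option Bool × ℕ → ℕ :=
  if ε then jw mV 0 0 f else jw mV 0 f 0

theorem jy_add (mV : ℕ) (ε : Bool) (f f' : ℕ → ℕ) : jy mV ε (f + f') = jy mV ε f + jy mV ε f' := by
  cases ε <;> simp [jy, ← jw_add]

theorem jy_zero (mV : ℕ) (ε : Bool) : jy mV ε 0 = 0 := by
  cases ε <;> simp [jy, jw_zero]

theorem jy_single (mV : ℕ) (ε : Bool) (p : ℕ) :
    jy mV ε (Pi.single p 1) = Pi.single (some ε, mV + p) 1 := by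
  funext i
  obtain ⟨b, q⟩ := i
  by_cases hb : b = some ε
  · subst hb
    rw [single_pair]
    have : jy mV ε (Pi.single p 1) (some ε, q) = if mV ≤ q then (Pi.single p 1 : ℕ → ℕ) (q - mV)
        else 0 := by cases ε <;> rfl
    rw [this]
    split_ifs with h
    · by_cases hq : q = mV + p
      · subst hq
        simp
      · rw [Pi.single_eq_of_ne hq, Pi.single_eq_of_ne (by omega)]
    · rw [Pi.single_eq_of_ne (by omega)]
  · rw [single_pair_ne hb]
    cases ε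
    · obtain _ | _ | _ := b
      · rfl
      · exact absurd rfl hb
      · simp [jy, jw]
    · obtain _ | _ | _ := b
      · rfl
      · simp [jy, jw]
      · exact absurd rfl hb

theorem JGram.emb_v (K : JGram A X J) (m : ℕ) {l : ℕ × X × ℕ} {w : ℕ → ℕ} {B : Set (ℕ × X × ℕ)}
    (h : Der (G.asys π mV) l w B) :
    ∃ B', Der (JGram.asys G K π mV m) (.v l.1 l.2.1 l.2.2) (jw mV w 0 0) B' := by
  induction h with
  | @leaf l w h =>
    obtain ⟨h1, h2, h3, rfl⟩ := h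
    rw [jw_zero]
    exact ⟨_, Der.leaf (show (JGram.asys G K π mV m).leaf (.v l.1 l.2.1 l.2.2) 0 from
      ⟨rfl, h1, h2, h3⟩)⟩
  | @un l w l₁ w' B h h' ih =>
    obtain ⟨B', ih⟩ := ih
    obtain ⟨h1, h2, h3, h4, ⟨h5, h6, rfl⟩ | ⟨h5, rfl⟩⟩ := h
    · rw [zero_add]
      have := Der.un (show (JGram.asys G K π mV m).un (.v l.1 l.2.1 l.2.2) 0
        (.v l₁.1 l₁.2.1 l₁.2.2) from ⟨h1, h2, h3, h4, Or.inl ⟨h5, h6, rfl⟩⟩) ih
      rw [zero_add] at this
      exact ⟨_, this⟩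
    · have := Der.un (show (JGram.asys G K π mV m).un (.v l.1 l.2.1 l.2.2)
        (Pi.single (none, l.1) 1) (.v l₁.1 l₁.2.1 l₁.2.2) from
        ⟨h1, h2, h3, h4, Or.inr ⟨h5, rfl⟩⟩) ih
      rw [← jw_single, ← jw_add, add_zero] at this
      exact ⟨_, this⟩
  | @bin l l₁ l₂ w₁ w₂ B₁ B₂ h h₁ h₂ ih₁ ih₂ =>
    obtain ⟨B₁', ih₁⟩ := ih₁
    obtain ⟨B₂', ih₂⟩ := ih₂
    obtain ⟨a0, a1, a2, a3, a4, a5, a6⟩ := h
    have := Der.bin (show (JGram.asys G K π mV m).bin (.v l.1 l.2.1 l.2.2)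
      (.v l₁.1 l₁.2.1 l₁.2.2) (.v l₂.1 l₂.2.1 l₂.2.2) from ⟨a0, a1, a2, a3, a4, a5, a6⟩) ih₁ ih₂
    rw [← jw_add, add_zero] at this
    exact ⟨_, this⟩

theorem JGram.emb_y (K : JGram A X J) (ε : Bool) {l : ℕ × X × ℕ} {w : ℕ → ℕ}
    {B : Set (ℕ × X × ℕ)} (h : Der (G.asys (fun p => π (mV + p)) (m - mV)) l w B) :
    ∃ B', Der (JGram.asys G K π mV m) (.y ε (mV + l.1) l.2.1 (mV + l.2.2)) (jy mV ε w) B' := by
  induction h with
  | @leaf l w h =>
    obtain ⟨h1, h2, h3, rfl⟩ := h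
    rw [jy_zero]
    exact ⟨_, Der.leaf (show (JGram.asys G K π mV m).leaf (.y ε (mV + l.1) l.2.1 (mV + l.2.2)) 0
      from ⟨rfl, h1, by omega, by omega, by omega⟩)⟩
  | @un l w l₁ w' B h h' ih =>
    obtain ⟨B', ih⟩ := ih
    obtain ⟨h1, h2, h3, h4, ⟨h5, h6, rfl⟩ | ⟨h5, rfl⟩⟩ := h
    · rw [zero_add]
      have := Der.un (show (JGram.asys G K π mV m).un (.y ε (mV + l.1) l.2.1 (mV + l.2.2)) 0
        (.y ε (mV + l₁.1) l₁.2.1 (mV + l₁.2.2)) from
        ⟨rfl, by omega, by omega, by omega, by omega, by omega, Or.inl ⟨h5, by omega, rfl⟩⟩) ih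
      rw [zero_add] at this
      exact ⟨_, this⟩
    · have := Der.un (show (JGram.asys G K π mV m).un (.y ε (mV + l.1) l.2.1 (mV + l.2.2))
        (Pi.single (some ε, mV + l.1) 1) (.y ε (mV + l₁.1) l₁.2.1 (mV + l₁.2.2)) from
        ⟨rfl, by omega, by omega, by omega, by omega, by omega, Or.inr ⟨h5, rfl⟩⟩) ih
      rw [← jy_single, ← jy_add] at this
      exact ⟨_, this⟩
  | @bin l l₁ l₂ w₁ w₂ B₁ B₂ h h₁ h₂ ih₁ ih₂ =>
    obtain ⟨B₁', ih₁⟩ := ih₁
    obtain ⟨B₂', ih₂⟩ := ih₂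
    obtain ⟨a0, a1, a2, a3, a4, a5, a6⟩ := h
    have := Der.bin (show (JGram.asys G K π mV m).bin (.y ε (mV + l.1) l.2.1 (mV + l.2.2))
      (.y ε (mV + l₁.1) l₁.2.1 (mV + l₁.2.2)) (.y ε (mV + l₂.1) l₂.2.1 (mV + l₂.2.2)) from
        ⟨rfl, rfl, a0, by omega, by omega, by omega, by omega, by omega, by omega, by omega⟩)
        ih₁ ih₂
    rw [← jy_add] at this
    exact ⟨_, this⟩

theorem JGram.complete {j : J} {V y y' : List A} (h : JGram.D G K j V y y') :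
    ∀ (a b₁ b₂ : ℕ) (eV f₁ f₂ : ℕ → ℕ), a < mV → b₁ < m - mV → b₂ < m - mV →
      (∀ p, eV p ≠ 0 → a ≤ p ∧ p ≤ mV - 1) → (∀ p, f₁ p ≠ 0 → 0 ≤ p ∧ p ≤ b₁) →
      (∀ p, f₂ p ≠ 0 → 0 ≤ p ∧ p ≤ b₂) → V = wd π mV eV →
      y = wd (fun p => π (mV + p)) (m - mV) f₁ → y' = wd (fun p => π (mV + p)) (m - mV) f₂ →
      ∃ lo h₁ h₂ B, a ≤ lo ∧ lo < mV ∧ h₁ ≤ b₁ ∧ h₂ ≤ b₂ ∧
        Der (JGram.asys G K π mV m) (.j lo j (mV + h₁) (mV + h₂)) (jw mV eV f₁ f₂) B := by
  induction h with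
  | @stop j x x' y y' h h₁ h₂ =>
    intro a b₁ b₂ eV f₁ f₂ ha hb₁ hb₂ hV hf₁ hf₂ eqV eq₁ eq₂
    have : eV = 0 := by
      funext p
      by_contra hp
      have h1 := hV p hp
      exact hp (eq_zero_of_wd_nil π eqV.symm p (by omega))
    subst this
    obtain ⟨lo₁, hi₁, B₁, a1, a2, a3, a4⟩ := Gram.complete _ (m - mV) h₁ 0 b₁ f₁ (Nat.zero_le _)
      hb₁ hf₁ eq₁
    obtain ⟨lo₂, hi₂, B₂, c1, c2, c3, c4⟩ := Gram.complete _ (m - mV) h₂ 0 b₂ f₂ (Nat.zero_le _)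
      hb₂ hf₂ eq₂
    obtain ⟨B₁', d1⟩ := JGram.emb_y K false a4
    obtain ⟨B₂', d2⟩ := JGram.emb_y K true c4
    dsimp only at d1 d2
    have := Der.bin (show (JGram.asys G K π mV m).bin (.j a j (mV + hi₁) (mV + hi₂))
      (.y false (mV + lo₁) x (mV + hi₁)) (.y true (mV + lo₂) x' (mV + hi₂)) from
      ⟨rfl, rfl, h, ha, by omega, by omega, rfl, by omega, by omega, by omega, rfl, by omega⟩) d1 d2
    simp only [jy, if_true, Bool.false_eq_true, if_false] at this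
    rw [← jw_add, add_zero, add_zero, zero_add] at this
    exact ⟨a, hi₁, hi₂, _, le_rfl, ha, a3, c3, this⟩
  | @first j x j' u v y y' h h₁ h₂ ih =>
    intro a b₁ b₂ eV f₁ f₂ ha hb₁ hb₂ hV hf₁ hf₂ eqV eq₁ eq₂
    obtain ⟨c, e₁, e₂, hac, hcb, hee, hs₁, hs₂, hu, hv⟩ := wd_split π (by omega) (by omega) hV eqV
    obtain ⟨lo₁, hi₁, B₁, a1, a2, a3, a4⟩ := Gram.complete π mV h₁ a c e₁ hac (by omega) hs₁ hu
    obtain ⟨lo, k₁, k₂, B, c1, c2, c3, c4, c5⟩ := ih c b₁ b₂ e₂ f₁ f₂ (by omega) hb₁ hb₂ hs₂ hf₁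
      hf₂ hv eq₁ eq₂
    obtain ⟨B₁', d1⟩ := JGram.emb_v K m a4
    dsimp only at d1
    have := Der.bin (show (JGram.asys G K π mV m).bin (.j lo₁ j (mV + k₁) (mV + k₂))
      (.v lo₁ x hi₁) (.j lo j' (mV + k₁) (mV + k₂)) from
      ⟨h, rfl, a2, by omega, c2, rfl, rfl, by omega, by omega, by omega, by omega⟩) d1 c5
    rw [← jw_add, zero_add, zero_add, ← hee] at this
    exact ⟨lo₁, k₁, k₂, _, a1, by omega, c3, c4, this⟩
  | @in1 j x j' v y y' u h h₁ h₂ ih =>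
    intro a b₁ b₂ eV f₁ f₂ ha hb₁ hb₂ hV hf₁ hf₂ eqV eq₁ eq₂
    obtain ⟨c, e₁, e₂, hac, hcb, hee, hs₁, hs₂, hu, hv⟩ := wd_split _ (Nat.zero_le _) hb₁ hf₁ eq₁
    obtain ⟨lo₂, hi₂, B₂, a1, a2, a3, a4⟩ := Gram.complete _ (m - mV) h₂ c b₁ e₂ hcb hb₁ hs₂ hv
    obtain ⟨lo, k₁, k₂, B, c1, c2, c3, c4, c5⟩ := ih a c b₂ eV e₁ f₂ ha (by omega) hb₂ hV hs₁
      hf₂ eqV hu eq₂
    obtain ⟨B₁', d1⟩ := JGram.emb_y K false a4
    dsimp only at d1
    have := Der.bin (show (JGram.asys G K π mV m).bin (.j lo j (mV + hi₂) (mV + k₂))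
      (.j lo j' (mV + k₁) (mV + k₂)) (.y false (mV + lo₂) x (mV + hi₂)) from
      ⟨rfl, c2, by omega, by omega, by omega, by omega,
        Or.inl ⟨rfl, h, by omega, by omega, rfl, rfl⟩⟩) c5 d1
    simp only [jy, Bool.false_eq_true, if_false] at this
    rw [← jw_add, add_zero, add_zero, ← hee] at this
    exact ⟨lo, hi₂, k₂, _, c1, c2, a3, c4, this⟩
  | @in2 j x j' v y y' u h h₁ h₂ ih =>
    intro a b₁ b₂ eV f₁ f₂ ha hb₁ hb₂ hV hf₁ hf₂ eqV eq₁ eq₂
    obtain ⟨c, e₁, e₂, hac, hcb, hee, hs₁, hs₂, hu, hv⟩ := wd_split _ (Nat.zero_le _) hb₂ hf₂ eq₂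
    obtain ⟨lo₂, hi₂, B₂, a1, a2, a3, a4⟩ := Gram.complete _ (m - mV) h₂ c b₂ e₂ hcb hb₂ hs₂ hv
    obtain ⟨lo, k₁, k₂, B, c1, c2, c3, c4, c5⟩ := ih a b₁ c eV f₁ e₁ ha hb₁ (by omega) hV hf₁
      hs₁ eqV eq₁ hu
    obtain ⟨B₁', d1⟩ := JGram.emb_y K true a4
    dsimp only at d1
    have := Der.bin (show (JGram.asys G K π mV m).bin (.j lo j (mV + k₁) (mV + hi₂))
      (.j lo j' (mV + k₁) (mV + k₂)) (.y true (mV + lo₂) x (mV + hi₂)) from
      ⟨rfl, c2, by omega, by omega, by omega, by omega,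
        Or.inr ⟨rfl, h, by omega, by omega, rfl, rfl⟩⟩) c5 d1
    simp only [jy, if_true] at this
    rw [← jw_add, add_zero, add_zero, ← hee] at this
    exact ⟨lo, k₁, hi₂, _, c1, c2, c3, a3, this⟩
  | @un j j' o v y y' h h₁ ih =>
    intro a b₁ b₂ eV f₁ f₂ ha hb₁ hb₂ hV hf₁ hf₂ eqV eq₁ eq₂
    cases o with
    | none =>
      obtain ⟨lo, k₁, k₂, B, c1, c2, c3, c4, c5⟩ := ih a b₁ b₂ eV f₁ f₂ ha hb₁ hb₂ hV hf₁
        hf₂ (by simpa using eqV) eq₁ eq₂
      have := Der.un (show (JGram.asys G K π mV m).un (.j lo j (mV + k₁) (mV + k₂)) 0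
        (.j lo j' (mV + k₁) (mV + k₂)) from ⟨le_rfl, c2, rfl, rfl, by omega, by omega, by omega,
        by omega, Or.inl ⟨h, rfl, rfl⟩⟩) c5
      rw [zero_add] at this
      exact ⟨lo, k₁, k₂, _, c1, c2, c3, c4, this⟩
    | some o =>
      have eqV' : o :: v = wd π mV eV := by simpa using eqV
      obtain ⟨p, e', hap, hpb, hx, hee, hs, hw''⟩ := wd_head π (by omega) hV eqV'
      obtain ⟨lo, k₁, k₂, B, c1, c2, c3, c4, c5⟩ := ih p b₁ b₂ e' f₁ f₂ (by omega) hb₁ hb₂ hs hf₁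
        hf₂ hw'' eq₁ eq₂
      have := Der.un (show (JGram.asys G K π mV m).un (.j p j (mV + k₁) (mV + k₂))
        (Pi.single (none, p) 1) (.j lo j' (mV + k₁) (mV + k₂)) from ⟨c1, c2, rfl, rfl, by omega,
        by omega, by omega, by omega, Or.inr ⟨by rw [← hx]; exact h, rfl⟩⟩) c5
      rw [← jw_single, ← jw_add, zero_add, zero_add, ← hee] at this
      exact ⟨p, k₁, k₂, _, hap, by omega, c3, c4, this⟩

/-! ### finiteness -/

theorem JGram.asys_fin (hG : G.Fin) (hK : K.Fin) : (JGram.asys G K π mV m).Fin := by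
  obtain ⟨F, hF, g1, g2, g3⟩ := hG
  obtain ⟨E, hE, k1, k2, k3, k4, k5⟩ := hK
  refine ⟨⟨(fun q : ℕ × X × ℕ => LJ.v q.1 q.2.1 q.2.2) '' (Set.Iio mV ×ˢ F ×ˢ Set.Iio mV) ∪
      ((fun q : Bool × ℕ × X × ℕ => LJ.y q.1 q.2.1 q.2.2.1 q.2.2.2) ''
        (Set.univ ×ˢ Set.Iio m ×ˢ F ×ˢ Set.Iio m) ∪
      (fun q : ℕ × J × ℕ × ℕ => LJ.j q.1 q.2.1 q.2.2.1 q.2.2.2) ''
        (Set.Iio mV ×ˢ E ×ˢ Set.Iio m ×ˢ Set.Iio m)), ?_, ?_, ?_, ?_⟩, ?_⟩
  · refine Set.Finite.union (Set.Finite.image _ ?_) (Set.Finite.union (Set.Finite.image _ ?_)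
      (Set.Finite.image _ ?_))
    · exact (Set.finite_Iio mV).prod (hF.prod (Set.finite_Iio mV))
    · exact Set.finite_univ.prod ((Set.finite_Iio m).prod (hF.prod (Set.finite_Iio m)))
    · exact (Set.finite_Iio mV).prod (hE.prod ((Set.finite_Iio m).prod (Set.finite_Iio m)))
  · intro l w h
    have hok := JGram.ok_leaf l w h
    rcases l with ⟨lo, x, hi⟩ | ⟨ε', lo, x, hi⟩ | ⟨lo, k, h₁, h₂⟩ <;>
      simp only [JGram.asys] at h <;> simp only [LJ.ok] at hok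
    · exact Or.inl ⟨(lo, x, hi), ⟨show lo < mV by omega, g1 _ h.2.1, show hi < mV by omega⟩, rfl⟩
    · exact Or.inr (Or.inl ⟨(ε', lo, x, hi), ⟨trivial, show lo < m by omega, g1 _ h.2.1,
        show hi < m by omega⟩, rfl⟩)
    · exact h.2.elim
  · intro l w l' h
    have hok := JGram.ok_un l w l' h
    rcases l with ⟨lo, x, hi⟩ | ⟨ε', lo, x, hi⟩ | ⟨lo, k, h₁, h₂⟩ <;>
    rcases l' with ⟨lo', x', hi'⟩ | ⟨ε'', lo', x', hi'⟩ | ⟨lo', k', h₁', h₂'⟩ <;>
      simp only [JGram.asys] at h <;> simp only [LJ.ok] at hok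
    · obtain ⟨a1, a2, a3, a4, ⟨a5, _, rfl⟩ | ⟨a5, rfl⟩⟩ := h <;>
      exact Or.inl ⟨(lo, x, hi), ⟨show lo < mV by omega, g2 _ _ _ a5, show hi < mV by omega⟩, rfl⟩
    · obtain ⟨a0, a1, a2, a3, a4, a5, ⟨a6, _, rfl⟩ | ⟨a6, rfl⟩⟩ := h <;>
      exact Or.inr (Or.inl ⟨(ε', lo, x, hi), ⟨trivial, show lo < m by omega, g2 _ _ _ a6,
        show hi < m by omega⟩, rfl⟩)
    · obtain ⟨a1, a2, a3, a4, a5, a6, a7, a8, ⟨a9, _, rfl⟩ | ⟨a9, rfl⟩⟩ := h <;>
      exact Or.inr (Or.inr ⟨(lo, k, h₁, h₂), ⟨show lo < mV by omega, k5 _ _ _ a9,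
        show h₁ < m by omega, show h₂ < m by omega⟩, rfl⟩)
  · intro l l₁ l₂ h
    have hok := JGram.ok_bin l l₁ l₂ h
    rcases l with ⟨lo, x, hi⟩ | ⟨ε₀, lo, x, hi⟩ | ⟨lo, k, hh₁, hh₂⟩ <;>
    rcases l₁ with ⟨lo₁, x₁, hi₁⟩ | ⟨ε₁, lo₁, x₁, hi₁⟩ | ⟨lo₁, k₁, h₁₁, h₂₁⟩ <;>
    rcases l₂ with ⟨lo₂, x₂, hi₂⟩ | ⟨ε₂, lo₂, x₂, hi₂⟩ | ⟨lo₂, k₂, h₁₂, h₂₂⟩ <;>
      simp only [JGram.asys] at h <;> simp only [LJ.ok] at hok
    · exact Or.inl ⟨(lo, x, hi), ⟨show lo < mV by omega, g3 _ _ _ h.1, show hi < mV by omega⟩, rfl⟩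
    · exact Or.inr (Or.inl ⟨(ε₀, lo, x, hi), ⟨trivial, show lo < m by omega, g3 _ _ _ h.2.2.1,
        show hi < m by omega⟩, rfl⟩)
    · exact Or.inr (Or.inr ⟨(lo, k, hh₁, hh₂), ⟨show lo < mV by omega, k2 _ _ _ h.1,
        show hh₁ < m by omega, show hh₂ < m by omega⟩, rfl⟩)
    · exact Or.inr (Or.inr ⟨(lo, k, hh₁, hh₂), ⟨show lo < mV by omega, k1 _ _ _ h.2.2.1,
        show hh₁ < m by omega, show hh₂ < m by omega⟩, rfl⟩)
    · obtain ⟨a0, a1, a2, a3, a4, a5, ⟨_, a6, _⟩ | ⟨_, a6, _⟩⟩ := h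
      · exact Or.inr (Or.inr ⟨(lo, k, hh₁, hh₂), ⟨show lo < mV by omega, k3 _ _ _ a6,
          show hh₁ < m by omega, show hh₂ < m by omega⟩, rfl⟩)
      · exact Or.inr (Or.inr ⟨(lo, k, hh₁, hh₂), ⟨show lo < mV by omega, k4 _ _ _ a6,
          show hh₁ < m by omega, show hh₂ < m by omega⟩, rfl⟩)
  · refine ⟨insert 0 ((fun q : Option Bool × ℕ => Pi.single q 1) ''
      (Set.univ ×ˢ Set.Iio (max mV m))), ?_, ?_, ?_⟩
    · exact ((Set.finite_univ.prod (Set.finite_Iio _)).image _).insert _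
    · rintro l w ⟨rfl, _⟩
      exact Set.mem_insert _ _
    · intro l w l' h
      rcases l with ⟨lo, x, hi⟩ | ⟨ε', lo, x, hi⟩ | ⟨lo, k, h₁, h₂⟩ <;>
      rcases l' with ⟨lo', x', hi'⟩ | ⟨ε'', lo', x', hi'⟩ | ⟨lo', k', h₁', h₂'⟩ <;>
        simp only [JGram.asys] at h
      · obtain ⟨a1, a2, a3, a4, ⟨a5, _, rfl⟩ | ⟨a5, rfl⟩⟩ := h
        · exact Set.mem_insert _ _
        · exact Set.mem_insert_of_mem _ ⟨(none, lo), ⟨trivial, show lo < max mV m by omega⟩, rfl⟩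
      · obtain ⟨a0, a1, a2, a3, a4, a5, ⟨a6, _, rfl⟩ | ⟨a6, rfl⟩⟩ := h
        · exact Set.mem_insert _ _
        · exact Set.mem_insert_of_mem _
            ⟨(some ε', lo), ⟨trivial, show lo < max mV m by omega⟩, rfl⟩
      · obtain ⟨a1, a2, a3, a4, a5, a6, a7, a8, ⟨a9, _, rfl⟩ | ⟨a9, rfl⟩⟩ := h
        · exact Set.mem_insert _ _
        · exact Set.mem_insert_of_mem _ ⟨(none, lo), ⟨trivial, show lo < max mV m by omega⟩, rfl⟩

end

theorem fl_joint {A X J : Type} (G : Gram A X) (hG : G.Fin) (K : JGram A X J) (hK : K.Fin)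
    (π : ℕ → A) (mV m : ℕ) (h0 : 0 < mV) (hm : mV < m)
    (U : Ultrafilter ℕ) (D : ℕ → ℕ) (hD : ∀ C : ℕ, ∀ᶠ N in (U : Filter ℕ), C < D N) (j : J)
    (e : ℕ → Option Bool × ℕ → ℕ)
    (heV : ∀ᶠ N in (U : Filter ℕ), ∀ p, mV ≤ p → e N (none, p) = 0)
    (heY : ∀ᶠ N in (U : Filter ℕ), ∀ ε p, p < mV ∨ m ≤ p → e N (some ε, p) = 0)
    (h : ∀ᶠ N in (U : Filter ℕ), JGram.D G K j (wd π mV fun p => e N (none, p))
      (wdF π mV m fun p => e N (some false, p)) (wdF π mV m fun p => e N (some true, p))) :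
    ∃ H : JHD U D mV e, (∀ t p, H.w t p ≠ 0 → p.2 < m) ∧
      ∀ᶠ N in (U : Filter ℕ), ∀ n' : H.T → ℕ, (∀ t, 1 ≤ n' t) →
        JGram.D G K j (wd π mV fun p => H.r N (none, p) + ∑ t, n' t * H.w t (none, p))
          (wdF π mV m fun p => H.r N (some false, p) + ∑ t, n' t * H.w t (some false, p))
          (wdF π mV m fun p => H.r N (some true, p) + ∑ t, n' t * H.w t (some true, p)) := by
  -- the root label is constant along the ultrafilter
  have hroot : ∃ b : Fin mV × Fin (m - mV) × Fin (m - mV), ∀ᶠ N in (U : Filter ℕ), ∃ B,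
      Der (JGram.asys G K π mV m) (.j (b.1 : ℕ) j (mV + b.2.1) (mV + b.2.2)) (e N) B := by
    apply ev_pigeon
    filter_upwards [h, heV, heY] with N hN hV hY
    have hjw : e N = jw mV (fun p => e N (none, p)) (fun p => e N (some false, mV + p))
        (fun p => e N (some true, mV + p)) := by
      funext i
      obtain ⟨_ | _ | _, p⟩ := i
      · rfl
      · simp only [jw]
        split_ifs with hp
        · rw [show mV + (p - mV) = p by omega]
        · exact hY _ _ (Or.inl (by omega))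
      · simp only [jw]
        split_ifs with hp
        · rw [show mV + (p - mV) = p by omega]
        · exact hY _ _ (Or.inl (by omega))
    obtain ⟨lo, h₁, h₂, B, c1, c2, c3, c4, c5⟩ := JGram.complete (π := π) hN 0 (m - mV - 1)
      (m - mV - 1) (fun p => e N (none, p)) (fun p => e N (some false, mV + p))
      (fun p => e N (some true, mV + p)) h0 (by omega) (by omega)
      (fun p hp => ⟨Nat.zero_le _, by
        by_contra hlt
        exact hp (hV p (by omega))⟩)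
      (fun p hp => ⟨Nat.zero_le _, by
        by_contra hlt
        exact hp (hY _ _ (Or.inr (by omega)))⟩)
      (fun p hp => ⟨Nat.zero_le _, by
        by_contra hlt
        exact hp (hY _ _ (Or.inr (by omega)))⟩) rfl rfl rfl
    rw [← hjw] at c5
    exact ⟨(⟨lo, c2⟩, ⟨h₁, by omega⟩, ⟨h₂, by omega⟩), B, c5⟩
  obtain ⟨⟨lo₀, h₁₀, h₂₀⟩, hroot⟩ := hroot
  obtain ⟨T, hT, lab, w, n, r, hctx, heq, hsmall, hbig, hpump⟩ :=
    parikh_limit (JGram.asys G K π mV m) (JGram.asys_fin hG hK) U D hD _ e hroot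
  have hA := JGram.asys_ann G K π mV m
  obtain ⟨N₀, hN₀⟩ := hpump.exists
  obtain ⟨B₀, hB₀, hlab⟩ := hN₀ (fun _ => 1) (fun _ => le_rfl)
  have hok : ∀ t, LJ.ok mV m (lab t) := fun t => JGram.der_ok hB₀ _ (hlab t)
  have hpos : ∀ t i, w t i ≠ 0 → posOK mV m i := fun t => JGram.ctx_pos (hctx t)
  -- a visible coordinate of a loop is at one of the ends
  have hsupp : ∀ ε t i p, w t i ≠ 0 → jc ε i = some p →
      LJ.vis ε (lab t) ∧ (p = LJ.lo ε (lab t) ∨ p = LJ.hi ε (lab t)) := by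
    intro ε t i p hi hc
    have hv := (hA ε).ctx_R (hctx t) i p hi hc
    have := (hA ε).ctx_supp (hctx t) hv i p hi hc
    exact ⟨hv, by omega⟩
  have hle : ∀ ε t, LJ.lo ε (lab t) ≤ LJ.hi ε (lab t) := by
    intro ε t
    have := hok t
    generalize lab t = l at this
    rcases l with ⟨lo, x, hi⟩ | ⟨ε', lo, x, hi⟩ | ⟨lo, k, h₁, h₂⟩ <;>
      simp only [LJ.ok] at this <;> simp only [LJ.lo, LJ.hi]
    · exact this.1
    · split_ifs <;> omega
    · cases ε <;> simp <;> omega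
  have hnvis : ∀ ε t, ¬ LJ.vis ε (lab t) → LJ.lo ε (lab t) = 0 ∧ LJ.hi ε (lab t) = 0 := by
    intro ε t
    generalize lab t = l
    rcases l with ⟨lo, x, hi⟩ | ⟨ε', lo, x, hi⟩ | ⟨lo, k, h₁, h₂⟩ <;>
      simp only [LJ.vis, LJ.lo, LJ.hi]
    · simp
    · intro h
      simp [h]
    · simp
  refine ⟨⟨T, hT, w, fun ε t => LJ.lo ε (lab t), fun ε t => LJ.hi ε (lab t), n, r, hle,
    ?_, ?_, ?_, ?_, ?_, hsmall, hbig⟩, ?_, ?_⟩
  · intro ε t p hp
    exact ⟨(hpos t _ hp).1 rfl, (hsupp ε t _ p hp (jc_none _ _)).2⟩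
  · intro ε t p hp
    exact ⟨((hpos t _ hp).2 ε rfl).1, (hsupp ε t _ p hp (jc_some _ _)).2⟩
  · intro ε t t'
    by_cases hv : LJ.vis ε (lab t)
    · by_cases hv' : LJ.vis ε (lab t')
      · exact (hA ε).nc hB₀ _ (hlab t) _ (hlab t') hv hv'
      · have := hnvis ε t' hv'
        omega
    · have := hnvis ε t hv
      omega
  · intro t
    have hokt := hok t
    have hs := hsupp
    by_cases hV : ∃ lo x hi, lab t = LJ.v lo x hi
    · left
      obtain ⟨lo, x, hi, hl⟩ := hV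
      intro ε p
      by_contra hp
      have h1 := (hs ε t _ p hp (jc_some _ _)).2
      have h2 := (hpos t _ hp).2 ε rfl
      rw [hl] at h1 hokt
      simp only [LJ.lo, LJ.hi, LJ.ok] at h1 hokt
      dsimp only at h2
      omega
    · right
      by_cases hJ : ∃ lo k h₁ h₂, lab t = LJ.j lo k h₁ h₂
      · obtain ⟨lo, k, h₁, h₂, hl⟩ := hJ
        refine ⟨lo, fun p hp => ?_⟩
        have h1 := (hs false t _ p hp (jc_none _ _)).2
        have h2 := (hpos t _ hp).1 rfl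
        rw [hl] at h1 hokt
        simp only [LJ.lo, LJ.hi, LJ.ok] at h1 hokt
        simp only [Bool.false_eq_true, if_false] at h1
        dsimp only at h2
        omega
      · refine ⟨0, fun p hp => ?_⟩
        exfalso
        have h1 := (hs false t _ p hp (jc_none _ _)).1
        have h2 := (hs true t _ p hp (jc_none _ _)).1
        rcases hl : lab t with ⟨lo, x, hi⟩ | ⟨ε', lo, x, hi⟩ | ⟨lo, k, h₁, h₂⟩
        · exact hV ⟨_, _, _, hl⟩
        · rw [hl] at h1 h2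
          simp only [LJ.vis] at h1 h2
          rw [h1] at h2
          exact absurd h2 (by simp)
        · exact hJ ⟨_, _, _, _, hl⟩
  · filter_upwards [heq] with N hN p
    rw [hN]
    simp
  · intro t p hp
    have := hpos t p hp
    obtain ⟨_ | ε, p⟩ := p
    · have := this.1 rfl
      dsimp only at this ⊢
      omega
    · exact (this.2 ε rfl).2
  · filter_upwards [hpump] with N hN n' hn'
    obtain ⟨B, hB, _⟩ := hN n' hn'
    have := JGram.sound hB
    simp only [LJ.Snd] at this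
    convert this using 3 <;> simp


end Pool.Agent.Lib.CoCF.HJ

namespace Pool.Agent.Lib.CoCF

theorem fl_joint {A X J : Type} (G : Gram A X) (hG : G.Fin) (K : JGram A X J) (hK : K.Fin)
    (π : ℕ → A) (mV m : ℕ) (h0 : 0 < mV) (hm : mV < m)
    (U : Ultrafilter ℕ) (D : ℕ → ℕ) (hD : ∀ C : ℕ, ∀ᶠ N in (U : Filter ℕ), C < D N) (j : J)
    (e : ℕ → Option Bool × ℕ → ℕ)
    (heV : ∀ᶠ N in (U : Filter ℕ), ∀ p, mV ≤ p → e N (none, p) = 0)
    (heY : ∀ᶠ N in (U : Filter ℕ), ∀ ε p, p < mV ∨ m ≤ p → e N (some ε, p) = 0)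
    (h : ∀ᶠ N in (U : Filter ℕ), JGram.D G K j (wd π mV fun p => e N (none, p))
      (wdF π mV m fun p => e N (some false, p)) (wdF π mV m fun p => e N (some true, p))) :
    ∃ H : JHD U D mV e, (∀ t p, H.w t p ≠ 0 → p.2 < m) ∧
      ∀ᶠ N in (U : Filter ℕ), ∀ n' : H.T → ℕ, (∀ t, 1 ≤ n' t) →
        JGram.D G K j (wd π mV fun p => H.r N (none, p) + ∑ t, n' t * H.w t (none, p))
          (wdF π mV m fun p => H.r N (some false, p) + ∑ t, n' t * H.w t (some false, p))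
          (wdF π mV m fun p => H.r N (some true, p) + ∑ t, n' t * H.w t (some true, p)) :=
  HJ.fl_joint G hG K hK π mV m h0 hm U D hD j e heV heY h

end Pool.Agent.Lib.CoCF
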