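import Pool.Agent.Lib.CoCF.KillStep

/-!
# The words can be killed
-/

set_option autoImplicit false

namespace Pool.Agent.Lib.CoCF

/-! ### token positions -/

/-- `(false, i)` is the cell `A (D i)`, `(true, i)` the cell `B (D² + D i)`, displaced by `x` -/
noncomputable def pp (D : ℕ) (u : Bool × ℕ) (x : ℤ) : Rays 3 :=
  match u.1 with
  | false => ptA (D * u.2 + x)
  | true => ptB (D ^ 2 + D * u.2 + x)

noncomputable def sw (D : ℕ) (u v : Bool × ℕ) (x : ℤ) : Equiv.Perm (Rays 3) :=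
  Equiv.swap (pp D u x) (pp D v x)

theorem pp_inj {D : ℕ} {u v : Bool × ℕ} {x y : ℤ} (hx : 2 * |x| < D) (hy : 2 * |y| < D)
    (h : pp D u x = pp D v y) : u = v ∧ x = y := by
  obtain ⟨a, i⟩ := u
  obtain ⟨b, j⟩ := v
  cases a <;> cases b
  · obtain ⟨h1, h2⟩ := lin_inj (i := i) (j := j) hx hy (ptA_inj h)
    exact ⟨by rw [h1], h2⟩
  · exact absurd h (ptA_ne_ptB _ _ (pos_small hy j))
  · exact absurd h.symm (ptA_ne_ptB _ _ (pos_small hx i))
  · have h0 := ptB_inj h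
    obtain ⟨h1, h2⟩ := lin_inj (i := i) (j := j) hx hy (by linarith)
    exact ⟨by rw [h1], h2⟩

theorem pp_ne {D : ℕ} {u v : Bool × ℕ} {x : ℤ} (hx : 2 * |x| < D) (h : u ≠ v) :
    pp D u x ≠ pp D v x := fun h1 => h (pp_inj hx hx h1).1

theorem pp_ne' {D : ℕ} (u v : Bool × ℕ) {x y : ℤ} (hx : 2 * |x| < D) (hy : 2 * |y| < D)
    (h : x ≠ y) : pp D u x ≠ pp D v y := fun h1 => h (pp_inj hx hy h1).2

theorem sw_comm (D : ℕ) (u v : Bool × ℕ) (x : ℤ) : sw D u v x = sw D v u x := Equiv.swap_comm _ _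

theorem sw_sq (D : ℕ) (u v : Bool × ℕ) (x : ℤ) : sw D u v x * sw D u v x = 1 :=
  Equiv.swap_mul_self _ _

/-- differently displaced swaps commute -/
theorem sw_commute {D : ℕ} (u v u' v' : Bool × ℕ) {x y : ℤ} (hx : 2 * |x| < D) (hy : 2 * |y| < D)
    (h : x ≠ y) : Commute (sw D u v x) (sw D u' v' y) :=
  swap_commute (pp_ne' _ _ hx hy h) (pp_ne' _ _ hx hy h) (pp_ne' _ _ hx hy h) (pp_ne' _ _ hx hy h)

/-- the word `XYXY` -/
theorem four_words {G : Type} [Group G] {σ τ σ' τ' : G} (h1 : Commute σ' σ) (h2 : Commute σ' τ)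
    (h3 : Commute σ' τ') (h4 : Commute τ' σ) (h5 : Commute τ' τ) (h6 : σ' * σ' = 1)
    (h7 : τ' * τ' = 1) :
    (σ * σ') * ((τ * τ') * ((σ * σ') * (τ * τ'))) = σ * τ * σ * τ := by
  have e1 : (σ * σ') * ((τ * τ') * ((σ * σ') * (τ * τ'))) =
      σ * (σ' * (τ * (τ' * (σ * (σ' * (τ * τ')))))) := by simp only [mul_assoc]
  have e2 : σ' * (τ * τ') = τ * τ' * σ' := (h2.mul_right h3).eq
  have e3 : τ' * (σ * (τ * τ' * σ')) = σ * τ * σ' := by
    calc τ' * (σ * (τ * τ' * σ')) = τ' * (σ * τ) * (τ' * σ') := by simp only [mul_assoc]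
      _ = (σ * τ) * τ' * (τ' * σ') := by rw [(h4.mul_right h5).eq]
      _ = (σ * τ) * (τ' * τ') * σ' := by simp only [mul_assoc]
      _ = σ * τ * σ' := by rw [h7, mul_one]
  rw [e1, e2, e3]
  calc σ * (σ' * (τ * (σ * τ * σ'))) = σ * (σ' * (τ * (σ * τ))) * σ' := by simp only [mul_assoc]
    _ = σ * ((τ * (σ * τ)) * σ') * σ' := by rw [(h2.mul_right (h1.mul_right h2)).eq]
    _ = σ * τ * σ * τ * (σ' * σ') := by simp only [mul_assoc]
    _ = σ * τ * σ * τ := by rw [h6, mul_one]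

theorem braid {α : Type} [DecidableEq α] {x y z : α} (hxy : x ≠ y) (hxz : x ≠ z) (hyz : y ≠ z) :
    Equiv.swap x y * Equiv.swap y z * Equiv.swap x y = Equiv.swap y z * Equiv.swap x y * Equiv.swap y z := by
  have h1 : Equiv.swap x y * Equiv.swap y z = Equiv.swap x z * Equiv.swap x y := by
    rw [mul_swap, Equiv.swap_apply_right, Equiv.swap_apply_of_ne_of_ne hxz.symm hyz.symm]
  have h2 : Equiv.swap y z * Equiv.swap x y = Equiv.swap x z * Equiv.swap y z := by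
    rw [mul_swap, Equiv.swap_apply_left, Equiv.swap_apply_of_ne_of_ne hxy hxz]
  rw [h1, h2, mul_assoc, Equiv.swap_mul_self, mul_assoc, Equiv.swap_mul_self]

theorem kill4 {D : ℕ} {u v w : Bool × ℕ} (u1 v1 v2 w2 : Bool × ℕ) {e1 e2 : ℤ} (h1 : e1 ≠ 0)
    (h2 : e2 ≠ 0) (h12 : e1 ≠ e2) (he1 : 2 * |e1| < D) (he2 : 2 * |e2| < D) (huv : u ≠ v)
    (huw : u ≠ w) (hvw : v ≠ w) :
    (sw D u v 0 * sw D u1 v1 e1) * ((sw D v w 0 * sw D v2 w2 e2) *
      ((sw D u v 0 * sw D u1 v1 e1) * (sw D v w 0 * sw D v2 w2 e2))) =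
    sw D v w 0 * sw D u v 0 := by
  have h0 : 2 * |(0 : ℤ)| < D := by
    rw [abs_zero, mul_zero]
    have := abs_nonneg e1
    omega
  rw [four_words (sw_commute _ _ _ _ he1 h0 h1) (sw_commute _ _ _ _ he1 h0 h1)
    (sw_commute _ _ _ _ he1 he2 h12) (sw_commute _ _ _ _ he2 h0 h2) (sw_commute _ _ _ _ he2 h0 h2)
    (sw_sq _ _ _ _) (sw_sq _ _ _ _)]
  have hb : sw D u v 0 * sw D v w 0 * sw D u v 0 = sw D v w 0 * sw D u v 0 * sw D v w 0 :=
    braid (pp_ne h0 huv) (pp_ne h0 huw) (pp_ne h0 hvw)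
  rw [hb, mul_assoc, sw_sq, mul_one]

/-! ### what a round can do -/

section round

variable {k : ℕ} {lab : ℕ → Bool} {sl : ℕ → ℚ} {K B D : ℕ}

theorem Cv_eq (D t : ℕ) : Cv D t = Equiv.swap (pp D (false, t) 0) (pp D (true, t) 0) := by
  unfold Cv pp
  simp only [add_zero]

theorem gA_eq (D i j : ℕ) : gA D i j = sw D (false, i) (false, j) 0 := by
  unfold gA sw pp
  simp only [add_zero]

theorem hB_eq (D i j : ℕ) (x : ℤ) : hB D i j x = sw D (true, i) (true, j) x := rfl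

theorem gA_conj (D i j : ℕ) (M : ℤ) :
    (sg 0) ^ M * gA D i j * (sg 0) ^ (-M) = sw D (false, i) (false, j) M := by
  rw [zpow_neg]
  unfold gA
  rw [conj_swap, zpA, zpA]
  rfl

/-- a pair in the right order -/
theorem exists_pair {i j : ℕ} (hij : i ≠ j) (hi : 1 ≤ i) (hi' : i ≤ k) (hj : 1 ≤ j)
    (hj' : j ≤ k) : ((i, j) ∈ prs k) ∨ ((j, i) ∈ prs k) := by
  rcases lt_or_gt_of_ne hij with h | h
  · exact Or.inl (mem_prs.2 ⟨hi, h, hj'⟩)
  · exact Or.inr (mem_prs.2 ⟨hj, h, hi'⟩)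

theorem round_A {t : ℕ} (ht : 1 ≤ t) (ht' : t ≤ k) {a : ℕ}
    (ha : AOpen k lab (a + soff k t + 1)) {i j : ℕ} (hij : i ≠ j) (hti : t ≠ i) (htj : t ≠ j)
    (hi : 1 ≤ i) (hi' : i ≤ k) (hj : 1 ≤ j) (hj' : j ≤ k) (e : ℤ) (he0 : e ≠ 0)
    (heK : (K : ℤ) ∣ e) (heB : |e| ≤ B) (heD : 2 * |e| < D) :
    Rz (okB lab sl K B) D a (roundI k)
      (sw D (false, i) (false, j) 0 * sw D (false, i) (false, j) e) := by
  have hD : 1 ≤ D := by
    have := abs_nonneg e
    omega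
  have h0 : 2 * |(0 : ℤ)| < D := by
    rw [abs_zero, mul_zero]
    omega
  have h1 : Rz (okB lab sl K B) D (a + soff k t + 1) (stepI k)
      (sw D (false, i) (false, j) e * sw D (false, i) (false, j) 0) := by
    rcases exists_pair hij hi hi' hj hj' with h | h
    · have h2 := step_A (sl := sl) (K := K) (B := B) hD ha h e heK heB
      dsimp only at h2
      rw [gA_conj, gA_eq] at h2
      exact h2
    · have h2 := step_A (sl := sl) (K := K) (B := B) hD ha h e heK heB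
      dsimp only at h2
      rw [gA_conj, gA_eq, sw_comm D (false, j), sw_comm D (false, j)] at h2
      exact h2
  have h3 := round_of_step (okB_zero _ _ _ _) ht ht' h1
  have hc : ∀ x : ℤ, 2 * |x| < D → Commute (Cv D t) (sw D (false, i) (false, j) x) := by
    intro x hx
    rw [Cv_eq]
    by_cases hx0 : x = 0
    · subst hx0
      refine swap_commute ?_ ?_ ?_ ?_
      · exact pp_ne h0 (by simpa using hti)
      · exact pp_ne h0 (by simpa using htj)
      · exact pp_ne h0 (by simp)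
      · exact pp_ne h0 (by simp)
    · exact swap_commute (pp_ne' _ _ h0 hx (Ne.symm hx0)) (pp_ne' _ _ h0 hx (Ne.symm hx0))
        (pp_ne' _ _ h0 hx (Ne.symm hx0)) (pp_ne' _ _ h0 hx (Ne.symm hx0))
  rw [((hc e heD).mul_right (hc 0 h0)).eq, mul_assoc, Cv_sq, mul_one,
    (sw_commute (false, i) (false, j) (false, i) (false, j) heD h0 he0).eq] at h3
  exact h3

theorem round_S (hk : 2 ≤ k) (hD : 1 ≤ D) {t : ℕ} (ht : 1 ≤ t) (ht' : t ≤ k) {a : ℕ}
    (ha : AOpen k lab (a + soff k t + 1)) (M : ℤ) (hK : (K : ℤ) ∣ M) (hM : |M| ≤ B) :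
    Rz (okB lab sl K B) D a (roundI k) (Cv D t * (sg 0) ^ M * Cv D t) :=
  round_of_step (okB_zero _ _ _ _) ht ht' (step_S hk hD ha M hK hM)

theorem round_B {L Kp B0 : ℕ} (hU : Unif lab sl K L Kp B0) (hB0 : B0 ≤ B) (hD : 2 * B0 < D)
    (hKp0 : 0 < Kp) (hKp : 2 * Kp ≤ B0) {t : ℕ} (ht : 1 ≤ t) (ht' : t ≤ k) {a : ℕ}
    (haL : a + roundLen k ≤ L) (ha : ¬ AOpen k lab (a + soff k t + 1)) {j : ℕ} (htj : t ≠ j)
    (hj : 1 ≤ j) (hj' : j ≤ k) (e : ℤ) (he0 : e ≠ 0) (he : |e| ≤ 2) :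
    Rz (okB lab sl K B) D a (roundI k)
      (sw D (false, t) (true, j) 0 * sw D (true, t) (true, j) (e * Kp)) := by
  have hx : 2 * |e * (Kp : ℤ)| < D := by
    rw [abs_mul, Nat.abs_cast]
    have h1 : |e| * (Kp : ℤ) ≤ 2 * Kp := mul_le_mul_of_nonneg_right he (by positivity)
    omega
  have h0 : 2 * |(0 : ℤ)| < D := by
    rw [abs_zero, mul_zero]
    omega
  have hne : e * (Kp : ℤ) ≠ 0 := mul_ne_zero he0 (by exact_mod_cast hKp0.ne')
  have hL := soff_le ht ht'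
  have h1 : Rz (okB lab sl K B) D (a + soff k t + 1) (stepI k)
      (sw D (true, t) (true, j) (e * Kp) * sw D (true, t) (true, j) 0) := by
    rcases exists_pair htj ht ht' hj hj' with h | h
    · exact step_B hU hB0 hD hKp (by omega) ha h e he
    · have h2 := step_B hU hB0 hD hKp (by omega) ha h e he
      dsimp only at h2
      rw [hB_eq, hB_eq, sw_comm D (true, j), sw_comm D (true, j)] at h2
      exact h2
  have h3 := round_of_step (okB_zero _ _ _ _) ht ht' h1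
  have hc : Commute (Cv D t) (sw D (true, t) (true, j) (e * Kp)) := by
    rw [Cv_eq]
    exact swap_commute (pp_ne' _ _ h0 hx (Ne.symm hne)) (pp_ne' _ _ h0 hx (Ne.symm hne))
        (pp_ne' _ _ h0 hx (Ne.symm hne)) (pp_ne' _ _ h0 hx (Ne.symm hne))
  have hconj : Cv D t * sw D (true, t) (true, j) 0 * Cv D t = sw D (false, t) (true, j) 0 := by
    have h4 : Cv D t = (Cv D t)⁻¹ := by
      rw [eq_inv_iff_mul_eq_one, Cv_sq]
    rw [h4]
    nth_rewrite 1 [← h4]
    unfold sw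
    rw [conj_swap, Cv_eq, Equiv.swap_apply_right, Equiv.swap_apply_of_ne_of_ne]
    · exact pp_ne h0 (by simp)
    · exact pp_ne h0 (by simpa using (Ne.symm htj))
  have h5 : Cv D t * (sw D (true, t) (true, j) (e * Kp) * sw D (true, t) (true, j) 0) * Cv D t =
      sw D (false, t) (true, j) 0 * sw D (true, t) (true, j) (e * Kp) := by
    rw [← mul_assoc, hc.eq, mul_assoc, mul_assoc, ← mul_assoc (Cv D t), hconj,
      (sw_commute (true, t) (true, j) (false, t) (true, j) hx h0 hne).eq]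
  rw [h5] at h3
  exact h3

end round

/-! ### products of few rounds -/

/-- rotation of a 3-cycle -/
theorem rot {α : Type} [DecidableEq α] {x y z : α} (hxy : x ≠ y) (hxz : x ≠ z) :
    Equiv.swap x y * Equiv.swap y z = Equiv.swap y z * Equiv.swap z x := by
  rw [mul_swap (Equiv.swap y z) z x, Equiv.swap_apply_right, Equiv.swap_apply_of_ne_of_ne hxy hxz,
    Equiv.swap_comm y x]

/-- the four transpositions with a spare point -/
theorem spare {α : Type} [DecidableEq α] {a b c β : α} (hab : a ≠ b) (hac : a ≠ c) (hbc : b ≠ c)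
    (hbβ : b ≠ β) (hcβ : c ≠ β) :
    Equiv.swap β a * Equiv.swap b β * (Equiv.swap β c * Equiv.swap a β) *
      (Equiv.swap a b * Equiv.swap b c) = 1 := by
  have e1 : Equiv.swap β a * Equiv.swap b β = Equiv.swap b a * Equiv.swap β a := by
    rw [mul_swap, Equiv.swap_apply_left, Equiv.swap_apply_of_ne_of_ne hbβ hab.symm]
  have e2 : Equiv.swap β c * Equiv.swap a β = Equiv.swap β a * Equiv.swap c a := by
    rw [Equiv.swap_comm a β, mul_swap (Equiv.swap β a) c a, Equiv.swap_apply_right,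
      Equiv.swap_apply_of_ne_of_ne hcβ hac.symm, Equiv.swap_comm c β]
  have e3 : Equiv.swap c a * Equiv.swap a b = Equiv.swap a b * Equiv.swap b c := rot hac.symm hbc.symm
  rw [e1, e2]
  calc Equiv.swap b a * Equiv.swap β a * (Equiv.swap β a * Equiv.swap c a) *
        (Equiv.swap a b * Equiv.swap b c) =
      Equiv.swap b a * (Equiv.swap β a * Equiv.swap β a) * ((Equiv.swap c a * Equiv.swap a b) *
        Equiv.swap b c) := by simp only [mul_assoc]
    _ = Equiv.swap b a * ((Equiv.swap a b * Equiv.swap b c) * Equiv.swap b c) := by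
        rw [Equiv.swap_mul_self, mul_one, e3]
    _ = 1 := by
        rw [mul_assoc, Equiv.swap_mul_self, mul_one, Equiv.swap_comm b a, Equiv.swap_mul_self]

theorem omv_eq (D c : ℕ) : omv D c = sw D (false, 3 * c + 1) (false, 3 * c + 2) 0 *
    sw D (false, 3 * c + 2) (false, 3 * c + 3) 0 := by
  have h : omv D c = gA D (3 * c + 1) (3 * c + 2) * gA D (3 * c + 2) (3 * c + 3) := by
    unfold omv omI
    simp only [valI, Item.val, mul_one]
    rfl
  rw [h, gA_eq, gA_eq]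

section final

variable {D k Kp : ℕ} {F : Finset ℕ} {V : Set (Equiv.Perm (Rays 3))}

/-- products of at most `n` elements of `V` -/
def Few (V : Set (Equiv.Perm (Rays 3))) (n : ℕ) (g : Equiv.Perm (Rays 3)) : Prop :=
  ∃ gs : List (Equiv.Perm (Rays 3)), gs.length ≤ n ∧ (∀ x ∈ gs, x ∈ V) ∧ gs.prod = g

theorem Few.one' {g : Equiv.Perm (Rays 3)} (h : g ∈ V) : Few V 1 g :=
  ⟨[g], by simp, by simpa using h, by simp⟩

theorem Few.mul {n m : ℕ} {g h : Equiv.Perm (Rays 3)} (hg : Few V n g) (hh : Few V m h) :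
    Few V (n + m) (g * h) := by
  obtain ⟨gs, h1, h2, h3⟩ := hg
  obtain ⟨hs, h4, h5, h6⟩ := hh
  refine ⟨gs ++ hs, ?_, ?_, ?_⟩
  · rw [List.length_append]
    omega
  · intro x hx
    rcases List.mem_append.1 hx with h | h
    · exact h2 x h
    · exact h5 x h
  · rw [List.prod_append, h3, h6]

theorem Few.mono {n m : ℕ} {g : Equiv.Perm (Rays 3)} (hg : Few V n g) (h : n ≤ m) : Few V m g := by
  obtain ⟨gs, h1, h2, h3⟩ := hg
  exact ⟨gs, h1.trans h, h2, h3⟩

theorem Few.four {x y : Equiv.Perm (Rays 3)} (hx : x ∈ V) (hy : y ∈ V) :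
    Few V 4 (x * (y * (x * y))) :=
  (Few.one' hx).mul ((Few.one' hy).mul ((Few.one' hx).mul (Few.one' hy)))

theorem few_A (hD : 4 * Kp < D) (hKp : 0 < Kp)
    (hVA : ∀ t ∈ F, ∀ i j : ℕ, i ≠ j → t ≠ i → t ≠ j → 1 ≤ i → i ≤ k → 1 ≤ j → j ≤ k →
      ∀ e : ℤ, e ≠ 0 → |e| ≤ 2 →
      sw D (false, i) (false, j) 0 * sw D (false, i) (false, j) (e * Kp) ∈ V)
    {x y z t t' : ℕ} (hx : 1 ≤ x ∧ x ≤ k) (hy : 1 ≤ y ∧ y ≤ k) (hz : 1 ≤ z ∧ z ≤ k) (hxy : x ≠ y)
    (hxz : x ≠ z) (hyz : y ≠ z) (ht : t ∈ F) (htx : t ≠ x) (hty : t ≠ y) (ht' : t' ∈ F)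
    (hty' : t' ≠ y) (htz' : t' ≠ z) :
    ∃ g, Few V 9 g ∧
      g * (sw D (false, x) (false, y) 0 * sw D (false, y) (false, z) 0) = 1 := by
  have h1 := hVA t ht x y hxy htx hty hx.1 hx.2 hy.1 hy.2 1 one_ne_zero (by norm_num)
  have h2 := hVA t' ht' y z hyz hty' htz' hy.1 hy.2 hz.1 hz.2 2 two_ne_zero (by norm_num)
  have hp : (0 : ℤ) < Kp := by exact_mod_cast hKp
  have hD' : 4 * (Kp : ℤ) < D := by exact_mod_cast hD
  have h3 := kill4 (D := D) (u := (false, x)) (v := (false, y)) (w := (false, z)) (false, x)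
    (false, y) (false, y) (false, z) (e1 := 1 * Kp) (e2 := 2 * Kp) (by positivity) (by positivity)
    (by omega) (by rw [abs_of_pos (by positivity)]; omega)
    (by rw [abs_of_pos (by positivity)]; omega) (by simpa using hxy) (by simpa using hxz)
    (by simpa using hyz)
  refine ⟨_, (Few.four h1 h2).mono (by norm_num), ?_⟩
  rw [h3, mul_assoc, ← mul_assoc (sw D (false, x) (false, y) 0), sw_sq, one_mul, sw_sq]

theorem few_B (hD : 4 * Kp < D) (hKp : 0 < Kp)
    (hVB : ∀ t, t ∉ F → 1 ≤ t → t ≤ k → ∀ j : ℕ, t ≠ j → 1 ≤ j → j ≤ k →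
      ∀ e : ℤ, e ≠ 0 → |e| ≤ 2 →
      sw D (false, t) (true, j) 0 * sw D (true, t) (true, j) (e * Kp) ∈ V)
    {a b c β : ℕ} (ha : 1 ≤ a ∧ a ≤ k) (hb : 1 ≤ b ∧ b ≤ k) (hc : 1 ≤ c ∧ c ≤ k)
    (hβ : 1 ≤ β ∧ β ≤ k) (hab : a ≠ b) (hac : a ≠ c) (hbc : b ≠ c) (haβ : a ≠ β) (hbβ : b ≠ β)
    (hcβ : c ≠ β) (haF : a ∉ F) (hbF : b ∉ F) (hcF : c ∉ F) :
    ∃ g, Few V 9 g ∧
      g * (sw D (false, a) (false, b) 0 * sw D (false, b) (false, c) 0) = 1 := by
  have ha1 := hVB a haF ha.1 ha.2 β haβ hβ.1 hβ.2 1 one_ne_zero (by norm_num)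
  have ha2 := hVB a haF ha.1 ha.2 β haβ hβ.1 hβ.2 2 two_ne_zero (by norm_num)
  have hb1 := hVB b hbF hb.1 hb.2 β hbβ hβ.1 hβ.2 1 one_ne_zero (by norm_num)
  have hc1 := hVB c hcF hc.1 hc.2 β hcβ hβ.1 hβ.2 2 two_ne_zero (by norm_num)
  have hp : (0 : ℤ) < Kp := by exact_mod_cast hKp
  have hD' : 4 * (Kp : ℤ) < D := by exact_mod_cast hD
  have h3 := kill4 (D := D) (u := (false, b)) (v := (true, β)) (w := (false, a)) (true, b)
    (true, β) (true, a) (true, β) (e1 := 1 * Kp) (e2 := 2 * Kp) (by positivity) (by positivity)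
    (by omega) (by rw [abs_of_pos (by positivity)]; omega)
    (by rw [abs_of_pos (by positivity)]; omega) (by simp) (by simpa using hab.symm)
    (by simp)
  have h4 := kill4 (D := D) (u := (false, a)) (v := (true, β)) (w := (false, c)) (true, a)
    (true, β) (true, c) (true, β) (e1 := 1 * Kp) (e2 := 2 * Kp) (by positivity) (by positivity)
    (by omega) (by rw [abs_of_pos (by positivity)]; omega)
    (by rw [abs_of_pos (by positivity)]; omega) (by simp) (by simpa using hac)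
    (by simp)
  rw [sw_comm D (true, β) (false, a)] at h3
  rw [sw_comm D (true, β) (false, c)] at h4
  refine ⟨_, ((Few.four hb1 ha2).mul (Few.four ha1 hc1)).mono (by norm_num), ?_⟩
  rw [h3, h4]
  have h0 : 2 * |(0 : ℤ)| < D := by
    rw [abs_zero, mul_zero]
    omega
  have h6 := spare (pp_ne (D := D) h0 (u := (false, a)) (v := (false, b)) (by simpa using hab))
    (pp_ne (D := D) h0 (u := (false, a)) (v := (false, c)) (by simpa using hac))
    (pp_ne (D := D) h0 (u := (false, b)) (v := (false, c)) (by simpa using hbc))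
    (pp_ne (D := D) h0 (u := (false, b)) (v := (true, β)) (by simp))
    (pp_ne (D := D) h0 (u := (false, c)) (v := (true, β)) (by simp))
  rw [sw_comm D (false, a) (true, β), sw_comm D (false, c) (true, β)]
  rw [Equiv.swap_comm (pp D (false, a) 0) (pp D (true, β) 0)] at h6
  exact h6

/-- the case of one closed token `a`, `x = D (p - a)` -/
theorem few_S (hD : 4 * Kp < D) (hKp : 0 < Kp)
    (hVA : ∀ t ∈ F, ∀ i j : ℕ, i ≠ j → t ≠ i → t ≠ j → 1 ≤ i → i ≤ k → 1 ≤ j → j ≤ k →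
      ∀ e : ℤ, e ≠ 0 → |e| ≤ 2 →
      sw D (false, i) (false, j) 0 * sw D (false, i) (false, j) (e * Kp) ∈ V)
    (hVB : ∀ t, t ∉ F → 1 ≤ t → t ≤ k → ∀ j : ℕ, t ≠ j → 1 ≤ j → j ≤ k →
      ∀ e : ℤ, e ≠ 0 → |e| ≤ 2 →
      sw D (false, t) (true, j) 0 * sw D (true, t) (true, j) (e * Kp) ∈ V)
    {a q p : ℕ} (ha : 1 ≤ a ∧ a ≤ k) (hq : 1 ≤ q ∧ q ≤ k) (hp : 1 ≤ p ∧ p ≤ k) (haq : a ≠ q)
    (hap : a ≠ p) (hqp : q ≠ p) (haF : a ∈ F) (hpF : p ∉ F)
    (hVS : Cv D a * (sg 0) ^ (-((D : ℤ) * (p - a))) * Cv D a ∈ V) :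
    ∃ g, Few V 9 g ∧ (sg 0) ^ ((D : ℤ) * (p - a)) * g *
      (sw D (false, a) (false, q) 0 * sw D (false, q) (false, p) 0) = 1 := by
  have h1 := hVA a haF q p hqp haq hap hq.1 hq.2 hp.1 hp.2 1 one_ne_zero (by norm_num)
  have h2 := hVB p hpF hp.1 hp.2 a hap.symm ha.1 ha.2 2 two_ne_zero (by norm_num)
  have hp' : (0 : ℤ) < Kp := by exact_mod_cast hKp
  have hD' : 4 * (Kp : ℤ) < D := by exact_mod_cast hD
  have h3 := kill4 (D := D) (u := (false, q)) (v := (false, p)) (w := (true, a)) (false, q)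
    (false, p) (true, p) (true, a) (e1 := 1 * Kp) (e2 := 2 * Kp) (by positivity) (by positivity)
    (by omega) (by rw [abs_of_pos (by positivity)]; omega)
    (by rw [abs_of_pos (by positivity)]; omega) (by simpa using hqp) (by simp)
    (by simp)
  refine ⟨_, ((Few.one' hVS).mul (Few.four h1 h2)).mono (by norm_num), ?_⟩
  rw [h3]
  have h0 : 2 * |(0 : ℤ)| < D := by
    rw [abs_zero, mul_zero]
    omega
  have h4 : (sg 0) ^ ((D : ℤ) * (p - a)) * Cv D a * (sg 0) ^ (-((D : ℤ) * (p - a))) =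
      sw D (false, p) (true, a) 0 := by
    rw [zpow_neg]
    unfold Cv
    have hb := pos_small h0 a
    rw [conj_swap, zpA, zpA_fix _ _ (by linarith)]
    unfold sw pp
    dsimp only
    rw [add_zero]
    congr 2
    ring
  have h5 : Cv D a = sw D (false, a) (true, a) 0 := Cv_eq D a
  have h6 : (sg 0) ^ ((D : ℤ) * (p - a)) * (Cv D a * (sg 0) ^ (-((D : ℤ) * (p - a))) * Cv D a *
      (sw D (false, p) (true, a) 0 * sw D (false, q) (false, p) 0)) *
      (sw D (false, a) (false, q) 0 * sw D (false, q) (false, p) 0) =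
      ((sg 0) ^ ((D : ℤ) * (p - a)) * Cv D a * (sg 0) ^ (-((D : ℤ) * (p - a)))) *
      (sw D (false, a) (true, a) 0) * sw D (false, p) (true, a) 0 *
      (sw D (false, q) (false, p) 0 *
      (sw D (false, a) (false, q) 0 * sw D (false, q) (false, p) 0)) := by
    rw [h5]
    simp only [mul_assoc]
  rw [h6, h4]
  have e1 : sw D (false, p) (true, a) 0 * sw D (false, a) (true, a) 0 * sw D (false, p) (true, a) 0 =
      sw D (false, a) (false, p) 0 := by
    unfold sw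
    rw [mul_swap (Equiv.swap (pp D (false, p) 0) (pp D (true, a) 0)) (pp D (false, a) 0),
      Equiv.swap_apply_right, Equiv.swap_apply_of_ne_of_ne, mul_assoc,
      Equiv.swap_mul_self, mul_one]
    · exact pp_ne h0 (by simpa using hap)
    · exact pp_ne h0 (by simp)
  have e2 : sw D (false, q) (false, p) 0 *
      (sw D (false, a) (false, q) 0 * sw D (false, q) (false, p) 0) = sw D (false, a) (false, p) 0 := by
    unfold sw
    rw [← mul_assoc, mul_swap (Equiv.swap (pp D (false, q) 0) (pp D (false, p) 0))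
      (pp D (false, a) 0), Equiv.swap_apply_left, Equiv.swap_apply_of_ne_of_ne, mul_assoc,
      Equiv.swap_mul_self, mul_one]
    · exact pp_ne h0 (by simpa using haq)
    · exact pp_ne h0 (by simpa using hap)
  rw [e1, e2, sw_sq]

theorem mem_suppC {c t : ℕ} : t ∈ suppC c ↔ t = 3 * c + 1 ∨ t = 3 * c + 2 ∨ t = 3 * c + 3 := by
  unfold suppC
  simp

theorem sw_rot {x y z : ℕ} (hD : 0 < D) (hxy : x ≠ y) (hxz : x ≠ z) :
    sw D (false, x) (false, y) 0 * sw D (false, y) (false, z) 0 =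
      sw D (false, y) (false, z) 0 * sw D (false, z) (false, x) 0 := by
  have h0 : 2 * |(0 : ℤ)| < D := by
    rw [abs_zero, mul_zero]
    omega
  exact rot (pp_ne h0 (by simpa using hxy)) (pp_ne h0 (by simpa using hxz))

theorem few_omv {c : ℕ} (hc : 3 * c + 3 ≤ k) (hk : 6 ≤ k) (hD : 4 * Kp < D) (hKp : 0 < Kp)
    (hVA : ∀ t ∈ F, ∀ i j : ℕ, i ≠ j → t ≠ i → t ≠ j → 1 ≤ i → i ≤ k → 1 ≤ j → j ≤ k →
      ∀ e : ℤ, e ≠ 0 → |e| ≤ 2 →
      sw D (false, i) (false, j) 0 * sw D (false, i) (false, j) (e * Kp) ∈ V)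
    (hVB : ∀ t, t ∉ F → 1 ≤ t → t ≤ k → ∀ j : ℕ, t ≠ j → 1 ≤ j → j ≤ k →
      ∀ e : ℤ, e ≠ 0 → |e| ≤ 2 →
      sw D (false, t) (true, j) 0 * sw D (true, t) (true, j) (e * Kp) ∈ V)
    (hF : ¬ ∃ t ∈ suppC c, (F : Set ℕ) = {t}) : ∃ g, Few V 9 g ∧ g * omv D c = 1 := by
  have hD0 : 0 < D := by omega
  rw [omv_eq]
  by_cases h1 : ∃ t ∈ F, t ∉ suppC c
  · obtain ⟨t, ht, ht'⟩ := h1
    rw [mem_suppC] at ht'
    push Not at ht'
    exact few_A hD hKp hVA (by omega) (by omega) (by omega) (by omega) (by omega) (by omega) ht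
      ht'.1 ht'.2.1 ht ht'.2.1 ht'.2.2
  push Not at h1
  by_cases h2 : ∃ t, t ∈ F
  · obtain ⟨t, ht⟩ := h2
    have h3 : ∃ t' ∈ F, t' ≠ t := by
      by_contra hcon
      push Not at hcon
      apply hF
      refine ⟨t, h1 t ht, ?_⟩
      ext u
      simp only [Finset.mem_coe, Set.mem_singleton_iff]
      exact ⟨hcon u, fun h => h ▸ ht⟩
    obtain ⟨t', ht', hne⟩ := h3
    have h4 := mem_suppC.1 (h1 t ht)
    have h5 := mem_suppC.1 (h1 t' ht')
    -- `y` is the third token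
    have key : ∀ x y z : ℕ, (1 ≤ x ∧ x ≤ k) → (1 ≤ y ∧ y ≤ k) → (1 ≤ z ∧ z ≤ k) → x ≠ y → x ≠ z →
        y ≠ z → x ∈ F → z ∈ F → ∃ g, Few V 9 g ∧
        g * (sw D (false, x) (false, y) 0 * sw D (false, y) (false, z) 0) = 1 := by
      intro x y z hx hy hz hxy hxz hyz hxF hzF
      exact few_A hD hKp hVA hx hy hz hxy hxz hyz hzF hxz.symm hyz.symm hxF hxy hxz
    have r1 : sw D (false, 3 * c + 1) (false, 3 * c + 2) 0 *
        sw D (false, 3 * c + 2) (false, 3 * c + 3) 0 =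
        sw D (false, 3 * c + 2) (false, 3 * c + 3) 0 * sw D (false, 3 * c + 3) (false, 3 * c + 1) 0 :=
      sw_rot hD0 (by omega) (by omega)
    have r2 : sw D (false, 3 * c + 2) (false, 3 * c + 3) 0 *
        sw D (false, 3 * c + 3) (false, 3 * c + 1) 0 =
        sw D (false, 3 * c + 3) (false, 3 * c + 1) 0 * sw D (false, 3 * c + 1) (false, 3 * c + 2) 0 :=
      sw_rot hD0 (by omega) (by omega)
    have c1 : 3 * c + 1 ∈ F → 3 * c + 3 ∈ F → ∃ g, Few V 9 g ∧
        g * (sw D (false, 3 * c + 1) (false, 3 * c + 2) 0 *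
          sw D (false, 3 * c + 2) (false, 3 * c + 3) 0) = 1 := fun h6 h7 =>
      key _ _ _ (by omega) (by omega) (by omega) (by omega) (by omega) (by omega) h6 h7
    have c2 : 3 * c + 2 ∈ F → 3 * c + 1 ∈ F → ∃ g, Few V 9 g ∧
        g * (sw D (false, 3 * c + 1) (false, 3 * c + 2) 0 *
          sw D (false, 3 * c + 2) (false, 3 * c + 3) 0) = 1 := fun h6 h7 => by
      rw [r1]
      exact key _ _ _ (by omega) (by omega) (by omega) (by omega) (by omega) (by omega) h6 h7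
    have c3 : 3 * c + 3 ∈ F → 3 * c + 2 ∈ F → ∃ g, Few V 9 g ∧
        g * (sw D (false, 3 * c + 1) (false, 3 * c + 2) 0 *
          sw D (false, 3 * c + 2) (false, 3 * c + 3) 0) = 1 := fun h6 h7 => by
      rw [r1, r2]
      exact key _ _ _ (by omega) (by omega) (by omega) (by omega) (by omega) (by omega) h6 h7
    rcases h4 with rfl | rfl | rfl <;> rcases h5 with rfl | rfl | rfl
    · exact absurd rfl hne
    · exact c2 ht' ht
    · exact c1 ht ht'
    · exact c2 ht ht'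
    · exact absurd rfl hne
    · exact c3 ht' ht
    · exact c1 ht' ht
    · exact c3 ht ht'
    · exact absurd rfl hne
  · push Not at h2
    by_cases hc0 : c = 0
    · subst hc0
      exact few_B (β := 4) hD hKp hVB (by omega) (by omega) (by omega) (by omega) (by omega)
        (by omega) (by omega) (by omega) (by omega) (by omega) (h2 _) (h2 _) (h2 _)
    · exact few_B (β := 1) hD hKp hVB (by omega) (by omega) (by omega) (by omega) (by omega)
        (by omega) (by omega) (by omega) (by omega) (by omega) (h2 _) (h2 _) (h2 _)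

end final

/-! ### the frequent pattern -/

open Classical in
/-- the A-open steps of a round -/
noncomputable def patt (k : ℕ) (lab : ℕ → Bool) (ρ : ℕ) : Finset ℕ :=
  (Finset.Icc 1 k).filter fun t => AOpen k lab (ρ * roundLen k + 1 + soff k t + 1)

theorem mem_patt {k : ℕ} {lab : ℕ → Bool} {ρ t : ℕ} : t ∈ patt k lab ρ ↔
    (1 ≤ t ∧ t ≤ k) ∧ AOpen k lab (ρ * roundLen k + 1 + soff k t + 1) := by
  classical
  unfold patt
  rw [Finset.mem_filter, Finset.mem_Icc]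

open Classical in
/-- the rounds with a given pattern -/
noncomputable def goodR (k R bad : ℕ) (lab : ℕ → Bool) (F : Finset ℕ) (ρ : ℕ) : Bool :=
  decide (ρ < R ∧ ρ ≠ bad ∧ patt k lab ρ = F)

theorem goodR_iff {k R bad : ℕ} {lab : ℕ → Bool} {F : Finset ℕ} {ρ : ℕ} :
    goodR k R bad lab F ρ = true ↔ ρ < R ∧ ρ ≠ bad ∧ patt k lab ρ = F := by
  unfold goodR
  rw [decide_eq_true_iff]

theorem exists_frequent (k bad : ℕ) (lab : ℕ → Bool) : ∃ F : Finset ℕ,
    9 ≤ ((List.range' 0 (8 * 2 ^ k + 2)).filter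
      (goodR k (8 * 2 ^ k + 2) bad lab F)).length := by
  classical
  set R := 8 * 2 ^ k + 2 with hR
  have h1 : ∀ ρ ∈ (Finset.range R).erase bad, patt k lab ρ ∈ (Finset.Icc 1 k).powerset := by
    intro ρ _
    rw [Finset.mem_powerset]
    exact Finset.filter_subset _ _
  have h2 : ((Finset.Icc 1 k).powerset).card * 8 < ((Finset.range R).erase bad).card := by
    have h3 : R - 1 ≤ ((Finset.range R).erase bad).card := by
      have h4 := Finset.pred_card_le_card_erase (s := Finset.range R) (a := bad)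
      rwa [Finset.card_range] at h4
    rw [Finset.card_powerset, Nat.card_Icc, Nat.add_sub_cancel]
    omega
  obtain ⟨F, _, h3⟩ := Finset.exists_lt_card_fiber_of_mul_lt_card_of_maps_to h1 h2
  refine ⟨F, ?_⟩
  have h4 : (((Finset.range R).erase bad).filter fun ρ => patt k lab ρ = F).card ≤
      ((List.range' 0 R).filter (goodR k R bad lab F)).toFinset.card := by
    apply Finset.card_le_card
    intro ρ hρ
    rw [Finset.mem_filter, Finset.mem_erase, Finset.mem_range] at hρ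
    rw [List.mem_toFinset, List.mem_filter, goodR_iff, List.mem_range'_1]
    exact ⟨by omega, hρ.1.2, hρ.1.1, hρ.2⟩
  have h5 := List.toFinset_card_le ((List.range' 0 R).filter (goodR k R bad lab F))
  omega

theorem kill_group (κ : ℕ) (hκ : 2 ≤ κ) :
    ∃ R : ℕ, ∀ (lab : ℕ → Bool) (bad : ℕ), ∃ F : Set ℕ, ∀ (sl : ℕ → ℚ) (K : ℕ), 0 < K →
      (∀ a, lab a = false → ∃ q : ℤ, (q : ℚ) = K * sl a) →
      ∀ c, c < κ →
        -- the frequent pattern `F` (the A-open steps) does not protect `ω_c`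
        (¬ (∃ t ∈ suppC c, F = {t}) → ∃ C D₀ : ℕ, ∀ D, D₀ ≤ D → ∃ mm EE : ℕ → ℤ,
          Adm (3 * κ) R bad lab sl K C D mm EE ∧ valI D mm EE 1 (UI (3 * κ) R) * omv D c = 1) ∧
        -- in any case a shift of `s ^ X` kills
        (∃ C D₀ : ℕ, ∀ D, D₀ ≤ D → K ∣ D → ∃ (x : ℤ) (mm EE : ℕ → ℤ),
          |x| ≤ C * D ∧ (K : ℤ) ∣ x ∧ Adm (3 * κ) R bad lab sl K C D mm EE ∧
          (sg 0) ^ x * valI D mm EE 1 (UI (3 * κ) R) * omv D c = 1) := by
  set k := 3 * κ with hk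
  set R := 8 * 2 ^ k + 2 with hR
  refine ⟨R, fun lab bad => ?_⟩
  obtain ⟨F, hcount⟩ := exists_frequent k bad lab
  rw [← hR] at hcount
  refine ⟨(F : Set ℕ), fun sl K hK hint c hc => ?_⟩
  obtain ⟨Kp, B0, hKp0, hKdvd, hKp, hU⟩ := exists_uniform lab sl K (R * roundLen k + 1) hK hint
  -- the elements realized in all good rounds
  let V : ℕ → Set (Equiv.Perm (Rays 3)) := fun D => {g | ∀ ρ, goodR k R bad lab F ρ = true →
    Rz (okB lab sl K ((B0 + k) * D)) D (ρ * roundLen k + 1) (roundI k) g}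
  have hFew : ∀ D g, Few (V D) 9 g → ∃ mm EE : ℕ → ℤ, Adm k R bad lab sl K (B0 + k) D mm EE ∧
      valI D mm EE 1 (UI k R) = g := by
    rintro D g ⟨gs, h1, h2, rfl⟩
    have h3 := Rz_rounds (P := okA bad (roundLen k) lab sl K ((B0 + k) * D)) (D := D)
      (okA_zero _ _ _ _ _ _) k (goodR k R bad lab F) (V D) (by
        intro ρ hρ g hg
        refine (hg ρ hρ).mono ?_
        intro i hi x m E h4
        refine ⟨h4, fun _ => ?_⟩
        have h5 : ρ * roundLen k + 1 + i - 1 = ρ * roundLen k + i := by omega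
        have h6 : (ρ * roundLen k + i) / roundLen k = ρ := by
          have h7 : i < roundLen k := hi
          rw [Nat.div_eq_of_lt_le]
          · omega
          · rw [Nat.succ_mul]
            omega
        rw [h5, h6]
        exact (goodR_iff.1 hρ).2.1) R 0 gs h2 (h1.trans hcount)
    rw [zero_mul, zero_add] at h3
    exact h3.adm
  have hmemF : ∀ ρ, goodR k R bad lab F ρ = true → ∀ t, t ∈ F ↔
      (1 ≤ t ∧ t ≤ k) ∧ AOpen k lab (ρ * roundLen k + 1 + soff k t + 1) := by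
    intro ρ hρ t
    rw [← (goodR_iff.1 hρ).2.2]
    exact mem_patt
  have hpair : ∀ e : ℤ, |e| ≤ 2 → |e * (Kp : ℤ)| ≤ B0 := by
    intro e he
    rw [abs_mul, Nat.abs_cast]
    have h1 : |e| * (Kp : ℤ) ≤ 2 * Kp := mul_le_mul_of_nonneg_right he (by positivity)
    omega
  have hKdvd' : (K : ℤ) ∣ (Kp : ℤ) := by exact_mod_cast hKdvd
  have hB : ∀ D, 1 ≤ D → B0 ≤ (B0 + k) * D := by
    intro D hD
    calc B0 ≤ B0 * 1 := by omega
      _ ≤ (B0 + k) * D := Nat.mul_le_mul (by omega) hD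
  have hVA : ∀ D, 2 * B0 + 1 ≤ D → ∀ t ∈ F, ∀ i j : ℕ, i ≠ j → t ≠ i → t ≠ j → 1 ≤ i → i ≤ k →
      1 ≤ j → j ≤ k → ∀ e : ℤ, e ≠ 0 → |e| ≤ 2 →
      sw D (false, i) (false, j) 0 * sw D (false, i) (false, j) (e * Kp) ∈ V D := by
    intro D hD t ht i j hij hti htj hi hi' hj hj' e he0 he ρ hρ
    obtain ⟨⟨h1, h2⟩, h3⟩ := (hmemF ρ hρ t).1 ht
    have h4 := hpair e he
    have h5 := hB D (by omega)
    refine round_A h1 h2 h3 hij hti htj hi hi' hj hj' (e * Kp) ?_ ?_ ?_ ?_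
    · exact mul_ne_zero he0 (by exact_mod_cast hKp0.ne')
    · exact hKdvd'.mul_left e
    · exact h4.trans (by exact_mod_cast h5)
    · omega
  have hVB : ∀ D, 2 * B0 + 1 ≤ D → ∀ t, t ∉ F → 1 ≤ t → t ≤ k → ∀ j : ℕ, t ≠ j → 1 ≤ j → j ≤ k →
      ∀ e : ℤ, e ≠ 0 → |e| ≤ 2 →
      sw D (false, t) (true, j) 0 * sw D (true, t) (true, j) (e * Kp) ∈ V D := by
    intro D hD t ht h1 h2 j htj hj hj' e he0 he ρ hρ
    have h3 : ¬ AOpen k lab (ρ * roundLen k + 1 + soff k t + 1) := fun h =>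
      ht ((hmemF ρ hρ t).2 ⟨⟨h1, h2⟩, h⟩)
    have h6 := (goodR_iff.1 hρ).1
    refine round_B (L := R * roundLen k + 1) hU (hB D (by omega)) (by omega) hKp0 hKp h1 h2 ?_ h3
      htj hj hj' e he0 he
    have h7 : (ρ + 1) * roundLen k ≤ R * roundLen k := Nat.mul_le_mul_right _ h6
    rw [Nat.succ_mul] at h7
    omega
  have hi : ¬ (∃ t ∈ suppC c, (F : Set ℕ) = {t}) → ∃ C D₀ : ℕ, ∀ D, D₀ ≤ D → ∃ mm EE : ℕ → ℤ,
      Adm k R bad lab sl K C D mm EE ∧ valI D mm EE 1 (UI k R) * omv D c = 1 := by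
    intro hF
    refine ⟨B0 + k, 2 * B0 + 1, fun D hD => ?_⟩
    obtain ⟨g, hg, hg'⟩ := few_omv (c := c) (k := k) (Kp := Kp) (D := D) (F := F) (V := V D)
      (by omega) (by omega) (by omega) hKp0 (hVA D hD) (hVB D hD) hF
    obtain ⟨mm, EE, h1, h2⟩ := hFew D g hg
    exact ⟨mm, EE, h1, by rw [h2]; exact hg'⟩
  refine ⟨hi, ?_⟩
  by_cases hF : ∃ t ∈ suppC c, (F : Set ℕ) = {t}
  · obtain ⟨t, ht, hFt⟩ := hF
    have hmem : ∀ u, u ∈ F ↔ u = t := by
      intro u
      have h1 : u ∈ (F : Set ℕ) ↔ u ∈ ({t} : Set ℕ) := by rw [hFt]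
      simpa using h1
    refine ⟨B0 + k, 2 * B0 + 1, fun D hD hKD => ?_⟩
    have hKD' : (K : ℤ) ∣ (D : ℤ) := by exact_mod_cast hKD
    -- the token `t` and the two others
    have key : ∀ q p : ℕ, (1 ≤ t ∧ t ≤ k) → (1 ≤ q ∧ q ≤ k) → (1 ≤ p ∧ p ≤ k) → t ≠ q → t ≠ p →
        q ≠ p → omv D c = sw D (false, t) (false, q) 0 * sw D (false, q) (false, p) 0 →
        ∃ (x : ℤ) (mm EE : ℕ → ℤ),
          |x| ≤ (B0 + k : ℕ) * D ∧ (K : ℤ) ∣ x ∧ Adm k R bad lab sl K (B0 + k) D mm EE ∧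
          (sg 0) ^ x * valI D mm EE 1 (UI k R) * omv D c = 1 := by
      intro q p hta hq hp htq htp hqp hom
      have hbound : |(D : ℤ) * (p - t)| ≤ ((B0 + k : ℕ) : ℤ) * D := by
        rw [abs_mul, Nat.abs_cast]
        have h1 : |(p : ℤ) - t| ≤ ((B0 + k : ℕ) : ℤ) := by
          rw [abs_le]
          push_cast
          constructor <;> omega
        calc (D : ℤ) * |(p : ℤ) - t| ≤ D * ((B0 + k : ℕ) : ℤ) :=
              mul_le_mul_of_nonneg_left h1 (by positivity)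
          _ = ((B0 + k : ℕ) : ℤ) * D := mul_comm _ _
      have hdvd : (K : ℤ) ∣ (D : ℤ) * (p - t) := hKD'.mul_right _
      obtain ⟨g, hg, hg'⟩ := few_S (k := k) (Kp := Kp) (D := D) (F := F) (V := V D)
        (by omega) hKp0 (hVA D hD) (hVB D hD) hta hq hp htq htp hqp ((hmem t).2 rfl)
        (fun h => htp ((hmem p).1 h).symm) (by
          intro ρ hρ
          obtain ⟨⟨h1, h2⟩, h3⟩ := (hmemF ρ hρ t).1 ((hmem t).2 rfl)
          refine round_S (by omega) (by omega) h1 h2 h3 _ ((dvd_neg).2 hdvd) ?_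
          rw [abs_neg]
          push_cast at hbound ⊢
          exact hbound)
      obtain ⟨mm, EE, h1, h2⟩ := hFew D g hg
      refine ⟨(D : ℤ) * (p - t), mm, EE, hbound, hdvd, h1, ?_⟩
      rw [h2, hom]
      exact hg'
    have hD0 : 0 < D := by omega
    have hc3 : 3 * c + 3 ≤ k := by omega
    have r1 := sw_rot (D := D) (x := 3 * c + 1) (y := 3 * c + 2) (z := 3 * c + 3) hD0 (by omega)
      (by omega)
    have r2 := sw_rot (D := D) (x := 3 * c + 2) (y := 3 * c + 3) (z := 3 * c + 1) hD0 (by omega)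
      (by omega)
    rcases mem_suppC.1 ht with rfl | rfl | rfl
    · exact key (3 * c + 2) (3 * c + 3) (by omega) (by omega) (by omega) (by omega) (by omega)
        (by omega) (omv_eq D c)
    · exact key (3 * c + 3) (3 * c + 1) (by omega) (by omega) (by omega) (by omega) (by omega)
        (by omega) ((omv_eq D c).trans r1)
    · exact key (3 * c + 1) (3 * c + 2) (by omega) (by omega) (by omega) (by omega) (by omega)
        (by omega) (((omv_eq D c).trans r1).trans r2)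
  · obtain ⟨C, D₀, h⟩ := hi hF
    refine ⟨C, D₀, fun D hD _ => ?_⟩
    obtain ⟨mm, EE, h1, h2⟩ := h D hD
    refine ⟨0, mm, EE, ?_, dvd_zero _, h1, ?_⟩
    · rw [abs_zero]
      positivity
    · rw [zpow_zero, one_mul]
      exact h2

theorem omv_ne_one (D c : ℕ) (hD : 1 ≤ D) : omv D c ≠ 1 := by
  have h0 : 2 * |(0 : ℤ)| < D := by
    rw [abs_zero, mul_zero]
    omega
  intro h
  have h1 : omv D c (pp D (false, 3 * c + 3) 0) = pp D (false, 3 * c + 1) 0 := by
    rw [omv_eq, Equiv.Perm.mul_apply]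
    unfold sw
    rw [Equiv.swap_apply_right, Equiv.swap_apply_right]
  rw [h, Equiv.Perm.one_apply] at h1
  exact pp_ne h0 (by simp) h1

end Pool.Agent.Lib.CoCF
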