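import Pool.Agent.Lib.CoCF.Iface

/-!
# The languages of a deterministic pushdown automaton (chunk C)

`Run M n q α p c α'`: from state `q` with stack `α`, reading exactly `p` in `n` moves, the automaton
reaches state `c` with stack `α'`.
-/

set_option autoImplicit false

namespace Pool.Agent.Lib.CoCF

namespace DPDA

variable {A : Type} (M : DPDA A)

/-! ### Runs -/

inductive Run : ℕ → M.Q → List M.Γ → List A → M.Q → List M.Γ → Prop
  | refl (q : M.Q) (α : List M.Γ) : Run 0 q α [] q α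
  | step {n : ℕ} {q : M.Q} {o : Option A} {Z : M.Γ} {q' : M.Q} {g β : List M.Γ} {p : List A}
      {c : M.Q} {α' : List M.Γ} (h : M.δ q o Z = some (q', g)) (h' : Run n q' (g ++ β) p c α') :
      Run (n + 1) q (Z :: β) (o.toList ++ p) c α'

variable {M}

theorem Run.trans {m n : ℕ} {q c d : M.Q} {α β γ : List M.Γ} {u v : List A}
    (h : M.Run m q α u c β) (h' : M.Run n c β v d γ) : M.Run (m + n) q α (u ++ v) d γ := by
  induction h with
  | refl q α => rw [Nat.zero_add]; exact h'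
  | step h1 h2 ih =>
    have := Run.step h1 (ih h')
    rw [← List.append_assoc] at this
    rwa [Nat.add_right_comm]

theorem Run.frame {m : ℕ} {q c : M.Q} {α β : List M.Γ} {u : List A}
    (h : M.Run m q α u c β) (δ : List M.Γ) : M.Run m q (α ++ δ) u c (β ++ δ) := by
  induction h with
  | refl q α => exact Run.refl _ _
  | step h1 h2 ih =>
    rw [List.append_assoc] at ih
    exact Run.step h1 ih

theorem Run.split {n : ℕ} {q c : M.Q} {γ α'' : List M.Γ} {p : List A}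
    (h : M.Run n q γ p c α'') : ∀ (α β : List M.Γ), γ = α ++ β →
    (∃ α', α'' = α' ++ β ∧ M.Run n q α p c α') ∨
      ∃ m₁ m₂ p₁ p₂ c₁, n = m₁ + m₂ ∧ p = p₁ ++ p₂ ∧ M.Run m₁ q α p₁ c₁ [] ∧
        M.Run m₂ c₁ β p₂ c α'' := by
  induction h with
  | refl q γ =>
    rintro α β rfl
    exact Or.inl ⟨α, rfl, Run.refl _ _⟩
  | @step n q o Z q' g δ p c α'' h1 h2 ih =>
    intro α β he
    cases α with
    | nil =>
      right
      rw [List.nil_append] at he
      subst he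
      exact ⟨0, n + 1, [], _, q, by omega, rfl, Run.refl _ _, Run.step h1 h2⟩
    | cons Y α =>
      rw [List.cons_append] at he
      obtain ⟨rfl, rfl⟩ := List.cons.inj he
      rcases ih (g ++ α) β (by rw [List.append_assoc]) with ⟨α', h3, h4⟩ | ⟨m₁, m₂, p₁, p₂, c₁, h3, h4, h5, h6⟩
      · left
        exact ⟨α', h3, Run.step h1 h4⟩
      · right
        refine ⟨m₁ + 1, m₂, o.toList ++ p₁, p₂, c₁, by omega, ?_, Run.step h1 h5, h6⟩
        rw [h4, List.append_assoc]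

theorem Run.nil_stack {n : ℕ} {q c : M.Q} {α' : List M.Γ} {p : List A}
    (h : M.Run n q [] p c α') : n = 0 ∧ p = [] ∧ c = q ∧ α' = [] := by
  cases h
  exact ⟨rfl, rfl, rfl, rfl⟩

/-- the move made from `(q, Z)` is determined by the input as soon as it is long enough -/
theorem move_unique {q : M.Q} {Z : M.Γ} {o o' : Option A} {r r' : M.Q × List M.Γ}
    {u u' v v' : List A} (h : M.δ q o Z = some r) (h' : M.δ q o' Z = some r')
    (he : o.toList ++ u ++ v = o'.toList ++ u' ++ v') : o = o' ∧ r = r' := by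
  cases o with
  | none =>
    cases o' with
    | none => rw [h] at h'; exact ⟨rfl, Option.some.inj h'⟩
    | some a =>
      have := M.det q Z (by rw [h]; exact Option.some_ne_none _) a
      rw [this] at h'
      exact absurd h' (by simp)
  | some a =>
    cases o' with
    | none =>
      have := M.det q Z (by rw [h']; exact Option.some_ne_none _) a
      rw [this] at h
      exact absurd h (by simp)
    | some a' =>
      simp only [Option.toList_some, List.cons_append] at he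
      obtain ⟨rfl, _⟩ := List.cons.inj he
      rw [h] at h'
      exact ⟨rfl, Option.some.inj h'⟩

/-- Determinism: after a stack is popped nothing more can be read. -/
theorem Run.det {m : ℕ} {q c : M.Q} {α α₀ : List M.Γ} {p : List A}
    (h : M.Run m q α p c α₀) : α₀ = [] → ∀ (n : ℕ) (x : List A) (c' : M.Q) (β' : List M.Γ),
    M.Run n q α (p ++ x) c' β' → x = [] ∧ (β' = [] → c' = c) := by
  induction h with
  | refl q α =>
    rintro rfl n x c' β' h'
    obtain ⟨_, h1, h2, _⟩ := Run.nil_stack h'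
    exact ⟨by simpa using h1, fun _ => h2⟩
  | @step m q o Z q' g δ p c α'' h1 h2 ih =>
    rintro rfl n x c' β' h'
    generalize hw : o.toList ++ p ++ x = w at h'
    cases h' with
    | refl _ _ =>
      have : x = [] := by
        have h3 := congrArg List.length hw
        simp only [List.length_append, List.length_nil] at h3
        exact List.length_eq_zero_iff.1 (by omega)
      exact ⟨this, fun h => absurd h (by simp)⟩
    | @step n' _ o' _ q'' g' _ p' _ _ h3 h4 =>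
      have h5 : o.toList ++ p ++ x = o'.toList ++ p' ++ [] := by rw [hw, List.append_nil]
      obtain ⟨h6, h7⟩ := move_unique h1 h3 h5
      subst h6
      obtain ⟨rfl, rfl⟩ := Prod.mk.inj h7
      have h8 : p' = p ++ x := by
        rw [List.append_assoc] at hw
        exact (List.append_cancel_left hw).symm
      rw [h8] at h4
      exact ih rfl _ _ _ _ h4

/-! ### The sets of words -/

variable (M)

/-- `b = some c`: the stack is popped and the state is `c`; `b = none`: the state is final -/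
def Sem (n : ℕ) (q : M.Q) (γ : List M.Γ) (b : Option M.Q) (w : List A) : Prop :=
  match b with
  | some c => M.Run n q γ w c []
  | none => ∃ c ∈ M.final, ∃ β, M.Run n q γ w c β

variable {M}

theorem Sem.comp {m n : ℕ} {q c : M.Q} {α β : List M.Γ} {b : Option M.Q} {u v : List A}
    (h : M.Sem m q α (some c) u) (h' : M.Sem n c β b v) : M.Sem (m + n) q (α ++ β) b (u ++ v) := by
  have h1 : M.Run m q (α ++ β) u c β := Run.frame h β
  cases b with
  | none =>
    obtain ⟨d, hd, γ, h2⟩ := h'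
    exact ⟨d, hd, γ, h1.trans h2⟩
  | some d => exact h1.trans h'

theorem Sem.weaken {n : ℕ} {q : M.Q} {α : List M.Γ} {w : List A}
    (h : M.Sem n q α none w) (β : List M.Γ) : M.Sem n q (α ++ β) none w := by
  obtain ⟨d, hd, γ, h2⟩ := h
  exact ⟨d, hd, γ ++ β, Run.frame h2 β⟩

theorem Sem.split {n : ℕ} {q : M.Q} {α β : List M.Γ} {b : Option M.Q} {w : List A}
    (h : M.Sem n q (α ++ β) b w) : (b = none ∧ M.Sem n q α none w) ∨
      ∃ m₁ m₂ p₁ p₂ c₁, n = m₁ + m₂ ∧ w = p₁ ++ p₂ ∧ M.Sem m₁ q α (some c₁) p₁ ∧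
        M.Sem m₂ c₁ β b p₂ := by
  cases b with
  | none =>
    obtain ⟨d, hd, γ, h2⟩ := h
    rcases h2.split α β rfl with ⟨α', h3, h4⟩ | ⟨m₁, m₂, p₁, p₂, c₁, h3, h4, h5, h6⟩
    · exact Or.inl ⟨rfl, d, hd, α', h4⟩
    · exact Or.inr ⟨m₁, m₂, p₁, p₂, c₁, h3, h4, h5, d, hd, γ, h6⟩
  | some d =>
    right
    have h2 : M.Run n q (α ++ β) w d [] := h
    rcases h2.split α β rfl with ⟨α', h3, h4⟩ | ⟨m₁, m₂, p₁, p₂, c₁, h3, h4, h5, h6⟩
    · obtain ⟨rfl, rfl⟩ := List.append_eq_nil_iff.1 h3.symm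
      exact ⟨n, 0, w, [], d, rfl, (List.append_nil w).symm, h4, Run.refl _ _⟩
    · exact ⟨m₁, m₂, p₁, p₂, c₁, h3, h4, h5, h6⟩

theorem Sem.pos {n : ℕ} {q : M.Q} {Z : M.Γ} {c : M.Q} {w : List A}
    (h : M.Sem n q [Z] (some c) w) : 0 < n := by
  have h2 : M.Run n q [Z] w c [] := h
  cases h2
  omega

theorem Sem.nil_stack {n : ℕ} {q : M.Q} {b : Option M.Q} {w : List A}
    (h : M.Sem n q [] b w) : w = [] ∧ (b = some q ∨ (b = none ∧ q ∈ M.final)) := by
  cases b with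
  | none =>
    obtain ⟨d, hd, γ, h2⟩ := h
    obtain ⟨_, h3, rfl, _⟩ := h2.nil_stack
    exact ⟨h3, Or.inr ⟨rfl, hd⟩⟩
  | some d =>
    have h2 : M.Run n q [] w d [] := h
    obtain ⟨_, h3, rfl, _⟩ := h2.nil_stack
    exact ⟨h3, Or.inl rfl⟩

/-- first move -/
theorem Sem.first {n : ℕ} {q : M.Q} {Z : M.Γ} {b : Option M.Q} {w : List A}
    (h : M.Sem n q [Z] b w) : (b = none ∧ q ∈ M.final ∧ w = []) ∨
      ∃ k o q' g p, n = k + 1 ∧ M.δ q o Z = some (q', g) ∧ w = o.toList ++ p ∧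
        M.Sem k q' g b p := by
  cases b with
  | none =>
    obtain ⟨d, hd, γ, h2⟩ := h
    cases h2 with
    | refl _ _ => exact Or.inl ⟨rfl, hd, rfl⟩
    | @step k _ o _ q' g _ p _ _ h3 h4 =>
      rw [List.append_nil] at h4
      exact Or.inr ⟨k, o, q', g, p, rfl, h3, rfl, d, hd, γ, h4⟩
  | some d =>
    have h2 : M.Run n q [Z] w d [] := h
    right
    cases h2 with
    | @step k _ o _ q' g _ p _ _ h3 h4 =>
      rw [List.append_nil] at h4
      exact ⟨k, o, q', g, p, rfl, h3, rfl, h4⟩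

theorem Sem.move {k : ℕ} {q q' : M.Q} {o : Option A} {Z : M.Γ} {g : List M.Γ} {b : Option M.Q}
    {p : List A} (h : M.δ q o Z = some (q', g)) (h' : M.Sem k q' g b p) :
    M.Sem (k + 1) q [Z] b (o.toList ++ p) := by
  cases b with
  | none =>
    obtain ⟨d, hd, γ, h2⟩ := h'
    refine ⟨d, hd, γ, Run.step h ?_⟩
    rwa [List.append_nil]
  | some d =>
    have h2 : M.Run k q' g p d [] := h'
    refine Run.step h ?_
    rwa [List.append_nil]

theorem Sem.det {m n : ℕ} {q c : M.Q} {α : List M.Γ} {p x : List A} {b : Option M.Q}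
    (h : M.Sem m q α (some c) p) (h' : M.Sem n q α b (p ++ x)) :
    x = [] ∧ ∀ c', b = some c' → c' = c := by
  cases b with
  | none =>
    obtain ⟨d, hd, γ, h2⟩ := h'
    exact ⟨(Run.det h rfl _ _ _ _ h2).1, fun c' hc' => absurd hc' (by simp)⟩
  | some d =>
    have h2 := Run.det h rfl _ _ _ _ h'
    exact ⟨h2.1, fun c' hc' => by rw [← Option.some.inj hc']; exact h2.2 rfl⟩

/-! ### The grammar -/

/-- nonterminals -/
inductive NT (Q Γ : Type) where
  | p (q : Q) (γ : List Γ) (b : Option Q)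
  | st (q : Q)
  | pr (q : Q)

variable (M)

/-- the stack words that occur -/
def Fs : Set (List M.Γ) :=
  {γ | (∃ q o Z r, M.δ q o Z = some r ∧ γ <:+ r.2) ∨ (∃ Z, γ = [Z]) ∨ γ = []}

variable {M}

theorem Fs_single (Z : M.Γ) : [Z] ∈ M.Fs := Or.inr (Or.inl ⟨Z, rfl⟩)

theorem Fs_nil : [] ∈ M.Fs := Or.inr (Or.inr rfl)

theorem Fs_tail {Z : M.Γ} {t : List M.Γ} (h : Z :: t ∈ M.Fs) : t ∈ M.Fs := by
  rcases h with ⟨q, o, Z', r, h1, h2⟩ | ⟨Z', h⟩ | h
  · exact Or.inl ⟨q, o, Z', r, h1, (List.suffix_cons Z t).trans h2⟩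
  · have : t = [] := (List.cons.inj h).2
    exact Or.inr (Or.inr this)
  · exact absurd h (by simp)

theorem Fs_move {q q' : M.Q} {o : Option A} {Z : M.Γ} {g : List M.Γ}
    (h : M.δ q o Z = some (q', g)) : g ∈ M.Fs := Or.inl ⟨q, o, Z, _, h, List.suffix_refl _⟩

theorem Fs_finite [Finite A] : M.Fs.Finite := by
  have := M.finQ
  have := M.finΓ
  have h1 : {γ | ∃ q o Z r, M.δ q o Z = some r ∧ γ <:+ r.2}.Finite := by
    have h2 : {γ | ∃ q o Z r, M.δ q o Z = some r ∧ γ <:+ r.2} ⊆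
        ⋃ x : M.Q × Option A × M.Γ, {γ | ∃ r, M.δ x.1 x.2.1 x.2.2 = some r ∧ γ <:+ r.2} := by
      rintro γ ⟨q, o, Z, r, h1, h2⟩
      exact Set.mem_iUnion.2 ⟨(q, o, Z), r, h1, h2⟩
    refine (Set.finite_iUnion fun x => ?_).subset h2
    cases hx : M.δ x.1 x.2.1 x.2.2 with
    | none =>
      refine Set.finite_empty.subset ?_
      rintro γ ⟨r, h1, h2⟩
      exact absurd h1 (by simp)
    | some r =>
      refine (List.finite_toSet r.2.tails).subset ?_
      rintro γ ⟨r', h1, h2⟩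
      obtain rfl := Option.some.inj h1
      exact (List.mem_tails _ _).2 h2
  have h2 : {γ : List M.Γ | ∃ Z, γ = [Z]}.Finite :=
    (Set.finite_range fun Z : M.Γ => [Z]).subset (by rintro γ ⟨Z, rfl⟩; exact ⟨Z, rfl⟩)
  exact (h1.union (h2.union (Set.finite_singleton []))).subset fun γ h => h

variable (M)

inductive LeafR : NT M.Q M.Γ → Prop
  | nil (q : M.Q) : LeafR (.p q [] (some q))
  | acc (q : M.Q) (γ : List M.Γ) (hγ : γ ∈ M.Fs) (hq : q ∈ M.final) : LeafR (.p q γ none)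
  | st (q : M.Q) (hq : q ∈ M.final) : LeafR (.st q)
  | pr : LeafR (.pr M.q₀)

inductive UnR : NT M.Q M.Γ → Option A → NT M.Q M.Γ → Prop
  | move (q : M.Q) (o : Option A) (Z : M.Γ) (q' : M.Q) (g : List M.Γ) (b : Option M.Q)
      (h : M.δ q o Z = some (q', g)) : UnR (.p q [Z] b) o (.p q' g b)
  | acc (q : M.Q) (Z : M.Γ) (t : List M.Γ) (h : Z :: t ∈ M.Fs) :
      UnR (.p q (Z :: t) none) none (.p q [Z] none)
  | st (q : M.Q) (Z : M.Γ) : UnR (.st q) none (.p q [Z] none)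

inductive BinR : NT M.Q M.Γ → NT M.Q M.Γ → NT M.Q M.Γ → Prop
  | cons (q : M.Q) (Z : M.Γ) (t : List M.Γ) (c : M.Q) (b : Option M.Q) (h : Z :: t ∈ M.Fs) :
      BinR (.p q (Z :: t) b) (.p q [Z] (some c)) (.p c t b)
  | st (q : M.Q) (Z : M.Γ) (c : M.Q) : BinR (.st q) (.p q [Z] (some c)) (.st c)
  | pr (q : M.Q) (Z : M.Γ) (c : M.Q) : BinR (.pr c) (.pr q) (.p q [Z] (some c))

/-- the grammar of the automaton -/
def gr : Gram A (NT M.Q M.Γ) where
  leaf := M.LeafR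
  un := M.UnR
  bin := M.BinR

theorem gr_fin [Finite A] : M.gr.Fin := by
  have := M.finQ
  have := M.finΓ
  have hF : Finite M.Fs := M.Fs_finite
  refine ⟨Set.range (fun x : M.Q × M.Fs × Option M.Q => NT.p x.1 x.2.1.1 x.2.2) ∪
    (Set.range NT.st ∪ Set.range NT.pr), (Set.finite_range _).union
      ((Set.finite_range _).union (Set.finite_range _)), ?_, ?_, ?_⟩
  · intro x h
    cases h with
    | nil q => exact Or.inl ⟨(q, ⟨[], Fs_nil⟩, some q), rfl⟩
    | acc q γ hγ hq => exact Or.inl ⟨(q, ⟨γ, hγ⟩, none), rfl⟩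
    | st q hq => exact Or.inr (Or.inl ⟨q, rfl⟩)
    | pr => exact Or.inr (Or.inr ⟨M.q₀, rfl⟩)
  · intro x o y h
    cases h with
    | move q o Z q' g b h => exact Or.inl ⟨(q, ⟨[Z], Fs_single Z⟩, b), rfl⟩
    | acc q Z t h => exact Or.inl ⟨(q, ⟨Z :: t, h⟩, none), rfl⟩
    | st q Z => exact Or.inr (Or.inl ⟨q, rfl⟩)
  · intro x y z h
    cases h with
    | cons q Z t c b h => exact Or.inl ⟨(q, ⟨Z :: t, h⟩, b), rfl⟩
    | st q Z c => exact Or.inr (Or.inl ⟨q, rfl⟩)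
    | pr q Z c => exact Or.inr (Or.inr ⟨c, rfl⟩)

/-- what the words of a nonterminal mean -/
def Mean (x : NT M.Q M.Γ) (w : List A) : Prop :=
  match x with
  | .p q γ b => ∃ n, M.Sem n q γ b w
  | .st q => ∃ γ n, M.Sem n q γ none w
  | .pr q => ∃ γ n, M.Sem n M.q₀ γ (some q) w

variable {M}

theorem sound {x : NT M.Q M.Γ} {w : List A} (h : M.gr.D x w) : M.Mean x w := by
  induction h with
  | leaf h =>
    cases h with
    | nil q => exact ⟨0, Run.refl _ _⟩
    | acc q γ hγ hq => exact ⟨0, q, hq, γ, Run.refl _ _⟩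
    | st q hq => exact ⟨[], 0, q, hq, [], Run.refl _ _⟩
    | pr => exact ⟨[], 0, Run.refl _ _⟩
  | un h h' ih =>
    cases h with
    | move q o Z q' g b h =>
      obtain ⟨n, hn⟩ := ih
      exact ⟨n + 1, Sem.move h hn⟩
    | acc q Z t h =>
      obtain ⟨n, hn⟩ := ih
      exact ⟨n, Sem.weaken hn t⟩
    | st q Z =>
      obtain ⟨n, hn⟩ := ih
      exact ⟨[Z], n, hn⟩
  | bin h h₁ h₂ ih₁ ih₂ =>
    cases h with
    | cons q Z t c b h =>
      obtain ⟨m, hm⟩ := ih₁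
      obtain ⟨n, hn⟩ := ih₂
      exact ⟨m + n, Sem.comp hm hn⟩
    | st q Z c =>
      obtain ⟨m, hm⟩ := ih₁
      obtain ⟨γ, n, hn⟩ := ih₂
      exact ⟨[Z] ++ γ, m + n, Sem.comp hm hn⟩
    | pr q Z c =>
      obtain ⟨γ, m, hm⟩ := ih₁
      obtain ⟨n, hn⟩ := ih₂
      exact ⟨γ ++ [Z], m + n, Sem.comp hm hn⟩

theorem complete_p : ∀ (n : ℕ) (q : M.Q) (γ : List M.Γ) (b : Option M.Q) (w : List A),
    γ ∈ M.Fs → M.Sem n q γ b w → M.gr.D (.p q γ b) w := by
  intro n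
  induction n using Nat.strong_induction_on with
  | _ n ih =>
    -- one letter
    have h1 : ∀ (q : M.Q) (Z : M.Γ) (b : Option M.Q) (w : List A), M.Sem n q [Z] b w →
        M.gr.D (.p q [Z] b) w := by
      intro q Z b w h
      rcases h.first with ⟨rfl, h2, rfl⟩ | ⟨k, o, q', g, p, rfl, h2, rfl, h3⟩
      · exact Gram.D.leaf (LeafR.acc q [Z] (Fs_single Z) h2)
      · exact Gram.D.un (UnR.move q o Z q' g b h2) (ih k (by omega) _ _ _ _ (Fs_move h2) h3)
    intro q γ b w hγ h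
    cases γ with
    | nil =>
      obtain ⟨rfl, rfl | ⟨rfl, h2⟩⟩ := h.nil_stack
      · exact Gram.D.leaf (LeafR.nil q)
      · exact Gram.D.leaf (LeafR.acc q [] Fs_nil h2)
    | cons Z t =>
      rcases Sem.split (α := [Z]) (β := t) h with ⟨rfl, h2⟩ | ⟨m₁, m₂, p₁, p₂, c, rfl, rfl, h3, h4⟩
      · exact Gram.D.un (o := none) (UnR.acc q Z t hγ) (h1 q Z none w h2)
      · have h5 := h3.pos
        refine Gram.D.bin (BinR.cons q Z t c b hγ) ?_ (ih m₂ (by omega) _ _ _ _ (Fs_tail hγ) h4)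
        rcases Nat.eq_zero_or_pos m₂ with h6 | h6
        · subst h6
          exact h1 q Z _ _ h3
        · exact ih m₁ (by omega) _ _ _ _ (Fs_single Z) h3

theorem mem_p {q : M.Q} {γ : List M.Γ} {b : Option M.Q} {w : List A} (hγ : γ ∈ M.Fs) :
    M.gr.D (.p q γ b) w ↔ ∃ n, M.Sem n q γ b w :=
  ⟨fun h => sound h, fun ⟨n, h⟩ => complete_p n q γ b w hγ h⟩

theorem complete_st (γ : List M.Γ) : ∀ (n : ℕ) (q : M.Q) (w : List A),
    M.Sem n q γ none w → M.gr.D (.st q) w := by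
  induction γ with
  | nil =>
    intro n q w h
    obtain ⟨rfl, h1 | ⟨_, h2⟩⟩ := h.nil_stack
    · exact absurd h1 (by simp)
    · exact Gram.D.leaf (LeafR.st q h2)
  | cons Z t ih =>
    intro n q w h
    rcases Sem.split (α := [Z]) (β := t) h with ⟨_, h2⟩ | ⟨m₁, m₂, p₁, p₂, c, rfl, rfl, h3, h4⟩
    · exact Gram.D.un (o := none) (UnR.st q Z) ((mem_p (Fs_single Z)).2 ⟨n, h2⟩)
    · exact Gram.D.bin (BinR.st q Z c) ((mem_p (Fs_single Z)).2 ⟨m₁, h3⟩) (ih m₂ c p₂ h4)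

theorem mem_st {q : M.Q} {w : List A} : M.gr.D (.st q) w ↔ ∃ γ n, M.Sem n q γ none w :=
  ⟨fun h => sound h, fun ⟨γ, n, h⟩ => complete_st γ n q w h⟩

/-! ### Runs and `guessLang` -/

theorem Run.toStep {n : ℕ} {q c : M.Q} {α β : List M.Γ} {p : List A}
    (h : M.Run n q α p c β) (x : List A) :
    Relation.ReflTransGen M.Step (q, p ++ x, α) (c, x, β) := by
  induction h with
  | refl q α => exact Relation.ReflTransGen.refl
  | @step n q o Z q' g δ p c α'' h1 h2 ih =>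
    refine Relation.ReflTransGen.head ?_ ih
    cases o with
    | none => exact Step.eps q q' _ Z g δ h1
    | some a => exact Step.read q q' a _ Z g δ h1

theorem Run.ofStep {s t : M.Q × List A × List M.Γ} (h : Relation.ReflTransGen M.Step s t) :
    ∃ n p, s.2.1 = p ++ t.2.1 ∧ M.Run n s.1 s.2.2 p t.1 t.2.2 := by
  induction h using Relation.ReflTransGen.head_induction_on with
  | refl => exact ⟨0, [], rfl, Run.refl _ _⟩
  | head h _ ih =>
    obtain ⟨n, p, h1, h2⟩ := ih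
    cases h with
    | eps q q' w Z γ β h => exact ⟨n + 1, p, h1, Run.step (o := none) h h2⟩
    | read q q' a w Z γ β h =>
      refine ⟨n + 1, a :: p, ?_, Run.step (o := some a) h h2⟩
      show a :: w = a :: p ++ t.2.1
      rw [List.cons_append]
      exact congrArg _ h1

theorem mem_guess (w : List A) : w ∈ M.guessLang ↔ ∃ γ n, M.Sem n M.q₀ γ none w := by
  constructor
  · rintro ⟨γ, q', hq', β', h⟩
    obtain ⟨n, p, h1, h2⟩ := Run.ofStep h
    refine ⟨γ ++ [M.Z₀], n, q', hq', β', ?_⟩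
    have h3 : w = p := by
      have : w = p ++ [] := h1
      rwa [List.append_nil] at this
    rw [h3]
    exact h2
  · rintro ⟨γ, n, h⟩
    obtain ⟨q', hq', β', h2⟩ := h.weaken [M.Z₀]
    refine ⟨γ, q', hq', β', ?_⟩
    have := h2.toStep []
    rwa [List.append_nil] at this

/-! ### The joint grammar -/

/-- nonterminals of the joint grammar -/
inductive NJ (Q Γ : Type) where
  | mk (q : Q) (γ₁ : List Γ) (b₁ : Option Q) (γ₂ : List Γ) (b₂ : Option Q)

variable (M)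

inductive StopR : NJ M.Q M.Γ → NT M.Q M.Γ → NT M.Q M.Γ → Prop
  | mk (q : M.Q) (γ₁ : List M.Γ) (b₁ : Option M.Q) (γ₂ : List M.Γ) (b₂ : Option M.Q)
      (h₁ : γ₁ ∈ M.Fs) (h₂ : γ₂ ∈ M.Fs) : StopR (.mk q γ₁ b₁ γ₂ b₂) (.p q γ₁ b₁) (.p q γ₂ b₂)

inductive FirstR : NJ M.Q M.Γ → NT M.Q M.Γ → NJ M.Q M.Γ → Prop
  | mk (q : M.Q) (Z : M.Γ) (t : List M.Γ) (c : M.Q) (b₁ b₂ : Option M.Q) (h : Z :: t ∈ M.Fs) :
      FirstR (.mk q (Z :: t) b₁ (Z :: t) b₂) (.p q [Z] (some c)) (.mk c t b₁ t b₂)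

inductive In1R : NJ M.Q M.Γ → NJ M.Q M.Γ → NT M.Q M.Γ → Prop
  | mk (q : M.Q) (Z : M.Γ) (t : List M.Γ) (c : M.Q) (b₁ : Option M.Q) (γ₂ : List M.Γ)
      (b₂ : Option M.Q) (h : Z :: t ∈ M.Fs) (h₂ : γ₂ ∈ M.Fs) :
      In1R (.mk q (Z :: t) b₁ γ₂ b₂) (.mk q [Z] (some c) γ₂ b₂) (.p c t b₁)

inductive In2R : NJ M.Q M.Γ → NJ M.Q M.Γ → NT M.Q M.Γ → Prop
  | mk (q : M.Q) (Z : M.Γ) (t : List M.Γ) (c : M.Q) (γ₁ : List M.Γ) (b₁ : Option M.Q)
      (b₂ : Option M.Q) (h₁ : γ₁ ∈ M.Fs) (h : Z :: t ∈ M.Fs) :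
      In2R (.mk q γ₁ b₁ (Z :: t) b₂) (.mk q γ₁ b₁ [Z] (some c)) (.p c t b₂)

inductive JUnR : NJ M.Q M.Γ → Option A → NJ M.Q M.Γ → Prop
  | move (q : M.Q) (o : Option A) (Z : M.Γ) (q' : M.Q) (g : List M.Γ) (b₁ b₂ : Option M.Q)
      (h : M.δ q o Z = some (q', g)) : JUnR (.mk q [Z] b₁ [Z] b₂) o (.mk q' g b₁ g b₂)
  | acc1 (q : M.Q) (Z : M.Γ) (t : List M.Γ) (γ₂ : List M.Γ) (b₂ : Option M.Q)
      (h : Z :: t ∈ M.Fs) (h₂ : γ₂ ∈ M.Fs) :
      JUnR (.mk q (Z :: t) none γ₂ b₂) none (.mk q [Z] none γ₂ b₂)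
  | acc2 (q : M.Q) (Z : M.Γ) (t : List M.Γ) (γ₁ : List M.Γ) (b₁ : Option M.Q)
      (h₁ : γ₁ ∈ M.Fs) (h : Z :: t ∈ M.Fs) :
      JUnR (.mk q γ₁ b₁ (Z :: t) none) none (.mk q γ₁ b₁ [Z] none)

/-- the joint grammar of the automaton -/
def jg : JGram A (NT M.Q M.Γ) (NJ M.Q M.Γ) where
  stop := M.StopR
  first := M.FirstR
  in1 := M.In1R
  in2 := M.In2R
  un := M.JUnR

theorem jg_fin [Finite A] : M.jg.Fin := by
  have := M.finQ
  have := M.finΓ
  have hF : Finite M.Fs := M.Fs_finite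
  refine ⟨Set.range (fun x : M.Q × M.Fs × Option M.Q × M.Fs × Option M.Q =>
    NJ.mk x.1 x.2.1.1 x.2.2.1 x.2.2.2.1.1 x.2.2.2.2), Set.finite_range _, ?_, ?_, ?_, ?_, ?_⟩
  · intro j x y h
    cases h with
    | mk q γ₁ b₁ γ₂ b₂ h₁ h₂ => exact ⟨(q, ⟨γ₁, h₁⟩, b₁, ⟨γ₂, h₂⟩, b₂), rfl⟩
  · intro j x k h
    cases h with
    | mk q Z t c b₁ b₂ h => exact ⟨(q, ⟨Z :: t, h⟩, b₁, ⟨Z :: t, h⟩, b₂), rfl⟩
  · intro j k x h
    cases h with
    | mk q Z t c b₁ γ₂ b₂ h h₂ => exact ⟨(q, ⟨Z :: t, h⟩, b₁, ⟨γ₂, h₂⟩, b₂), rfl⟩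
  · intro j k x h
    cases h with
    | mk q Z t c γ₁ b₁ b₂ h₁ h => exact ⟨(q, ⟨γ₁, h₁⟩, b₁, ⟨Z :: t, h⟩, b₂), rfl⟩
  · intro j o k h
    cases h with
    | move q o Z q' g b₁ b₂ h =>
      exact ⟨(q, ⟨[Z], Fs_single Z⟩, b₁, ⟨[Z], Fs_single Z⟩, b₂), rfl⟩
    | acc1 q Z t γ₂ b₂ h h₂ => exact ⟨(q, ⟨Z :: t, h⟩, none, ⟨γ₂, h₂⟩, b₂), rfl⟩
    | acc2 q Z t γ₁ b₁ h₁ h => exact ⟨(q, ⟨γ₁, h₁⟩, b₁, ⟨Z :: t, h⟩, none), rfl⟩

/-- what the triples of a joint nonterminal mean -/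
def JMean (j : NJ M.Q M.Γ) (v y₁ y₂ : List A) : Prop :=
  match j with
  | .mk q γ₁ b₁ γ₂ b₂ => (∃ n, M.Sem n q γ₁ b₁ (v ++ y₁)) ∧ ∃ n, M.Sem n q γ₂ b₂ (v ++ y₂)

variable {M}

theorem jsound {j : NJ M.Q M.Γ} {v y₁ y₂ : List A} (h : JGram.D M.gr M.jg j v y₁ y₂) :
    M.JMean j v y₁ y₂ := by
  induction h with
  | stop h h₁ h₂ =>
    cases h with
    | mk q γ₁ b₁ γ₂ b₂ k₁ k₂ => exact ⟨sound h₁, sound h₂⟩
  | first h h₁ h₂ ih =>
    cases h with
    | mk q Z t c b₁ b₂ k =>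
      obtain ⟨m, hm⟩ := sound h₁
      obtain ⟨⟨n₁, hn₁⟩, n₂, hn₂⟩ := ih
      refine ⟨⟨m + n₁, ?_⟩, m + n₂, ?_⟩
      · rw [List.append_assoc]
        exact Sem.comp hm hn₁
      · rw [List.append_assoc]
        exact Sem.comp hm hn₂
  | in1 h h₁ h₂ ih =>
    cases h with
    | mk q Z t c b₁ γ₂ b₂ k k₂ =>
      obtain ⟨m, hm⟩ := sound h₂
      obtain ⟨⟨n₁, hn₁⟩, n₂, hn₂⟩ := ih
      refine ⟨⟨n₁ + m, ?_⟩, n₂, hn₂⟩
      rw [← List.append_assoc]
      exact Sem.comp hn₁ hm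
  | in2 h h₁ h₂ ih =>
    cases h with
    | mk q Z t c γ₁ b₁ b₂ k₁ k =>
      obtain ⟨m, hm⟩ := sound h₂
      obtain ⟨⟨n₁, hn₁⟩, n₂, hn₂⟩ := ih
      refine ⟨⟨n₁, hn₁⟩, n₂ + m, ?_⟩
      rw [← List.append_assoc]
      exact Sem.comp hn₂ hm
  | un h h₁ ih =>
    cases h with
    | move q o Z q' g b₁ b₂ k =>
      obtain ⟨⟨n₁, hn₁⟩, n₂, hn₂⟩ := ih
      refine ⟨⟨n₁ + 1, ?_⟩, n₂ + 1, ?_⟩
      · rw [List.append_assoc]
        exact Sem.move k hn₁
      · rw [List.append_assoc]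
        exact Sem.move k hn₂
    | acc1 q Z t γ₂ b₂ k k₂ =>
      obtain ⟨⟨n₁, hn₁⟩, n₂, hn₂⟩ := ih
      exact ⟨⟨n₁, Sem.weaken hn₁ t⟩, n₂, hn₂⟩
    | acc2 q Z t γ₁ b₁ k₁ k =>
      obtain ⟨⟨n₁, hn₁⟩, n₂, hn₂⟩ := ih
      exact ⟨⟨n₁, hn₁⟩, n₂, Sem.weaken hn₂ t⟩

/-- two prefixes of one word are comparable -/
theorem prefix_cmp {v y p s : List A} (h : v ++ y = p ++ s) :
    (∃ v', v = p ++ v' ∧ s = v' ++ y) ∨ ∃ y', p = v ++ y' ∧ y = y' ++ s := by
  rcases List.append_eq_append_iff.1 h with ⟨a, h1, h2⟩ | ⟨a, h1, h2⟩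
  · exact Or.inr ⟨a, h1, h2⟩
  · exact Or.inl ⟨a, h1, h2⟩

/-- the exit from `[Z]` inside `v` is the same for both futures -/
theorem exit_unique {m₁ m₂ : ℕ} {q c₁ c₂ : M.Q} {α : List M.Γ} {p₁ p₂ v' y₂ s₂ : List A}
    (h₁ : M.Sem m₁ q α (some c₁) p₁) (h₂ : M.Sem m₂ q α (some c₂) p₂)
    (he : p₁ ++ v' ++ y₂ = p₂ ++ s₂) : p₂ = p₁ ∧ c₂ = c₁ := by
  rw [List.append_assoc] at he
  rcases prefix_cmp he with ⟨x, h3, h4⟩ | ⟨x, h3, h4⟩
  · -- `p₁ = p₂ ++ x`
    rw [h3] at h₁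
    obtain ⟨h5, h6⟩ := Sem.det h₂ h₁
    refine ⟨?_, (h6 c₁ rfl).symm⟩
    rw [h3, h5, List.append_nil]
  · rw [h3] at h₂
    obtain ⟨h5, h6⟩ := Sem.det h₁ h₂
    refine ⟨?_, h6 c₂ rfl⟩
    rw [h3, h5, List.append_nil]

theorem jcomplete : ∀ (n : ℕ) (n₁ n₂ : ℕ), n₁ + n₂ ≤ n → ∀ (q : M.Q) (γ : List M.Γ)
    (b₁ b₂ : Option M.Q) (v y₁ y₂ : List A), γ ∈ M.Fs → M.Sem n₁ q γ b₁ (v ++ y₁) →
    M.Sem n₂ q γ b₂ (v ++ y₂) → JGram.D M.gr M.jg (.mk q γ b₁ γ b₂) v y₁ y₂ := by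
  intro n
  induction n with
  | zero =>
    intro n₁ n₂ hn q γ b₁ b₂ v y₁ y₂ hγ h₁ h₂
    -- no move at all: `v = []`
    have hz : n₁ = 0 := by omega
    subst hz
    have hv : v ++ y₁ = [] := by
      cases b₁ with
      | none =>
        obtain ⟨d, _, β, h3⟩ := h₁
        generalize v ++ y₁ = w at h3
        cases h3
        rfl
      | some d =>
        have h3 : M.Run 0 q γ (v ++ y₁) d [] := h₁
        generalize v ++ y₁ = w at h3
        cases h3
        rfl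
    obtain ⟨rfl, rfl⟩ := List.append_eq_nil_iff.1 hv
    exact JGram.D.stop (StopR.mk q γ b₁ γ b₂ hγ hγ) (complete_p _ _ _ _ _ hγ h₁)
      (complete_p _ _ _ _ _ hγ h₂)
  | succ n ih =>
    -- one letter
    have one : ∀ (n₁ n₂ : ℕ), n₁ + n₂ ≤ n + 1 → ∀ (q : M.Q) (Z : M.Γ)
        (b₁ b₂ : Option M.Q) (v y₁ y₂ : List A), M.Sem n₁ q [Z] b₁ (v ++ y₁) →
        M.Sem n₂ q [Z] b₂ (v ++ y₂) → JGram.D M.gr M.jg (.mk q [Z] b₁ [Z] b₂) v y₁ y₂ := by
      intro n₁ n₂ hn q Z b₁ b₂ v y₁ y₂ h₁ h₂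
      cases v with
      | nil =>
        exact JGram.D.stop (StopR.mk q [Z] b₁ [Z] b₂ (Fs_single Z) (Fs_single Z))
          (complete_p _ _ _ _ _ (Fs_single Z) h₁) (complete_p _ _ _ _ _ (Fs_single Z) h₂)
      | cons a v =>
        rcases h₁.first with ⟨_, _, h3⟩ | ⟨k₁, o₁, q₁, g₁, p₁, rfl, e1, e2, e3⟩
        · exact absurd h3 (by simp)
        rcases h₂.first with ⟨_, _, h3⟩ | ⟨k₂, o₂, q₂, g₂, p₂, rfl, f1, f2, f3⟩
        · exact absurd h3 (by simp)
        -- the two moves agree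
        have hsame : o₁ = o₂ ∧ (q₁, g₁) = (q₂, g₂) := by
          cases o₁ with
          | none => 
            cases o₂ with
            | none =>
              rw [e1] at f1
              exact ⟨rfl, Option.some.inj f1⟩
            | some a₂ =>
              have := M.det q Z (by rw [e1]; exact Option.some_ne_none _) a₂
              rw [this] at f1
              exact absurd f1 (by simp)
          | some a₁ =>
            cases o₂ with
            | none =>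
              have := M.det q Z (by rw [f1]; exact Option.some_ne_none _) a₁
              rw [this] at e1
              exact absurd e1 (by simp)
            | some a₂ =>
              simp only [Option.toList_some, List.cons_append, List.nil_append] at e2 f2
              obtain ⟨rfl, _⟩ := List.cons.inj e2
              obtain ⟨rfl, _⟩ := List.cons.inj f2
              rw [e1] at f1
              exact ⟨rfl, Option.some.inj f1⟩
        obtain ⟨rfl, h4⟩ := hsame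
        obtain ⟨rfl, rfl⟩ := Prod.mk.inj h4
        cases o₁ with
        | none =>
          simp only [Option.toList_none, List.nil_append] at e2 f2
          subst e2
          subst f2
          exact JGram.D.un (o := none) (JUnR.move q none Z q₁ g₁ b₁ b₂ e1)
            (ih k₁ k₂ (by omega) _ _ _ _ _ _ _ (Fs_move e1) e3 f3)
        | some a₁ =>
          simp only [Option.toList_some, List.cons_append, List.nil_append] at e2 f2
          obtain ⟨rfl, rfl⟩ := List.cons.inj e2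
          obtain ⟨_, rfl⟩ := List.cons.inj f2
          exact JGram.D.un (o := some a) (JUnR.move q (some a) Z q₁ g₁ b₁ b₂ e1)
            (ih k₁ k₂ (by omega) _ _ _ _ _ _ _ (Fs_move e1) e3 f3)
    intro n₁ n₂ hn q γ b₁ b₂ v y₁ y₂ hγ h₁ h₂
    cases γ with
    | nil =>
      obtain ⟨hv, _⟩ := h₁.nil_stack
      obtain ⟨rfl, rfl⟩ := List.append_eq_nil_iff.1 hv
      exact JGram.D.stop (StopR.mk q [] b₁ [] b₂ hγ hγ) (complete_p _ _ _ _ _ hγ h₁)
        (complete_p _ _ _ _ _ hγ h₂)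
    | cons Z t =>
      have ht := Fs_tail hγ
      rcases Sem.split (α := [Z]) (β := t) h₁ with ⟨rfl, k₁⟩ | ⟨m₁, m₁', p₁, s₁, c₁, rfl, d₁, k₁, k₁'⟩
      · rcases Sem.split (α := [Z]) (β := t) h₂ with ⟨rfl, k₂⟩ | ⟨m₂, m₂', p₂, s₂, c₂, rfl, d₂, k₂, k₂'⟩
        · exact JGram.D.un (o := none) (JUnR.acc1 q Z t _ _ hγ hγ)
            (JGram.D.un (o := none) (JUnR.acc2 q Z t _ _ (Fs_single Z) hγ)
              (one n₁ n₂ hn q Z none none v y₁ y₂ k₁ k₂))
        · -- the second run leaves `[Z]` after `v`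
          have : ∃ y', p₂ = v ++ y' ∧ y₂ = y' ++ s₂ := by
            rcases prefix_cmp d₂ with ⟨v', h3, h4⟩ | h3
            · rw [h3, List.append_assoc] at k₁
              obtain ⟨h5, _⟩ := Sem.det k₂ k₁
              obtain ⟨rfl, rfl⟩ := List.append_eq_nil_iff.1 h5
              refine ⟨[], ?_, ?_⟩
              · rw [h3]; simp
              · rw [h4]; simp
            · exact h3
          obtain ⟨y', rfl, rfl⟩ := this
          exact JGram.D.un (o := none) (JUnR.acc1 q Z t _ _ hγ hγ)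
            (JGram.D.in2 (In2R.mk q Z t c₂ _ _ b₂ (Fs_single Z) hγ)
              (one n₁ m₂ (by omega) q Z none (some c₂) v y₁ y' k₁ k₂)
              (complete_p _ _ _ _ _ ht k₂'))
      · rcases Sem.split (α := [Z]) (β := t) h₂ with ⟨rfl, k₂⟩ | ⟨m₂, m₂', p₂, s₂, c₂, rfl, d₂, k₂, k₂'⟩
        · have : ∃ y', p₁ = v ++ y' ∧ y₁ = y' ++ s₁ := by
            rcases prefix_cmp d₁ with ⟨v', h3, h4⟩ | h3
            · rw [h3, List.append_assoc] at k₂
              obtain ⟨h5, _⟩ := Sem.det k₁ k₂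
              obtain ⟨rfl, rfl⟩ := List.append_eq_nil_iff.1 h5
              refine ⟨[], ?_, ?_⟩
              · rw [h3]; simp
              · rw [h4]; simp
            · exact h3
          obtain ⟨y', rfl, rfl⟩ := this
          exact JGram.D.in1 (In1R.mk q Z t c₁ b₁ _ _ hγ hγ)
            (JGram.D.un (o := none) (JUnR.acc2 q Z t _ _ (Fs_single Z) hγ)
              (one m₁ n₂ (by omega) q Z (some c₁) none v y' y₂ k₁ k₂))
            (complete_p _ _ _ _ _ ht k₁')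
        · rcases prefix_cmp d₁ with ⟨v', h3, h4⟩ | ⟨y', h3, h4⟩
          · -- both runs leave `[Z]` inside `v`
            have h5 : p₁ ++ v' ++ y₂ = p₂ ++ s₂ := by rw [← h3]; exact d₂
            obtain ⟨h6, h7⟩ := exit_unique k₁ k₂ h5
            have h8 : s₂ = v' ++ y₂ := by
              rw [h6, List.append_assoc] at h5
              exact (List.append_cancel_left h5).symm
            have hp := k₁.pos
            have hp2 := k₂.pos
            subst h7
            rw [h4] at k₁'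
            rw [h8] at k₂'
            rw [h3]
            exact JGram.D.first (FirstR.mk q Z t c₂ b₁ b₂ hγ)
              (complete_p _ _ _ _ _ (Fs_single Z) k₁)
              (ih m₁' m₂' (by omega) _ _ _ _ _ _ _ ht k₁' k₂')
          · rcases prefix_cmp d₂ with ⟨v', h5, h6⟩ | ⟨y'', h5, h6⟩
            · -- impossible unless the exits agree
              have h7 : p₂ ++ v' ++ y₁ = p₁ ++ s₁ := by rw [← h5]; exact d₁
              obtain ⟨h8, h9⟩ := exit_unique k₂ k₁ h7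
              have h10 : s₁ = v' ++ y₁ := by
                rw [h8, List.append_assoc] at h7
                exact (List.append_cancel_left h7).symm
              have hp := k₁.pos
              have hp2 := k₂.pos
              subst h9
              rw [h10] at k₁'
              rw [h6] at k₂'
              rw [h5]
              exact JGram.D.first (FirstR.mk q Z t c₁ b₁ b₂ hγ)
                (complete_p _ _ _ _ _ (Fs_single Z) k₂)
                (ih m₁' m₂' (by omega) _ _ _ _ _ _ _ ht k₁' k₂')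
            · subst h3 h4 h5 h6
              exact JGram.D.in1 (In1R.mk q Z t c₁ b₁ _ _ hγ hγ)
                (JGram.D.in2 (In2R.mk q Z t c₂ _ _ b₂ (Fs_single Z) hγ)
                  (one m₁ m₂ (by omega) q Z (some c₁) (some c₂) v y' y'' k₁ k₂)
                  (complete_p _ _ _ _ _ ht k₂'))
                (complete_p _ _ _ _ _ ht k₁')

theorem joint_iff (q : M.Q) (Z : M.Γ) (b₁ b₂ : Option M.Q) (v y₁ y₂ : List A) :
    JGram.D M.gr M.jg (.mk q [Z] b₁ [Z] b₂) v y₁ y₂ ↔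
      (M.gr.D (.p q [Z] b₁) (v ++ y₁) ∧ M.gr.D (.p q [Z] b₂) (v ++ y₂)) := by
  constructor
  · intro h
    obtain ⟨h1, h2⟩ := jsound h
    exact ⟨(mem_p (Fs_single Z)).2 h1, (mem_p (Fs_single Z)).2 h2⟩
  · rintro ⟨h1, h2⟩
    obtain ⟨n₁, k₁⟩ := (mem_p (Fs_single Z)).1 h1
    obtain ⟨n₂, k₂⟩ := (mem_p (Fs_single Z)).1 h2
    exact jcomplete (n₁ + n₂) n₁ n₂ le_rfl q [Z] b₁ b₂ v y₁ y₂ (Fs_single Z) k₁ k₂

theorem pr_st {q : M.Q} {u v : List A} (h : M.gr.D (.pr q) u) (h' : M.gr.D (.st q) v) :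
    M.gr.D (.st M.q₀) (u ++ v) := by
  obtain ⟨γ, n, k⟩ := sound h
  obtain ⟨γ', n', k'⟩ := sound h'
  exact mem_st.2 ⟨γ ++ γ', n + n', Sem.comp k k'⟩

theorem st_ind {P : M.Q → List A → Prop} (h0 : ∀ q, P q [])
    (h1 : ∀ q Z u, M.gr.D (.p q [Z] none) u → P q u)
    (h2 : ∀ q Z c u v, M.gr.D (.p q [Z] (some c)) u → M.gr.D (.st c) v → P c v → P q (u ++ v))
    {x : NT M.Q M.Γ} {w : List A} (h : M.gr.D x w) : ∀ q, x = .st q → P q w := by
  induction h with
  | leaf h =>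
    rintro q rfl
    exact h0 q
  | @un x y o w h h' ih =>
    rintro q rfl
    generalize hx : (NT.st q : NT M.Q M.Γ) = x at h
    cases h with
    | move => exact absurd hx (by simp)
    | acc => exact absurd hx (by simp)
    | st q' Z =>
      obtain rfl := NT.st.inj hx
      exact h1 q Z w h'
  | @bin x y z u v h h₁ h₂ ih₁ ih₂ =>
    rintro q rfl
    generalize hx : (NT.st q : NT M.Q M.Γ) = x at h
    cases h with
    | cons => exact absurd hx (by simp)
    | st q' Z c =>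
      obtain rfl := NT.st.inj hx
      exact h2 q Z c u v h₁ h₂ (ih₂ c rfl)
    | pr => exact absurd hx (by simp)

end DPDA

theorem exists_MG {A : Type} [Finite A] (M : DPDA A) :
    ∃ R : MG A, ∀ w, R.G.D (R.st R.q₀) w ↔ w ∈ M.guessLang := by
  refine ⟨{
    Q := M.Q
    Γ := M.Γ
    finQ := M.finQ
    finΓ := M.finΓ
    X := DPDA.NT M.Q M.Γ
    J := DPDA.NJ M.Q M.Γ
    G := M.gr
    K := M.jg
    finG := M.gr_fin
    finK := M.jg_fin
    q₀ := M.q₀
    st := .st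
    pr := .pr
    pp := fun q Z b => .p q [Z] b
    jj := fun q Z b₁ b₂ => .mk q [Z] b₁ [Z] b₂
    pr_nil := Gram.D.leaf DPDA.LeafR.pr
    pr_pp := fun q Z c u v h h' => Gram.D.bin (DPDA.BinR.pr q Z c) h h'
    pr_st := fun q u v h h' => DPDA.pr_st h h'
    st_none := fun q Z u h => Gram.D.un (o := none) (DPDA.UnR.st q Z) h
    st_some := fun q Z c u v h h' => Gram.D.bin (DPDA.BinR.st q Z c) h h'
    st_ind := fun P h0 h1 h2 q w h => DPDA.st_ind h0 h1 h2 h q rfl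
    joint := DPDA.joint_iff }, ?_⟩
  intro w
  rw [DPDA.mem_guess]
  exact DPDA.mem_st

end Pool.Agent.Lib.CoCF
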