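import Pool.Agent.Lib.CoCF.Asm3
import Pool.Agent.Lib.CoCF.Lang
import Pool.Agent.Lib.CoCF.Extract
import Pool.Agent.Lib.CoCF.Annot
import Pool.Agent.Lib.CoCF.JAnnot
import Pool.Agent.Lib.CoCF.Kill

/-!
# Assembly, part 4: from realizable vectors to the group part
-/

set_option autoImplicit false

namespace Pool.Agent.Lib.CoCF.Asm

open Pool.Agent.Lib.CoCF

/-- total exponents of the whole word, the two outer blocks shifted by `xs` -/
def tot (k R c : ℕ) (D : ℕ) (xs : ℤ) (p : ℕ) : ℤ :=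
  (expo D (allI k R c) p : ℤ) + (if p = 0 then xs else 0) + (if p = 7 * (nU k R + 3) then xs else 0)

/-- the integer vectors `v` are realizable with linear coefficients -/
def Realiz (U : Ultrafilter ℕ) (D : ℕ → ℕ) (k R c : ℕ) (xs : ℕ → ℤ) {T : Type} [Fintype T]
    (v : T → ℕ → ℤ) : Prop :=
  ∀ C : ℕ, ∀ᶠ N in (U : Filter ℕ), ∀ m : T → ℤ, (∀ t, |m t| ≤ C * D N) →
    ∃ e' : ℕ → ℕ, (∀ p, (e' p : ℤ) = tot k R c (D N) (xs N) p + ∑ t, m t * v t p) ∧
      evw (wd (pat (allI k R c)) (7 * (nU k R + 3) + 1) e') ≠ 1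

/-- rational span of integer vectors -/
def spn {T : Type} (v : T → ℕ → ℤ) : Submodule ℚ (ℕ → ℚ) :=
  Submodule.span ℚ (Set.range fun t p => (v t p : ℚ))

theorem spn_int {T : Type} [Fintype T] (v : T → ℕ → ℤ) (x : ℕ → ℚ) (hx : x ∈ spn v) :
    ∃ (K : ℕ) (c : T → ℤ), 0 < K ∧ ∀ p, (K : ℚ) * x p = ∑ t, (c t : ℚ) * v t p := by
  classical
  unfold spn at hx
  rw [Submodule.mem_span_range_iff_exists_fun] at hx
  obtain ⟨q, hq⟩ := hx
  refine ⟨∏ t, (q t).den, fun t => (q t).num * ∏ s ∈ Finset.univ.erase t, ((q s).den : ℤ),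
    Finset.prod_pos fun t _ => (q t).pos, ?_⟩
  intro p
  have h1 : x p = ∑ t, q t * v t p := by
    rw [← hq, Finset.sum_apply]
    rfl
  rw [h1, Finset.mul_sum]
  apply Finset.sum_congr rfl
  intro t _
  rw [← Finset.mul_prod_erase Finset.univ _ (Finset.mem_univ t)]
  push_cast
  have h2 : ((q t).den : ℚ) * q t = (q t).num := by
    rw [mul_comm]
    exact Rat.mul_den_eq_num (q t)
  calc ((q t).den : ℚ) * (∏ s ∈ Finset.univ.erase t, ((q s).den : ℚ)) * (q t * (v t p : ℚ))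
      = (((q t).den : ℚ) * q t) * (∏ s ∈ Finset.univ.erase t, ((q s).den : ℚ)) * (v t p : ℚ) := by
        ring
    _ = _ := by rw [h2]

/-- A good zone: outside the bad round. -/
def Good (k R bad a : ℕ) : Prop := IsZ k R a ∧ (a - 1) / roundLen k ≠ bad

/-- The position of the last `s⁻¹` block. -/
def xrP (k R : ℕ) : ℕ := 7 * (nU k R + 3)

open Classical in
/-- the vector attached to item `a` -/
noncomputable def vecA (k R bad : ℕ) (lab side : ℕ → Bool) (sl : ℕ → ℚ) (a : ℕ) : ℕ → ℚ :=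
  if Good k R bad a then
    (if lab a = true then (if side a = true then uv (7 * a) else uv (7 * a + 6))
      else uv (7 * a + 1) + uv (7 * a + 5) + sl a • uv (7 * a))
  else 0

theorem uv_apply (p q : ℕ) : uv p q = if q = p then 1 else 0 := by
  unfold uv
  rw [Pi.single_apply]

theorem vecA_zero_of {k R bad : ℕ} {lab side : ℕ → Bool} {sl : ℕ → ℚ} {a p : ℕ}
    (h : p / 7 ≠ a) : vecA k R bad lab side sl a p = 0 := by
  unfold vecA
  have h0 : p ≠ 7 * a := by omega
  have h1 : p ≠ 7 * a + 1 := by omega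
  have h5 : p ≠ 7 * a + 5 := by omega
  have h6 : p ≠ 7 * a + 6 := by omega
  split_ifs <;> simp [uv_apply, h0, h1, h5, h6]

end Pool.Agent.Lib.CoCF.Asm
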