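import Pool.Agent.Lib.CoCF.Asm4

/-!
# Assembly, part 5: admissible perturbations have nontrivial value
-/

set_option autoImplicit false

namespace Pool.Agent.Lib.CoCF.Asm

open Pool.Agent.Lib.CoCF

theorem vecA_apply {k R bad : ℕ} {lab side : ℕ → Bool} {sl : ℕ → ℚ} {a p : ℕ} (hp : p / 7 = a)
    (hG : Good k R bad a) : vecA k R bad lab side sl a p =
    (if lab a = true then (if side a = true then (if p % 7 = 0 then 1 else 0)
      else (if p % 7 = 6 then 1 else 0))
      else (if p % 7 = 1 ∨ p % 7 = 5 then 1 else 0) + (if p % 7 = 0 then sl a else 0)) := by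
  have h7 : p = 7 * a + p % 7 := by omega
  have hm : p % 7 < 7 := Nat.mod_lt _ (by norm_num)
  unfold vecA
  rw [if_pos hG]
  generalize p % 7 = b at h7 hm ⊢
  subst h7
  have e1 : ∀ i j : ℕ, (7 * a + i = 7 * a + j) ↔ i = j := fun i j => by omega
  have e2 : ∀ i : ℕ, (7 * a + i = 7 * a) ↔ i = 0 := fun i => by omega
  have e3 : ∀ i : ℕ, (7 * a = 7 * a + i) ↔ i = 0 := fun i => by omega
  by_cases h1 : lab a = true
  · by_cases h2 : side a = true
    · rw [if_pos h1, if_pos h2, if_pos h1, if_pos h2, uv_apply]
      simp only [e2]
    · rw [if_pos h1, if_neg h2, if_pos h1, if_neg h2, uv_apply]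
      simp only [e1]
  · rw [if_neg h1, if_neg h1, Pi.add_apply, Pi.add_apply, Pi.smul_apply, uv_apply, uv_apply,
      uv_apply]
    simp only [e1, e2]
    interval_cases b <;> simp

section

variable {U : Ultrafilter ℕ} {D : ℕ → ℕ} {k R c bad : ℕ} {lab : ℕ → Bool}

theorem pert_ne_one (hD : ∀ C : ℕ, ∀ᶠ N in (U : Filter ℕ), C < D N) (xs : ℕ → ℤ) {T : Type}
    [Fintype T] (v : T → ℕ → ℤ) (hr : Realiz U D k R c xs v)
    (hT : ∀ a, Good k R bad a → lab a = true → uv (7 * a) ∈ spn v ∨ uv (7 * a + 6) ∈ spn v)
    (hDl : ∀ a, Good k R bad a → lab a = false →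
      ∃ t : ℚ, uv (7 * a + 1) + uv (7 * a + 5) + t • uv (7 * a) ∈ spn v)
    (flag : Prop) (hflag : flag → uv 0 ∈ spn v ∨ uv (xrP k R) ∈ spn v) :
    ∃ (sl : ℕ → ℚ) (K : ℕ), 0 < K ∧ (∀ a, lab a = false → ∃ q : ℤ, (q : ℚ) = K * sl a) ∧
      ∀ C : ℕ, ∀ᶠ N in (U : Filter ℕ), ∀ (x : ℤ) (mm EE : ℕ → ℤ), |x| ≤ C * D N → (K : ℤ) ∣ x →
        (x ≠ 0 → flag) → Adm k R bad lab sl K C (D N) mm EE →
        (sg 0) ^ x * valI (D N) mm EE 1 (UI k R) * omv (D N) c ≠ 1 := by
  classical
  -- choices
  let side : ℕ → Bool := fun a => decide (uv (7 * a) ∈ spn v)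
  have hsl : ∀ a, ∃ t : ℚ, (Good k R bad a → lab a = false →
      uv (7 * a + 1) + uv (7 * a + 5) + t • uv (7 * a) ∈ spn v) ∧
      (¬ (Good k R bad a ∧ lab a = false) → t = 0) := by
    intro a
    by_cases h : Good k R bad a ∧ lab a = false
    · obtain ⟨t, ht⟩ := hDl a h.1 h.2
      exact ⟨t, fun _ _ => ht, fun h' => absurd h h'⟩
    · exact ⟨0, fun h1 h2 => absurd ⟨h1, h2⟩ h, fun _ => rfl⟩
  choose sl hsl1 hsl2 using hsl
  have hvec : ∀ a, vecA k R bad lab side sl a ∈ spn v := by
    intro a
    unfold vecA
    split_ifs with h1 h2 h3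
    · simpa [side] using h3
    · rcases hT a h1 h2 with h | h
      · exact absurd (by simpa [side] using h) h3
      · exact h
    · exact hsl1 a h1 (by simpa using h2)
    · exact Submodule.zero_mem _
  choose Ka ca hKa hca using fun a => spn_int v _ (hvec a)
  let sX : Bool := decide (uv 0 ∈ spn v)
  let vX : ℕ → ℚ := if flag then (if sX = true then uv 0 else uv (xrP k R)) else 0
  have hvX : vX ∈ spn v := by
    show (if flag then (if sX = true then uv 0 else uv (xrP k R)) else 0) ∈ spn v
    split_ifs with h1 h2
    · simpa [sX] using h2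
    · rcases hflag h1 with h | h
      · exact absurd (by simpa [sX] using h) h2
      · exact h
    · exact Submodule.zero_mem _
  obtain ⟨KX, cX, hKX, hcX⟩ := spn_int v vX hvX
  let K : ℕ := KX * ∏ a ∈ Finset.range (nU k R + 1), Ka a
  have hKaK : ∀ a, a ≤ nU k R → Ka a ∣ K := fun a ha =>
    (Finset.dvd_prod_of_mem Ka (Finset.mem_range.2 (Nat.lt_succ_of_le ha))).trans
      (Dvd.intro_left KX rfl)
  have hKXK : KX ∣ K := Dvd.intro _ rfl
  refine ⟨sl, K, Nat.mul_pos hKX (Finset.prod_pos fun a _ => hKa a), ?_, ?_⟩
  · intro a hla
    by_cases hG : Good k R bad a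
    · have h1 := hca a (7 * a)
      rw [vecA_apply (by omega) hG] at h1
      have h2 : 7 * a % 7 = 0 := by omega
      simp only [hla, h2] at h1
      norm_num at h1
      obtain ⟨K', hK'⟩ := hKaK a hG.1.le
      refine ⟨K' * ∑ t, ca a t * v t (7 * a), ?_⟩
      rw [hK']
      push_cast
      rw [← h1]
      ring
    · refine ⟨0, ?_⟩
      rw [hsl2 a (fun h => hG h.1)]
      simp
  · intro C
    let S : ℕ := (∑ a ∈ Finset.range (nU k R + 1), ∑ t, (ca a t).natAbs) + ∑ t, (cX t).natAbs
    filter_upwards [hr (C * S), hD (C + 1)] with N hN hDN x mm EE hx hKx hxf hadm heq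
    -- coefficients
    let μ : ℕ → ℤ := fun a => if Good k R bad a then
      (if lab a = true then (if side a = true then mm a / Ka a else - (mm a / Ka a))
        else EE a / Ka a) else 0
    let ξ : ℤ := if sX = true then x / KX else - (x / KX)
    let m : T → ℤ := fun t => (∑ a ∈ Finset.range (nU k R + 1), μ a * ca a t) + ξ * cX t
    have hdivle : ∀ (y : ℤ) (q : ℕ), |y| ≤ C * D N → |y / (q : ℤ)| ≤ C * D N := by
      intro y q hy
      have h1 : (|y / (q : ℤ)|) ≤ |y| := by
        have := Int.natAbs_ediv_le_natAbs y q
        rw [← Int.natCast_natAbs, ← Int.natCast_natAbs]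
        exact_mod_cast this
      exact h1.trans hy
    have hμ : ∀ a, |μ a| ≤ C * D N := by
      intro a
      have h0 : (0 : ℤ) ≤ C * D N := by positivity
      simp only [μ]
      split_ifs
      · exact hdivle _ _ (hadm a).1.1
      · rw [abs_neg]
        exact hdivle _ _ (hadm a).1.1
      · exact hdivle _ _ (hadm a).1.2
      · simpa using h0
    have hξ : |ξ| ≤ C * D N := by
      simp only [ξ]
      split_ifs
      · exact hdivle _ _ hx
      · rw [abs_neg]
        exact hdivle _ _ hx
    have hm : ∀ t, |m t| ≤ ((C * S : ℕ) : ℤ) * D N := by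
      intro t
      have h1 : |m t| ≤ (∑ a ∈ Finset.range (nU k R + 1), (C * D N : ℤ) * |ca a t|) +
          (C * D N : ℤ) * |cX t| := by
        refine (abs_add_le _ _).trans (add_le_add ((Finset.abs_sum_le_sum_abs _ _).trans
          (Finset.sum_le_sum fun a _ => ?_)) ?_)
        · rw [abs_mul]
          exact mul_le_mul_of_nonneg_right (hμ a) (abs_nonneg _)
        · rw [abs_mul]
          exact mul_le_mul_of_nonneg_right hξ (abs_nonneg _)
      refine h1.trans ?_
      rw [← Finset.mul_sum, ← mul_add]
      have h2 : (∑ a ∈ Finset.range (nU k R + 1), |ca a t|) + |cX t| ≤ (S : ℤ) := by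
        simp only [S]
        push_cast
        refine add_le_add (Finset.sum_le_sum fun a _ => ?_) ?_
        · exact Finset.single_le_sum (f := fun t => |ca a t|) (fun _ _ => abs_nonneg _)
            (Finset.mem_univ t)
        · exact Finset.single_le_sum (f := fun t => |cX t|) (fun _ _ => abs_nonneg _)
            (Finset.mem_univ t)
      calc (C * D N : ℤ) * ((∑ a ∈ Finset.range (nU k R + 1), |ca a t|) + |cX t|)
          ≤ (C * D N : ℤ) * S := mul_le_mul_of_nonneg_left h2 (by positivity)
        _ = _ := by push_cast; ring
    obtain ⟨e', he', hne⟩ := hN m hm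
    apply hne
    -- facts on admissible perturbations
    have hgood : ∀ a, mm a ≠ 0 ∨ EE a ≠ 0 → Good k R bad a := by
      intro a h
      obtain ⟨h1, h2, _⟩ := (hadm a).2 h
      exact ⟨h1, h2⟩
    have hKmm : ∀ a, Good k R bad a → lab a = true → (Ka a : ℤ) * (mm a / Ka a) = mm a := by
      intro a hG hl
      by_cases h : mm a = 0
      · simp [h]
      · obtain ⟨_, _, h3, _⟩ := (hadm a).2 (Or.inl h)
        exact Int.mul_ediv_cancel' ((Int.natCast_dvd_natCast.2 (hKaK a hG.1.le)).trans (h3 hl).2)
    have hKEE : ∀ a, Good k R bad a → lab a = false → (Ka a : ℤ) * (EE a / Ka a) = EE a := by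
      intro a hG hl
      by_cases h : EE a = 0
      · simp [h]
      · obtain ⟨_, _, _, h4⟩ := (hadm a).2 (Or.inr h)
        exact Int.mul_ediv_cancel' ((Int.natCast_dvd_natCast.2 (hKaK a hG.1.le)).trans (h4 hl).1)
    have hEE0 : ∀ a, lab a = true → EE a = 0 := by
      intro a hl
      by_contra h
      obtain ⟨_, _, h3, _⟩ := (hadm a).2 (Or.inr h)
      exact h (h3 hl).1
    have hmmEE : ∀ a, lab a = false → (mm a : ℚ) = sl a * EE a := by
      intro a hl
      by_cases h : mm a ≠ 0 ∨ EE a ≠ 0
      · obtain ⟨_, _, _, h4⟩ := (hadm a).2 h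
        exact (h4 hl).2
      · rw [not_or, not_not, not_not] at h
        simp [h.1, h.2]
    let mL : ℕ → ℤ := fun a => if lab a = true ∧ side a = false then 0 else mm a
    let mR : ℕ → ℤ := fun a => if lab a = true ∧ side a = false then mm a else 0
    let xL : ℤ := if sX = true then x else 0
    let xR : ℤ := if sX = true then 0 else x
    have hgood' : ∀ a, ¬ Good k R bad a → mL a = 0 ∧ mR a = 0 ∧ EE a = 0 := by
      intro a hG
      have h1 : mm a = 0 := by
        by_contra h
        exact hG (hgood a (Or.inl h))
      have h2 : EE a = 0 := by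
        by_contra h
        exact hG (hgood a (Or.inr h))
      simp only [mL, mR, h1, h2]
      simp
    have hsum : ∀ p, ∑ t, m t * v t p = (if p = 0 then xL else 0) +
        (if p = xrP k R then - xR else 0) + (if p % 7 = 0 then mL (p / 7) else 0) +
        (if p % 7 = 6 then - mR (p / 7) else 0) +
        (if p % 7 = 1 ∨ p % 7 = 5 then EE (p / 7) else 0) := by
      intro p
      have h1 : ((∑ t, m t * v t p : ℤ) : ℚ) =
          (∑ a ∈ Finset.range (nU k R + 1), (μ a : ℚ) * (Ka a * vecA k R bad lab side sl a p)) +
            ξ * (KX * vX p) := by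
        push_cast
        simp only [m]
        push_cast
        rw [hcX p, Finset.mul_sum]
        have h2 : ∀ a, (μ a : ℚ) * (Ka a * vecA k R bad lab side sl a p) =
            ∑ t, (μ a : ℚ) * (ca a t * v t p) := by
          intro a
          rw [hca a p, Finset.mul_sum]
        simp only [h2]
        rw [Finset.sum_comm, ← Finset.sum_add_distrib]
        apply Finset.sum_congr rfl
        intro t _
        rw [add_mul, Finset.sum_mul]
        congr 1
        · apply Finset.sum_congr rfl
          intro a _
          ring
        · ring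
      have h3 : (∑ a ∈ Finset.range (nU k R + 1),
          (μ a : ℚ) * (Ka a * vecA k R bad lab side sl a p)) =
          (((if p % 7 = 0 then mL (p / 7) else 0) + (if p % 7 = 6 then - mR (p / 7) else 0) +
          (if p % 7 = 1 ∨ p % 7 = 5 then EE (p / 7) else 0) : ℤ) : ℚ) := by
        by_cases hG : Good k R bad (p / 7)
        · rw [Finset.sum_eq_single (p / 7)]
          · rw [vecA_apply rfl hG]
            by_cases hl : lab (p / 7) = true
            · by_cases hs : side (p / 7) = true
              · have h4 := hKmm _ hG hl
                have h5 : ((μ (p / 7) : ℤ) : ℚ) * Ka (p / 7) = mm (p / 7) := by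
                  simp only [μ, hG, hl, hs, if_true]
                  rw [mul_comm]
                  exact_mod_cast h4
                simp only [hl, hs, if_true, mL, mR, hEE0 _ hl]
                rw [← mul_assoc, h5]
                simp
              · have h4 := hKmm _ hG hl
                have h5 : ((μ (p / 7) : ℤ) : ℚ) * Ka (p / 7) = - mm (p / 7) := by
                  simp only [μ, hG, hl, hs, if_true]
                  have h6 : ((mm (p / 7) / (Ka (p / 7) : ℤ) : ℤ) : ℚ) * Ka (p / 7) =
                      mm (p / 7) := by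
                    rw [mul_comm]
                    exact_mod_cast h4
                  simp only [Bool.false_eq_true, if_false]
                  push_cast
                  rw [neg_mul, h6]
                have hs' : side (p / 7) = false := by simpa using hs
                simp only [hl, hs', if_true, mL, mR, hEE0 _ hl, and_self]
                rw [← mul_assoc, h5]
                simp
            · have hl' : lab (p / 7) = false := by simpa using hl
              have h4 := hKEE _ hG hl'
              have h5 : ((μ (p / 7) : ℤ) : ℚ) * Ka (p / 7) = EE (p / 7) := by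
                simp only [μ, hG, hl', if_true]
                simp only [Bool.false_eq_true, if_false]
                rw [mul_comm]
                exact_mod_cast h4
              simp only [hl', mL, mR]
              rw [← mul_assoc, h5]
              have h6 := hmmEE _ hl'
              have hm7 : p % 7 < 7 := Nat.mod_lt _ (by norm_num)
              generalize p % 7 = b at hm7 ⊢
              interval_cases b <;> simp [h6] <;> ring
          · intro a _ ha
            rw [vecA_zero_of (Ne.symm ha)]
            simp
          · intro h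
            exfalso
            apply h
            rw [Finset.mem_range]
            have := hG.1.le
            omega
        · obtain ⟨h4, h5, h6⟩ := hgood' _ hG
          rw [h4, h5, h6, Finset.sum_eq_zero]
          · simp
          · intro a _
            by_cases ha : p / 7 = a
            · rw [← ha]
              simp [μ, hG]
            · rw [vecA_zero_of ha]
              simp
      have h7 : ((ξ : ℤ) : ℚ) * (KX * vX p) = (((if p = 0 then xL else 0) +
          (if p = xrP k R then - xR else 0) : ℤ) : ℚ) := by
        by_cases hx0 : x = 0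
        · simp [ξ, xL, xR, hx0]
        · have hf := hxf hx0
          have h8 : (KX : ℤ) * (x / KX) = x :=
            Int.mul_ediv_cancel' ((Int.natCast_dvd_natCast.2 hKXK).trans hKx)
          have h9 : ((x / (KX : ℤ) : ℤ) : ℚ) * KX = x := by
            rw [mul_comm]
            exact_mod_cast h8
          by_cases hs : sX = true
          · simp only [ξ, vX, hf, hs, if_true, xL, xR, uv_apply]
            rw [← mul_assoc, h9]
            simp
          · simp only [ξ, vX, hf, hs, if_true, xL, xR, uv_apply]
            simp only [Bool.false_eq_true, if_false, uv_apply]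
            push_cast
            rw [← mul_assoc, neg_mul, h9]
            split_ifs <;> simp
      have h10 : ((∑ t, m t * v t p : ℤ) : ℚ) = (((if p = 0 then xL else 0) +
        (if p = xrP k R then - xR else 0) + (if p % 7 = 0 then mL (p / 7) else 0) +
        (if p % 7 = 6 then - mR (p / 7) else 0) +
        (if p % 7 = 1 ∨ p % 7 = 5 then EE (p / 7) else 0) : ℤ) : ℚ) := by
        rw [h1, h3, h7]
        push_cast
        ring
      exact_mod_cast h10
    -- pad the word
    have hpad : wd (pat (allI k R c)) (7 * (nU k R + 3) + 1) e' =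
        wd (pat (allI k R c)) (7 * (allI k R c).length) e' := by
      rw [allI_length]
      symm
      apply wd_extend _ _ _ (by omega)
      intro p h1 h2
      have h3 := he' p
      have hG : ¬ Good k R bad (p / 7) := by
        intro hG
        have := hG.1.le
        omega
      obtain ⟨h4, h5, h6⟩ := hgood' _ hG
      rw [hsum p, h4, h5, h6] at h3
      unfold tot at h3
      rw [expo_big k R c (D N) p (by omega)] at h3
      have h7 : p ≠ 0 := by omega
      have h8 : p ≠ 7 * (nU k R + 3) := by omega
      have h9 : p ≠ xrP k R := h8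
      simp only [h7, h8, h9, if_false] at h3
      simpa using h3
    rw [hpad, eval_words k R c (D N) (by omega) mL mR EE (xs N + xL) (xR - xs N) ?_ e' ?_ ?_]
    · have hmm : (fun a => mL a + mR a) = mm := by
        funext a
        simp only [mL, mR]
        split_ifs <;> simp
      rw [hmm]
      have h1 : valI (D N) mm EE 1 (UI k R) * omv (D N) c = (sg 0) ^ (- x) := by
        rw [mul_assoc] at heq
        rw [zpow_neg]
        exact (inv_eq_of_mul_eq_one_right heq).symm
      rw [h1, ← zpow_add, ← zpow_add]
      have h2 : (D N : ℤ) ^ ((allI k R c).length + 3) + (xs N + xL) + -x +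
          -((D N : ℤ) ^ ((allI k R c).length + 3) - (xR - xs N)) = xL + xR - x := by ring
      rw [h2]
      have h3 : xL + xR = x := by
        simp only [xL, xR]
        split_ifs <;> simp
      rw [h3, sub_self, zpow_zero]
    · intro a
      have h1 := (abs_le.1 (hadm a).1.2).1
      have h2 : ((C + 1 : ℕ) : ℤ) < D N := by exact_mod_cast hDN
      push_cast at h2
      nlinarith
    · intro a h
      have hG : Good k R bad a := by
        by_contra hG
        obtain ⟨h1, h2, h3⟩ := hgood' _ hG
        rcases h with h | h | h
        · exact h h1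
        · exact h h2
        · exact h h3
      exact hG.1
    · intro p hp
      rw [he' p, hsum p]
      unfold tot
      rw [allI_length]
      have h1 : 7 * (nU k R + 4 - 1) = 7 * (nU k R + 3) := by omega
      rw [h1]
      unfold xrP
      split_ifs <;> ring

end

end Pool.Agent.Lib.CoCF.Asm
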