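import Pool.Agent.Lib.CoCF.Asm5

/-!
# Assembly, part 6: the two killing theorems
-/

set_option autoImplicit false

namespace Pool.Agent.Lib.CoCF.Asm

open Pool.Agent.Lib.CoCF

/-- what the group part provides for the labels `lab` and the bad round `bad` -/
def KG (κ R : ℕ) (lab : ℕ → Bool) (bad : ℕ) (F : Set ℕ) : Prop :=
  ∀ (sl : ℕ → ℚ) (K : ℕ), 0 < K →
      (∀ a, lab a = false → ∃ q : ℤ, (q : ℚ) = K * sl a) →
      ∀ c, c < κ →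
        (¬ (∃ t ∈ suppC c, F = {t}) → ∃ C D₀ : ℕ, ∀ D, D₀ ≤ D → ∃ mm EE : ℕ → ℤ,
          Adm (3 * κ) R bad lab sl K C D mm EE ∧ valI D mm EE 1 (UI (3 * κ) R) * omv D c = 1) ∧
        (∃ C D₀ : ℕ, ∀ D, D₀ ≤ D → K ∣ D → ∃ (x : ℤ) (mm EE : ℕ → ℤ),
          |x| ≤ C * D ∧ (K : ℤ) ∣ x ∧ Adm (3 * κ) R bad lab sl K C D mm EE ∧
          (sg 0) ^ x * valI D mm EE 1 (UI (3 * κ) R) * omv D c = 1)

section

variable {U : Ultrafilter ℕ} {D : ℕ → ℕ} {κ R c bad : ℕ} {lab : ℕ → Bool} {F : Set ℕ}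

theorem kill_flag (hD : ∀ C : ℕ, ∀ᶠ N in (U : Filter ℕ), C < D N)
    (hdiv : ∀ K : ℕ, 0 < K → ∀ᶠ N in (U : Filter ℕ), K ∣ D N)
    (hKG : KG κ R lab bad F) (hc : c < κ) (xs : ℕ → ℤ) {T : Type}
    [Fintype T] (v : T → ℕ → ℤ) (hr : Realiz U D (3 * κ) R c xs v)
    (hT : ∀ a, Good (3 * κ) R bad a → lab a = true → uv (7 * a) ∈ spn v ∨ uv (7 * a + 6) ∈ spn v)
    (hDl : ∀ a, Good (3 * κ) R bad a → lab a = false →
      ∃ t : ℚ, uv (7 * a + 1) + uv (7 * a + 5) + t • uv (7 * a) ∈ spn v)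
    (hflag : uv 0 ∈ spn v ∨ uv (xrP (3 * κ) R) ∈ spn v) : False := by
  obtain ⟨sl, K, hK, hint, hne⟩ := pert_ne_one hD xs v hr hT hDl True fun _ => hflag
  obtain ⟨_, C, D₀, hC⟩ := hKG sl K hK hint c hc
  obtain ⟨N, h1, h2, h3⟩ := ((hne C).and ((hD D₀).and (hdiv K hK))).exists
  obtain ⟨x, mm, EE, h4, h5, h6, h7⟩ := hC (D N) h2.le h3
  exact h1 x mm EE h4 h5 (fun _ => trivial) h6 h7

theorem kill_noflag (hD : ∀ C : ℕ, ∀ᶠ N in (U : Filter ℕ), C < D N)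
    (hKG : KG κ R lab bad F) (hc : c < κ) (xs : ℕ → ℤ) {T : Type}
    [Fintype T] (v : T → ℕ → ℤ) (hr : Realiz U D (3 * κ) R c xs v)
    (hT : ∀ a, Good (3 * κ) R bad a → lab a = true → uv (7 * a) ∈ spn v ∨ uv (7 * a + 6) ∈ spn v)
    (hDl : ∀ a, Good (3 * κ) R bad a → lab a = false →
      ∃ t : ℚ, uv (7 * a + 1) + uv (7 * a + 5) + t • uv (7 * a) ∈ spn v) :
    ∃ t ∈ suppC c, F = {t} := by
  by_contra hF
  obtain ⟨sl, K, hK, hint, hne⟩ := pert_ne_one hD xs v hr hT hDl False fun h => h.elim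
  obtain ⟨C, D₀, hC⟩ := (hKG sl K hK hint c hc).1 hF
  obtain ⟨N, h1, h2⟩ := ((hne C).and (hD D₀)).exists
  obtain ⟨mm, EE, h6, h7⟩ := hC (D N) h2.le
  refine h1 0 mm EE (by simp; positivity) (dvd_zero _) (fun h => absurd rfl h) h6 ?_
  rw [zpow_zero, one_mul]
  exact h7

end

end Pool.Agent.Lib.CoCF.Asm
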