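import Pool.Agent.Lib.CoCF.Asm6

/-!
# Assembly, part 7: labels and realizability from heavy data
-/

set_option autoImplicit false

namespace Pool.Agent.Lib.CoCF.Asm

open Pool.Agent.Lib.CoCF

/-- number of positions -/
def mP (k R : ℕ) : ℕ := 7 * (nU k R + 3) + 1

section

variable {U : Ultrafilter ℕ} {D : ℕ → ℕ} {k R c : ℕ}

theorem zone_app (hD : ∀ C : ℕ, ∀ᶠ N in (U : Filter ℕ), C < D N) {e : ℕ → ℕ → ℕ}
    (H : HD U D e) (deg : ℕ → ℕ) (z : Option ℕ)
    (hP : Profile U D e (mP k R) deg z) (hdeg : ∀ p, deg p = degI (allI k R c) p ∨ deg p = 0)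
    (a : ℕ) (hZ : IsZ k R a)
    (hin : ∀ p, 7 * a ≤ p → p ≤ 7 * a + 6 → deg p = degI (allI k R c) p)
    (hz : ∀ p, z = some p → p < 7 * a ∨ 7 * a + 6 < p) :
    (H.Conn (7 * a) (7 * a + 6) →
      ∃ t : ℚ, uv (7 * a + 1) + uv (7 * a + 5) + t • uv (7 * a) ∈ H.span) ∧
    (¬ H.Conn (7 * a) (7 * a + 6) → uv (7 * a) ∈ H.span ∨ uv (7 * a + 6) ∈ H.span) := by
  obtain ⟨h1, h2, h3, h4, h5⟩ := deg_zone k R c a hZ
  have ha := hZ.le
  have ha1 := hZ.1
  refine zone_lemma hD H (mP k R) deg z hP (7 * a) (7 * a + 1) (7 * a + 5) (7 * a + 6) (by omega)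
    (by omega) (by omega) (by unfold mP; omega) (fun p hp => by
      rcases hz p hp with h | h
      · exact Or.inl h
      · exact Or.inr h) (a + 3) (by omega)
    ((hin _ (by omega) (by omega)).trans h1) ((hin _ (by omega) (by omega)).trans h2) ?_
    ((hin _ (by omega) (by omega)).trans h3) ((hin _ (by omega) (by omega)).trans h4) ?_
  · intro p hp
    have hp' : degI (allI k R c) p = a + 3 := by
      rcases hdeg p with h | h
      · rw [← h, hp]
      · omega
    rcases deg_cases k R c p with h | h | ⟨a', hZ', hpa, h⟩ | h | h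
    · omega
    · omega
    · have : a' = a := by omega
      subst this
      rcases hpa with h | h
      · exact Or.inl h
      · exact Or.inr (Or.inl h)
    · rw [h, deg_zero] at hp'
      omega
    · rw [h, deg_last] at hp'
      omega
  · intro p hp1 hp2 hp3
    refine h5 p hp1 hp2 ?_
    rw [← hin p hp1.le hp2.le]
    exact hp3

/-- realizability from heavy data -/
theorem real_of_HD {e : ℕ → ℕ → ℕ} (H : HD U D e) (P : ℕ → (ℕ → ℕ) → Prop)
    (h : ∀ᶠ N in (U : Filter ℕ), ∀ n' : H.T → ℕ, (∀ t, 1 ≤ n' t) →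
      P N fun p => H.r N p + ∑ t, n' t * H.w t p) (C : ℕ) :
    ∀ᶠ N in (U : Filter ℕ), ∀ m : H.T → ℤ, (∀ t, |m t| ≤ C * D N) →
      ∃ f : ℕ → ℕ, (∀ p, (f p : ℤ) = e N p + ∑ t, m t * H.w t p) ∧ P N f ∧
        ∀ p, e N p = 0 → f p = 0 := by
  have hbig : ∀ᶠ N in (U : Filter ℕ), ∀ t, C * D N < H.n t N :=
    Filter.eventually_all.2 fun t => H.big t C
  filter_upwards [h, hbig, H.eq] with N h1 h2 h3 m hm
  have h4 : ∀ t, (((H.n t N + m t).toNat : ℕ) : ℤ) = H.n t N + m t := by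
    intro t
    apply Int.toNat_of_nonneg
    have h5 := (abs_le.1 (hm t)).1
    have h6 : ((C * D N : ℕ) : ℤ) < H.n t N := by exact_mod_cast h2 t
    push_cast at h6
    linarith
  refine ⟨_, ?_, h1 (fun t => (H.n t N + m t).toNat) ?_, ?_⟩
  · intro p
    have h5 := h3 p
    rw [h5]
    push_cast
    have h6 : ∑ t, (((H.n t N + m t).toNat : ℕ) : ℤ) * (H.w t p : ℤ) =
        ∑ t, (H.n t N : ℤ) * H.w t p + ∑ t, m t * H.w t p := by
      rw [← Finset.sum_add_distrib]
      apply Finset.sum_congr rfl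
      intro t _
      rw [h4 t]
      ring
    rw [h6]
    ring
  · intro t
    have h5 := (abs_le.1 (hm t)).1
    have h6 : ((C * D N : ℕ) : ℤ) < H.n t N := by exact_mod_cast h2 t
    push_cast at h6
    have h7 := h4 t
    have h8 : (1 : ℤ) ≤ ((H.n t N + m t).toNat : ℕ) := by
      rw [h7]
      linarith
    exact_mod_cast h8
  · intro p hp
    have h5 := h3 p
    rw [hp] at h5
    have h6 : H.r N p = 0 := by omega
    have h7 : ∀ t, H.w t p = 0 := by
      intro t
      have h8 : ∑ t, H.n t N * H.w t p = 0 := by omega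
      rw [Finset.sum_eq_zero_iff] at h8
      rcases Nat.mul_eq_zero.1 (h8 t (Finset.mem_univ t)) with h9 | h9
      · have := h2 t
        omega
      · exact h9
    simp [h6, h7]

theorem span_eq_spn {e : ℕ → ℕ → ℕ} (H : HD U D e) :
    H.span = spn (fun t p => (H.w t p : ℤ)) := by
  unfold HD.span spn
  congr 1

/-- exponents of the whole word -/
theorem base_profile (hD : ∀ C : ℕ, ∀ᶠ N in (U : Filter ℕ), C < D N) (p : ℕ) :
    ∃ C : ℕ, ∀ᶠ N in (U : Filter ℕ), |(expo (D N) (allI k R c) p : ℤ) -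
      (if 2 ≤ degI (allI k R c) p then (D N : ℤ) ^ degI (allI k R c) p else 0)| ≤ C * D N := by
  obtain ⟨C, hC⟩ := expo_prof (allI k R c) p
  refine ⟨C, ?_⟩
  filter_upwards [hD 0] with N hN
  exact hC (D N) hN

end

end Pool.Agent.Lib.CoCF.Asm
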