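import Pool.Agent.Lib.CoCF.Asm7

/-!
# Assembly, part 8: far cuts are impossible
-/

set_option autoImplicit false

namespace Pool.Agent.Lib.CoCF.Asm

open Pool.Agent.Lib.CoCF

theorem uf_const {α : Type} [Finite α] (U : Ultrafilter ℕ) (f : ℕ → α) :
    ∃ a, ∀ᶠ N in (U : Filter ℕ), f N = a := by
  obtain ⟨a, ha⟩ := Ultrafilter.eq_pure_of_finite (U.map f)
  refine ⟨a, ?_⟩
  have h1 : ({a} : Set α) ∈ U.map f := by
    rw [ha]
    exact Filter.mem_pure.2 rfl
  exact Ultrafilter.mem_map.1 h1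

theorem uf_const_nat (U : Ultrafilter ℕ) (f : ℕ → ℕ) (m : ℕ)
    (h : ∀ᶠ N in (U : Filter ℕ), f N < m) : ∃ a, a < m ∧ ∀ᶠ N in (U : Filter ℕ), f N = a := by
  obtain ⟨a, ha⟩ := uf_const U fun N => (if h : f N < m then some ⟨f N, h⟩ else none : Option (Fin m))
  obtain ⟨N, hN1, hN2⟩ := (h.and ha).exists
  rw [dif_pos hN1] at hN2
  refine ⟨f N, hN1, ?_⟩
  filter_upwards [h, ha] with M hM1 hM2
  rw [dif_pos hM1, ← hN2] at hM2
  have := Option.some.inj hM2
  exact congrArg Fin.val this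

theorem uv_mem_of_single {U : Ultrafilter ℕ} {D : ℕ → ℕ} {e : ℕ → ℕ → ℕ} (H : HD U D e) (x : ℕ)
    (t : H.T) (h1 : H.w t x ≠ 0) (h2 : ∀ p, p ≠ x → H.w t p = 0) : uv x ∈ H.span := by
  have h3 : (fun p => (H.w t p : ℚ)) = (H.w t x : ℚ) • uv x := by
    funext p
    rw [Pi.smul_apply, uv_apply]
    by_cases h : p = x
    · simp [h]
    · simp [h, h2 p h]
  have h4 : (fun p => (H.w t p : ℚ)) ∈ H.span := Submodule.subset_span ⟨t, rfl⟩
  rw [h3] at h4
  have h5 : (H.w t x : ℚ) ≠ 0 := by exact_mod_cast h1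
  exact (Submodule.smul_mem_iff _ h5).1 h4

section

variable {U : Ultrafilter ℕ} {D : ℕ → ℕ} {k R c : ℕ}

/-- all exponents but the two outer ones are much smaller than `D ^ (nU + 7)` -/
theorem expo_small (hD : ∀ C : ℕ, ∀ᶠ N in (U : Filter ℕ), C < D N) (p : ℕ) (h0 : p ≠ 0)
    (h1 : p ≠ xrP k R) (C : ℕ) :
    ∀ᶠ N in (U : Filter ℕ), C * expo (D N) (allI k R c) p < D N ^ (nU k R + 7) := by
  obtain ⟨C', hC'⟩ := expo_prof (allI k R c) p
  filter_upwards [hD (C * (1 + C') + 1)] with N hN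
  have hN1 : 1 ≤ D N := by omega
  have h2 := hC' (D N) hN1
  have h3 : expo (D N) (allI k R c) p ≤ (1 + C') * D N ^ (nU k R + 6) := by
    have h4 := (abs_le.1 h2).2
    have h5 : (if 2 ≤ degI (allI k R c) p then (D N : ℤ) ^ degI (allI k R c) p else 0) ≤
        (D N : ℤ) ^ (nU k R + 6) := by
      have h1D : (1 : ℤ) ≤ D N := by exact_mod_cast hN1
      rcases deg_cases k R c p with h | h | ⟨a, hZ, _, h⟩ | h | h
      · rw [h]
        simp
      · rw [h]
        simp only [le_refl, if_true]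
        exact pow_le_pow_right₀ h1D (by omega)
      · rw [h]
        have := hZ.le
        split_ifs
        · exact pow_le_pow_right₀ h1D (by omega)
        · positivity
      · exact absurd h h0
      · exact absurd h h1
    have h6 : (C' : ℤ) * D N ≤ C' * (D N : ℤ) ^ (nU k R + 6) := by
      apply mul_le_mul_of_nonneg_left _ (by positivity)
      have h1D : (1 : ℤ) ≤ D N := by exact_mod_cast hN1
      calc (D N : ℤ) = (D N : ℤ) ^ 1 := (pow_one _).symm
        _ ≤ _ := pow_le_pow_right₀ h1D (by omega)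
    have h7 : (expo (D N) (allI k R c) p : ℤ) ≤ (1 + C') * (D N : ℤ) ^ (nU k R + 6) := by
      linarith
    exact_mod_cast h7
  calc C * expo (D N) (allI k R c) p ≤ C * ((1 + C') * D N ^ (nU k R + 6)) :=
        Nat.mul_le_mul_left C h3
    _ = (C * (1 + C')) * D N ^ (nU k R + 6) := by ring
    _ < D N * D N ^ (nU k R + 6) := by
        apply Nat.mul_lt_mul_of_pos_right (by omega)
        positivity
    _ = D N ^ (nU k R + 7) := by ring

/-- the word `w_c` -/
def wC (k R c D : ℕ) : List Ltr := wd (pat (allI k R c)) (mP k R) (expo D (allI k R c))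

end

theorem cut_lemma (U : Ultrafilter ℕ) (D : ℕ → ℕ)
    (hD : ∀ C : ℕ, ∀ᶠ N in (U : Filter ℕ), C < D N)
    (hdiv : ∀ K : ℕ, 0 < K → ∀ᶠ N in (U : Filter ℕ), K ∣ D N)
    (M : MG Ltr) (hL : ∀ w, M.G.D (M.st M.q₀) w → evw w ≠ 1)
    (κ R c : ℕ) (hk : ∀ lab bad, ∃ F, KG κ R lab bad F) (hc : c < κ) :
    ∃ C : ℕ, ∀ᶠ N in (U : Filter ℕ), ∀ q u v, M.G.D (M.pr q) u → M.G.D (M.st q) v →
      u ++ v = wC (3 * κ) R c (D N) → u.length ≤ C * D N ∨ v.length ≤ C * D N := by
  classical
  by_contra hcon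
  rw [not_exists] at hcon
  -- cuts with both parts long
  let Q : ℕ → ℕ → Prop := fun N g => ∃ q u v, M.G.D (M.pr q) u ∧ M.G.D (M.st q) v ∧
    u ++ v = wC (3 * κ) R c (D N) ∧ g ≤ u.length ∧ g ≤ v.length
  have hQ : ∀ C : ℕ, ∀ᶠ N in (U : Filter ℕ), Q N (C * D N + 1) := by
    intro C
    have h1 := hcon C
    rw [← Ultrafilter.eventually_not] at h1
    filter_upwards [h1] with N hN
    push Not at hN
    obtain ⟨q, u, v, h2, h3, h4, h5, h6⟩ := hN
    exact ⟨q, u, v, h2, h3, h4, h5, h6⟩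
  let g : ℕ → ℕ := fun N => Nat.findGreatest (Q N) (wC (3 * κ) R c (D N)).length
  have hg : ∀ C : ℕ, ∀ᶠ N in (U : Filter ℕ), C * D N < g N := by
    intro C
    filter_upwards [hQ C] with N hN
    have h1 : C * D N + 1 ≤ (wC (3 * κ) R c (D N)).length := by
      obtain ⟨q, u, v, _, _, h4, h5, _⟩ := hN
      rw [← h4, List.length_append]
      omega
    exact Nat.le_findGreatest h1 hN
  have hgQ : ∀ᶠ N in (U : Filter ℕ), Q N (g N) := by
    filter_upwards [hg 0] with N hN
    have h1 : g N ≠ 0 := by omega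
    exact Nat.findGreatest_of_ne_zero rfl h1
  have hmpos : 0 < mP (3 * κ) R := by
    unfold mP
    omega
  -- the data of the cuts
  have hdata : ∀ N, ∃ (q : M.Q) (z : ℕ) (f h : ℕ → ℕ), Q N (g N) →
      (z < mP (3 * κ) R ∧ M.G.D (M.pr q) (wd (pat (allI (3 * κ) R c)) (mP (3 * κ) R) f) ∧
        M.G.D (M.st q) (wd (pat (allI (3 * κ) R c)) (mP (3 * κ) R) h) ∧
        g N ≤ (wd (pat (allI (3 * κ) R c)) (mP (3 * κ) R) f).length ∧
        g N ≤ (wd (pat (allI (3 * κ) R c)) (mP (3 * κ) R) h).length ∧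
        (∀ p, p < z → f p = expo (D N) (allI (3 * κ) R c) p ∧ h p = 0) ∧
        (∀ p, z < p → f p = 0 ∧ (p < mP (3 * κ) R → h p = expo (D N) (allI (3 * κ) R c) p)) ∧
        f z + h z = expo (D N) (allI (3 * κ) R c) z ∧ ∀ p, mP (3 * κ) R ≤ p → h p = 0) := by
    intro N
    by_cases hN : Q N (g N)
    · obtain ⟨q, u, v, h1, h2, h3, h4, h5⟩ := hN
      obtain ⟨z, f, h, h6, h7, h8, h9, h10, h11, h12⟩ := wd_split _ _ hmpos _ u v h3
      refine ⟨q, z, f, h, fun _ => ⟨h6, ?_, ?_, ?_, ?_, h9, h10, h11, h12⟩⟩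
      · rw [← h7]
        exact h1
      · rw [← h8]
        exact h2
      · rw [← h7]
        exact h4
      · rw [← h8]
        exact h5
    · exact ⟨M.q₀, 0, fun _ => 0, fun _ => 0, fun h => absurd h hN⟩
  choose q z f h hdat using hdata
  have hall := hgQ.mono fun N hN => hdat N hN
  haveI := M.finQ
  obtain ⟨q', hq'⟩ := uf_const U q
  obtain ⟨z', hz'm, hz'⟩ := uf_const_nat U z (mP (3 * κ) R) (hall.mono fun N hN => hN.1)
  obtain ⟨π, hπ⟩ : ∃ π, π = pat (allI (3 * κ) R c) := ⟨_, rfl⟩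
  obtain ⟨m, hm⟩ : ∃ m, m = mP (3 * κ) R := ⟨_, rfl⟩
  have hall' : ∀ᶠ N in (U : Filter ℕ), M.G.D (M.pr q') (wd π m (f N)) ∧
        M.G.D (M.st q') (wd π m (h N)) ∧
        g N ≤ (wd π m (f N)).length ∧
        g N ≤ (wd π m (h N)).length ∧
        (∀ p, p < z' → f N p = expo (D N) (allI (3 * κ) R c) p ∧ h N p = 0) ∧
        (∀ p, z' < p → f N p = 0 ∧ (p < m → h N p = expo (D N) (allI (3 * κ) R c) p)) ∧
        f N z' + h N z' = expo (D N) (allI (3 * κ) R c) z' ∧ ∀ p, m ≤ p → h N p = 0 := by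
    filter_upwards [hall, hq', hz'] with N h1 h2 h3
    rw [h2, h3, ← hπ, ← hm] at h1
    exact h1.2
  rw [← hm] at hz'm
  -- heavy data of both parts
  obtain ⟨H₁, hH₁m, hH₁, _⟩ := fl_words M.G M.finG π m U D hD (M.pr q') f
    (hall'.mono fun N hN p hp => (hN.2.2.2.2.2.1 p (by omega)).1) (hall'.mono fun N hN => hN.1)
  obtain ⟨H₂, hH₂m, hH₂, _⟩ := fl_words M.G M.finG π m U D hD (M.st q') h
    (hall'.mono fun N hN p hp => hN.2.2.2.2.2.2.2 p hp) (hall'.mono fun N hN => hN.2.1)
  -- profiles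
  let deg₁ : ℕ → ℕ := fun p => if p < z' then degI (allI (3 * κ) R c) p else 0
  let deg₂ : ℕ → ℕ := fun p => if z' < p ∧ p < m then degI (allI (3 * κ) R c) p else 0
  have hP₁ : Profile U D f (mP (3 * κ) R) deg₁ (some z') := by
    refine ⟨?_, hall'.mono fun N hN p hp => (hN.2.2.2.2.2.1 p (by omega)).1⟩
    intro p hp
    have hp' : p ≠ z' := fun h => hp (congrArg some h)
    rcases Nat.lt_or_gt_of_ne hp' with hlt | hgt
    · obtain ⟨C, hC⟩ := base_profile (k := 3 * κ) (R := R) (c := c) hD p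
      refine ⟨C, ?_⟩
      filter_upwards [hC, hall'] with N h1 h2
      simp only [deg₁, hlt, if_true]
      rw [(h2.2.2.2.2.1 p hlt).1]
      exact h1
    · refine ⟨0, ?_⟩
      filter_upwards [hall'] with N h2
      rw [(h2.2.2.2.2.2.1 p hgt).1]
      have h3 : ¬ p < z' := by omega
      simp [deg₁, h3]
  have hP₂ : Profile U D h (mP (3 * κ) R) deg₂ (some z') := by
    refine ⟨?_, hall'.mono fun N hN p hp => hN.2.2.2.2.2.2.2 p (by omega)⟩
    intro p hp
    have hp' : p ≠ z' := fun h => hp (congrArg some h)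
    rcases Nat.lt_or_gt_of_ne hp' with hlt | hgt
    · refine ⟨0, ?_⟩
      filter_upwards [hall'] with N h2
      rw [(h2.2.2.2.2.1 p hlt).2]
      have h3 : ¬ z' < p := by omega
      simp [deg₂, h3]
    · by_cases hpm : p < m
      · obtain ⟨C, hC⟩ := base_profile (k := 3 * κ) (R := R) (c := c) hD p
        refine ⟨C, ?_⟩
        filter_upwards [hC, hall'] with N h1 h2
        simp only [deg₂, hgt, hpm, and_self, if_true]
        rw [(h2.2.2.2.2.2.1 p hgt).2 hpm]
        exact h1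
      · refine ⟨0, ?_⟩
        filter_upwards [hall'] with N h2
        rw [h2.2.2.2.2.2.2.2 p (by omega)]
        simp [deg₂, hpm]
  -- the combined vectors
  let v : H₁.T ⊕ H₂.T → ℕ → ℤ := Sum.elim (fun t p => (H₁.w t p : ℤ)) fun t p => (H₂.w t p : ℤ)
  have hs₁ : H₁.span ≤ spn v := by
    unfold HD.span spn
    apply Submodule.span_mono
    rintro x ⟨t, rfl⟩
    exact ⟨Sum.inl t, by simp [v]⟩
  have hs₂ : H₂.span ≤ spn v := by
    unfold HD.span spn
    apply Submodule.span_mono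
    rintro x ⟨t, rfl⟩
    exact ⟨Sum.inr t, by simp [v]⟩
  have hr : Realiz U D (3 * κ) R c (fun _ => 0) v := by
    intro C
    filter_upwards [real_of_HD H₁ (fun N f => M.G.D (M.pr q') (wd π m f)) hH₁ C,
      real_of_HD H₂ (fun N f => M.G.D (M.st q') (wd π m f)) hH₂ C, hall'] with N h1 h2 h3 mm hmm
    obtain ⟨f', hf'1, hf'2, hf'3⟩ := h1 (fun t => mm (Sum.inl t)) fun t => hmm _
    obtain ⟨h', hh'1, hh'2, hh'3⟩ := h2 (fun t => mm (Sum.inr t)) fun t => hmm _
    refine ⟨fun p => f' p + h' p, ?_, ?_⟩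
    · intro p
      push_cast
      rw [hf'1, hh'1, Fintype.sum_sum_type]
      have h4 : (f N p : ℤ) + h N p = tot (3 * κ) R c (D N) 0 p := by
        have h5 : f N p + h N p = expo (D N) (allI (3 * κ) R c) p := by
          rcases lt_trichotomy p z' with hlt | heq | hgt
          · rw [(h3.2.2.2.2.1 p hlt).1, (h3.2.2.2.2.1 p hlt).2, Nat.add_zero]
          · rw [heq]
            exact h3.2.2.2.2.2.2.1
          · rw [(h3.2.2.2.2.2.1 p hgt).1, Nat.zero_add]
            by_cases hpm : p < m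
            · exact (h3.2.2.2.2.2.1 p hgt).2 hpm
            · rw [h3.2.2.2.2.2.2.2 p (by omega), expo_big]
              rw [hm] at hpm
              unfold mP at hpm
              omega
        unfold tot
        rw [← h5]
        split_ifs <;> push_cast <;> ring
      simp only [v, Sum.elim_inl, Sum.elim_inr]
      rw [← h4]
      ring
    · rw [← hπ]
      have h4 : 7 * (nU (3 * κ) R + 3) + 1 = m := by
        rw [hm]
        rfl
      rw [h4]
      apply hL
      rw [← wd_add π m z' f' h' ?_ ?_]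
      · exact M.pr_st q' _ _ hf'2 hh'2
      · intro p hp
        by_contra hpz
        exact hp (hf'3 p (h3.2.2.2.2.2.1 p (by omega)).1)
      · intro p hp
        by_contra hpz
        exact hp (hh'3 p (h3.2.2.2.2.1 p (by omega)).2)
  -- labels
  let lab : ℕ → Bool := fun a => if 7 * a + 6 < z' then decide (¬ H₁.Conn (7 * a) (7 * a + 6))
    else decide (¬ H₂.Conn (7 * a) (7 * a + 6))
  let bad : ℕ := (z' / 7 - 1) / roundLen (3 * κ)
  have hside : ∀ a, Good (3 * κ) R bad a → 7 * a + 6 < z' ∨ z' < 7 * a := by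
    intro a ha
    by_contra hcon
    rw [not_or, not_lt, not_lt] at hcon
    have h1 : z' / 7 = a := by omega
    apply ha.2
    show (a - 1) / roundLen (3 * κ) = (z' / 7 - 1) / roundLen (3 * κ)
    rw [h1]
  have hz1 : ∀ a, Good (3 * κ) R bad a → 7 * a + 6 < z' →
      (H₁.Conn (7 * a) (7 * a + 6) →
        ∃ t : ℚ, uv (7 * a + 1) + uv (7 * a + 5) + t • uv (7 * a) ∈ H₁.span) ∧
      (¬ H₁.Conn (7 * a) (7 * a + 6) → uv (7 * a) ∈ H₁.span ∨ uv (7 * a + 6) ∈ H₁.span) := by
    intro a ha haz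
    refine zone_app (c := c) hD H₁ deg₁ (some z') hP₁ (fun p => ?_) a ha.1 (fun p h1 h2 => ?_) fun p hp => ?_
    · simp only [deg₁]
      split_ifs
      · exact Or.inl rfl
      · exact Or.inr rfl
    · have : p < z' := by omega
      simp [deg₁, this]
    · rw [← Option.some.inj hp]
      exact Or.inr haz
  have hz2 : ∀ a, Good (3 * κ) R bad a → z' < 7 * a →
      (H₂.Conn (7 * a) (7 * a + 6) →
        ∃ t : ℚ, uv (7 * a + 1) + uv (7 * a + 5) + t • uv (7 * a) ∈ H₂.span) ∧
      (¬ H₂.Conn (7 * a) (7 * a + 6) → uv (7 * a) ∈ H₂.span ∨ uv (7 * a + 6) ∈ H₂.span) := by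
    intro a ha haz
    refine zone_app (c := c) hD H₂ deg₂ (some z') hP₂ (fun p => ?_) a ha.1 (fun p h1 h2 => ?_) fun p hp => ?_
    · simp only [deg₂]
      split_ifs
      · exact Or.inl rfl
      · exact Or.inr rfl
    · have h3 : z' < p := by omega
      have h4 : p < m := by
        rw [hm]
        have := ha.1.le
        unfold mP
        omega
      simp [deg₂, h3, h4]
    · rw [← Option.some.inj hp]
      exact Or.inl haz
  obtain ⟨F, hF⟩ := hk lab bad
  refine kill_flag hD hdiv hF hc (fun _ => 0) v hr ?_ ?_ ?_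
  · intro a ha hl
    rcases hside a ha with hs | hs
    · have h1 : ¬ H₁.Conn (7 * a) (7 * a + 6) := by
        simpa [lab, hs] using hl
      rcases (hz1 a ha hs).2 h1 with h2 | h2
      · exact Or.inl (hs₁ h2)
      · exact Or.inr (hs₁ h2)
    · have h0 : ¬ 7 * a + 6 < z' := by omega
      have h1 : ¬ H₂.Conn (7 * a) (7 * a + 6) := by
        simpa [lab, h0] using hl
      rcases (hz2 a ha hs).2 h1 with h2 | h2
      · exact Or.inl (hs₂ h2)
      · exact Or.inr (hs₂ h2)
  · intro a ha hl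
    rcases hside a ha with hs | hs
    · have h1 : H₁.Conn (7 * a) (7 * a + 6) := by
        simpa [lab, hs] using hl
      obtain ⟨t, ht⟩ := (hz1 a ha hs).1 h1
      exact ⟨t, hs₁ ht⟩
    · have h0 : ¬ 7 * a + 6 < z' := by omega
      have h1 : H₂.Conn (7 * a) (7 * a + 6) := by
        simpa [lab, h0] using hl
      obtain ⟨t, ht⟩ := (hz2 a ha hs).1 h1
      exact ⟨t, hs₂ ht⟩
  · have hxr : xrP (3 * κ) R + 1 = m := by
      rw [hm]
      rfl
    by_cases hz0 : z' = 0
    · -- the cut is in the first block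
      left
      apply hs₁
      have hx1 : ∀ᶠ N in (U : Filter ℕ), g N ≤ 2 * f N 0 := by
        filter_upwards [hall'] with N hN
        have h1 := hN.2.2.1
        rw [wd_only π m 0 (by omega) (f N) (fun p _ hp => (hN.2.2.2.2.2.1 p (by omega)).1),
          List.length_replicate] at h1
        omega
      have hy1 : ∀ p, p ≠ 0 → p ≠ 0 → ∀ C : ℕ, ∀ᶠ N in (U : Filter ℕ), C * f N p < g N := by
        intro p hp _ C
        filter_upwards [hall', hg 0] with N hN h1
        rw [(hN.2.2.2.2.2.1 p (by omega)).1]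
        omega
      obtain ⟨t, ht1, ht2, _⟩ := dominant_lemma hD H₁ 0 0 g hg hx1 hy1
      exact uv_mem_of_single H₁ 0 t ht1 fun p hp => ht2 p hp hp
    · by_cases hzl : z' = xrP (3 * κ) R
      · right
        apply hs₂
        have hx1 : ∀ᶠ N in (U : Filter ℕ), g N ≤ 2 * h N (xrP (3 * κ) R) := by
          filter_upwards [hall'] with N hN
          have h1 := hN.2.2.2.1
          rw [wd_only π m (xrP (3 * κ) R) (by omega) (h N) (fun p hpm hp =>
            (hN.2.2.2.2.1 p (by omega)).2), List.length_replicate] at h1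
          omega
        have hy1 : ∀ p, p ≠ xrP (3 * κ) R → p ≠ xrP (3 * κ) R → ∀ C : ℕ,
            ∀ᶠ N in (U : Filter ℕ), C * h N p < g N := by
          intro p hp _ C
          filter_upwards [hall', hg 0] with N hN h1
          rcases Nat.lt_or_gt_of_ne hp with hlt | hgt
          · rw [(hN.2.2.2.2.1 p (by omega)).2]
            omega
          · rw [hN.2.2.2.2.2.2.2 p (by omega)]
            omega
        obtain ⟨t, ht1, ht2, _⟩ :=
          dominant_lemma hD H₂ (xrP (3 * κ) R) (xrP (3 * κ) R) g hg hx1 hy1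
        exact uv_mem_of_single H₂ _ t ht1 fun p hp => ht2 p hp hp
      · -- the cut is in the middle
        left
        apply hs₁
        have hg1 : ∀ C : ℕ, ∀ᶠ N in (U : Filter ℕ), C * D N < D N ^ (nU (3 * κ) R + 7) := by
          intro C
          filter_upwards [hD (C + 1)] with N hN
          calc C * D N < D N * D N := Nat.mul_lt_mul_of_pos_right (by omega) (by omega)
            _ = D N ^ 2 := by ring
            _ ≤ D N ^ (nU (3 * κ) R + 7) := Nat.pow_le_pow_right (by omega) (by omega)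
        have hx1 : ∀ᶠ N in (U : Filter ℕ), D N ^ (nU (3 * κ) R + 7) ≤ 2 * f N 0 := by
          filter_upwards [hall'] with N hN
          rw [(hN.2.2.2.2.1 0 (by omega)).1, expo_zero]
          omega
        have hy1 : ∀ p, p ≠ 0 → p ≠ 0 → ∀ C : ℕ, ∀ᶠ N in (U : Filter ℕ),
            C * f N p < D N ^ (nU (3 * κ) R + 7) := by
          intro p hp _ C
          rcases lt_trichotomy p z' with hlt | heq | hgt
          · filter_upwards [hall', expo_small (k := 3 * κ) (R := R) (c := c) hD p hp (by omega) C]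
              with N hN h1
            rw [(hN.2.2.2.2.1 p hlt).1]
            exact h1
          · filter_upwards [hall', expo_small (k := 3 * κ) (R := R) (c := c) hD p hp (by omega) C]
              with N hN h1
            refine lt_of_le_of_lt (Nat.mul_le_mul_left C ?_) h1
            rw [heq]
            have := hN.2.2.2.2.2.2.1
            omega
          · filter_upwards [hall', hD 0] with N hN h1
            rw [(hN.2.2.2.2.2.1 p hgt).1, Nat.mul_zero]
            positivity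
        obtain ⟨t, ht1, ht2, _⟩ := dominant_lemma hD H₁ 0 0 (fun N => D N ^ (nU (3 * κ) R + 7))
          hg1 hx1 hy1
        exact uv_mem_of_single H₁ 0 t ht1 fun p hp => ht2 p hp hp

end Pool.Agent.Lib.CoCF.Asm
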