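import Pool.Agent.Lib.CoCF.Asm8

/-!
# Assembly, part 9: the middle part of the run
-/

set_option autoImplicit false

namespace Pool.Agent.Lib.CoCF.Asm

open Pool.Agent.Lib.CoCF

theorem ends_split {A : Type} (π : ℕ → A) (l : ℕ) (hl : 0 < l) (e : ℕ → ℕ) (pre V suf : List A)
    (h : pre ++ V ++ suf = wd π (l + 1) e) (h1 : pre.length ≤ e 0) (h2 : suf.length ≤ e l) :
    pre = List.replicate pre.length (π 0) ∧ suf = List.replicate suf.length (π l) ∧
      V = wd π (l + 1) fun p => e p - (if p = 0 then pre.length else 0) -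
        (if p = l then suf.length else 0) := by
  have h3 := wd_ends π l pre.length suf.length fun p => e p - (if p = 0 then pre.length else 0) -
        (if p = l then suf.length else 0)
  have h4 : (wd π (l + 1) fun p => e p - (if p = 0 then pre.length else 0) -
        (if p = l then suf.length else 0) + (if p = 0 then pre.length else 0) +
        (if p = l then suf.length else 0)) = wd π (l + 1) e := by
    apply wd_congr
    intro p _
    by_cases hp0 : p = 0
    · subst hp0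
      have : (0 : ℕ) ≠ l := by omega
      simp only [this, if_true, if_false]
      omega
    · by_cases hpl : p = l
      · subst hpl
        simp only [hp0, if_true, if_false]
        omega
      · simp [hp0, hpl]
  rw [h4, ← h, List.append_assoc, List.append_assoc] at h3
  have h5 := List.append_inj h3 (by simp)
  have h6 := List.append_inj' h5.2 (by simp)
  exact ⟨h5.1.symm, h6.2.symm, h6.1.symm⟩

section

variable {k R c : ℕ}

theorem pat_zero (k R c : ℕ) : pat (allI k R c) 0 = .s := by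
  unfold pat
  rw [Nat.zero_div, allI_zero]
  rfl

theorem pat_last (k R c : ℕ) : pat (allI k R c) (xrP k R) = .si := by
  unfold pat xrP
  have h1 : 7 * (nU k R + 3) / 7 = nU k R + 3 := by omega
  have h2 : 7 * (nU k R + 3) % 7 = 0 := by omega
  rw [h1, h2, allI_ge k R c _ (by omega), om_get]
  have h3 : nU k R + 3 - (nU k R + 1) = 2 := by omega
  rw [h3]
  rfl

/-- exponents with the outer ones reduced by `i` and `j` -/
def eV (k R c D i j : ℕ) (p : ℕ) : ℕ :=
  expo D (allI k R c) p - (if p = 0 then i else 0) - (if p = xrP k R then j else 0)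

theorem xrP_pos (k R : ℕ) : 0 < xrP k R := by
  unfold xrP
  omega

theorem mP_eq (k R : ℕ) : mP k R = xrP k R + 1 := rfl

end

theorem middle (U : Ultrafilter ℕ) (D : ℕ → ℕ)
    (hD : ∀ C : ℕ, ∀ᶠ N in (U : Filter ℕ), C < D N)
    (hdiv : ∀ K : ℕ, 0 < K → ∀ᶠ N in (U : Filter ℕ), K ∣ D N)
    (M : MG Ltr) (hL : ∀ w, M.G.D (M.st M.q₀) w ↔ evw w ≠ 1)
    (κ R c : ℕ) (hk : ∀ lab bad, ∃ F, KG κ R lab bad F) (hc : c < κ)
    (hbase : ∀ᶠ N in (U : Filter ℕ), evw (wC (3 * κ) R c (D N)) ≠ 1) :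
    ∃ (C : ℕ) (q : M.Q) (Z : M.Γ) (b : Option M.Q) (i j : ℕ → ℕ),
      (∀ᶠ N in (U : Filter ℕ), i N ≤ C * D N ∧ j N ≤ C * D N) ∧
      (∀ᶠ N in (U : Filter ℕ), M.G.D (M.pp q Z b)
        (wd (pat (allI (3 * κ) R c)) (mP (3 * κ) R) (eV (3 * κ) R c (D N) (i N) (j N)))) ∧
      ∀ᶠ N in (U : Filter ℕ), ∀ V, M.G.D (M.pp q Z b) V →
        evw (List.replicate (i N) .s ++ V ++ List.replicate (j N) .si) ≠ 1 := by
  classical
  obtain ⟨C, hC⟩ := cut_lemma U D hD hdiv M (fun w hw => (hL w).1 hw) κ R c hk hc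
  haveI := M.finQ
  haveI := M.finΓ
  have hlarge : ∀ᶠ N in (U : Filter ℕ), C * D N < D N ^ (nU (3 * κ) R + 7) := by
    filter_upwards [hD (C + 1)] with N hN
    calc C * D N < D N * D N := Nat.mul_lt_mul_of_pos_right (by omega) (by omega)
      _ = D N ^ 2 := by ring
      _ ≤ D N ^ (nU (3 * κ) R + 7) := Nat.pow_le_pow_right (by omega) (by omega)
  have key : ∀ᶠ N in (U : Filter ℕ), ∃ (x : (M.Q × M.Γ × Option M.Q)) (i j : ℕ),
      i ≤ C * D N ∧ j ≤ C * D N ∧ M.G.D (M.pp x.1 x.2.1 x.2.2)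
        (wd (pat (allI (3 * κ) R c)) (mP (3 * κ) R) (eV (3 * κ) R c (D N) i j)) ∧
      ∀ V, M.G.D (M.pp x.1 x.2.1 x.2.2) V →
        evw (List.replicate i .s ++ V ++ List.replicate j .si) ≠ 1 := by
    filter_upwards [hC, hlarge, hbase] with N h1 h2 h3
    have h4 : M.G.D (M.st M.q₀) (wC (3 * κ) R c (D N)) := (hL _).2 h3
    have hlen : C * D N < (wC (3 * κ) R c (D N)).length := by
      unfold wC
      rw [wd_length]
      have h5 := Finset.single_le_sum (f := expo (D N) (allI (3 * κ) R c))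
        (fun _ _ => Nat.zero_le _)
        (Finset.mem_range.2 (show 0 < mP (3 * κ) R by rw [mP_eq]; omega))
      rw [expo_zero] at h5
      omega
    have h5 := M.st_ind (fun q w'' => ∀ w', M.G.D (M.pr q) w' →
      w' ++ w'' = wC (3 * κ) R c (D N) → w'.length ≤ C * D N →
      ∃ (q1 : M.Q) (Z : M.Γ) (b : Option M.Q) (pre V suf : List Ltr),
        pre ++ V ++ suf = wC (3 * κ) R c (D N) ∧ pre.length ≤ C * D N ∧ suf.length ≤ C * D N ∧
        M.G.D (M.pr q1) pre ∧ M.G.D (M.pp q1 Z b) V ∧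
        ((b = none ∧ suf = []) ∨ ∃ c', b = some c' ∧ M.G.D (M.st c') suf)) ?_ ?_ ?_
      M.q₀ _ h4 [] M.pr_nil (List.nil_append _) (Nat.zero_le _)
    · obtain ⟨q1, Z, b, pre, V, suf, h6, h7, h8, h9, h10, h11⟩ := h5
      unfold wC at h6
      rw [mP_eq] at h6
      obtain ⟨h12, h13, h14⟩ := ends_split _ _ (xrP_pos _ _) _ pre V suf h6
        (by rw [expo_zero]; omega) (by unfold xrP; rw [expo_last]; omega)
      rw [pat_zero] at h12
      rw [pat_last] at h13
      refine ⟨(q1, Z, b), pre.length, suf.length, h7, h8, ?_, ?_⟩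
      · rw [mP_eq]
        have h15 : (wd (pat (allI (3 * κ) R c)) (xrP (3 * κ) R + 1)
            (eV (3 * κ) R c (D N) pre.length suf.length)) = V := h14.symm
        rw [h15]
        exact h10
      · intro V' hV'
        rw [← h12, ← h13]
        apply (hL _).1
        rw [List.append_assoc]
        apply M.pr_st q1 _ _ h9
        rcases h11 with ⟨hb, hs⟩ | ⟨c', hb, hs⟩
        · rw [hs, List.append_nil]
          rw [hb] at hV'
          exact M.st_none q1 Z _ hV'
        · rw [hb] at hV'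
          exact M.st_some q1 Z c' _ _ hV' hs
    · intro q w' _ hw hlen'
      rw [List.append_nil] at hw
      rw [hw] at hlen'
      omega
    · intro q Z u hu w' hw' hw hlen'
      exact ⟨q, Z, none, w', u, [], by rw [List.append_nil]; exact hw, hlen', Nat.zero_le _, hw',
        hu, Or.inl ⟨rfl, rfl⟩⟩
    · intro q Z c' u v hu hv ih w' hw' hw hlen'
      have hpr := M.pr_pp q Z c' w' u hw' hu
      rw [← List.append_assoc] at hw
      rcases h1 c' (w' ++ u) v hpr hv hw with h6 | h6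
      · exact ih _ hpr hw h6
      · exact ⟨q, Z, some c', w', u, v, hw, hlen', h6, hw', hu, Or.inr ⟨c', rfl, hv⟩⟩
  -- choose constants
  have hch : ∀ N, ∃ (x : (M.Q × M.Γ × Option M.Q)) (i j : ℕ), (∃ (x : (M.Q × M.Γ × Option M.Q))
      (i j : ℕ), i ≤ C * D N ∧ j ≤ C * D N ∧ M.G.D (M.pp x.1 x.2.1 x.2.2)
        (wd (pat (allI (3 * κ) R c)) (mP (3 * κ) R) (eV (3 * κ) R c (D N) i j)) ∧
      ∀ V, M.G.D (M.pp x.1 x.2.1 x.2.2) V →
        evw (List.replicate i .s ++ V ++ List.replicate j .si) ≠ 1) →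
      (i ≤ C * D N ∧ j ≤ C * D N ∧ M.G.D (M.pp x.1 x.2.1 x.2.2)
        (wd (pat (allI (3 * κ) R c)) (mP (3 * κ) R) (eV (3 * κ) R c (D N) i j)) ∧
      ∀ V, M.G.D (M.pp x.1 x.2.1 x.2.2) V →
        evw (List.replicate i .s ++ V ++ List.replicate j .si) ≠ 1) := by
    intro N
    by_cases h : ∃ (x : (M.Q × M.Γ × Option M.Q))
      (i j : ℕ), i ≤ C * D N ∧ j ≤ C * D N ∧ M.G.D (M.pp x.1 x.2.1 x.2.2)
        (wd (pat (allI (3 * κ) R c)) (mP (3 * κ) R) (eV (3 * κ) R c (D N) i j)) ∧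
      ∀ V, M.G.D (M.pp x.1 x.2.1 x.2.2) V →
        evw (List.replicate i .s ++ V ++ List.replicate j .si) ≠ 1
    · obtain ⟨x, i, j, hx⟩ := h
      exact ⟨x, i, j, fun _ => hx⟩
    · obtain ⟨N0, hN0⟩ := key.exists
      obtain ⟨x, _⟩ := hN0
      exact ⟨x, 0, 0, fun h' => absurd h' h⟩
  choose x i j hx using hch
  have hall := key.mono fun N hN => hx N hN
  obtain ⟨x', hx'⟩ := uf_const U x
  refine ⟨C, x'.1, x'.2.1, x'.2.2, i, j, hall.mono fun N hN => ⟨hN.1, hN.2.1⟩, ?_, ?_⟩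
  · filter_upwards [hall, hx'] with N h1 h2
    rw [h2] at h1
    exact h1.2.2.1
  · filter_upwards [hall, hx'] with N h1 h2
    rw [h2] at h1
    exact h1.2.2.2

end Pool.Agent.Lib.CoCF.Asm
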