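import Pool.Agent.Lib.CoCF.Model

/-!
# Common definitions (see BLUEPRINT.md)
-/

set_option autoImplicit false

namespace Pool.Agent.Lib.CoCF

/-! ### Abstract weighted tree systems (chunk B) -/

/-- rules of a weighted tree system with labels `L` and weights `ι → ℕ` -/
structure Sys (L ι : Type) where
  leaf : L → (ι → ℕ) → Prop
  un : L → (ι → ℕ) → L → Prop
  bin : L → L → L → Prop

/-- `Der S l w B`: some tree has root label `l`, total weight `w` and set of labels `B` -/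
inductive Der {L ι : Type} (S : Sys L ι) : L → (ι → ℕ) → Set L → Prop
  | leaf {l : L} {w : ι → ℕ} (h : S.leaf l w) : Der S l w {l}
  | un {l : L} {w : ι → ℕ} {l' : L} {w' : ι → ℕ} {B : Set L} (h : S.un l w l')
      (h' : Der S l' w' B) : Der S l (w + w') (insert l B)
  | bin {l l₁ l₂ : L} {w₁ w₂ : ι → ℕ} {B₁ B₂ : Set L} (h : S.bin l l₁ l₂)
      (h₁ : Der S l₁ w₁ B₁) (h₂ : Der S l₂ w₂ B₂) : Der S l (w₁ + w₂) (insert l (B₁ ∪ B₂))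

/-- `Ctx S l l' w`: some tree with root `l`, one distinguished open leaf `l'` and total weight `w` -/
inductive Ctx {L ι : Type} (S : Sys L ι) : L → L → (ι → ℕ) → Prop
  | refl (l : L) : Ctx S l l 0
  | un {l : L} {w : ι → ℕ} {l' l'' : L} {w' : ι → ℕ} (h : S.un l w l')
      (h' : Ctx S l' l'' w') : Ctx S l l'' (w + w')
  | left {l l₁ l₂ l'' : L} {w₁ w₂ : ι → ℕ} {B : Set L} (h : S.bin l l₁ l₂)
      (h₁ : Ctx S l₁ l'' w₁) (h₂ : Der S l₂ w₂ B) : Ctx S l l'' (w₁ + w₂)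
  | right {l l₁ l₂ l'' : L} {w₁ w₂ : ι → ℕ} {B : Set L} (h : S.bin l l₁ l₂)
      (h₁ : Der S l₁ w₁ B) (h₂ : Ctx S l₂ l'' w₂) : Ctx S l l'' (w₁ + w₂)

/-- finitely many labels head a rule, finitely many weights occur in rules -/
structure Sys.Fin {L ι : Type} (S : Sys L ι) : Prop where
  labels : ∃ F : Set L, F.Finite ∧ (∀ l w, S.leaf l w → l ∈ F) ∧ (∀ l w l', S.un l w l' → l ∈ F) ∧
    ∀ l l₁ l₂, S.bin l l₁ l₂ → l ∈ F
  weights : ∃ W : Set (ι → ℕ), W.Finite ∧ (∀ l w, S.leaf l w → w ∈ W) ∧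
    ∀ l w l', S.un l w l' → w ∈ W

/-! ### Grammars (chunks C, D) -/

/-- a grammar with binary rules; `un X o Y` is `X → o Y` with an optional letter `o` -/
structure Gram (A X : Type) where
  leaf : X → Prop
  un : X → Option A → X → Prop
  bin : X → X → X → Prop

/-- the words derived from a nonterminal -/
inductive Gram.D {A X : Type} (G : Gram A X) : X → List A → Prop
  | leaf {x : X} (h : G.leaf x) : Gram.D G x []
  | un {x y : X} {o : Option A} {w : List A} (h : G.un x o y) (h' : Gram.D G y w) :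
      Gram.D G x (o.toList ++ w)
  | bin {x y z : X} {u v : List A} (h : G.bin x y z) (h₁ : Gram.D G y u) (h₂ : Gram.D G z v) :
      Gram.D G x (u ++ v)

/-- finitely many nonterminals head a rule -/
def Gram.Fin {A X : Type} (G : Gram A X) : Prop :=
  ∃ F : Set X, F.Finite ∧ (∀ x, G.leaf x → x ∈ F) ∧ (∀ x o y, G.un x o y → x ∈ F) ∧
    ∀ x y z, G.bin x y z → x ∈ F

/-- the word `π 0 ^ e 0 ⋯ π (m-1) ^ e (m-1)` -/
def wd {A : Type} (π : ℕ → A) (m : ℕ) (e : ℕ → ℕ) : List A :=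
  (List.range m).flatMap fun p => List.replicate (e p) (π p)

/-- the annotated system of a grammar and a pattern with `m` positions -/
def Gram.asys {A X : Type} (G : Gram A X) (π : ℕ → A) (m : ℕ) : Sys (ℕ × X × ℕ) ℕ where
  leaf := fun l w => G.leaf l.2.1 ∧ l.1 = l.2.2 ∧ l.1 < m ∧ w = 0
  un := fun l w l' => l.1 ≤ l'.1 ∧ l'.1 ≤ l'.2.2 ∧ l'.2.2 = l.2.2 ∧ l.2.2 < m ∧
    ((G.un l.2.1 none l'.2.1 ∧ l'.1 = l.1 ∧ w = 0) ∨
      (G.un l.2.1 (some (π l.1)) l'.2.1 ∧ w = Pi.single l.1 1))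
  bin := fun l l₁ l₂ => G.bin l.2.1 l₁.2.1 l₂.2.1 ∧ l₁.1 = l.1 ∧ l₁.1 ≤ l₁.2.2 ∧ l₁.2.2 ≤ l₂.1 ∧
    l₂.1 ≤ l₂.2.2 ∧ l₂.2.2 = l.2.2 ∧ l.2.2 < m

/-! ### Joint grammars: a word `V` with two futures -/

/-- nonterminals `X` for words, `J` for triples `(V, y₁, y₂)` -/
structure JGram (A X J : Type) where
  /-- `j → (ε, y, y')` -/
  stop : J → X → X → Prop
  /-- `j → x · j'` in the first component -/
  first : J → X → J → Prop
  /-- `j → j' · x` in the first future -/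
  in1 : J → J → X → Prop
  /-- `j → j' · x` in the second future -/
  in2 : J → J → X → Prop
  /-- `j → o j'` in the first component -/
  un : J → Option A → J → Prop

/-- derived triples -/
inductive JGram.D {A X J : Type} (G : Gram A X) (K : JGram A X J) :
    J → List A → List A → List A → Prop
  | stop {j : J} {x x' : X} {y y' : List A} (h : K.stop j x x') (h₁ : G.D x y) (h₂ : G.D x' y') :
      JGram.D G K j [] y y'
  | first {j : J} {x : X} {j' : J} {u v y y' : List A} (h : K.first j x j') (h₁ : G.D x u)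
      (h₂ : JGram.D G K j' v y y') : JGram.D G K j (u ++ v) y y'
  | in1 {j : J} {x : X} {j' : J} {v y y' u : List A} (h : K.in1 j j' x)
      (h₁ : JGram.D G K j' v y y') (h₂ : G.D x u) : JGram.D G K j v (y ++ u) y'
  | in2 {j : J} {x : X} {j' : J} {v y y' u : List A} (h : K.in2 j j' x)
      (h₁ : JGram.D G K j' v y y') (h₂ : G.D x u) : JGram.D G K j v y (y' ++ u)
  | un {j j' : J} {o : Option A} {v y y' : List A} (h : K.un j o j')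
      (h₁ : JGram.D G K j' v y y') : JGram.D G K j (o.toList ++ v) y y'

def JGram.Fin {A X J : Type} (K : JGram A X J) : Prop :=
  ∃ F : Set J, F.Finite ∧ (∀ j x y, K.stop j x y → j ∈ F) ∧ (∀ j x k, K.first j x k → j ∈ F) ∧
    (∀ j k x, K.in1 j k x → j ∈ F) ∧ (∀ j k x, K.in2 j k x → j ∈ F) ∧ ∀ j o k, K.un j o k → j ∈ F

/-- labels of the annotated joint system: a tree inside `V`, a tree inside one of the two futures, or a
spine node (position in `V`, nonterminal, positions in the two futures) -/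
inductive LJ (X J : Type) where
  | v (lo : ℕ) (x : X) (hi : ℕ)
  | y (ε : Bool) (lo : ℕ) (x : X) (hi : ℕ)
  | j (lo : ℕ) (k : J) (h₁ h₂ : ℕ)

/-- Annotated joint system.  Positions `p < mV` of `V` have coordinate `(none, p)`, positions
`mV ≤ p < m` of future `ε` have coordinate `(some ε, p)`. -/
def JGram.asys {A X J : Type} (G : Gram A X) (K : JGram A X J) (π : ℕ → A) (mV m : ℕ) :
    Sys (LJ X J) (Option Bool × ℕ) where
  leaf := fun l w => w = 0 ∧ match l with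
    | .v lo x hi => G.leaf x ∧ lo = hi ∧ lo < mV
    | .y _ lo x hi => G.leaf x ∧ lo = hi ∧ mV ≤ lo ∧ lo < m
    | .j _ _ _ _ => False
  un := fun l w l' => match l, l' with
    | .v lo x hi, .v lo' x' hi' => lo ≤ lo' ∧ lo' ≤ hi' ∧ hi' = hi ∧ hi < mV ∧
        ((G.un x none x' ∧ lo' = lo ∧ w = 0) ∨
          (G.un x (some (π lo)) x' ∧ w = Pi.single (none, lo) 1))
    | .y ε lo x hi, .y ε' lo' x' hi' => ε' = ε ∧ mV ≤ lo ∧ lo ≤ lo' ∧ lo' ≤ hi' ∧ hi' = hi ∧ hi < m ∧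
        ((G.un x none x' ∧ lo' = lo ∧ w = 0) ∨
          (G.un x (some (π lo)) x' ∧ w = Pi.single (some ε, lo) 1))
    | .j lo k h₁ h₂, .j lo' k' h₁' h₂' => lo ≤ lo' ∧ lo' < mV ∧ h₁' = h₁ ∧ h₂' = h₂ ∧
        mV ≤ h₁ ∧ h₁ < m ∧ mV ≤ h₂ ∧ h₂ < m ∧
        ((K.un k none k' ∧ lo' = lo ∧ w = 0) ∨
          (K.un k (some (π lo)) k' ∧ w = Pi.single (none, lo) 1))
    | _, _ => False
  bin := fun l l₁ l₂ => match l, l₁, l₂ with
    | .v lo x hi, .v lo₁ x₁ hi₁, .v lo₂ x₂ hi₂ => G.bin x x₁ x₂ ∧ lo₁ = lo ∧ lo₁ ≤ hi₁ ∧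
        hi₁ ≤ lo₂ ∧ lo₂ ≤ hi₂ ∧ hi₂ = hi ∧ hi < mV
    | .y ε lo x hi, .y ε₁ lo₁ x₁ hi₁, .y ε₂ lo₂ x₂ hi₂ => ε₁ = ε ∧ ε₂ = ε ∧ G.bin x x₁ x₂ ∧
        mV ≤ lo ∧ lo₁ = lo ∧ lo₁ ≤ hi₁ ∧ hi₁ ≤ lo₂ ∧ lo₂ ≤ hi₂ ∧ hi₂ = hi ∧ hi < m
    | .j lo k h₁ h₂, .y ε₁ lo₁ x₁ hi₁, .y ε₂ lo₂ x₂ hi₂ => ε₁ = false ∧ ε₂ = true ∧
        K.stop k x₁ x₂ ∧ lo < mV ∧ mV ≤ lo₁ ∧ lo₁ ≤ hi₁ ∧ hi₁ = h₁ ∧ h₁ < m ∧
        mV ≤ lo₂ ∧ lo₂ ≤ hi₂ ∧ hi₂ = h₂ ∧ h₂ < m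
    | .j lo k h₁ h₂, .v lo₁ x₁ hi₁, .j lo₂ k' h₁' h₂' => K.first k x₁ k' ∧ lo₁ = lo ∧
        lo₁ ≤ hi₁ ∧ hi₁ ≤ lo₂ ∧ lo₂ < mV ∧ h₁' = h₁ ∧ h₂' = h₂ ∧ mV ≤ h₁ ∧ h₁ < m ∧ mV ≤ h₂ ∧
        h₂ < m
    | .j lo k h₁ h₂, .j lo' k' h₁' h₂', .y ε lo₂ x hi₂ => lo' = lo ∧ lo < mV ∧
        mV ≤ h₁' ∧ mV ≤ h₂' ∧ h₁ < m ∧ h₂ < m ∧
        ((ε = false ∧ K.in1 k k' x ∧ h₁' ≤ lo₂ ∧ lo₂ ≤ hi₂ ∧ hi₂ = h₁ ∧ h₂' = h₂) ∨
          (ε = true ∧ K.in2 k k' x ∧ h₂' ≤ lo₂ ∧ lo₂ ≤ hi₂ ∧ hi₂ = h₂ ∧ h₁' = h₁))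
    | _, _, _ => False

end Pool.Agent.Lib.CoCF
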