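import Pool.Agent.Lib.CoCF.Defs

/-!
# Closure properties of semi-deterministic co-context-free groups
-/

set_option autoImplicit false

namespace Pool.Agent.Lib.CoCF

/-- moves of a transition function -/
inductive PStep {Q A Γ : Type} (δ : Q → Option A → Γ → Option (Q × List Γ)) :
    Q × List A × List Γ → Q × List A × List Γ → Prop
  | eps (q q' : Q) (w : List A) (Z : Γ) (γ β : List Γ) :
      δ q none Z = some (q', γ) → PStep δ (q, w, Z :: β) (q', w, γ ++ β)
  | read (q q' : Q) (a : A) (w : List A) (Z : Γ) (γ β : List Γ) :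
      δ q (some a) Z = some (q', γ) → PStep δ (q, a :: w, Z :: β) (q', w, γ ++ β)

theorem step_eq {A : Type} (M : DPDA A) : M.Step = PStep M.δ := by
  funext c d
  apply propext
  constructor
  · intro h
    cases h with
    | eps q q' w Z γ β h => exact PStep.eps q q' w Z γ β h
    | read q q' a w Z γ β h => exact PStep.read q q' a w Z γ β h
  · intro h
    cases h with
    | eps q q' w Z γ β h => exact DPDA.Step.eps q q' w Z γ β h
    | read q q' a w Z γ β h => exact DPDA.Step.read q q' a w Z γ β h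

theorem PStep.inv {Q A Γ : Type} {δ : Q → Option A → Γ → Option (Q × List Γ)}
    {q : Q} {w : List A} {β0 : List Γ} {d : Q × List A × List Γ} (h : PStep δ (q, w, β0) d) :
    ∃ Z β, β0 = Z :: β ∧ ((∃ q' γ, δ q none Z = some (q', γ) ∧ d = (q', w, γ ++ β)) ∨
      ∃ a w' q' γ, w = a :: w' ∧ δ q (some a) Z = some (q', γ) ∧ d = (q', w', γ ++ β)) := by
  cases h with
  | eps q q' w Z γ β h => exact ⟨Z, β, rfl, Or.inl ⟨q', γ, h, rfl⟩⟩
  | read q q' a w Z γ β h => exact ⟨Z, β, rfl, Or.inr ⟨a, w, q', γ, rfl, h, rfl⟩⟩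

/-! ### Deterministic languages are semi-deterministic -/

/-- the transition function of the automaton that refuses every nontrivial guess -/
def ngδ {Q A Γ : Type} (δ : Q → Option A → Γ → Option (Q × List Γ)) (q₀ : Q) (Z₀ : Γ) :
    Option Q → Option A → Option Γ → Option (Option Q × List (Option Γ))
  | none, none, none => some (some q₀, [some Z₀, none])
  | none, _, _ => none
  | some q, x, some Z => (δ q x Z).map fun p => (some p.1, p.2.map some)
  | some _, _, none => none

/-- the automaton that works like `M` but refuses every nontrivial guess -/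
def DPDA.noGuess {A : Type} (M : DPDA A) : DPDA A where
  Q := Option M.Q
  Γ := Option M.Γ
  finQ := by
    have := M.finQ
    infer_instance
  finΓ := by
    have := M.finΓ
    infer_instance
  q₀ := none
  Z₀ := none
  final := {q | ∃ q' ∈ M.final, q = some q'}
  δ := ngδ M.δ M.q₀ M.Z₀
  det := by
    rintro (_ | q) (_ | Z) h a
    · rfl
    · rfl
    · rfl
    · simp only [ngδ, ne_eq, Option.map_eq_none_iff] at h ⊢
      exact M.det q Z h a

section ng

variable {Q A Γ : Type} {δ : Q → Option A → Γ → Option (Q × List Γ)} {q₀ : Q} {Z₀ : Γ}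

theorem ngδ_some {q q' : Q} {x : Option A} {Z : Γ} {γ : List Γ} (h : δ q x Z = some (q', γ)) :
    ngδ δ q₀ Z₀ (some q) x (some Z) = some (some q', γ.map some) := by
  simp [ngδ, h]

theorem ngδ_some_inv {q : Q} {q' : Option Q} {x : Option A} {Z : Γ} {γ : List (Option Γ)}
    (h : ngδ δ q₀ Z₀ (some q) x (some Z) = some (q', γ)) :
    ∃ r ε, δ q x Z = some (r, ε) ∧ q' = some r ∧ γ = ε.map some := by
  unfold ngδ at h
  rw [Option.map_eq_some_iff] at h
  obtain ⟨⟨r, ε⟩, h7, h8⟩ := h
  obtain ⟨h9, h10⟩ := Prod.mk.inj h8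
  exact ⟨r, ε, h7, h9.symm, h10.symm⟩

theorem ng_step {q q' : Q} {w w' : List A} {α α' : List Γ}
    (h : PStep δ (q, w, α) (q', w', α')) (β : List (Option Γ)) :
    PStep (ngδ δ q₀ Z₀) (some q, w, α.map some ++ none :: β)
      (some q', w', α'.map some ++ none :: β) := by
  obtain ⟨Z, ε, rfl, ⟨p, γ, h2, h3⟩ | ⟨a, v, p, γ, rfl, h2, h3⟩⟩ := h.inv
  · obtain ⟨rfl, h4⟩ := Prod.mk.inj h3
    obtain ⟨rfl, rfl⟩ := Prod.mk.inj h4
    have h5 := PStep.eps (some q) (some q') w' (some Z) (γ.map some)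
      (ε.map some ++ none :: β) (ngδ_some (q₀ := q₀) (Z₀ := Z₀) h2)
    rw [← List.append_assoc, ← List.map_append] at h5
    exact h5
  · obtain ⟨rfl, h4⟩ := Prod.mk.inj h3
    obtain ⟨rfl, rfl⟩ := Prod.mk.inj h4
    have h5 := PStep.read (some q) (some q') a w' (some Z) (γ.map some)
      (ε.map some ++ none :: β) (ngδ_some (q₀ := q₀) (Z₀ := Z₀) h2)
    rw [← List.append_assoc, ← List.map_append] at h5
    exact h5

theorem ng_step_inv {q : Q} {w : List A} {α : List Γ} {β : List (Option Γ)}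
    {d : Option Q × List A × List (Option Γ)}
    (h : PStep (ngδ δ q₀ Z₀) (some q, w, α.map some ++ none :: β) d) :
    ∃ q' w' α', PStep δ (q, w, α) (q', w', α') ∧ d = (some q', w', α'.map some ++ none :: β) := by
  obtain ⟨Z, δ', h1, h2⟩ := h.inv
  cases α with
  | nil =>
    rw [List.map_nil, List.nil_append] at h1
    obtain ⟨rfl, h4⟩ := List.cons.inj h1
    rcases h2 with ⟨q', γ, h5, _⟩ | ⟨a, w', q', γ, _, h5, _⟩
    · exact absurd h5 (by simp [ngδ])
    · exact absurd h5 (by simp [ngδ])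
  | cons Y α =>
    rw [List.map_cons, List.cons_append] at h1
    obtain ⟨rfl, rfl⟩ := List.cons.inj h1
    rcases h2 with ⟨q', γ, h5, rfl⟩ | ⟨a, w', q', γ, rfl, h5, rfl⟩
    · obtain ⟨r, ε, h7, rfl, rfl⟩ := ngδ_some_inv h5
      refine ⟨r, w, ε ++ α, PStep.eps _ _ _ _ _ _ h7, ?_⟩
      rw [List.map_append, List.append_assoc]
    · obtain ⟨r, ε, h7, rfl, rfl⟩ := ngδ_some_inv h5
      refine ⟨r, w', ε ++ α, PStep.read _ _ _ _ _ _ _ h7, ?_⟩
      rw [List.map_append, List.append_assoc]

theorem ng_first {w : List A} {β : List (Option Γ)} {d : Option Q × List A × List (Option Γ)}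
    (hd : PStep (ngδ δ q₀ Z₀) (none, w, β) d) :
    ∃ β1, d = (some q₀, w, some Z₀ :: none :: β1) := by
  obtain ⟨Z, δ', rfl, h2⟩ := hd.inv
  rcases h2 with ⟨q', γ, h5, rfl⟩ | ⟨a, w', q', γ, h0, h5, rfl⟩
  · cases Z with
    | none =>
      have h4 : (some (some q₀, [some Z₀, none]) : Option (Option Q × List (Option Γ))) =
        some (q', γ) := h5
      obtain ⟨rfl, rfl⟩ := Prod.mk.inj (Option.some.inj h4)
      exact ⟨δ', rfl⟩
    | some Z => exact absurd h5 (by simp [ngδ])
  · exact absurd h5 (by cases Z <;> simp [ngδ])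

theorem ng_sim {q₁ : Q} {w : List A} {α : List Γ} {β : List (Option Γ)}
    {d : Option Q × List A × List (Option Γ)}
    (hd : Relation.ReflTransGen (PStep (ngδ δ q₀ Z₀)) (some q₁, w, α.map some ++ none :: β) d) :
    ∃ q' w' α', Relation.ReflTransGen (PStep δ) (q₁, w, α) (q', w', α') ∧
      d = (some q', w', α'.map some ++ none :: β) := by
  induction hd with
  | refl => exact ⟨_, _, _, Relation.ReflTransGen.refl, rfl⟩
  | tail _ hstep ih =>
    obtain ⟨q', w', α', hc', rfl⟩ := ih
    obtain ⟨q2, w2, α2, hc'', h2⟩ := ng_step_inv hstep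
    exact ⟨q2, w2, α2, hc'.tail hc'', h2⟩

theorem ng_sim' {q₁ : Q} {w : List A} {α : List Γ} (β : List (Option Γ))
    {c : Q × List A × List Γ} (hc : Relation.ReflTransGen (PStep δ) (q₁, w, α) c) :
    Relation.ReflTransGen (PStep (ngδ δ q₀ Z₀)) (some q₁, w, α.map some ++ none :: β)
      (some c.1, c.2.1, c.2.2.map some ++ none :: β) := by
  induction hc with
  | refl => exact Relation.ReflTransGen.refl
  | tail _ hstep ih => exact ih.tail (ng_step hstep β)

end ng

theorem noGuess_lang {A : Type} (M : DPDA A) : M.noGuess.guessLang = M.lang := by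
  have hst : M.noGuess.Step = PStep (ngδ M.δ M.q₀ M.Z₀) := step_eq M.noGuess
  have hst' : M.Step = PStep M.δ := step_eq M
  ext w
  constructor
  · rintro ⟨γ, q', ⟨q, hq, rfl⟩, β', h⟩
    rw [hst] at h
    obtain ⟨β0, hβ0⟩ : ∃ β0 : List (Option M.Γ), β0 = γ ++ [M.noGuess.Z₀] := ⟨_, rfl⟩
    have h' : Relation.ReflTransGen (PStep (ngδ M.δ M.q₀ M.Z₀))
      ((none : Option M.Q), w, β0) (some q, [], β') := by
      rw [hβ0]
      exact h
    rcases Relation.ReflTransGen.cases_head h' with h | ⟨d, hd, h⟩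
    · have h1 : (none : Option M.Q) = some q := (Prod.mk.inj h).1
      exact absurd h1 (by simp)
    · obtain ⟨β1, rfl⟩ := ng_first hd
      obtain ⟨p, v, α, hc', h2⟩ := ng_sim (α := [M.Z₀]) h
      obtain ⟨h3, h4⟩ := Prod.mk.inj h2
      obtain ⟨h5, h6⟩ := Prod.mk.inj h4
      have h7 : q = p := Option.some.inj h3
      subst h7 h5
      refine ⟨q, hq, α, ?_⟩
      rw [hst']
      exact hc'
  · rintro ⟨q, hq, β, h⟩
    rw [hst'] at h
    refine ⟨[], some q, ⟨q, hq, rfl⟩, β.map some ++ [none], ?_⟩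
    rw [hst]
    have h1 : PStep (ngδ M.δ M.q₀ M.Z₀) ((none : Option M.Q), w, ([none] : List (Option M.Γ)))
        (some M.q₀, w, ([some M.Z₀, none] : List (Option M.Γ))) :=
      PStep.eps none (some M.q₀) w none [some M.Z₀, none] [] rfl
    exact Relation.ReflTransGen.head h1 (ng_sim' [] h)

theorem IsDCF.isSemiDet {A : Type} {L : Set (List A)} (h : IsDCF L) : IsSemiDet L := by
  obtain ⟨M, rfl⟩ := h
  exact ⟨M.noGuess, (noGuess_lang M).symm⟩

/-! ### Inverse homomorphisms -/

section InvHom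

variable {Q A B Γ : Type}

/-- possible contents of the buffer -/
def Buf (φ : B → List A) : Type := {l : List A // l = [] ∨ ∃ b, l <:+ φ b}

theorem finite_buf [Finite B] (φ : B → List A) : Finite (Buf φ) := by
  have h1 : {l : List A | l = [] ∨ ∃ b, l <:+ φ b}.Finite := by
    have h2 : {l : List A | l = [] ∨ ∃ b, l <:+ φ b} ⊆ {[]} ∪ ⋃ b, {l | l ∈ (φ b).tails} := by
      rintro l (rfl | ⟨b, hb⟩)
      · exact Or.inl rfl
      · exact Or.inr (Set.mem_iUnion.2 ⟨b, (List.mem_tails l (φ b)).2 hb⟩)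
    exact ((Set.finite_singleton _).union (Set.finite_iUnion fun b => List.finite_toSet _)).subset h2
  exact h1

/-- the empty buffer -/
def Buf.nil (φ : B → List A) : Buf φ := ⟨[], Or.inl rfl⟩

/-- the full buffer -/
def Buf.load (φ : B → List A) (b : B) : Buf φ := ⟨φ b, Or.inr ⟨b, List.suffix_refl _⟩⟩

/-- the buffer without its first letter -/
def Buf.tail {φ : B → List A} (l : Buf φ) : Buf φ := ⟨l.1.tail, by
  rcases l.2 with h | ⟨b, hb⟩
  · exact Or.inl (by rw [h]; rfl)
  · exact Or.inr ⟨b, (List.tail_suffix l.1).trans hb⟩⟩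

open Classical in
/-- the transition function that reads letters `b` and simulates `δ` on `φ b` -/
noncomputable def ihδ (δ : Q → Option A → Γ → Option (Q × List Γ)) (φ : B → List A)
    (q : Q × Buf φ) (x : Option B) (Z : Γ) : Option ((Q × Buf φ) × List Γ) :=
  match x with
  | none =>
    if δ q.1 none Z ≠ none then (δ q.1 none Z).map fun p => ((p.1, q.2), p.2)
    else (q.2.1.head?.bind fun a => δ q.1 (some a) Z).map fun p => ((p.1, q.2.tail), p.2)
  | some b => if δ q.1 none Z = none ∧ q.2.1 = [] then some ((q.1, Buf.load φ b), [Z]) else none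

variable {δ : Q → Option A → Γ → Option (Q × List Γ)} {φ : B → List A}

theorem ihδ_eps {q q' : Q} {l : Buf φ} {Z : Γ} {γ : List Γ} (h : δ q none Z = some (q', γ)) :
    ihδ δ φ (q, l) none Z = some ((q', l), γ) := by
  simp [ihδ, h]

theorem ihδ_cons {q q' : Q} {l : Buf φ} {a : A} {Z : Γ} {γ : List Γ} (h0 : δ q none Z = none)
    (h : δ q (some a) Z = some (q', γ)) (hl : l.1.head? = some a) :
    ihδ δ φ (q, l) none Z = some ((q', l.tail), γ) := by
  simp [ihδ, h0, hl, h]

theorem ihδ_load {q : Q} {l : Buf φ} {b : B} {Z : Γ} (h0 : δ q none Z = none)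
    (hl : l.1 = []) : ihδ δ φ (q, l) (some b) Z = some ((q, Buf.load φ b), [Z]) := by
  simp [ihδ, h0, hl]

theorem ihδ_none_inv {q : Q} {l : Buf φ} {q' : Q × Buf φ} {Z : Γ} {γ : List Γ}
    (h : ihδ δ φ (q, l) none Z = some (q', γ)) :
    (δ q none Z = some (q'.1, γ) ∧ q'.2 = l) ∨
      ∃ a, l.1 = a :: l.1.tail ∧ δ q (some a) Z = some (q'.1, γ) ∧ q'.2 = l.tail := by
  unfold ihδ at h
  simp only at h
  split_ifs at h with h0
  · rw [Option.map_eq_some_iff] at h
    obtain ⟨⟨r, ε⟩, h7, h8⟩ := h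
    obtain ⟨rfl, rfl⟩ := Prod.mk.inj h8
    exact Or.inl ⟨h7, rfl⟩
  · rw [Option.map_eq_some_iff] at h
    obtain ⟨⟨r, ε⟩, h7, h8⟩ := h
    obtain ⟨rfl, rfl⟩ := Prod.mk.inj h8
    rw [Option.bind_eq_some_iff] at h7
    obtain ⟨a, h9, h10⟩ := h7
    refine Or.inr ⟨a, ?_, h10, rfl⟩
    exact (List.cons_head?_tail h9).symm

theorem ihδ_some_inv {q : Q} {l : Buf φ} {q' : Q × Buf φ} {b : B} {Z : Γ} {γ : List Γ}
    (h : ihδ δ φ (q, l) (some b) Z = some (q', γ)) :
    l.1 = [] ∧ q' = (q, Buf.load φ b) ∧ γ = [Z] := by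
  unfold ihδ at h
  simp only at h
  split_ifs at h with h0
  obtain ⟨h7, h8⟩ := Prod.mk.inj (Option.some.inj h)
  exact ⟨h0.2, h7.symm, h8.symm⟩

theorem ih_step_fwd {q : Q} {l : Buf φ} {w : List B} {β : List Γ}
    {d : (Q × Buf φ) × List B × List Γ} (h : PStep (ihδ δ φ) ((q, l), w, β) d) :
    Relation.ReflTransGen (PStep δ) (q, l.1 ++ w.flatMap φ, β)
      (d.1.1, d.1.2.1 ++ d.2.1.flatMap φ, d.2.2) := by
  obtain ⟨Z, β, rfl, h2⟩ := h.inv
  rcases h2 with ⟨q', γ, h6, rfl⟩ | ⟨b, w', q', γ, rfl, h6, rfl⟩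
  · rcases ihδ_none_inv h6 with ⟨h3, h4⟩ | ⟨a, h3, h4, h5⟩
    · rw [h4]
      exact Relation.ReflTransGen.single (PStep.eps _ _ _ _ _ _ h3)
    · rw [h5, h3]
      exact Relation.ReflTransGen.single (PStep.read _ _ _ _ _ _ _ h4)
  · obtain ⟨h3, rfl, rfl⟩ := ihδ_some_inv h6
    rw [h3, List.flatMap_cons]
    exact Relation.ReflTransGen.refl

theorem ih_fwd {c d : (Q × Buf φ) × List B × List Γ}
    (h : Relation.ReflTransGen (PStep (ihδ δ φ)) c d) :
    Relation.ReflTransGen (PStep δ) (c.1.1, c.1.2.1 ++ c.2.1.flatMap φ, c.2.2)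
      (d.1.1, d.1.2.1 ++ d.2.1.flatMap φ, d.2.2) := by
  induction h with
  | refl => exact Relation.ReflTransGen.refl
  | tail _ hstep ih => exact ih.trans (ih_step_fwd hstep)

theorem ih_bwd (hdet : ∀ q Z, δ q none Z ≠ none → ∀ a, δ q (some a) Z = none)
    (hφ : ∀ b, φ b ≠ []) {c e : Q × List A × List Γ}
    (h : Relation.ReflTransGen (PStep δ) c e) (he : e.2.1 = []) :
    ∀ (l : Buf φ) (w : List B), c.2.1 = l.1 ++ w.flatMap φ →
      Relation.ReflTransGen (PStep (ihδ δ φ)) ((c.1, l), w, c.2.2)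
        ((e.1, Buf.nil φ), [], e.2.2) := by
  induction h using Relation.ReflTransGen.head_induction_on with
  | refl =>
    intro l w hw
    rw [he] at hw
    have h1 : l = Buf.nil φ := Subtype.ext (List.append_eq_nil_iff.1 hw.symm).1
    have h2 : w = [] := by
      cases w with
      | nil => rfl
      | cons b w =>
        have h3 := (List.append_eq_nil_iff.1 hw.symm).2
        rw [List.flatMap_cons] at h3
        exact absurd (List.append_eq_nil_iff.1 h3).1 (hφ b)
    subst h1 h2
    exact Relation.ReflTransGen.refl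
  | head hstep _ ih =>
    rename_i c c' _
    obtain ⟨q, v0, β0⟩ := c
    intro l w hw
    have hw' : v0 = l.1 ++ w.flatMap φ := hw
    obtain ⟨Z, β, rfl, h2⟩ := hstep.inv
    rcases h2 with ⟨q', γ, h1, rfl⟩ | ⟨a, v, q', γ, h0, h1, rfl⟩
    · exact Relation.ReflTransGen.head (PStep.eps _ _ _ _ _ _ (ihδ_eps h1)) (ih l w hw')
    · subst h0
      have hnone : δ q none Z = none := by
        by_contra hne
        have := hdet q Z hne a
        rw [this] at h1
        exact absurd h1 (by simp)
      -- one simulated move when the buffer is nonempty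
      have hmove : ∀ (l : Buf φ) (w : List B), l.1 ≠ [] → a :: v = l.1 ++ w.flatMap φ →
          Relation.ReflTransGen (PStep (ihδ δ φ)) ((q, l), w, Z :: β)
            ((e.1, Buf.nil φ), [], e.2.2) := by
        intro l w hne hw
        obtain ⟨a', l', hl'⟩ := List.exists_cons_of_ne_nil hne
        rw [hl', List.cons_append] at hw
        obtain ⟨rfl, hv⟩ := List.cons.inj hw
        refine Relation.ReflTransGen.head
          (PStep.eps _ _ _ _ _ _ (ihδ_cons hnone h1 (by rw [hl']; rfl))) (ih l.tail w ?_)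
        show v = l.1.tail ++ w.flatMap φ
        rw [hl']
        exact hv
      by_cases hne : l.1 = []
      · cases w with
        | nil =>
          rw [hne] at hw'
          exact absurd hw' (by simp)
        | cons b w =>
          refine Relation.ReflTransGen.head
            (PStep.read _ _ _ _ _ _ _ (ihδ_load hnone hne)) (hmove (Buf.load φ b) w (hφ b) ?_)
          rw [hne, List.nil_append, List.flatMap_cons] at hw'
          exact hw'
      · exact hmove l w hne hw'

/-- the automaton that reads letters `b` and simulates `M` on `φ b` -/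
noncomputable def DPDA.invHom [Finite B] (M : DPDA A) (φ : B → List A) : DPDA B where
  Q := M.Q × Buf φ
  Γ := M.Γ
  finQ := by
    have := M.finQ
    have := finite_buf φ
    infer_instance
  finΓ := M.finΓ
  q₀ := (M.q₀, Buf.nil φ)
  Z₀ := M.Z₀
  final := {p | p.1 ∈ M.final ∧ p.2.1 = []}
  δ := ihδ M.δ φ
  det := by
    rintro ⟨q, l⟩ Z h b
    by_contra hne
    obtain ⟨⟨q', γ⟩, h1⟩ := Option.ne_none_iff_exists'.1 hne
    have h2 : M.δ q none Z = none ∧ l.1 = [] := by
      unfold ihδ at h1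
      simp only at h1
      split_ifs at h1 with h0
      exact h0
    apply h
    simp [ihδ, h2.1, h2.2]

theorem invHom_guessLang [Finite B] (M : DPDA A) (hφ : ∀ b, φ b ≠ []) :
    (M.invHom φ).guessLang = {w | w.flatMap φ ∈ M.guessLang} := by
  have hst : (M.invHom φ).Step = PStep (ihδ M.δ φ) := step_eq (M.invHom φ)
  have hst' : M.Step = PStep M.δ := step_eq M
  ext w
  constructor
  · rintro ⟨γ, ⟨q', l'⟩, ⟨hq', hnil⟩, β', h⟩
    rw [hst] at h
    have h1 := ih_fwd h
    refine ⟨γ, q', hq', β', ?_⟩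
    rw [hst']
    have h2 : l'.1 = [] := hnil
    have h3 : l'.1 ++ ([] : List B).flatMap φ = [] := by rw [h2]; rfl
    simp only [h3] at h1
    exact h1
  · rintro ⟨γ, q', hq', β', h⟩
    rw [hst'] at h
    refine ⟨γ, (q', Buf.nil φ), ⟨hq', rfl⟩, β', ?_⟩
    rw [hst]
    exact ih_bwd M.det hφ h rfl (Buf.nil φ) w rfl

end InvHom

theorem IsSemiDet.invHom {A B : Type} [Finite B] {L : Set (List A)} (h : IsSemiDet L)
    (φ : B → List A) (hφ : ∀ b, φ b ≠ []) : IsSemiDet {w : List B | w.flatMap φ ∈ L} := by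
  obtain ⟨M, rfl⟩ := h
  exact ⟨M.invHom φ, (invHom_guessLang M hφ).symm⟩

/-! ### Subgroups -/

theorem prod_flatMap {G H B : Type} [Group G] [Group H] {A : Finset G} (f : H →* G) (e : B → H)
    (φ : B → List A) (hφ : ∀ b, ((φ b).map Subtype.val).prod = f (e b)) (w : List B) :
    ((w.flatMap φ).map Subtype.val).prod = f ((w.map e).prod) := by
  induction w with
  | nil => simp
  | cons b w ih =>
    rw [List.flatMap_cons, List.map_append, List.prod_append, ih, hφ, List.map_cons,
      List.prod_cons, map_mul]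

/-- If `G` is semi-deterministic co-context-free and `H` embeds in `G`, then the co-word problem of
`H` with respect to any finite family of elements is the language of an automaton that guesses its
stack and is then deterministic. -/
theorem SemiDetCoCF.isSemiDet {G H : Type} [Group G] [Group H] (hG : SemiDetCoCF G) (f : H →* G)
    (hf : Function.Injective f) {B : Type} [Finite B] (e : B → H) :
    IsSemiDet {w : List B | (w.map e).prod ≠ 1} := by
  classical
  obtain ⟨A, hA, hlang⟩ := hG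
  have hsd : IsSemiDet (coWP A) := by
    rcases hlang with ⟨_, h⟩ | h
    · exact h.isSemiDet
    · exact h
  have hword : ∀ g : G, ∃ l : List A, (l.map Subtype.val).prod = g := by
    intro g
    have hg : g ∈ Submonoid.closure (A : Set G) := by rw [hA]; exact Submonoid.mem_top g
    obtain ⟨l, hl, hl'⟩ := Submonoid.exists_list_of_mem_closure hg
    obtain ⟨l', rfl⟩ : ∃ l' : List A, l'.map Subtype.val = l := by
      clear hl'
      induction l with
      | nil => exact ⟨[], rfl⟩
      | cons a l ih =>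
        obtain ⟨l', hl'⟩ := ih fun y hy => hl y (List.mem_cons_of_mem _ hy)
        exact ⟨⟨a, hl a List.mem_cons_self⟩ :: l', by simp [hl']⟩
    exact ⟨l', hl'⟩
  by_cases hne : A.Nonempty
  · obtain ⟨a, ha⟩ := hne
    have hword' : ∀ g : G, ∃ l : List A, l ≠ [] ∧ (l.map Subtype.val).prod = g := by
      intro g
      obtain ⟨l, hl⟩ := hword (a⁻¹ * g)
      refine ⟨⟨a, ha⟩ :: l, by simp, ?_⟩
      rw [List.map_cons, List.prod_cons, hl]
      show a * (a⁻¹ * g) = g
      group
    choose W hW1 hW2 using hword'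
    have h1 := hsd.invHom (fun b => W (f (e b))) fun b => hW1 _
    have h2 : {w : List B | (w.map e).prod ≠ 1} =
        {w : List B | w.flatMap (fun b => W (f (e b))) ∈ coWP A} := by
      ext w
      show _ ≠ _ ↔ _ ≠ _
      rw [prod_flatMap f e _ (fun b => hW2 _) w]
      constructor
      · intro h h'
        exact h (hf (by rw [h', map_one]))
      · intro h h'
        exact h (by rw [h', map_one])
    rw [h2]
    exact h1
  · have hG1 : ∀ g : G, g = 1 := by
      intro g
      obtain ⟨l, hl⟩ := hword g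
      cases l with
      | nil => rw [← hl]; rfl
      | cons a l => exact absurd ⟨a.1, a.2⟩ hne
    have h2 : {w : List B | (w.map e).prod ≠ 1} = ∅ := by
      ext w
      simp only [Set.mem_ofPred_eq, Set.mem_empty_iff_false, iff_false, not_not]
      apply hf
      rw [hG1 (f _), hG1 (f 1)]
    rw [h2]
    refine ⟨⟨Unit, Unit, inferInstance, inferInstance, (), (), ∅, fun _ _ _ => none,
      fun _ _ _ _ => rfl⟩, ?_⟩
    ext w
    simp only [Set.mem_empty_iff_false, false_iff]
    rintro ⟨γ, q', hq', _⟩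
    exact hq'

end Pool.Agent.Lib.CoCF
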