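import Mathlib

/-!
# Semi-deterministic co-context-free groups: definitions

Deterministic pushdown automata, automata that in addition first push an arbitrary word on their
stack, co-word problems, the groups of Houghton and of Higman and Thompson.
-/

set_option autoImplicit false

namespace Pool.Agent.Lib.CoCF

/-! ### Pushdown automata -/

/-- A deterministic pushdown automaton with input alphabet `A`: finite sets `Q` of states and `Γ` of
stack letters, a start state, a bottom letter, final states, and a partial transition function;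
`δ q none Z` is the move without reading, `δ q (some a) Z` the move reading `a`, when `Z` is the top
letter of the stack; a move replaces `Z` by a word (whose first letter is the new top).  If a move
without reading is possible in `(q, Z)` then no reading move is. -/
structure DPDA (A : Type) where
  Q : Type
  Γ : Type
  finQ : Finite Q
  finΓ : Finite Γ
  q₀ : Q
  Z₀ : Γ
  final : Set Q
  δ : Q → Option A → Γ → Option (Q × List Γ)
  det : ∀ q Z, δ q none Z ≠ none → ∀ a, δ q (some a) Z = none

namespace DPDA

variable {A : Type} (M : DPDA A)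

/-- One move, on configurations (state, remaining input, stack with its top first). -/
inductive Step : M.Q × List A × List M.Γ → M.Q × List A × List M.Γ → Prop
  | eps (q q' : M.Q) (w : List A) (Z : M.Γ) (γ β : List M.Γ) :
      M.δ q none Z = some (q', γ) → Step (q, w, Z :: β) (q', w, γ ++ β)
  | read (q q' : M.Q) (a : A) (w : List A) (Z : M.Γ) (γ β : List M.Γ) :
      M.δ q (some a) Z = some (q', γ) → Step (q, a :: w, Z :: β) (q', w, γ ++ β)

/-- `w` is accepted from state `q` and stack `β`: some final state is reached after the whole of `w`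
is read (moves without reading are allowed at any time). -/
def AcceptsFrom (q : M.Q) (β : List M.Γ) (w : List A) : Prop :=
  ∃ q' ∈ M.final, ∃ β' : List M.Γ, Relation.ReflTransGen M.Step (q, w, β) (q', [], β')

/-- The language accepted by the automaton. -/
def lang : Set (List A) := {w | M.AcceptsFrom M.q₀ [M.Z₀] w}

/-- The language accepted by the automaton if it first pushes an arbitrary word on its stack. -/
def guessLang : Set (List A) := {w | ∃ γ : List M.Γ, M.AcceptsFrom M.q₀ (γ ++ [M.Z₀]) w}

end DPDA

/-- deterministic context-free languages -/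
def IsDCF {A : Type} (L : Set (List A)) : Prop := ∃ M : DPDA A, L = M.lang

/-- Languages of pushdown automata whose only nondeterminism happens at the start, where an
arbitrarily chosen word is pushed on the stack. -/
def IsSemiDet {A : Type} (L : Set (List A)) : Prop := ∃ M : DPDA A, L = M.guessLang

/-! ### Word problems -/

/-- the word problem of `G` with respect to the finite set `A` -/
def WP {G : Type} [Group G] (A : Finset G) : Set (List A) := {w | (w.map Subtype.val).prod = 1}

/-- the co-word problem of `G` with respect to the finite set `A` -/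
def coWP {G : Type} [Group G] (A : Finset G) : Set (List A) := {w | (w.map Subtype.val).prod ≠ 1}

/-- `G` is semi-deterministic co-context-free. -/
def SemiDetCoCF (G : Type) [Group G] : Prop :=
  ∃ A : Finset G, Submonoid.closure (A : Set G) = ⊤ ∧
    ((IsDCF (WP A) ∧ IsDCF (coWP A)) ∨ IsSemiDet (coWP A))

/-! ### The groups of Houghton -/

/-- `none` is the point `0` and `some (i, j)` is the point `(i + 1, j)` of ray `j`. -/
abbrev Rays (n : ℕ) : Type := Option (ℕ × ZMod n)

/-- The map `σ_j` of the rays: it shifts ray `j` towards `0`, sends `(1, j)` to `0` and `0` to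
`(1, j + 1)`, shifts ray `j + 1` outward and fixes the other rays. -/
def shift {n : ℕ} (j : ZMod n) : Rays n → Rays n
  | none => some (0, j + 1)
  | some (0, k) => if k = j then none else if k = j + 1 then some (1, k) else some (0, k)
  | some (i + 1, k) =>
    if k = j then some (i, k) else if k = j + 1 then some (i + 2, k) else some (i + 1, k)

/-- The group `H_n` of Houghton, generated by the `σ_j` and the finitary permutations. -/
def Houghton (n : ℕ) : Subgroup (Equiv.Perm (Rays n)) :=
  Subgroup.closure ({g | ∃ j, ∀ x, g x = shift j x} ∪ {g | {x | g x ≠ x}.Finite})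

/-- the map `σ_j` undone -/
def unshift {n : ℕ} (j : ZMod n) : Rays n → Rays n
  | none => some (0, j)
  | some (0, k) => if k = j + 1 then none else if k = j then some (1, k) else some (0, k)
  | some (i + 1, k) =>
    if k = j + 1 then some (i, k) else if k = j then some (i + 2, k) else some (i + 1, k)

/-- `σ_j` is a permutation for `n ≥ 2`, so that `H_n` is the group meant. -/
theorem exists_perm_shift {n : ℕ} (hn : 2 ≤ n) (j : ZMod n) :
    ∃ g : Equiv.Perm (Rays n), ∀ x, g x = shift j x := by
  have hne : j ≠ j + 1 := by
    have : Fact (1 < n) := ⟨hn⟩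
    intro h
    have h1 : (1 : ZMod n) = 0 := by
      have h2 : j + 0 = j + 1 := by rw [add_zero]; exact h
      exact (add_left_cancel h2).symm
    exact one_ne_zero h1
  refine ⟨⟨shift j, unshift j, ?_, ?_⟩, fun x => rfl⟩
  · rintro (_ | ⟨_ | i, k⟩)
    · simp [shift, unshift]
    · by_cases h1 : k = j
      · subst h1
        simp [shift, unshift]
      · by_cases h2 : k = j + 1
        · subst h2
          simp [shift, unshift, h1]
        · simp [shift, unshift, h1, h2]
    · by_cases h1 : k = j
      · subst h1
        rcases i with _ | i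
        · simp [shift, unshift, hne]
        · simp [shift, unshift, hne]
      · by_cases h2 : k = j + 1
        · subst h2
          simp [shift, unshift, h1]
        · simp [shift, unshift, h1, h2]
  · rintro (_ | ⟨_ | i, k⟩)
    · simp [shift, unshift]
    · by_cases h1 : k = j + 1
      · subst h1
        simp [shift, unshift]
      · by_cases h2 : k = j
        · subst h2
          simp [shift, unshift, h1]
        · simp [shift, unshift, h1, h2]
    · by_cases h1 : k = j + 1
      · subst h1
        rcases i with _ | i
        · simp [shift, unshift, hne.symm]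
        · simp [shift, unshift, hne.symm]
      · by_cases h2 : k = j
        · subst h2
          simp [shift, unshift, h1]
        · simp [shift, unshift, h1, h2]

/-! ### The groups of Higman and Thompson -/

/-- the points: a letter of `{1, …, r}` followed by infinitely many digits -/
abbrev Cantor (n r : ℕ) : Type := Fin r × (ℕ → Fin n)

/-- nonempty finite words: a letter of `{1, …, r}` followed by finitely many digits -/
abbrev Word (n r : ℕ) : Type := Fin r × List (Fin n)

/-- the digit word `l` followed by the digit sequence `s` -/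
def app {n : ℕ} (l : List (Fin n)) (s : ℕ → Fin n) : ℕ → Fin n := fun i =>
  if h : i < l.length then l[i] else s (i - l.length)

/-- the word `u` followed by the tail `s` -/
def pt {n r : ℕ} (u : Word n r) (s : ℕ → Fin n) : Cantor n r := (u.1, app u.2 s)

/-- the cone of the word `u` -/
def cone {n r : ℕ} (u : Word n r) : Set (Cantor n r) := Set.range (pt u)

/-- `g` replaces the prefixes of one finite partition into cones by those of another one -/
def IsHT {n r : ℕ} (g : Equiv.Perm (Cantor n r)) : Prop :=
  ∃ (k : ℕ) (u v : Fin k → Word n r), (∀ x, ∃! i, x ∈ cone (u i)) ∧ (∀ x, ∃! i, x ∈ cone (v i)) ∧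
    ∀ i s, g (pt (u i) s) = pt (v i) s

theorem app_nil {n : ℕ} (s : ℕ → Fin n) : app [] s = s := by
  funext i
  simp [app]

theorem app_append {n : ℕ} (l l' : List (Fin n)) (s : ℕ → Fin n) :
    app (l ++ l') s = app l (app l' s) := by
  funext i
  unfold app
  by_cases h1 : i < l.length
  · have h2 : i < (l ++ l').length := by rw [List.length_append]; omega
    simp only [dif_pos h1, dif_pos h2, List.getElem_append_left h1]
  · by_cases h3 : i < (l ++ l').length
    · have h4 : i - l.length < l'.length := by rw [List.length_append] at h3; omega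
      simp only [dif_neg h1, dif_pos h3, dif_pos h4, List.getElem_append_right (not_lt.1 h1)]
    · have h4 : ¬ i - l.length < l'.length := by rw [List.length_append] at h3; omega
      rw [dif_neg h3, dif_neg h1, dif_neg h4, List.length_append, Nat.sub_add_eq]

theorem app_injective {n : ℕ} (l : List (Fin n)) : Function.Injective (app l) := by
  intro s s' h
  funext i
  have h1 := congrFun h (l.length + i)
  unfold app at h1
  have h2 : ¬ l.length + i < l.length := by omega
  simp only [dif_neg h2] at h1
  have h3 : l.length + i - l.length = i := by omega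
  rwa [h3] at h1

/-- two words with a common continuation are comparable -/
theorem exists_common {n : ℕ} {l l' : List (Fin n)} {s s' : ℕ → Fin n} (h : app l s = app l' s') :
    ∃ t t' : List (Fin n), l ++ t = l' ++ t' ∧ ∃ z, s = app t z ∧ s' = app t' z := by
  induction l generalizing l' with
  | nil =>
    rw [app_nil] at h
    exact ⟨l', [], by simp, s', h, by rw [app_nil]⟩
  | cons a l ih =>
    cases l' with
    | nil =>
      rw [app_nil] at h
      exact ⟨[], a :: l, by simp, s, by rw [app_nil], h.symm⟩
    | cons b l' =>
      have h0 : a = b := by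
        have := congrFun h 0
        simpa [app] using this
      subst h0
      have h1 : app l s = app l' s' := by
        have h2 : app (a :: l) s = app [a] (app l s) := by rw [← app_append]; rfl
        have h3 : app (a :: l') s' = app [a] (app l' s') := by rw [← app_append]; rfl
        rw [h2, h3] at h
        exact app_injective _ h
      obtain ⟨t, t', h2, h3⟩ := ih h1
      exact ⟨t, t', by rw [List.cons_append, List.cons_append, h2], h3⟩

/-- the word `u` continued by the digits `t` -/
def ext {n r : ℕ} (u : Word n r) (t : List (Fin n)) : Word n r := (u.1, u.2 ++ t)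

theorem pt_ext {n r : ℕ} (u : Word n r) (t : List (Fin n)) (s : ℕ → Fin n) :
    pt (ext u t) s = pt u (app t s) := by
  unfold pt ext
  rw [app_append]

theorem pt_injective {n r : ℕ} (u : Word n r) : Function.Injective (pt u) := by
  intro s s' h
  exact app_injective _ (Prod.mk.inj h).2

theorem exists_common_pt {n r : ℕ} {u v : Word n r} {s s' : ℕ → Fin n} (h : pt u s = pt v s') :
    ∃ t t' : List (Fin n), ext u t = ext v t' ∧ ∃ z, s = app t z ∧ s' = app t' z := by
  obtain ⟨h1, h2⟩ := Prod.mk.inj h
  obtain ⟨t, t', h3, h4⟩ := exists_common h2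
  refine ⟨t, t', ?_, h4⟩
  unfold ext
  rw [h3]
  exact Prod.ext h1 rfl

/-- a convenient form of `IsHT`: any finite index type, and only the source partition -/
theorem isHT_of {n r : ℕ} {g : Equiv.Perm (Cantor n r)} {ι : Type} [Finite ι]
    (u v : ι → Word n r) (hu : ∀ x, ∃! i, x ∈ cone (u i))
    (h : ∀ i s, g (pt (u i) s) = pt (v i) s) : IsHT g := by
  obtain ⟨k, ⟨φ⟩⟩ := Finite.exists_equiv_fin ι
  have hv : ∀ x, ∃! i, x ∈ cone (v i) := by
    intro x
    obtain ⟨i, hi, huniq⟩ := hu (g.symm x)
    refine ⟨i, ?_, ?_⟩
    · obtain ⟨s, hs⟩ := hi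
      refine ⟨s, ?_⟩
      rw [← h, hs]
      exact g.apply_symm_apply x
    · rintro j ⟨s, hs⟩
      apply huniq
      refine ⟨s, ?_⟩
      apply g.injective
      rw [h, hs]
      exact (g.apply_symm_apply x).symm
  have hre : ∀ w : ι → Word n r, (∀ x, ∃! i, x ∈ cone (w i)) →
      ∀ x, ∃! i, x ∈ cone (w (φ.symm i)) := by
    intro w hw x
    obtain ⟨i, hi, huniq⟩ := hw x
    refine ⟨φ i, ?_, ?_⟩
    · show x ∈ cone (w (φ.symm (φ i)))
      rw [φ.symm_apply_apply]
      exact hi
    · intro j hj
      rw [← huniq _ hj, φ.apply_symm_apply]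
  exact ⟨k, fun i => u (φ.symm i), fun i => v (φ.symm i), hre u hu, hre v hv,
    fun i s => h (φ.symm i) s⟩

theorem isHT_one {n r : ℕ} : IsHT (1 : Equiv.Perm (Cantor n r)) := by
  refine isHT_of (ι := Fin r) (fun i => (i, [])) (fun i => (i, [])) ?_ fun i s => rfl
  rintro ⟨a, s⟩
  refine ⟨a, ⟨s, ?_⟩, ?_⟩
  · unfold pt
    rw [app_nil]
  · rintro j ⟨s', hs'⟩
    exact (Prod.mk.inj hs').1

theorem isHT_inv {n r : ℕ} {g : Equiv.Perm (Cantor n r)} (hg : IsHT g) : IsHT g⁻¹ := by
  obtain ⟨k, u, v, hu, hv, h⟩ := hg
  refine ⟨k, v, u, hv, hu, ?_⟩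
  intro i s
  rw [← h]
  exact g.symm_apply_apply _

theorem isHT_mul {n r : ℕ} {g h : Equiv.Perm (Cantor n r)} (hg : IsHT g) (hh : IsHT h) :
    IsHT (h * g) := by
  obtain ⟨k, u, v, hu, hv, hg'⟩ := hg
  obtain ⟨l, u', v', hu', hv', hh'⟩ := hh
  -- pairs of comparable words, with the missing digits
  let C : Fin k × Fin l → Prop := fun p => ∃ s s', pt (v p.1) s = pt (u' p.2) s'
  have hC : ∀ p : {p // C p}, ∃ t t' : List (Fin n), ext (v p.1.1) t = ext (u' p.1.2) t' ∧
      ∀ s s', pt (v p.1.1) s = pt (u' p.1.2) s' → ∃ z, s = app t z ∧ s' = app t' z := by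
    rintro ⟨⟨i, j⟩, s, s', hs⟩
    obtain ⟨t, t', h1, _⟩ := exists_common_pt hs
    -- the shortest missing digits
    have key : ∀ m : ℕ, ∀ t t' : List (Fin n), t.length = m → ext (v i) t = ext (u' j) t' →
        ∃ t t' : List (Fin n), ext (v i) t = ext (u' j) t' ∧ (t = [] ∨ t' = []) := by
      intro m
      induction m with
      | zero =>
        intro t t' ht h2
        exact ⟨t, t', h2, Or.inl (List.length_eq_zero_iff.1 ht)⟩
      | succ m ih =>
        intro t t' ht h2
        rcases List.eq_nil_or_concat t with rfl | ⟨t0, a, rfl⟩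
        · exact ⟨[], t', h2, Or.inl rfl⟩
        rcases List.eq_nil_or_concat t' with rfl | ⟨t0', a', rfl⟩
        · exact ⟨_, [], h2, Or.inr rfl⟩
        refine ih t0 t0' (by simpa using ht) ?_
        unfold ext at h2 ⊢
        obtain ⟨h3, h4⟩ := Prod.mk.inj h2
        rw [List.concat_eq_append, List.concat_eq_append, ← List.append_assoc,
          ← List.append_assoc] at h4
        have h5 := (List.append_inj' h4 rfl).1
        rw [h5]
        exact Prod.ext h3 rfl
    obtain ⟨t, t', h2, h3⟩ := key _ t t' rfl h1
    refine ⟨t, t', h2, ?_⟩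
    intro s s' hs
    rcases h3 with rfl | rfl
    · refine ⟨s, by rw [app_nil], ?_⟩
      have h4 : pt (v i) s = pt (ext (v i) []) s := by rw [pt_ext, app_nil]
      rw [h4, h2, pt_ext] at hs
      exact (pt_injective _ hs).symm
    · refine ⟨s', ?_, by rw [app_nil]⟩
      have h4 : pt (u' j) s' = pt (ext (u' j) []) s' := by rw [pt_ext, app_nil]
      rw [h4, ← h2, pt_ext] at hs
      exact pt_injective _ hs
  choose t t' ht1 ht2 using hC
  refine isHT_of (ι := {p // C p}) (fun p => ext (u p.1.1) (t p)) (fun p => ext (v' p.1.2) (t' p))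
    ?_ ?_
  · intro x
    obtain ⟨i, ⟨s, hs⟩, hi⟩ := hu x
    obtain ⟨j, ⟨s', hs'⟩, hj⟩ := hu' (g x)
    have h1 : pt (v i) s = pt (u' j) s' := by rw [hs', ← hg', hs]
    refine ⟨⟨(i, j), s, s', h1⟩, ?_, ?_⟩
    · obtain ⟨z, hz, _⟩ := ht2 ⟨(i, j), s, s', h1⟩ s s' h1
      refine ⟨z, ?_⟩
      rw [pt_ext, ← hz, hs]
    · rintro ⟨⟨i', j'⟩, hC'⟩ ⟨z, hz⟩
      have h2 : i' = i := by
        apply hi
        refine ⟨app (t ⟨(i', j'), hC'⟩) z, ?_⟩
        rw [← pt_ext]
        exact hz
      have h3 : j' = j := by
        apply hj
        refine ⟨app (t' ⟨(i', j'), hC'⟩) z, ?_⟩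
        rw [← pt_ext, ← ht1 ⟨(i', j'), hC'⟩, pt_ext, ← hg', ← pt_ext]
        exact congrArg g hz
      apply Subtype.ext
      exact Prod.ext h2 h3
  · intro p s
    show h (g (pt (ext (u p.1.1) (t p)) s)) = _
    rw [pt_ext, hg', ← pt_ext, ht1 p, pt_ext, hh', ← pt_ext]

/-- The group `G_{n,r}` of Higman and Thompson. -/
def HigmanThompson (n r : ℕ) : Subgroup (Equiv.Perm (Cantor n r)) where
  carrier := {g | IsHT g}
  mul_mem' := fun hg hh => isHT_mul hh hg
  one_mem' := isHT_one
  inv_mem' := fun hg => isHT_inv hg

end Pool.Agent.Lib.CoCF
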