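import Pool.Agent.Lib.CoCF.KillPts

/-!
# Evaluation of the words
-/

set_option autoImplicit false

namespace Pool.Agent.Lib.CoCF

/-- value of an item with the exponents `f b` in its 7 blocks -/
noncomputable def ival (x : Item) (f : ℕ → ℕ) : Equiv.Perm (Rays 3) :=
  ev (x.ltr 0) ^ f 0 * ev (x.ltr 1) ^ f 1 * ev (x.ltr 2) ^ f 2 * ev (x.ltr 3) ^ f 3 *
    ev (x.ltr 4) ^ f 4 * ev (x.ltr 5) ^ f 5 * ev (x.ltr 6) ^ f 6

theorem evw_append (u v : List Ltr) : evw (u ++ v) = evw u * evw v := by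
  unfold evw
  rw [List.map_append, List.prod_append]

theorem evw_nil : evw [] = 1 := rfl

theorem evw_replicate (n : ℕ) (x : Ltr) : evw (List.replicate n x) = ev x ^ n := by
  unfold evw
  rw [List.map_replicate, List.prod_replicate]

theorem wd_zero {A : Type} (π : ℕ → A) (e : ℕ → ℕ) : wd π 0 e = [] := rfl

theorem wd_succ {A : Type} (π : ℕ → A) (m : ℕ) (e : ℕ → ℕ) :
    wd π (m + 1) e = wd π m e ++ List.replicate (e m) (π m) := by
  unfold wd
  rw [List.range_succ, List.flatMap_append]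
  simp

theorem evw_wd_succ (π : ℕ → Ltr) (m : ℕ) (e : ℕ → ℕ) :
    evw (wd π (m + 1) e) = evw (wd π m e) * ev (π m) ^ e m := by
  rw [wd_succ, evw_append, evw_replicate]

/-- value of a list of items whose first one has number `a`, for arbitrary exponents -/
noncomputable def evI (e : ℕ → ℕ) : ℕ → List Item → Equiv.Perm (Rays 3)
  | _, [] => 1
  | a, x :: l => ival x (fun b => e (7 * a + b)) * evI e (a + 1) l

theorem evI_append (e : ℕ → ℕ) (a : ℕ) (l l' : List Item) :
    evI e a (l ++ l') = evI e a l * evI e (a + l.length) l' := by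
  induction l generalizing a with
  | nil => simp [evI]
  | cons x l ih =>
    rw [List.cons_append, evI, evI, ih, mul_assoc, List.length_cons]
    congr 3
    ring

theorem valI_append (D : ℕ) (mm EE : ℕ → ℤ) (a : ℕ) (l l' : List Item) :
    valI D mm EE a (l ++ l') = valI D mm EE a l * valI D mm EE (a + l.length) l' := by
  induction l generalizing a with
  | nil => simp [valI]
  | cons x l ih =>
    rw [List.cons_append, valI, valI, ih, mul_assoc, List.length_cons]
    congr 3
    ring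

theorem pat_mul (l : List Item) (a b : ℕ) (hb : b < 7) :
    pat l (7 * a + b) = (l.getD a .xl).ltr b := by
  unfold pat
  have h1 : (7 * a + b) / 7 = a := by omega
  have h2 : (7 * a + b) % 7 = b := by omega
  rw [h1, h2]

theorem evw_wd_pat (l : List Item) (e : ℕ → ℕ) (n : ℕ) :
    evw (wd (pat l) (7 * n) e) =
      ((List.range n).map fun a => ival (l.getD a .xl) fun b => e (7 * a + b)).prod := by
  induction n with
  | zero => simp [wd_zero, evw_nil]
  | succ n ih =>
    have h : 7 * (n + 1) = 7 * n + 1 + 1 + 1 + 1 + 1 + 1 + 1 := by ring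
    rw [h, evw_wd_succ, evw_wd_succ, evw_wd_succ, evw_wd_succ, evw_wd_succ, evw_wd_succ,
      evw_wd_succ, ih, List.range_succ, List.map_append, List.prod_append]
    simp only [List.map_cons, List.map_nil, List.prod_cons, List.prod_nil, mul_one]
    have e0 := pat_mul l n 0 (by norm_num)
    have e1 := pat_mul l n 1 (by norm_num)
    have e2 := pat_mul l n 2 (by norm_num)
    have e3 := pat_mul l n 3 (by norm_num)
    have e4 := pat_mul l n 4 (by norm_num)
    have e5 := pat_mul l n 5 (by norm_num)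
    have e6 := pat_mul l n 6 (by norm_num)
    unfold ival
    simp only [add_zero] at e0
    have a2 : 7 * n + 1 + 1 = 7 * n + 2 := rfl
    have a3 : 7 * n + 2 + 1 = 7 * n + 3 := rfl
    have a4 : 7 * n + 3 + 1 = 7 * n + 4 := rfl
    have a5 : 7 * n + 4 + 1 = 7 * n + 5 := rfl
    have a6 : 7 * n + 5 + 1 = 7 * n + 6 := rfl
    rw [a2, a3, a4, a5, a6, e0, e1, e2, e3, e4, e5, e6]
    simp only [mul_assoc, add_zero]

theorem evI_eq_range (l : List Item) (e : ℕ → ℕ) (a : ℕ) :
    ((List.range l.length).map fun i => ival (l.getD i .xl) fun b => e (7 * (a + i) + b)).prod =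
      evI e a l := by
  induction l generalizing a with
  | nil => rfl
  | cons x l ih =>
    rw [evI, ← ih (a + 1), List.length_cons, List.range_succ_eq_map, List.map_cons,
      List.prod_cons, List.map_map]
    congr 3
    funext i
    show ival ((x :: l).getD (i + 1) .xl) (fun b => e (7 * (a + (i + 1)) + b)) = _
    rw [List.getD_cons_succ]
    congr 1
    funext b
    congr 2
    ring

theorem evw_words (l : List Item) (e : ℕ → ℕ) :
    evw (wd (pat l) (7 * l.length) e) = evI e 0 l := by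
  rw [evw_wd_pat, ← evI_eq_range]
  simp only [zero_add]

/-! ### values of the items -/

theorem ev_b : ev .b = Equiv.swap (ptB 0) (ptB 1) * sg 1 := rfl
theorem ev_a : ev .a = Equiv.swap (ptA 0) (ptA 1) * sg 0 := rfl

theorem b_zero : ev .b (ptB 0) = ptB 0 := by
  rw [ev_b, Equiv.Perm.mul_apply, sgB, zero_add, Equiv.swap_apply_right]

theorem b_pos (x : ℤ) (hx : 1 ≤ x) : ev .b (ptB x) = ptB (x + 1) := by
  rw [ev_b, Equiv.Perm.mul_apply, sgB, Equiv.swap_apply_of_ne_of_ne]
  · intro h; have := ptB_inj h; omega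
  · intro h; have := ptB_inj h; omega

theorem a_zero : ev .a (ptA 0) = ptA 0 := by
  rw [ev_a, Equiv.Perm.mul_apply, sgA, zero_add, Equiv.swap_apply_right]

theorem a_pos (x : ℤ) (hx : 1 ≤ x) : ev .a (ptA x) = ptA (x + 1) := by
  rw [ev_a, Equiv.Perm.mul_apply, sgA, Equiv.swap_apply_of_ne_of_ne]
  · intro h; have := ptA_inj h; omega
  · intro h; have := ptA_inj h; omega

theorem pow_zero_fix {α : Type} (f : Equiv.Perm α) (x : α) (h : f x = x) (n : ℕ) :
    (f ^ n) x = x := by
  induction n with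
  | zero => simp
  | succ n ih => rw [pow_succ, Equiv.Perm.mul_apply, h, ih]

theorem pow_pos_shift {α : Type} (f : Equiv.Perm α) (p : ℤ → α)
    (h : ∀ x, 1 ≤ x → f (p x) = p (x + 1)) (n : ℕ) (x : ℤ) (hx : 1 ≤ x) :
    (f ^ n) (p x) = p (x + n) := by
  induction n generalizing x with
  | zero => simp
  | succ n ih =>
    rw [pow_succ, Equiv.Perm.mul_apply, h x hx, ih (x + 1) (by omega)]
    congr 1
    push_cast
    ring

/-- `r ^ n` times `b ^ m` -/
theorem rb_conj (n m : ℕ) :
    sg 1 ^ n * ev .b ^ m * ev .tB * (ev .b ^ m)⁻¹ * (sg 1 ^ n)⁻¹ =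
      Equiv.swap (ptB n) (ptB (n + 1 + m)) := by
  have h1 : sg 1 ^ n * ev .b ^ m * ev .tB * (ev .b ^ m)⁻¹ * (sg 1 ^ n)⁻¹ =
      (sg 1 ^ n * ev .b ^ m) * Equiv.swap (ptB 0) (ptB 1) * (sg 1 ^ n * ev .b ^ m)⁻¹ := by
    rw [mul_inv_rev, mul_assoc (sg 1 ^ n * ev .b ^ m * _)]
    rfl
  rw [h1, conj_swap, Equiv.Perm.mul_apply, Equiv.Perm.mul_apply, pow_zero_fix _ _ b_zero,
    pow_pos_shift _ _ b_pos _ _ le_rfl]
  have h2 : sg 1 ^ n = sg 1 ^ (n : ℤ) := (zpow_natCast _ _).symm
  rw [h2, zpB, zpB]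
  congr 2
  · ring
  · ring

theorem sa_conj (n m : ℕ) :
    sg 0 ^ n * ev .a ^ m * ev .tA * (ev .a ^ m)⁻¹ * (sg 0 ^ n)⁻¹ =
      Equiv.swap (ptA n) (ptA (n + 1 + m)) := by
  have h1 : sg 0 ^ n * ev .a ^ m * ev .tA * (ev .a ^ m)⁻¹ * (sg 0 ^ n)⁻¹ =
      (sg 0 ^ n * ev .a ^ m) * Equiv.swap (ptA 0) (ptA 1) * (sg 0 ^ n * ev .a ^ m)⁻¹ := by
    rw [mul_inv_rev, mul_assoc (sg 0 ^ n * ev .a ^ m * _)]
    rfl
  rw [h1, conj_swap, Equiv.Perm.mul_apply, Equiv.Perm.mul_apply, pow_zero_fix _ _ a_zero,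
    pow_pos_shift _ _ a_pos _ _ le_rfl]
  have h2 : sg 0 ^ n = sg 0 ^ (n : ℤ) := (zpow_natCast _ _).symm
  rw [h2, zpA, zpA]
  congr 2
  · ring
  · ring

theorem ev_inv : ev .si = (ev .s)⁻¹ ∧ ev .ri = (ev .r)⁻¹ ∧ ev .bi = (ev .b)⁻¹ ∧
    ev .ai = (ev .a)⁻¹ := ⟨rfl, rfl, rfl, rfl⟩

/-- well formed items inside `U` -/
def Item.wf : Item → Prop
  | .zone i j => i < j
  | .aop i j => i < j
  | .csw _ => True
  | .xl => False
  | .xr => False

theorem ival_zone (D n a i j : ℕ) (hD : 1 ≤ D) (hij : i < j) (mL mR E : ℤ)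
    (hE : (D : ℤ) ^ 2 + E ≥ 1) (f : ℕ → ℕ)
    (hf : ∀ b, b < 7 → (f b : ℤ) = (Item.zone i j).ex D n a b + (if b = 0 then mL else 0) +
      (if b = 6 then -mR else 0) + (if b = 1 ∨ b = 5 then E else 0)) :
    ival (.zone i j) f = (Item.zone i j).val D (mL + mR) E := by
  have h0 := hf 0 (by norm_num)
  have h1 := hf 1 (by norm_num)
  have h2 := hf 2 (by norm_num)
  have h3 := hf 3 (by norm_num)
  have h4 := hf 4 (by norm_num)
  have h5 := hf 5 (by norm_num)
  have h6 := hf 6 (by norm_num)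
  simp only [Item.ex] at h0 h1 h2 h3 h4 h5 h6
  norm_num at h0 h1 h2 h3 h4 h5 h6
  have h24 : f 4 = f 2 := by omega
  have h15 : f 5 = f 1 := by
    have : (f 5 : ℤ) = f 1 := by rw [h5, h1]
    exact_mod_cast this
  have hval : ival (.zone i j) f = ev .s ^ f 0 * (ev .r ^ f 1 * ev .b ^ f 2 * ev .tB *
      (ev .b ^ f 2)⁻¹ * (ev .r ^ f 1)⁻¹) * (ev .s ^ f 6)⁻¹ := by
    unfold ival
    rw [h24, h15, h3]
    simp only [Item.ltr, ev_inv.1, ev_inv.2.1, ev_inv.2.2.1, inv_pow, pow_one,
      mul_assoc]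
  have hr : ev .r = sg 1 := rfl
  have hs : ev .s = sg 0 := rfl
  rw [hval, hr, hs, rb_conj]
  have hpos : 1 ≤ D * (j - i) := Nat.mul_pos hD (by omega)
  have hc : ((D * (j - i) - 1 : ℕ) : ℤ) = D * ((j : ℤ) - i) - 1 := by
    rw [Nat.cast_sub hpos, Nat.cast_mul, Nat.cast_sub (le_of_lt hij)]
    norm_num
  have hB2 : (f 1 : ℤ) + 1 + f 2 = (D : ℤ) ^ 2 + D * j + E := by
    rw [h1, h2, hc]
    ring
  have hB1 : (f 1 : ℤ) = (D : ℤ) ^ 2 + D * i + E := by rw [h1]
  have hp1 : (1 : ℤ) ≤ (D : ℤ) ^ 2 + D * i + E := by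
    have : (0 : ℤ) ≤ D * i := by positivity
    linarith
  have hp2 : (1 : ℤ) ≤ (D : ℤ) ^ 2 + D * j + E := by
    have : (0 : ℤ) ≤ D * j := by positivity
    linarith
  rw [hB2, hB1, ← zpow_natCast (sg 0) (f 0), ← zpow_natCast (sg 0) (f 6), ← zpow_neg, mul_assoc,
    ← (comm_swapB (-(f 6 : ℤ)) _ _ hp1 hp2).eq, ← mul_assoc, ← zpow_add]
  have hm : (f 0 : ℤ) + -(f 6 : ℤ) = mL + mR := by
    rw [h0, h6]
    ring
  rw [hm]
  rfl

theorem ival_aop (D n a i j : ℕ) (hD : 1 ≤ D) (hij : i < j) (m E : ℤ) (f : ℕ → ℕ)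
    (hf : ∀ b, b < 7 → f b = (Item.aop i j).ex D n a b) :
    ival (.aop i j) f = (Item.aop i j).val D m E := by
  have h0 := hf 0 (by norm_num)
  have h1 := hf 1 (by norm_num)
  have h2 := hf 2 (by norm_num)
  have h3 := hf 3 (by norm_num)
  have h4 := hf 4 (by norm_num)
  have h5 := hf 5 (by norm_num)
  have h6 := hf 6 (by norm_num)
  simp only [Item.ex] at h0 h1 h2 h3 h4 h5 h6
  have hval : ival (.aop i j) f = ev .s ^ (D * i) * ev .a ^ (D * (j - i) - 1) * ev .tA *
      (ev .a ^ (D * (j - i) - 1))⁻¹ * (ev .s ^ (D * i))⁻¹ := by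
    unfold ival
    rw [h0, h1, h2, h3, h4, h5, h6]
    simp only [Item.ltr, ev_inv.1, ev_inv.2.2.2, inv_pow, pow_one, pow_zero, mul_one,
      mul_assoc]
  have hs : ev .s = sg 0 := rfl
  rw [hval, hs, sa_conj]
  have hpos : 1 ≤ D * (j - i) := Nat.mul_pos hD (by omega)
  have hc : ((D * (j - i) - 1 : ℕ) : ℤ) = D * ((j : ℤ) - i) - 1 := by
    rw [Nat.cast_sub hpos, Nat.cast_mul, Nat.cast_sub (le_of_lt hij)]
    norm_num
  have hA2 : ((D * i : ℕ) : ℤ) + 1 + ((D * (j - i) - 1 : ℕ) : ℤ) = D * j := by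
    rw [hc]
    push_cast
    ring
  rw [hA2]
  push_cast
  rfl

theorem ival_csw (D n a t : ℕ) (hD : 1 ≤ D) (m E : ℤ) (f : ℕ → ℕ)
    (hf : ∀ b, b < 7 → f b = (Item.csw t).ex D n a b) :
    ival (.csw t) f = (Item.csw t).val D m E := by
  have h0 := hf 0 (by norm_num)
  have h1 := hf 1 (by norm_num)
  have h2 := hf 2 (by norm_num)
  have h3 := hf 3 (by norm_num)
  have h4 := hf 4 (by norm_num)
  have h5 := hf 5 (by norm_num)
  have h6 := hf 6 (by norm_num)
  simp only [Item.ex] at h0 h1 h2 h3 h4 h5 h6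
  have hval : ival (.csw t) f = (ev .s ^ (D * t + 1) * ev .r ^ (D ^ 2 + D * t)) *
      Equiv.swap (ptB 0) (ptA (-1)) * (ev .s ^ (D * t + 1) * ev .r ^ (D ^ 2 + D * t))⁻¹ := by
    unfold ival
    rw [h0, h1, h2, h3, h4, h5, h6, mul_inv_rev]
    simp only [Item.ltr, ev_inv.1, ev_inv.2.1, inv_pow, pow_one, pow_zero, mul_one,
      mul_assoc]
    rfl
  have hs : ev .s = sg 0 := rfl
  have hr : ev .r = sg 1 := rfl
  rw [hval, hs, hr, conj_swap, Equiv.Perm.mul_apply, Equiv.Perm.mul_apply,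
    ← zpow_natCast (sg 0), ← zpow_natCast (sg 1), zpB, zpB_fix _ _ le_rfl, zpA, zero_add]
  have hpos : (1 : ℤ) ≤ ((D ^ 2 + D * t : ℕ) : ℤ) := by
    have : 0 < D ^ 2 + D * t := by positivity
    exact_mod_cast this
  rw [zpA_fix _ _ hpos, Equiv.swap_comm]
  show _ = Equiv.swap (ptA _) (ptB _)
  congr 2
  · push_cast; ring

/-- a well formed item -/
theorem ival_wf (D n a : ℕ) (x : Item) (hx : x.wf) (hD : 1 ≤ D) (mL mR E : ℤ)
    (hE : (D : ℤ) ^ 2 + E ≥ 1) (hsupp : mL ≠ 0 ∨ mR ≠ 0 ∨ E ≠ 0 → ∃ i j, x = .zone i j)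
    (f : ℕ → ℕ)
    (hf : ∀ b, b < 7 → (f b : ℤ) = x.ex D n a b + (if b = 0 then mL else 0) +
      (if b = 6 then -mR else 0) + (if b = 1 ∨ b = 5 then E else 0)) :
    ival x f = x.val D (mL + mR) E := by
  by_cases hz : ∃ i j, x = .zone i j
  · obtain ⟨i, j, rfl⟩ := hz
    exact ival_zone D n a i j hD hx mL mR E hE f hf
  have h0 : mL = 0 ∧ mR = 0 ∧ E = 0 := by
    by_contra hcon
    apply hz
    apply hsupp
    by_contra h2
    apply hcon
    push Not at h2
    exact h2
  obtain ⟨rfl, rfl, rfl⟩ := h0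
  have hf' : ∀ b, b < 7 → f b = x.ex D n a b := by
    intro b hb
    have := hf b hb
    simp only [neg_zero, ite_self, add_zero] at this
    exact_mod_cast this
  match x, hx, hz with
  | .zone i j, _, hz => exact absurd ⟨i, j, rfl⟩ hz
  | .aop i j, hx, _ => exact ival_aop D n a i j hD hx _ _ f hf'
  | .csw t, _, _ => exact ival_csw D n a t hD _ _ f hf'

theorem evI_eq_valI (D n : ℕ) (hD : 1 ≤ D) (mL mR EE : ℕ → ℤ) (hE : ∀ a, (D : ℤ) ^ 2 + EE a ≥ 1)
    (e : ℕ → ℕ) (l : List Item) (a : ℕ) (hwf : ∀ x ∈ l, x.wf)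
    (hsupp : ∀ i, mL (a + i) ≠ 0 ∨ mR (a + i) ≠ 0 ∨ EE (a + i) ≠ 0 → i < l.length →
      ∃ i' j', l[i]? = some (.zone i' j'))
    (he : ∀ i b, i < l.length → b < 7 → (e (7 * (a + i) + b) : ℤ) =
      (l.getD i .xl).ex D n (a + i) b + (if b = 0 then mL (a + i) else 0) +
      (if b = 6 then -mR (a + i) else 0) + (if b = 1 ∨ b = 5 then EE (a + i) else 0)) :
    evI e a l = valI D (fun a => mL a + mR a) EE a l := by
  induction l generalizing a with
  | nil => rfl
  | cons x l ih =>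
    rw [evI, valI]
    have h1 : ival x (fun b => e (7 * a + b)) = x.val D (mL a + mR a) (EE a) := by
      refine ival_wf D n a x (hwf x (List.mem_cons_self)) hD _ _ _ (hE a) ?_ _ ?_
      · intro h
        obtain ⟨i', j', h2⟩ := hsupp 0 h (by simp)
        refine ⟨i', j', ?_⟩
        simpa using h2
      · intro b hb
        have h3 := he 0 b (by simp) hb
        simpa using h3
    rw [h1, ih (a + 1) (fun y hy => hwf y (List.mem_cons_of_mem _ hy))]
    · intro i h hi
      have h4 : a + 1 + i = a + (i + 1) := by ring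
      rw [h4] at h
      obtain ⟨i', j', h2⟩ := hsupp (i + 1) h (by simpa using hi)
      refine ⟨i', j', ?_⟩
      simpa using h2
    · intro i b hi hb
      have h4 : a + 1 + i = a + (i + 1) := by ring
      rw [h4]
      have h5 := he (i + 1) b (by simpa using hi) hb
      rw [List.getD_cons_succ] at h5
      exact h5

theorem mem_prs {k : ℕ} {g : ℕ × ℕ} : g ∈ prs k ↔ 1 ≤ g.1 ∧ g.1 < g.2 ∧ g.2 ≤ k := by
  unfold prs
  rw [List.mem_flatMap]
  constructor
  · rintro ⟨i, hi, h⟩
    rw [List.mem_range'_1] at hi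
    rw [List.mem_map] at h
    obtain ⟨j, hj, rfl⟩ := h
    rw [List.mem_range'_1] at hj
    dsimp only
    omega
  · rintro ⟨h1, h2, h3⟩
    refine ⟨g.1, ?_, ?_⟩
    · rw [List.mem_range'_1]
      omega
    · rw [List.mem_map]
      refine ⟨g.2, ?_, rfl⟩
      rw [List.mem_range'_1]
      omega

theorem wf_cell {g h : ℕ × ℕ} (hg : g.1 < g.2) (hh : h.1 < h.2) : ∀ x ∈ cell g h, x.wf := by
  intro x hx
  unfold cell at hx
  simp only [List.mem_append, List.mem_replicate, List.mem_singleton] at hx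
  rcases hx with ((hx | rfl) | hx) | rfl
  · rw [hx.2]; exact hh
  · exact hg
  · rw [hx.2]; exact hh
  · exact hg

theorem wf_stepI (k : ℕ) : ∀ x ∈ stepI k, x.wf := by
  intro x hx
  unfold stepI at hx
  rw [List.mem_flatMap] at hx
  obtain ⟨g, hg, hx⟩ := hx
  rw [List.mem_flatMap] at hx
  obtain ⟨h, hh, hx⟩ := hx
  exact wf_cell (mem_prs.1 hg).2.1 (mem_prs.1 hh).2.1 x hx

theorem wf_roundI (k : ℕ) : ∀ x ∈ roundI k, x.wf := by
  intro x hx
  unfold roundI at hx
  rw [List.mem_flatMap] at hx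
  obtain ⟨t, ht, hx⟩ := hx
  simp only [List.mem_append, List.mem_singleton] at hx
  rcases hx with (rfl | hx) | rfl
  · exact True.intro
  · exact wf_stepI k x hx
  · exact True.intro

theorem wf_UI (k R : ℕ) : ∀ x ∈ UI k R, x.wf := by
  intro x hx
  unfold UI at hx
  rw [List.mem_flatten] at hx
  obtain ⟨l, hl, hx⟩ := hx
  rw [(List.mem_replicate.1 hl).2] at hx
  exact wf_roundI k x hx

theorem wf_omI (c : ℕ) : ∀ x ∈ omI c, x.wf := by
  intro x hx
  unfold omI at hx
  simp only [List.mem_cons, List.not_mem_nil, or_false] at hx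
  rcases hx with rfl | rfl
  · show 3 * c + 1 < 3 * c + 2
    omega
  · show 3 * c + 2 < 3 * c + 3
    omega

theorem valI_omI (D c : ℕ) (mm EE : ℕ → ℤ) (a : ℕ) : valI D mm EE a (omI c) = omv D c := rfl

theorem eval_words (k R c D : ℕ) (hD : 1 ≤ D) (mL mR EE : ℕ → ℤ) (x x' : ℤ)
    (hE : ∀ a, (D : ℤ) ^ 2 + EE a ≥ 1) (e : ℕ → ℕ)
    (hsupp : ∀ a, mL a ≠ 0 ∨ mR a ≠ 0 ∨ EE a ≠ 0 → 1 ≤ a ∧ ∃ i j, (UI k R)[a - 1]? = some (.zone i j))
    (he : ∀ p, p < 7 * (allI k R c).length → (e p : ℤ) = expo D (allI k R c) p +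
      (if p = 0 then x else 0) + (if p = 7 * ((allI k R c).length - 1) then -x' else 0) +
      (if p % 7 = 0 then mL (p / 7) else 0) + (if p % 7 = 6 then - mR (p / 7) else 0) +
      (if p % 7 = 1 ∨ p % 7 = 5 then EE (p / 7) else 0)) :
    evw (wd (pat (allI k R c)) (7 * (allI k R c).length) e) =
      (sg 0) ^ ((D : ℤ) ^ ((allI k R c).length + 3) + x) *
        (valI D (fun a => mL a + mR a) EE 1 (UI k R) * omv D c) *
        (sg 0) ^ (-((D : ℤ) ^ ((allI k R c).length + 3) - x')) := by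
  set n := (allI k R c).length with hn
  have hlen : n = (UI k R).length + 4 := by
    rw [hn]
    unfold allI omI
    simp
  have hz : ∀ a, (a = 0 ∨ (UI k R).length + 1 ≤ a) → mL a = 0 ∧ mR a = 0 ∧ EE a = 0 := by
    intro a ha
    by_contra hcon
    have h1 : mL a ≠ 0 ∨ mR a ≠ 0 ∨ EE a ≠ 0 := by
      by_contra h2
      apply hcon
      push Not at h2
      exact h2
    obtain ⟨h2, i, j, h3⟩ := hsupp a h1
    rcases ha with rfl | ha
    · omega
    · have h4 : (UI k R)[a - 1]? = none := List.getElem?_eq_none (by omega)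
      rw [h4] at h3
      exact absurd h3 (by simp)
  -- the exponents of item `a`
  have hexp : ∀ a b, a < n → b < 7 → (e (7 * a + b) : ℤ) =
      ((allI k R c).getD a .xl).ex D n a b +
      (if 7 * a + b = 0 then x else 0) + (if 7 * a + b = 7 * (n - 1) then -x' else 0) +
      (if b = 0 then mL a else 0) + (if b = 6 then - mR a else 0) +
      (if b = 1 ∨ b = 5 then EE a else 0) := by
    intro a b ha hb
    rw [he (7 * a + b) (by omega)]
    have h1 : (7 * a + b) / 7 = a := by omega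
    have h2 : (7 * a + b) % 7 = b := by omega
    unfold expo
    rw [h1, h2, if_pos (by rw [← hn]; exact ha)]
  rw [evw_words]
  have hall : allI k R c = [.xl] ++ (UI k R ++ (omI c ++ [.xr])) := by
    unfold allI
    simp only [List.append_assoc]
  have hget : ∀ i, i < (UI k R).length → (allI k R c).getD (1 + i) .xl = (UI k R).getD i .xl := by
    intro i hi
    rw [hall, List.getD_append_right _ _ _ _ (by simp)]
    rw [List.getD_append _ _ _ _ (by simpa using hi)]
    simp
  have hget2 : ∀ i, i < 2 → (allI k R c).getD (1 + (UI k R).length + i) .xl =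
      (omI c).getD i .xl := by
    intro i hi
    have hlo : (omI c).length = 2 := rfl
    rw [hall, List.getD_append_right _ _ _ _ (by simp; omega)]
    rw [List.getD_append_right _ _ _ _ (by simp; omega)]
    rw [List.getD_append _ _ _ _ (by simp; omega)]
    congr 1
    simp
    omega
  have hget3 : (allI k R c).getD (n - 1) .xl = .xr := by
    have hlo : (omI c).length = 2 := rfl
    rw [hall, List.getD_append_right _ _ _ _ (by simp; omega)]
    rw [List.getD_append_right _ _ _ _ (by simp; omega)]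
    rw [List.getD_append_right _ _ _ _ (by simp; omega)]
    have h3 : n - 1 - [Item.xl].length - (UI k R).length - (omI c).length = 0 := by
      simp; omega
    rw [h3]
    rfl
  have hget0 : (allI k R c).getD 0 .xl = .xl := by
    rw [hall]
    rfl
  have hsplit : evI e 0 (allI k R c) = evI e 0 [.xl] * (evI e 1 (UI k R) *
      (evI e (1 + (UI k R).length) (omI c) * evI e (n - 1) [.xr])) := by
    have hlo : (omI c).length = 2 := rfl
    rw [hall, evI_append, evI_append, evI_append]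
    have h4 : 0 + [Item.xl].length = 1 := rfl
    rw [h4]
    have h5 : 1 + (UI k R).length + (omI c).length = n - 1 := by omega
    rw [h5]
  have hU : evI e 1 (UI k R) = valI D (fun a => mL a + mR a) EE 1 (UI k R) := by
    refine evI_eq_valI D n hD mL mR EE hE e _ _ (wf_UI k R) ?_ ?_
    · intro i h hi
      obtain ⟨_, i', j', h2⟩ := hsupp (1 + i) h
      refine ⟨i', j', ?_⟩
      have h6 : 1 + i - 1 = i := by omega
      rwa [h6] at h2
    · intro i b hi hb
      rw [hexp (1 + i) b (by omega) hb, hget i hi, if_neg (by omega), if_neg (by omega)]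
      ring
  have hO : evI e (1 + (UI k R).length) (omI c) = omv D c := by
    rw [← valI_omI D c (fun a => mL a + mR a) EE (1 + (UI k R).length)]
    refine evI_eq_valI D n hD mL mR EE hE e _ _ (wf_omI c) ?_ ?_
    · intro i h hi
      exfalso
      obtain ⟨h7, h8, h9⟩ := hz (1 + (UI k R).length + i) (Or.inr (by omega))
      rcases h with h | h | h
      · exact h h7
      · exact h h8
      · exact h h9
    · intro i b hi hb
      have hlo : (omI c).length = 2 := rfl
      rw [hexp _ b (by omega) hb, hget2 i (by omega), if_neg (by omega), if_neg (by omega)]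
      ring
  have hX : evI e 0 [.xl] = (sg 0) ^ ((D : ℤ) ^ (n + 3) + x) := by
    obtain ⟨h7, h8, h9⟩ := hz 0 (Or.inl rfl)
    rw [evI, evI, mul_one]
    have hb : ∀ b, b < 7 → (e (7 * 0 + b) : ℤ) = if b = 0 then (D : ℤ) ^ (n + 3) + x else 0 := by
      intro b hb
      rw [hexp 0 b (by omega) hb, hget0, h7, h8, h9]
      simp only [mul_zero, zero_add, neg_zero, ite_self, add_zero]
      rw [if_neg (by omega : ¬ b = 7 * (n - 1))]
      by_cases h10 : b = 0
      · subst h10
        simp [Item.ex]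
      · rw [if_neg h10, if_neg h10]
        have h11 : Item.xl.ex D n 0 b = 0 := by
          match b, h10 with
          | 0, h10 => exact absurd rfl h10
          | b + 1, _ => rfl
        rw [h11]
        norm_num
    have hb0 := hb 0 (by norm_num)
    rw [if_pos rfl] at hb0
    have hb' : ∀ b, b < 7 → b ≠ 0 → e (7 * 0 + b) = 0 := by
      intro b hb1 hb2
      have := hb b hb1
      rw [if_neg hb2] at this
      exact_mod_cast this
    unfold ival
    beta_reduce
    rw [hb' 1 (by norm_num) (by norm_num), hb' 2 (by norm_num) (by norm_num),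
      hb' 3 (by norm_num) (by norm_num), hb' 4 (by norm_num) (by norm_num),
      hb' 5 (by norm_num) (by norm_num), hb' 6 (by norm_num) (by norm_num)]
    simp only [pow_zero, mul_one]
    rw [← hb0, zpow_natCast]
    rfl
  have hXR : evI e (n - 1) [.xr] = (sg 0) ^ (-((D : ℤ) ^ (n + 3) - x')) := by
    obtain ⟨h7, h8, h9⟩ := hz (n - 1) (Or.inr (by omega))
    rw [evI, evI, mul_one]
    have hb : ∀ b, b < 7 → (e (7 * (n - 1) + b) : ℤ) =
        if b = 0 then (D : ℤ) ^ (n + 3) - x' else 0 := by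
      intro b hb
      rw [hexp (n - 1) b (by omega) hb, hget3, h7, h8, h9]
      simp only [neg_zero, ite_self, add_zero]
      rw [if_neg (by omega : ¬ 7 * (n - 1) + b = 0)]
      by_cases h10 : b = 0
      · subst h10
        simp [Item.ex]
        ring
      · rw [if_neg h10, if_neg (by omega)]
        have h11 : Item.xr.ex D n (n - 1) b = 0 := by
          match b, h10 with
          | 0, h10 => exact absurd rfl h10
          | b + 1, _ => rfl
        rw [h11]
        norm_num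
    have hb0 := hb 0 (by norm_num)
    rw [if_pos rfl] at hb0
    have hb' : ∀ b, b < 7 → b ≠ 0 → e (7 * (n - 1) + b) = 0 := by
      intro b hb1 hb2
      have := hb b hb1
      rw [if_neg hb2] at this
      exact_mod_cast this
    unfold ival
    beta_reduce
    rw [hb' 1 (by norm_num) (by norm_num), hb' 2 (by norm_num) (by norm_num),
      hb' 3 (by norm_num) (by norm_num), hb' 4 (by norm_num) (by norm_num),
      hb' 5 (by norm_num) (by norm_num), hb' 6 (by norm_num) (by norm_num)]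
    simp only [pow_zero, mul_one]
    rw [← hb0, zpow_neg, zpow_natCast, ← inv_pow]
    rfl
  rw [hsplit, hX, hU, hO, hXR]
  simp only [mul_assoc]

end Pool.Agent.Lib.CoCF
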