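import Pool.Agent.Lib.CoCF.Asm13

/-!
# The main theorem: no machine on the letters of the model
-/

set_option autoImplicit false

namespace Pool.Agent.Lib.CoCF

theorem main : ¬ ∃ M : DPDA Ltr, ∀ w, w ∈ M.guessLang ↔ evw w ≠ 1 := Asm.main

end Pool.Agent.Lib.CoCF
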