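import Pool.Agent.Lib.CoCF.Base

/-!
# Items, exponents, the words, heavy data (definitions; see BLUEPRINT.md)
-/

set_option autoImplicit false

namespace Pool.Agent.Lib.CoCF

/-- the building blocks of the words; each has 7 blocks `letter ^ exponent` -/
inductive Item where
  | xl | xr
  | zone (i j : ℕ)
  | aop (i j : ℕ)
  | csw (t : ℕ)
  deriving DecidableEq

/-- the letter of block `b < 7` -/
def Item.ltr : Item → ℕ → Ltr
  | .xl, _ => .s
  | .xr, _ => .si
  | .zone _ _, 0 => .s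
  | .zone _ _, 1 => .r
  | .zone _ _, 2 => .b
  | .zone _ _, 3 => .tB
  | .zone _ _, 4 => .bi
  | .zone _ _, 5 => .ri
  | .zone _ _, _ => .si
  | .aop _ _, 0 => .s
  | .aop _ _, 1 => .a
  | .aop _ _, 2 => .tA
  | .aop _ _, 3 => .ai
  | .aop _ _, _ => .si
  | .csw _, 0 => .s
  | .csw _, 1 => .r
  | .csw _, 2 => .tau
  | .csw _, 3 => .ri
  | .csw _, _ => .si

/-- the exponent of block `b < 7` of item number `a` among `n` items -/
def Item.ex (D n a : ℕ) : Item → ℕ → ℕ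
  | .xl, 0 => D ^ (n + 3)
  | .xr, 0 => D ^ (n + 3)
  | .zone _ _, 0 => D ^ (a + 3)
  | .zone i _, 1 => D ^ 2 + D * i
  | .zone i j, 2 => D * (j - i) - 1
  | .zone _ _, 3 => 1
  | .zone i j, 4 => D * (j - i) - 1
  | .zone i _, 5 => D ^ 2 + D * i
  | .zone _ _, 6 => D ^ (a + 3)
  | .aop i _, 0 => D * i
  | .aop i j, 1 => D * (j - i) - 1
  | .aop _ _, 2 => 1
  | .aop i j, 3 => D * (j - i) - 1
  | .aop i _, 4 => D * i
  | .csw t, 0 => D * t + 1
  | .csw t, 1 => D ^ 2 + D * t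
  | .csw _, 2 => 1
  | .csw t, 3 => D ^ 2 + D * t
  | .csw t, 4 => D * t + 1
  | _, _ => 0

/-- the letter at position `p` of a list of items -/
def pat (l : List Item) (p : ℕ) : Ltr := (l.getD (p / 7) .xl).ltr (p % 7)

/-- the exponent at position `p` of a list of items -/
def expo (D : ℕ) (l : List Item) (p : ℕ) : ℕ :=
  if p / 7 < l.length then (l.getD (p / 7) .xl).ex D l.length (p / 7) (p % 7) else 0

/-- all pairs `1 ≤ i < j ≤ k` -/
def prs (k : ℕ) : List (ℕ × ℕ) :=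
  (List.range' 1 k).flatMap fun i => (List.range' (i + 1) (k - i)).map fun j => (i, j)

def cell (g h : ℕ × ℕ) : List Item :=
  List.replicate 4 (.zone h.1 h.2) ++ [.aop g.1 g.2] ++ List.replicate 4 (.zone h.1 h.2) ++
    [.aop g.1 g.2]

def stepI (k : ℕ) : List Item :=
  (prs k).flatMap fun g => (prs k).flatMap fun h => cell g h

def roundI (k : ℕ) : List Item :=
  (List.range' 1 k).flatMap fun t => [.csw t] ++ stepI k ++ [.csw t]

def UI (k R : ℕ) : List Item := (List.replicate R (roundI k)).flatten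

def omI (c : ℕ) : List Item := [.aop (3 * c + 1) (3 * c + 2), .aop (3 * c + 2) (3 * c + 3)]

/-- the items of the word `w_c` -/
def allI (k R c : ℕ) : List Item := [.xl] ++ UI k R ++ omI c ++ [.xr]

/-- the three tokens moved by `ω_c` -/
def suppC (c : ℕ) : Set ℕ := {3 * c + 1, 3 * c + 2, 3 * c + 3}

/-- degree in `D` of the exponent at a position (`0` stands for: at most linear) -/
def Item.deg (n a : ℕ) : Item → ℕ → ℕ
  | .xl, 0 => n + 3
  | .xr, 0 => n + 3
  | .zone _ _, 0 => a + 3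
  | .zone _ _, 1 => 2
  | .zone _ _, 5 => 2
  | .zone _ _, 6 => a + 3
  | .csw _, 1 => 2
  | .csw _, 3 => 2
  | _, _ => 0

def degI (l : List Item) (p : ℕ) : ℕ :=
  if p / 7 < l.length then (l.getD (p / 7) .xl).deg l.length (p / 7) (p % 7) else 0

/-! ### points of the rays -/

/-- the A-line: rays 0 and 1 -/
def ptA : ℤ → Rays 3
  | .ofNat 0 => none
  | .ofNat (n + 1) => some (n, 1)
  | .negSucc n => some (n, 0)

/-- the B-line: rays 1 and 2 -/
def ptB : ℤ → Rays 3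
  | .ofNat 0 => none
  | .ofNat (n + 1) => some (n, 2)
  | .negSucc n => some (n, 1)

/-- value of an item (other than `xl`, `xr`) with net insertion `m` of `s` and displacement `E` -/
noncomputable def Item.val (D : ℕ) : Item → ℤ → ℤ → Equiv.Perm (Rays 3)
  | .zone i j, m, E => (sg 0) ^ m *
      Equiv.swap (ptB (D ^ 2 + D * i + E)) (ptB (D ^ 2 + D * j + E))
  | .aop i j, _, _ => Equiv.swap (ptA (D * i)) (ptA (D * j))
  | .csw t, _, _ => Equiv.swap (ptA (D * t)) (ptB (D ^ 2 + D * t))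
  | .xl, _, _ => 1
  | .xr, _, _ => 1

/-- value of a list of items whose first one has number `a` -/
noncomputable def valI (D : ℕ) (mm EE : ℕ → ℤ) : ℕ → List Item → Equiv.Perm (Rays 3)
  | _, [] => 1
  | a, x :: l => x.val D (mm a) (EE a) * valI D mm EE (a + 1) l

/-! ### heavy data -/

/-- Heavy data of a family of exponents `e N` (section 4 of the blueprint). -/
structure HD (U : Ultrafilter ℕ) (D : ℕ → ℕ) (e : ℕ → ℕ → ℕ) where
  T : Type
  fin : Fintype T
  w : T → ℕ → ℕ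
  lo : T → ℕ
  hi : T → ℕ
  n : T → ℕ → ℕ
  r : ℕ → ℕ → ℕ
  le : ∀ t, lo t ≤ hi t
  supp : ∀ t p, w t p ≠ 0 → p = lo t ∨ p = hi t
  nc : ∀ t t', ¬ (lo t < lo t' ∧ lo t' < hi t ∧ hi t < hi t')
  eq : ∀ᶠ N in (U : Filter ℕ), ∀ p, e N p = r N p + ∑ t, n t N * w t p
  small : ∀ p, ∃ C, ∀ᶠ N in (U : Filter ℕ), r N p ≤ C * D N
  big : ∀ t C, ∀ᶠ N in (U : Filter ℕ), C * D N < n t N

attribute [instance] HD.fin

/-- the rational span of the heavy vectors -/
def HD.span {U : Ultrafilter ℕ} {D : ℕ → ℕ} {e : ℕ → ℕ → ℕ} (H : HD U D e) :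
    Submodule ℚ (ℕ → ℚ) := Submodule.span ℚ (Set.range fun t p => (H.w t p : ℚ))

/-- `t` is heavy at the scale `D ^ 3` -/
def HD.TH {U : Ultrafilter ℕ} {D : ℕ → ℕ} {e : ℕ → ℕ → ℕ} (H : HD U D e) (t : H.T) : Prop :=
  ∀ C : ℕ, ∀ᶠ N in (U : Filter ℕ), C * D N ^ 2 < H.n t N

/-- connectedness of positions by heavy vectors at the scale `D ^ 3` -/
def HD.Conn {U : Ultrafilter ℕ} {D : ℕ → ℕ} {e : ℕ → ℕ → ℕ} (H : HD U D e) : ℕ → ℕ → Prop :=
  Relation.ReflTransGen fun p p' => ∃ t, H.TH t ∧ H.w t p ≠ 0 ∧ H.w t p' ≠ 0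

/-- unit vector -/
noncomputable def uv (p : ℕ) : ℕ → ℚ := Pi.single p 1

end Pool.Agent.Lib.CoCF
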