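import Pool.Agent.Lib.CoCF.Iface

/-!
# Points on the rays and the letters

`sg 0` shifts the A-line, `sg 1` shifts the B-line.
-/

set_option autoImplicit false

namespace Pool.Agent.Lib.CoCF

theorem zpow_shift {α : Type} (f : Equiv.Perm α) (p : ℤ → α) (h : ∀ x, f (p x) = p (x + 1))
    (n x : ℤ) : (f ^ n) (p x) = p (x + n) := by
  have h1 : ∀ x, f⁻¹ (p x) = p (x - 1) := by
    intro x
    rw [Equiv.Perm.inv_def, Equiv.symm_apply_eq, h]
    congr 1
    ring
  induction n using Int.induction_on generalizing x with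
  | zero => simp
  | succ n ih =>
    rw [zpow_add_one, Equiv.Perm.mul_apply, h, ih]
    congr 1
    ring
  | pred n ih =>
    rw [zpow_sub_one, Equiv.Perm.mul_apply, h1, ih]
    congr 1
    ring

theorem zpow_fix {α : Type} (f : Equiv.Perm α) (x : α) (h : f x = x) (n : ℤ) :
    (f ^ n) x = x := by
  have h1 : f⁻¹ x = x := by rw [Equiv.Perm.inv_def, Equiv.symm_apply_eq, h]
  induction n using Int.induction_on with
  | zero => simp
  | succ n ih => rw [zpow_add_one, Equiv.Perm.mul_apply, h, ih]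
  | pred n ih => rw [zpow_sub_one, Equiv.Perm.mul_apply, h1, ih]

theorem ptA_zero : ptA 0 = none := rfl
theorem ptB_zero : ptB 0 = none := rfl
theorem ptA_one : ptA 1 = some (0, 1) := rfl
theorem ptB_one : ptB 1 = some (0, 2) := rfl
theorem ptA_neg_one : ptA (-1) = some (0, 0) := rfl

theorem ptA_succ (n : ℕ) : ptA ((n : ℤ) + 1) = some (n, 1) := rfl
theorem ptB_succ (n : ℕ) : ptB ((n : ℤ) + 1) = some (n, 2) := rfl
theorem ptA_negSucc (n : ℕ) : ptA (Int.negSucc n) = some (n, 0) := rfl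
theorem ptB_negSucc (n : ℕ) : ptB (Int.negSucc n) = some (n, 1) := rfl

theorem z3_01 : (0 : ZMod 3) ≠ 1 := by decide
theorem z3_02 : (0 : ZMod 3) ≠ 2 := by decide
theorem z3_12 : (1 : ZMod 3) ≠ 2 := by decide
theorem z3_111 : (1 : ZMod 3) + 1 = 2 := by decide

theorem int_cases (x : ℤ) : x = 0 ∨ (∃ n : ℕ, x = n + 1) ∨ ∃ n : ℕ, x = Int.negSucc n := by
  rcases x with (_ | n) | n
  · exact Or.inl rfl
  · exact Or.inr (Or.inl ⟨n, rfl⟩)
  · exact Or.inr (Or.inr ⟨n, rfl⟩)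

theorem sgA (x : ℤ) : sg 0 (ptA x) = ptA (x + 1) := by
  rw [sg_apply]
  rcases int_cases x with rfl | ⟨n, rfl⟩ | ⟨n, rfl⟩
  · rfl
  · rw [ptA_succ]
    have h : ((n : ℤ) + 1 + 1) = ((n + 1 : ℕ) : ℤ) + 1 := by push_cast; ring
    rw [h, ptA_succ]
    rcases n with _ | n
    · simp [shift]
    · simp [shift]
  · rw [ptA_negSucc]
    rcases n with _ | n
    · have h : (Int.negSucc 0 + 1) = 0 := rfl
      rw [h, ptA_zero]
      simp [shift]
    · have h : (Int.negSucc (n + 1) + 1) = Int.negSucc n := rfl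
      rw [h, ptA_negSucc]
      simp [shift]

theorem sgB (x : ℤ) : sg 1 (ptB x) = ptB (x + 1) := by
  rw [sg_apply]
  rcases int_cases x with rfl | ⟨n, rfl⟩ | ⟨n, rfl⟩
  · rfl
  · rw [ptB_succ]
    have h : ((n : ℤ) + 1 + 1) = ((n + 1 : ℕ) : ℤ) + 1 := by push_cast; ring
    rw [h, ptB_succ]
    rcases n with _ | n
    · simp [shift, z3_111, z3_12.symm]
    · simp [shift, z3_111, z3_12.symm]
  · rw [ptB_negSucc]
    rcases n with _ | n
    · have h : (Int.negSucc 0 + 1) = 0 := rfl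
      rw [h, ptB_zero]
      simp [shift]
    · have h : (Int.negSucc (n + 1) + 1) = Int.negSucc n := rfl
      rw [h, ptB_negSucc]
      simp [shift]

/-- `s` fixes ray 2 -/
theorem sgA_fix (x : ℤ) (hx : 1 ≤ x) : sg 0 (ptB x) = ptB x := by
  obtain ⟨n, rfl⟩ : ∃ n : ℕ, x = n + 1 := ⟨(x - 1).toNat, by omega⟩
  rw [sg_apply, ptB_succ]
  rcases n with _ | n
  · simp [shift, z3_02.symm, z3_12.symm]
  · simp [shift, z3_02.symm, z3_12.symm]

/-- `r` fixes ray 0 -/
theorem sgB_fix (x : ℤ) (hx : x ≤ -1) : sg 1 (ptA x) = ptA x := by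
  obtain ⟨n, rfl⟩ : ∃ n : ℕ, x = Int.negSucc n := ⟨(-x - 1).toNat, by omega⟩
  rw [sg_apply, ptA_negSucc]
  rcases n with _ | n
  · simp [shift, z3_111, z3_02]
  · simp [shift, z3_111, z3_02]

theorem zpA (n x : ℤ) : ((sg 0) ^ n) (ptA x) = ptA (x + n) := zpow_shift _ _ sgA n x
theorem zpB (n x : ℤ) : ((sg 1) ^ n) (ptB x) = ptB (x + n) := zpow_shift _ _ sgB n x
theorem zpA_fix (n x : ℤ) (hx : 1 ≤ x) : ((sg 0) ^ n) (ptB x) = ptB x :=
  zpow_fix _ _ (sgA_fix x hx) n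
theorem zpB_fix (n x : ℤ) (hx : x ≤ -1) : ((sg 1) ^ n) (ptA x) = ptA x :=
  zpow_fix _ _ (sgB_fix x hx) n

theorem ptA_inj : Function.Injective ptA := by
  intro x y h
  rcases int_cases x with rfl | ⟨n, rfl⟩ | ⟨n, rfl⟩ <;>
    rcases int_cases y with rfl | ⟨m, rfl⟩ | ⟨m, rfl⟩ <;>
    simp only [ptA_zero, ptA_succ, ptA_negSucc, Option.some.injEq, Prod.mk.injEq,
      reduceCtorEq] at h
  · rfl
  · rw [h.1]
  · exact absurd h.2 z3_01.symm
  · exact absurd h.2 z3_01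
  · rw [h.1]

theorem ptB_inj : Function.Injective ptB := by
  intro x y h
  rcases int_cases x with rfl | ⟨n, rfl⟩ | ⟨n, rfl⟩ <;>
    rcases int_cases y with rfl | ⟨m, rfl⟩ | ⟨m, rfl⟩ <;>
    simp only [ptB_zero, ptB_succ, ptB_negSucc, Option.some.injEq, Prod.mk.injEq,
      reduceCtorEq] at h
  · rfl
  · rw [h.1]
  · exact absurd h.2 z3_12.symm
  · exact absurd h.2 z3_12
  · rw [h.1]

theorem ptA_ne_ptB (x y : ℤ) (hy : 1 ≤ y) : ptA x ≠ ptB y := by
  obtain ⟨m, rfl⟩ : ∃ n : ℕ, y = n + 1 := ⟨(y - 1).toNat, by omega⟩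
  intro h
  rcases int_cases x with rfl | ⟨n, rfl⟩ | ⟨n, rfl⟩ <;>
    simp only [ptA_zero, ptA_succ, ptA_negSucc, ptB_succ, Option.some.injEq, Prod.mk.injEq,
      reduceCtorEq] at h
  · exact z3_12 h.2
  · exact z3_02 h.2

/-! ### conjugation -/

theorem conj_swap {α : Type} [DecidableEq α] (f : Equiv.Perm α) (x y : α) :
    f * Equiv.swap x y * f⁻¹ = Equiv.swap (f x) (f y) := (Equiv.swap_apply_apply f x y).symm

theorem mul_swap {α : Type} [DecidableEq α] (f : Equiv.Perm α) (x y : α) :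
    f * Equiv.swap x y = Equiv.swap (f x) (f y) * f := Equiv.mul_swap_eq_swap_mul f x y

/-- the swap of two points of ray 2 commutes with the powers of `s` -/
theorem comm_swapB (n x y : ℤ) (hx : 1 ≤ x) (hy : 1 ≤ y) :
    Commute ((sg 0) ^ n) (Equiv.swap (ptB x) (ptB y)) := by
  show _ * _ = _ * _
  rw [mul_swap, zpA_fix n x hx, zpA_fix n y hy]

end Pool.Agent.Lib.CoCF
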