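import Pool.Agent.Lib.CoCF.Eval

/-!
# Realizable values of blocks, cells, steps and rounds
-/

set_option autoImplicit false

namespace Pool.Agent.Lib.CoCF

/-- `Rz P D a l g`: `g` is the value of the items `l`, numbered from `a`, for some insertions and
displacements that satisfy `P` -/
inductive Rz (P : ℕ → Item → ℤ → ℤ → Prop) (D : ℕ) : ℕ → List Item → Equiv.Perm (Rays 3) → Prop
  | nil (a : ℕ) : Rz P D a [] 1
  | cons {a : ℕ} {x : Item} {l : List Item} {m E : ℤ} {g : Equiv.Perm (Rays 3)} (h : P a x m E)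
      (h' : Rz P D (a + 1) l g) : Rz P D a (x :: l) (x.val D m E * g)

theorem Rz.append {P : ℕ → Item → ℤ → ℤ → Prop} {D a : ℕ} {l l' : List Item}
    {g g' : Equiv.Perm (Rays 3)} (h : Rz P D a l g) (h' : Rz P D (a + l.length) l' g') :
    Rz P D a (l ++ l') (g * g') := by
  induction h with
  | nil a => simpa using h'
  | cons hP _ ih =>
    rw [List.cons_append, mul_assoc]
    refine Rz.cons hP (ih ?_)
    rw [List.length_cons] at h'
    have h1 : ∀ a n : ℕ, a + (n + 1) = a + 1 + n := by intro a n; ring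
    rwa [h1] at h'

theorem Rz.base {P : ℕ → Item → ℤ → ℤ → Prop} {D : ℕ} (hP : ∀ a x, P a x 0 0) (l : List Item)
    (a : ℕ) : Rz P D a l (valI D 0 0 a l) := by
  induction l generalizing a with
  | nil => exact Rz.nil a
  | cons x l ih => exact Rz.cons (hP a x) (ih (a + 1))

theorem Rz.mono {P P' : ℕ → Item → ℤ → ℤ → Prop} {D a : ℕ} {l : List Item}
    {g : Equiv.Perm (Rays 3)} (h : Rz P D a l g)
    (hPP : ∀ i, i < l.length → ∀ x m E, P (a + i) x m E → P' (a + i) x m E) : Rz P' D a l g := by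
  induction h with
  | nil a => exact Rz.nil a
  | cons hP _ ih =>
    refine Rz.cons (hPP 0 (by simp) _ _ _ hP) (ih ?_)
    intro i hi x m E h2
    have h3 := hPP (i + 1) (by simpa using hi) x m E
    have h1 : ∀ a n : ℕ, a + (n + 1) = a + 1 + n := by intro a n; ring
    rw [h1] at h3
    exact h3 h2

theorem valI_congr {D : ℕ} {mm EE mm' EE' : ℕ → ℤ} (l : List Item) (a : ℕ)
    (h : ∀ b, a ≤ b → mm b = mm' b ∧ EE b = EE' b) : valI D mm EE a l = valI D mm' EE' a l := by
  induction l generalizing a with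
  | nil => rfl
  | cons x l ih =>
    rw [valI, valI, ih (a + 1) (fun b hb => h b (by omega)), (h a le_rfl).1, (h a le_rfl).2]

theorem Rz.exists_fun {P : ℕ → Item → ℤ → ℤ → Prop} {D a : ℕ} {l : List Item}
    {g : Equiv.Perm (Rays 3)} (h : Rz P D a l g) :
    ∃ mm EE : ℕ → ℤ, (∀ i x, l[i]? = some x → P (a + i) x (mm (a + i)) (EE (a + i))) ∧
      (∀ b, b < a ∨ a + l.length ≤ b → mm b = 0 ∧ EE b = 0) ∧ valI D mm EE a l = g := by
  induction h with
  | nil a => exact ⟨0, 0, fun i x h => by simp at h, fun b _ => ⟨rfl, rfl⟩, rfl⟩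
  | @cons a x l m E g hP _ ih =>
    obtain ⟨mm, EE, h1, h2, h3⟩ := ih
    refine ⟨fun b => if b = a then m else mm b, fun b => if b = a then E else EE b, ?_, ?_, ?_⟩
    · intro i y hy
      rcases i with _ | i
      · simp only [List.getElem?_cons_zero, Option.some.injEq] at hy
        subst hy
        simpa using hP
      · rw [List.getElem?_cons_succ] at hy
        have h4 := h1 i y hy
        have h5 : a + (i + 1) = a + 1 + i := by ring
        have h6 : ¬ a + 1 + i = a := by omega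
        rw [h5]
        beta_reduce
        rw [if_neg h6, if_neg h6]
        exact h4
    · intro b hb
      rw [List.length_cons] at hb
      have h6 : ¬ b = a := by omega
      beta_reduce
      rw [if_neg h6, if_neg h6]
      exact h2 b (by omega)
    · rw [valI, if_pos rfl, if_pos rfl, ← h3]
      congr 1
      refine valI_congr l (a + 1) fun b hb => ?_
      have h6 : ¬ b = a := by omega
      rw [if_neg h6, if_neg h6]
      exact ⟨rfl, rfl⟩

/-! ### trivial lists -/

/-- the value without perturbation is trivial -/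
def Triv (l : List Item) : Prop := ∀ D a, valI D 0 0 a l = 1

theorem Triv.append {l l' : List Item} (h : Triv l) (h' : Triv l') : Triv (l ++ l') := by
  intro D a
  rw [valI_append, h, h', one_mul]

theorem Triv.nil : Triv [] := fun _ _ => rfl

theorem Triv.flatMap {α : Type} (l : List α) (f : α → List Item) (h : ∀ x ∈ l, Triv (f x)) :
    Triv (l.flatMap f) := by
  induction l with
  | nil => exact Triv.nil
  | cons x l ih =>
    rw [List.flatMap_cons]
    exact (h x List.mem_cons_self).append (ih fun y hy => h y (List.mem_cons_of_mem _ hy))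

theorem Triv.rep {l : List Item} (h : Triv l) (n : ℕ) : Triv (List.replicate n l).flatten := by
  induction n with
  | zero => exact Triv.nil
  | succ n ih =>
    rw [List.replicate_succ, List.flatten_cons]
    exact h.append ih

theorem Triv.cell (g h : ℕ × ℕ) : Triv (cell g h) := by
  intro D a
  unfold CoCF.cell
  simp [valI, Item.val, List.replicate, Equiv.swap_mul_self]

theorem Triv.stepI (k : ℕ) : Triv (stepI k) :=
  Triv.flatMap _ _ fun g _ => Triv.flatMap _ _ fun h _ => Triv.cell g h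

theorem Triv.csw {l : List Item} (hl : Triv l) (t : ℕ) : Triv ([.csw t] ++ l ++ [.csw t]) := by
  intro D a
  rw [valI_append, valI_append, hl]
  simp [valI, Item.val]

theorem Triv.roundI (k : ℕ) : Triv (roundI k) :=
  Triv.flatMap _ _ fun t _ => (Triv.stepI k).csw t

theorem Triv.UI (k R : ℕ) : Triv (UI k R) := (Triv.roundI k).rep R

theorem valI_zero (D k R : ℕ) : valI D 0 0 1 (UI k R) = 1 := Triv.UI k R D 1

theorem valI_UI_one (D k R : ℕ) (a : ℕ) : valI D 0 0 a (UI k R) = 1 := Triv.UI k R D a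

theorem Rz.one {P : ℕ → Item → ℤ → ℤ → Prop} {D : ℕ} (hP : ∀ a x, P a x 0 0) {l : List Item}
    (hl : Triv l) (a : ℕ) : Rz P D a l 1 := by
  have h := Rz.base (D := D) hP l a
  rwa [hl] at h

/-! ### the perturbations -/

/-- admissible data of the item `x` with number `a`, apart from the condition on the round -/
def okB (lab : ℕ → Bool) (sl : ℕ → ℚ) (K B : ℕ) (a : ℕ) (x : Item) (m E : ℤ) : Prop :=
  (|m| ≤ B ∧ |E| ≤ B) ∧ (m ≠ 0 ∨ E ≠ 0 → (∃ i j, x = .zone i j) ∧
    (lab a = true → E = 0 ∧ (K : ℤ) ∣ m) ∧ (lab a = false → (K : ℤ) ∣ E ∧ (m : ℚ) = sl a * E))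

/-- admissible data of the item `x` with number `a` -/
def okA (bad rl : ℕ) (lab : ℕ → Bool) (sl : ℕ → ℚ) (K B : ℕ) (a : ℕ) (x : Item) (m E : ℤ) : Prop :=
  okB lab sl K B a x m E ∧ (m ≠ 0 ∨ E ≠ 0 → (a - 1) / rl ≠ bad)

theorem okB_zero (lab : ℕ → Bool) (sl : ℕ → ℚ) (K B : ℕ) (a : ℕ) (x : Item) :
    okB lab sl K B a x 0 0 := by
  refine ⟨by simp, fun h => ?_⟩
  simp at h

theorem okA_zero (bad rl : ℕ) (lab : ℕ → Bool) (sl : ℕ → ℚ) (K B : ℕ) (a : ℕ) (x : Item) :
    okA bad rl lab sl K B a x 0 0 := by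
  refine ⟨okB_zero _ _ _ _ _ _, fun h => ?_⟩
  simp at h

theorem Rz.adm {k R bad : ℕ} {lab : ℕ → Bool} {sl : ℕ → ℚ} {K C D : ℕ}
    {g : Equiv.Perm (Rays 3)} (h : Rz (okA bad (roundLen k) lab sl K (C * D)) D 1 (UI k R) g) :
    ∃ mm EE : ℕ → ℤ, Adm k R bad lab sl K C D mm EE ∧ valI D mm EE 1 (UI k R) = g := by
  obtain ⟨mm, EE, h1, h2, h3⟩ := h.exists_fun
  refine ⟨mm, EE, ?_, h3⟩
  intro a
  by_cases ha : 1 ≤ a ∧ a - 1 < (UI k R).length
  · obtain ⟨i, rfl⟩ : ∃ i, a = 1 + i := ⟨a - 1, by omega⟩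
    have h4 : 1 + i - 1 = i := by omega
    rw [h4] at ha
    have h5 := h1 i _ (List.getElem?_eq_getElem ha.2)
    obtain ⟨⟨h6, h7⟩, h8⟩ := h5
    push_cast at h6
    refine ⟨h6, fun hne => ?_⟩
    obtain ⟨⟨i', j', h9⟩, h10⟩ := h7 hne
    refine ⟨⟨by omega, i', j', ?_⟩, h8 hne, h10⟩
    rw [h4, List.getElem?_eq_getElem ha.2, h9]
  · obtain ⟨h4, h5⟩ := h2 a (by omega)
    rw [h4, h5]
    refine ⟨⟨?_, ?_⟩, fun hne => ?_⟩
    · rw [abs_zero]; positivity
    · rw [abs_zero]; positivity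
    · simp at hne

/-! ### blocks -/

/-- the displaced value of a zone -/
noncomputable def hB (D i j : ℕ) (x : ℤ) : Equiv.Perm (Rays 3) :=
  Equiv.swap (ptB (D ^ 2 + D * i + x)) (ptB (D ^ 2 + D * j + x))

theorem hB_sq (D i j : ℕ) (x : ℤ) : hB D i j x * hB D i j x = 1 := Equiv.swap_mul_self _ _

theorem val_zone (D i j : ℕ) (m E : ℤ) : (Item.zone i j).val D m E = (sg 0) ^ m * hB D i j E := rfl

theorem pos_small {D : ℕ} {x : ℤ} (hx : 2 * |x| < D) (i : ℕ) : (1 : ℤ) ≤ (D : ℤ) ^ 2 + D * i + x := by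
  have h1 := abs_nonneg x
  have h2 := neg_abs_le x
  have h3 : (1 : ℤ) ≤ D := by omega
  have h4 : (D : ℤ) ≤ (D : ℤ) ^ 2 := by nlinarith
  have h5 : (0 : ℤ) ≤ (D : ℤ) * i := by positivity
  linarith

theorem comm_hB {D : ℕ} (i j : ℕ) {x : ℤ} (hx : 2 * |x| < D) (n : ℤ) :
    Commute ((sg 0) ^ n) (hB D i j x) := comm_swapB n _ _ (pos_small hx i) (pos_small hx j)

theorem swap_commute {α : Type} [DecidableEq α] {a b c d : α} (h1 : a ≠ c) (h2 : a ≠ d)
    (h3 : b ≠ c) (h4 : b ≠ d) : Commute (Equiv.swap a b) (Equiv.swap c d) := by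
  show _ * _ = _ * _
  rw [mul_swap, Equiv.swap_apply_of_ne_of_ne h1.symm h3.symm,
    Equiv.swap_apply_of_ne_of_ne h2.symm h4.symm]

/-- small displacements are determined -/
theorem lin_inj {D : ℕ} {i j : ℕ} {x y : ℤ} (hx : 2 * |x| < D) (hy : 2 * |y| < D)
    (h : (D : ℤ) * i + x = D * j + y) : i = j ∧ x = y := by
  have h1 : (D : ℤ) * ((i : ℤ) - j) = y - x := by linarith
  have h2 : |y - x| < D := by
    have := abs_sub y x
    omega
  have hD : (0 : ℤ) < D := by
    have := abs_nonneg x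
    omega
  by_cases h3 : i = j
  · subst h3
    exact ⟨rfl, by linarith⟩
  · exfalso
    have h4 : (1 : ℤ) ≤ |(i : ℤ) - j| := by
      apply Int.one_le_abs
      omega
    rw [← h1, abs_mul, abs_of_pos hD] at h2
    nlinarith

theorem hB_commute {D i j : ℕ} {x y : ℤ} (hx : 2 * |x| < D) (hy : 2 * |y| < D) :
    Commute (hB D i j x) (hB D i j y) := by
  by_cases hxy : x = y
  · subst hxy
    exact Commute.refl _
  · have key : ∀ i' j' : ℕ, ptB ((D : ℤ) ^ 2 + D * i' + x) ≠ ptB ((D : ℤ) ^ 2 + D * j' + y) := by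
      intro i' j' h
      have h1 := ptB_inj h
      exact hxy (lin_inj (i := i') (j := j') hx hy (by linarith)).2
    exact swap_commute (key i i) (key i j) (key j i) (key j j)

theorem Rz_four {P : ℕ → Item → ℤ → ℤ → Prop} {D a : ℕ} {z : Item} (m E : ℕ → ℤ)
    (h : ∀ b, b < 4 → P (a + b) z (m b) (E b)) :
    Rz P D a (List.replicate 4 z) (z.val D (m 0) (E 0) * (z.val D (m 1) (E 1) *
      (z.val D (m 2) (E 2) * (z.val D (m 3) (E 3) * 1)))) := by
  have h0 := h 0 (by norm_num)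
  have h1 := h 1 (by norm_num)
  have h2 := h 2 (by norm_num)
  have h3 := h 3 (by norm_num)
  exact Rz.cons h0 (Rz.cons h1 (Rz.cons h2 (Rz.cons h3 (Rz.nil _))))

theorem four_val {D i j : ℕ} (m E : ℕ → ℤ) (hE : ∀ b, b < 4 → 2 * |E b| < D) :
    (Item.zone i j).val D (m 0) (E 0) * ((Item.zone i j).val D (m 1) (E 1) *
      ((Item.zone i j).val D (m 2) (E 2) * ((Item.zone i j).val D (m 3) (E 3) * 1))) =
    (sg 0) ^ (m 0 + m 1 + m 2 + m 3) * ([E 0, E 1, E 2, E 3].map (hB D i j)).prod := by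
  have c0 := fun n => (comm_hB i j (hE 0 (by norm_num)) n).eq
  have c1 := fun n => (comm_hB i j (hE 1 (by norm_num)) n).eq
  have c2 := fun n => (comm_hB i j (hE 2 (by norm_num)) n).eq
  simp only [val_zone, List.map_cons, List.map_nil, List.prod_cons, List.prod_nil, mul_one,
    zpow_add]
  set p0 := (sg 0) ^ (m 0)
  set p1 := (sg 0) ^ (m 1) with hp1
  set p2 := (sg 0) ^ (m 2) with hp2
  set p3 := (sg 0) ^ (m 3) with hp3
  have d01 : hB D i j (E 0) * p1 = p1 * hB D i j (E 0) := (c0 (m 1)).symm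
  have d02 : hB D i j (E 0) * p2 = p2 * hB D i j (E 0) := (c0 (m 2)).symm
  have d03 : hB D i j (E 0) * p3 = p3 * hB D i j (E 0) := (c0 (m 3)).symm
  have d12 : hB D i j (E 1) * p2 = p2 * hB D i j (E 1) := (c1 (m 2)).symm
  have d13 : hB D i j (E 1) * p3 = p3 * hB D i j (E 1) := (c1 (m 3)).symm
  have d23 : hB D i j (E 2) * p3 = p3 * hB D i j (E 2) := (c2 (m 3)).symm
  have r01 : ∀ x, hB D i j (E 0) * (p1 * x) = p1 * (hB D i j (E 0) * x) := by
    intro x; rw [← mul_assoc, d01, mul_assoc]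
  have r02 : ∀ x, hB D i j (E 0) * (p2 * x) = p2 * (hB D i j (E 0) * x) := by
    intro x; rw [← mul_assoc, d02, mul_assoc]
  have r03 : ∀ x, hB D i j (E 0) * (p3 * x) = p3 * (hB D i j (E 0) * x) := by
    intro x; rw [← mul_assoc, d03, mul_assoc]
  have r12 : ∀ x, hB D i j (E 1) * (p2 * x) = p2 * (hB D i j (E 1) * x) := by
    intro x; rw [← mul_assoc, d12, mul_assoc]
  have r13 : ∀ x, hB D i j (E 1) * (p3 * x) = p3 * (hB D i j (E 1) * x) := by
    intro x; rw [← mul_assoc, d13, mul_assoc]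
  have r23 : ∀ x, hB D i j (E 2) * (p3 * x) = p3 * (hB D i j (E 2) * x) := by
    intro x; rw [← mul_assoc, d23, mul_assoc]
  simp only [mul_assoc]
  rw [r23, r12, r13, r01, r02, r03]

theorem block_A {lab : ℕ → Bool} {sl : ℕ → ℚ} {K B D : ℕ} (a i j : ℕ) (hD : 1 ≤ D)
    (hT : ∃ b, b < 4 ∧ lab (a + b) = true) (M : ℤ) (hK : (K : ℤ) ∣ M) (hM : |M| ≤ B) :
    Rz (okB lab sl K B) D a (List.replicate 4 (.zone i j)) ((sg 0) ^ M) := by
  obtain ⟨b, hb, hl⟩ := hT
  have h := Rz_four (P := okB lab sl K B) (D := D) (a := a) (z := .zone i j)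
    (fun b' => if b' = b then M else 0) (fun _ => 0) (by
      intro b' hb'
      by_cases h : b' = b
      · subst h
        refine ⟨⟨by simpa using hM, by simp⟩, fun _ => ⟨⟨i, j, rfl⟩, fun _ => ⟨rfl, ?_⟩, ?_⟩⟩
        · simpa using hK
        · intro h2
          rw [hl] at h2
          exact absurd h2 (by simp)
      · rw [if_neg h]
        exact okB_zero _ _ _ _ _ _)
  have hv := four_val (D := D) (i := i) (j := j) (fun b' => if b' = b then M else 0) (fun _ => 0)
    (by
      intro b _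
      rw [abs_zero, mul_zero]
      exact_mod_cast hD)
  rw [hv] at h
  · have h1 : ([(0 : ℤ), 0, 0, 0].map (hB D i j)).prod = 1 := by
      simp only [List.map_cons, List.map_nil, List.prod_cons, List.prod_nil, mul_one]
      rw [hB_sq, mul_one, hB_sq]
    rw [h1, mul_one] at h
    have h2 : ((if 0 = b then M else 0) + (if 1 = b then M else 0) + (if 2 = b then M else 0) +
        (if 3 = b then M else 0) : ℤ) = M := by
      have h3 : b = 0 ∨ b = 1 ∨ b = 2 ∨ b = 3 := by omega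
      rcases h3 with rfl | rfl | rfl | rfl <;> simp
    simp only [h2] at h
    exact h

/-- the block of four displaced zones -/
theorem block_B {lab : ℕ → Bool} {sl : ℕ → ℚ} {K B D : ℕ} (a : ℕ) {i j : ℕ}
    (hlab : ∀ b, b < 4 → lab (a + b) = false) {B0 : ℕ} (hB0 : B0 ≤ B) (hD : 2 * B0 < D)
    (m E : ℕ → ℤ) (x w : ℤ) (h : ∀ b, b < 4 → |m b| ≤ B0 ∧ |E b| ≤ B0 ∧ (K : ℤ) ∣ E b ∧
      (m b : ℚ) = sl (a + b) * E b) (hm : m 0 + m 1 + m 2 + m 3 = 0)
    (hp : List.Perm [E 0, E 1, E 2, E 3] [x, w, w, 0]) :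
    Rz (okB lab sl K B) D a (List.replicate 4 (.zone i j)) (hB D i j x * hB D i j 0) := by
  have hB0' : (B0 : ℤ) ≤ B := by exact_mod_cast hB0
  have hsmall : ∀ b, b < 4 → 2 * |E b| < D := by
    intro b hb
    have h1 := (h b hb).2.1
    omega
  have h1 := Rz_four (P := okB lab sl K B) (D := D) (a := a) (z := .zone i j) m E (by
      intro b hb
      obtain ⟨h2, h3, h4, h5⟩ := h b hb
      refine ⟨⟨le_trans h2 hB0', le_trans h3 hB0'⟩, fun _ => ⟨⟨i, j, rfl⟩, fun h6 => ?_,
        fun _ => ⟨h4, h5⟩⟩⟩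
      rw [hlab b hb] at h6
      exact absurd h6 (by simp))
  rw [four_val m E hsmall, hm, zpow_zero, one_mul] at h1
  have h2 : ([E 0, E 1, E 2, E 3].map (hB D i j)).prod = ([x, w, w, 0].map (hB D i j)).prod := by
    refine List.Perm.prod_eq' (hp.map _) ?_
    have c : ∀ b c, b < 4 → c < 4 → Commute (hB D i j (E b)) (hB D i j (E c)) := fun b c hb hc =>
      hB_commute (hsmall b hb) (hsmall c hc)
    simp only [List.map_cons, List.map_nil, List.pairwise_cons, List.mem_cons, List.not_mem_nil,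
      or_false, forall_eq_or_imp, forall_eq, IsEmpty.forall_iff, implies_true, List.Pairwise.nil,
      and_true]
    exact ⟨⟨c 0 1 (by norm_num) (by norm_num), c 0 2 (by norm_num) (by norm_num),
      c 0 3 (by norm_num) (by norm_num)⟩, ⟨c 1 2 (by norm_num) (by norm_num),
      c 1 3 (by norm_num) (by norm_num)⟩, c 2 3 (by norm_num) (by norm_num)⟩
  rw [h2] at h1
  simp only [List.map_cons, List.map_nil, List.prod_cons, List.prod_nil, mul_one] at h1
  rw [← mul_assoc (hB D i j w), hB_sq, one_mul] at h1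
  exact h1

end Pool.Agent.Lib.CoCF
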