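import Pool.Agent.Lib.CoCF.KillReal

/-!
# Slopes, cells, steps, rounds
-/

set_option autoImplicit false

namespace Pool.Agent.Lib.CoCF

/-! ### slopes -/

theorem slopes (t : ℕ → ℤ) : ∃ (q w : ℤ) (v : ℕ → ℤ), q ≠ 0 ∧
    List.Perm [v 0, v 1, v 2, v 3] [q, w, w, 0] ∧
    t 0 * v 0 + t 1 * v 1 + t 2 * v 2 + t 3 * v 3 = 0 := by
  by_cases h1 : t 1 + t 2 = 0
  · by_cases h2 : t 1 + t 3 = 0
    · by_cases h3 : t 2 + t 3 = 0
      · refine ⟨1, 0, fun b => if b = 1 then 1 else 0, one_ne_zero, ?_, ?_⟩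
        · exact List.Perm.swap _ _ _
        · norm_num
          omega
      · refine ⟨t 2 + t 3, - t 0, fun b => if b = 0 then t 2 + t 3 else if b = 1 then 0 else - t 0,
          h3, ?_, ?_⟩
        · norm_num
          exact (List.Perm.swap _ _ _).trans ((List.Perm.swap _ _ _).cons _)
        · norm_num
          ring
    · refine ⟨t 1 + t 3, - t 0, fun b => if b = 0 then t 1 + t 3 else if b = 2 then 0 else - t 0,
          h2, ?_, ?_⟩
      · norm_num
        exact List.Perm.swap _ _ _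
      · norm_num
        ring
  · refine ⟨t 1 + t 2, - t 0, fun b => if b = 0 then t 1 + t 2 else if b = 3 then 0 else - t 0,
          h1, ?_, ?_⟩
    · norm_num
    · norm_num
      ring

/-- one displacement `Kp` for all blocks -/
theorem exists_uniform (lab : ℕ → Bool) (sl : ℕ → ℚ) (K L : ℕ) (hK : 0 < K)
    (hint : ∀ a, lab a = false → ∃ q : ℤ, (q : ℚ) = K * sl a) :
    ∃ Kp B0 : ℕ, 0 < Kp ∧ K ∣ Kp ∧ 2 * Kp ≤ B0 ∧ ∀ a, a < L → (∀ b, b < 4 → lab (a + b) = false) →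
      ∀ e : ℤ, |e| ≤ 2 → ∃ (m E : ℕ → ℤ) (w : ℤ), (∀ b, b < 4 → |m b| ≤ B0 ∧ |E b| ≤ B0 ∧
        (K : ℤ) ∣ E b ∧ (m b : ℚ) = sl (a + b) * E b) ∧ m 0 + m 1 + m 2 + m 3 = 0 ∧
        List.Perm [E 0, E 1, E 2, E 3] [e * Kp, w, w, 0] := by
  have hint' : ∀ a, ∃ q : ℤ, lab a = false → (q : ℚ) = K * sl a := by
    intro a
    by_cases h : lab a = false
    · obtain ⟨q, hq⟩ := hint a h
      exact ⟨q, fun _ => hq⟩
    · exact ⟨0, fun h2 => absurd h2 h⟩
  choose τ hτ using hint'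
  choose q w v hq hp hs using fun a : ℕ => slopes fun b => τ (a + b)
  set Q : ℤ := ∏ a ∈ Finset.range L, |q a| with hQ
  have hQpos : 0 < Q := Finset.prod_pos fun a _ => abs_pos.2 (hq a)
  have hQdvd : ∀ a, a < L → q a ∣ Q := by
    intro a ha
    have h1 : |q a| ∣ Q := Finset.dvd_prod_of_mem (fun a => |q a|) (Finset.mem_range.2 ha)
    exact (abs_dvd _ _).1 h1
  set bd : ℕ → ℕ → ℤ := fun a b => 2 * |v a b * K * (Q / q a)| + 2 * |τ (a + b) * v a b * (Q / q a)|
    with hbd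
  have hbd0 : ∀ a b, 0 ≤ bd a b := by intro a b; positivity
  set B0 : ℤ := 2 * (K * Q) + ∑ a ∈ Finset.range L, ∑ b ∈ Finset.range 4, bd a b with hB0
  have hle : ∀ a b, a < L → b < 4 → bd a b ≤ B0 := by
    intro a b ha hb
    have h1 : bd a b ≤ ∑ b ∈ Finset.range 4, bd a b :=
      Finset.single_le_sum (f := fun b => bd a b) (fun i _ => hbd0 a i) (Finset.mem_range.2 hb)
    have h2 : ∑ b ∈ Finset.range 4, bd a b ≤ ∑ a ∈ Finset.range L, ∑ b ∈ Finset.range 4, bd a b :=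
      Finset.single_le_sum (f := fun a => ∑ b ∈ Finset.range 4, bd a b)
        (fun i _ => Finset.sum_nonneg fun j _ => hbd0 i j) (Finset.mem_range.2 ha)
    have h3 : (0 : ℤ) ≤ 2 * (K * Q) := by positivity
    linarith
  have hB0pos : 0 ≤ B0 := by
    have h3 : (0 : ℤ) ≤ 2 * (K * Q) := by positivity
    have h4 : 0 ≤ ∑ a ∈ Finset.range L, ∑ b ∈ Finset.range 4, bd a b :=
      Finset.sum_nonneg fun i _ => Finset.sum_nonneg fun j _ => hbd0 i j
    linarith
  have hKp : ((K * Q.toNat : ℕ) : ℤ) = K * Q := by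
    push_cast
    rw [Int.toNat_of_nonneg hQpos.le]
  have hB0n : (B0.toNat : ℤ) = B0 := Int.toNat_of_nonneg hB0pos
  refine ⟨K * Q.toNat, B0.toNat, ?_, dvd_mul_right _ _, ?_, ?_⟩
  · have : (0 : ℤ) < ((K * Q.toNat : ℕ) : ℤ) := by rw [hKp]; positivity
    exact_mod_cast this
  · have : ((2 * (K * Q.toNat) : ℕ) : ℤ) ≤ (B0.toNat : ℤ) := by
      rw [Nat.cast_mul, hKp, hB0n, hB0]
      have h4 : 0 ≤ ∑ a ∈ Finset.range L, ∑ b ∈ Finset.range 4, bd a b :=
        Finset.sum_nonneg fun i _ => Finset.sum_nonneg fun j _ => hbd0 i j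
      push_cast
      linarith
    exact_mod_cast this
  · intro a ha hlab e he
    rw [hB0n, hKp]
    have hqa : q a * (Q / q a) = Q := Int.mul_ediv_cancel' (hQdvd a ha)
    set n : ℤ := e * (Q / q a) with hn
    refine ⟨fun b => τ (a + b) * v a b * n, fun b => v a b * (K * n), w a * (K * n), ?_, ?_, ?_⟩
    · intro b hb
      have hb1 := hle a b ha hb
      have hb2 : 0 ≤ |v a b * K * (Q / q a)| := abs_nonneg _
      have hb3 : 0 ≤ |τ (a + b) * v a b * (Q / q a)| := abs_nonneg _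
      rw [hbd] at hb1
      dsimp only at hb1
      refine ⟨?_, ?_, ?_, ?_⟩
      · have h1 : τ (a + b) * v a b * n = e * (τ (a + b) * v a b * (Q / q a)) := by rw [hn]; ring
        beta_reduce
        rw [h1, abs_mul]
        calc |e| * |τ (a + b) * v a b * (Q / q a)| ≤ 2 * |τ (a + b) * v a b * (Q / q a)| :=
              mul_le_mul_of_nonneg_right he hb3
          _ ≤ B0 := by linarith
      · have h1 : v a b * (K * n) = e * (v a b * K * (Q / q a)) := by rw [hn]; ring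
        beta_reduce
        rw [h1, abs_mul]
        calc |e| * |v a b * K * (Q / q a)| ≤ 2 * |v a b * K * (Q / q a)| :=
              mul_le_mul_of_nonneg_right he hb2
          _ ≤ B0 := by linarith
      · exact ⟨v a b * n, by ring⟩
      · have h1 := hτ (a + b) (hlab b hb)
        push_cast
        rw [h1]
        ring
    · have h1 := hs a
      have h2 : τ (a + 0) * v a 0 * n + τ (a + 1) * v a 1 * n + τ (a + 2) * v a 2 * n +
          τ (a + 3) * v a 3 * n = (τ (a + 0) * v a 0 + τ (a + 1) * v a 1 + τ (a + 2) * v a 2 +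
          τ (a + 3) * v a 3) * n := by ring
      rw [h2, h1, zero_mul]
    · have h1 := (hp a).map (fun x => x * (K * n))
      simp only [List.map_cons, List.map_nil, zero_mul] at h1
      have h2 : q a * (K * n) = e * (K * Q) := by
        have h3 : q a * (K * n) = e * (K * (q a * (Q / q a))) := by rw [hn]; ring
        rw [h3, hqa]
      rw [h2] at h1
      exact h1

/-! ### cells -/

/-- the value of `aop i j` -/
noncomputable def gA (D i j : ℕ) : Equiv.Perm (Rays 3) := Equiv.swap (ptA (D * i)) (ptA (D * j))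

/-- the value of `csw t` -/
noncomputable def Cv (D t : ℕ) : Equiv.Perm (Rays 3) :=
  Equiv.swap (ptA (D * t)) (ptB (D ^ 2 + D * t))

theorem gA_sq (D i j : ℕ) : gA D i j * gA D i j = 1 := Equiv.swap_mul_self _ _
theorem Cv_sq (D t : ℕ) : Cv D t * Cv D t = 1 := Equiv.swap_mul_self _ _

/-- the cell with number `a` has a zone of label T in both blocks -/
def AT (lab : ℕ → Bool) (a : ℕ) : Prop :=
  (∃ b, b < 4 ∧ lab (a + b) = true) ∧ ∃ b, b < 4 ∧ lab (a + 5 + b) = true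

theorem Rz_aop {P : ℕ → Item → ℤ → ℤ → Prop} {D : ℕ} (hP : ∀ a x, P a x 0 0) (a i j : ℕ) :
    Rz P D a [.aop i j] (gA D i j) := by
  have h := Rz.cons (D := D) (hP a (.aop i j)) (Rz.nil (a + 1))
  rwa [mul_one] at h

theorem Rz_csw {P : ℕ → Item → ℤ → ℤ → Prop} {D : ℕ} (hP : ∀ a x, P a x 0 0) (a t : ℕ) :
    Rz P D a [.csw t] (Cv D t) := by
  have h := Rz.cons (D := D) (hP a (.csw t)) (Rz.nil (a + 1))
  rwa [mul_one] at h

theorem Triv.block (i j : ℕ) : Triv (List.replicate 4 (.zone i j)) := by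
  intro D a
  simp [valI, Item.val, List.replicate, Equiv.swap_mul_self]

section cells

variable {lab : ℕ → Bool} {sl : ℕ → ℚ} {K B D : ℕ}

theorem cell_A (hD : 1 ≤ D) {a : ℕ} (ha : AT lab a) (g h : ℕ × ℕ) (M : ℤ) (hK : (K : ℤ) ∣ M)
    (hM : |M| ≤ B) :
    Rz (okB lab sl K B) D a (cell g h)
      ((sg 0) ^ M * gA D g.1 g.2 * (sg 0) ^ (-M) * gA D g.1 g.2) := by
  have h1 := block_A (sl := sl) (K := K) (B := B) (D := D) a h.1 h.2 hD ha.1 M hK hM
  have h2 := Rz_aop (D := D) (okB_zero lab sl K B) (a + 4) g.1 g.2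
  have h3 := block_A (sl := sl) (K := K) (B := B) (D := D) (a + 5) h.1 h.2 hD ha.2 (-M)
    ((dvd_neg).2 hK) (by rwa [abs_neg])
  have h4 := Rz_aop (D := D) (okB_zero lab sl K B) (a + 9) g.1 g.2
  exact ((h1.append h2).append h3).append h4

theorem cell_S (hD : 1 ≤ D) {a : ℕ} (ha : AT lab a) (g h : ℕ × ℕ) (M : ℤ) (hK : (K : ℤ) ∣ M)
    (hM : |M| ≤ B) : Rz (okB lab sl K B) D a (cell g h) ((sg 0) ^ M) := by
  have h1 := block_A (sl := sl) (K := K) (B := B) (D := D) a h.1 h.2 hD ha.1 M hK hM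
  have h2 := Rz_aop (D := D) (okB_zero lab sl K B) (a + 4) g.1 g.2
  have h3 := Rz.one (D := D) (okB_zero lab sl K B) (Triv.block h.1 h.2) (a + 5)
  have h4 := Rz_aop (D := D) (okB_zero lab sl K B) (a + 9) g.1 g.2
  have h5 := ((h1.append h2).append h3).append h4
  rw [mul_one, mul_assoc, gA_sq, mul_one] at h5
  exact h5

theorem gA_comm_hB (g1 g2 i j : ℕ) {x : ℤ} (hx : 2 * |x| < D) :
    Commute (gA D g1 g2) (hB D i j x) :=
  swap_commute (ptA_ne_ptB _ _ (pos_small hx i)) (ptA_ne_ptB _ _ (pos_small hx j))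
    (ptA_ne_ptB _ _ (pos_small hx i)) (ptA_ne_ptB _ _ (pos_small hx j))

/-- what `exists_uniform` provides -/
def Unif (lab : ℕ → Bool) (sl : ℕ → ℚ) (K L Kp B0 : ℕ) : Prop :=
  ∀ a, a < L → (∀ b, b < 4 → lab (a + b) = false) →
      ∀ e : ℤ, |e| ≤ 2 → ∃ (m E : ℕ → ℤ) (w : ℤ), (∀ b, b < 4 → |m b| ≤ B0 ∧ |E b| ≤ B0 ∧
        (K : ℤ) ∣ E b ∧ (m b : ℚ) = sl (a + b) * E b) ∧ m 0 + m 1 + m 2 + m 3 = 0 ∧
        List.Perm [E 0, E 1, E 2, E 3] [e * Kp, w, w, 0]

theorem cell_B {L Kp B0 : ℕ} (hU : Unif lab sl K L Kp B0) (hB0 : B0 ≤ B) (hD : 2 * B0 < D)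
    (hKp : 2 * Kp ≤ B0) {a : ℕ} (haL : a + 10 ≤ L) (ha : ¬ AT lab a) (g h : ℕ × ℕ) (e : ℤ)
    (he : |e| ≤ 2) :
    Rz (okB lab sl K B) D a (cell g h) (hB D h.1 h.2 (e * Kp) * hB D h.1 h.2 0) := by
  have hx : 2 * |e * (Kp : ℤ)| < D := by
    rw [abs_mul, Nat.abs_cast]
    have h1 : |e| * (Kp : ℤ) ≤ 2 * Kp := mul_le_mul_of_nonneg_right he (by positivity)
    omega
  have h0 : 2 * |(0 : ℤ)| < D := by
    rw [abs_zero, mul_zero]
    omega
  have h2 := Rz_aop (D := D) (okB_zero lab sl K B) (a + 4) g.1 g.2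
  have h4 := Rz_aop (D := D) (okB_zero lab sl K B) (a + 9) g.1 g.2
  have hc : (∀ b, b < 4 → lab (a + b) = false) ∨ ∀ b, b < 4 → lab (a + 5 + b) = false := by
    by_contra hcon
    push Not at hcon
    obtain ⟨⟨b, hb, h5⟩, b', hb', h6⟩ := hcon
    exact ha ⟨⟨b, hb, by simpa using h5⟩, b', hb', by simpa using h6⟩
  rcases hc with hc | hc
  · obtain ⟨m, E, w, h5, h6, h7⟩ := hU a (by omega) hc e he
    have h1 := block_B (sl := sl) (K := K) (B := B) (D := D) a (i := h.1) (j := h.2) hc hB0 hD m E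
      (e * Kp) w h5 h6 h7
    have h3 := Rz.one (D := D) (okB_zero lab sl K B) (Triv.block h.1 h.2) (a + 5)
    have h8 := ((h1.append h2).append h3).append h4
    rw [mul_one, mul_assoc (_ * _), gA_sq, mul_one] at h8
    exact h8
  · obtain ⟨m, E, w, h5, h6, h7⟩ := hU (a + 5) (by omega) hc e he
    have h3 := block_B (sl := sl) (K := K) (B := B) (D := D) (a + 5) (i := h.1) (j := h.2) hc hB0 hD
      m E (e * Kp) w h5 h6 h7
    have h1 := Rz.one (D := D) (okB_zero lab sl K B) (Triv.block h.1 h.2) a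
    have h8 := ((h1.append h2).append h3).append h4
    have h9 : Commute (gA D g.1 g.2) (hB D h.1 h.2 (e * Kp) * hB D h.1 h.2 0) :=
      (gA_comm_hB _ _ _ _ hx).mul_right (gA_comm_hB _ _ _ _ h0)
    rw [one_mul, h9.eq, mul_assoc, gA_sq, mul_one] at h8
    exact h8

end cells

/-! ### steps -/

theorem step_split {k : ℕ} {g h : ℕ × ℕ} (hg : g ∈ prs k) (hh : h ∈ prs k) :
    ∃ L1 L2, stepI k = L1 ++ cell g h ++ L2 ∧ Triv L1 ∧ Triv L2 := by
  obtain ⟨s, t, hst⟩ := List.append_of_mem hg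
  obtain ⟨s', t', hst'⟩ := List.append_of_mem hh
  refine ⟨(s.flatMap fun g => (prs k).flatMap fun h => cell g h) ++ s'.flatMap fun h => cell g h,
    (t'.flatMap fun h => cell g h) ++ t.flatMap fun g => (prs k).flatMap fun h => cell g h,
    ?_, ?_, ?_⟩
  · have h1 : stepI k = (s.flatMap fun g => (prs k).flatMap fun h => cell g h) ++
        (((prs k).flatMap fun h => cell g h) ++
          t.flatMap fun g => (prs k).flatMap fun h => cell g h) := by
      have h2 : stepI k = (s ++ g :: t).flatMap fun g => (prs k).flatMap fun h => cell g h := by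
        rw [← hst]
        rfl
      rw [h2, List.flatMap_append, List.flatMap_cons]
    have h3 : ((prs k).flatMap fun h => cell g h) = (s'.flatMap fun h => cell g h) ++
        (cell g h ++ t'.flatMap fun h => cell g h) := by
      have h2 : ((prs k).flatMap fun h => cell g h) = (s' ++ h :: t').flatMap fun h => cell g h := by
        rw [← hst']
      rw [h2, List.flatMap_append, List.flatMap_cons]
    rw [h1, h3]
    simp only [List.append_assoc]
  · exact (Triv.flatMap _ _ fun g _ => Triv.flatMap _ _ fun h _ => Triv.cell g h).append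
      (Triv.flatMap _ _ fun h _ => Triv.cell g h)
  · exact (Triv.flatMap _ _ fun h _ => Triv.cell g h).append
      (Triv.flatMap _ _ fun g _ => Triv.flatMap _ _ fun h _ => Triv.cell g h)

open Classical in
/-- where the cell of `g`, `h` starts inside a step -/
noncomputable def off (k : ℕ) (g h : ℕ × ℕ) : ℕ :=
  if H : g ∈ prs k ∧ h ∈ prs k then (Classical.choose (step_split H.1 H.2)).length else 0

theorem off_spec {k : ℕ} {g h : ℕ × ℕ} (hg : g ∈ prs k) (hh : h ∈ prs k) :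
    ∃ L1 L2, stepI k = L1 ++ cell g h ++ L2 ∧ Triv L1 ∧ Triv L2 ∧ L1.length = off k g h := by
  obtain ⟨L2, h1, h2, h3⟩ := Classical.choose_spec (step_split hg hh)
  refine ⟨_, L2, h1, h2, h3, ?_⟩
  unfold off
  rw [dif_pos ⟨hg, hh⟩]

theorem cell_length (g h : ℕ × ℕ) : (cell g h).length = 10 := rfl

theorem off_le {k : ℕ} {g h : ℕ × ℕ} (hg : g ∈ prs k) (hh : h ∈ prs k) :
    off k g h + 10 ≤ (stepI k).length := by
  obtain ⟨L1, L2, h1, _, _, h4⟩ := off_spec hg hh
  rw [h1, List.length_append, List.length_append, cell_length, h4]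
  omega

theorem step_of_cell {P : ℕ → Item → ℤ → ℤ → Prop} {D : ℕ} (hP : ∀ a x, P a x 0 0) {k : ℕ}
    {g h : ℕ × ℕ} (hg : g ∈ prs k) (hh : h ∈ prs k) {a : ℕ} {x : Equiv.Perm (Rays 3)}
    (H : Rz P D (a + off k g h) (cell g h) x) : Rz P D a (stepI k) x := by
  obtain ⟨L1, L2, h1, h2, h3, h4⟩ := off_spec hg hh
  rw [h1]
  rw [← h4] at H
  have h5 := ((Rz.one (D := D) hP h2 a).append H).append (Rz.one (D := D) hP h3 _)
  rwa [one_mul, mul_one] at h5

/-- for each `g` some cell of the step can displace `g` -/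
def AOpen (k : ℕ) (lab : ℕ → Bool) (a : ℕ) : Prop :=
  ∀ g ∈ prs k, ∃ h ∈ prs k, AT lab (a + off k g h)

section steps

variable {k : ℕ} {lab : ℕ → Bool} {sl : ℕ → ℚ} {K B D : ℕ}

theorem step_A (hD : 1 ≤ D) {a : ℕ} (ha : AOpen k lab a) {g : ℕ × ℕ} (hg : g ∈ prs k) (M : ℤ)
    (hK : (K : ℤ) ∣ M) (hM : |M| ≤ B) :
    Rz (okB lab sl K B) D a (stepI k)
      ((sg 0) ^ M * gA D g.1 g.2 * (sg 0) ^ (-M) * gA D g.1 g.2) := by
  obtain ⟨h, hh, h1⟩ := ha g hg
  exact step_of_cell (okB_zero _ _ _ _) hg hh (cell_A hD h1 g h M hK hM)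

theorem step_S (hk : 2 ≤ k) (hD : 1 ≤ D) {a : ℕ} (ha : AOpen k lab a) (M : ℤ)
    (hK : (K : ℤ) ∣ M) (hM : |M| ≤ B) : Rz (okB lab sl K B) D a (stepI k) ((sg 0) ^ M) := by
  have hg : ((1, 2) : ℕ × ℕ) ∈ prs k := mem_prs.2 ⟨le_rfl, by norm_num, hk⟩
  obtain ⟨h, hh, h1⟩ := ha _ hg
  exact step_of_cell (okB_zero _ _ _ _) hg hh (cell_S hD h1 _ h M hK hM)

theorem step_B {L Kp B0 : ℕ} (hU : Unif lab sl K L Kp B0) (hB0 : B0 ≤ B) (hD : 2 * B0 < D)
    (hKp : 2 * Kp ≤ B0) {a : ℕ} (haL : a + (stepI k).length ≤ L) (ha : ¬ AOpen k lab a)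
    {h : ℕ × ℕ} (hh : h ∈ prs k) (e : ℤ) (he : |e| ≤ 2) :
    Rz (okB lab sl K B) D a (stepI k) (hB D h.1 h.2 (e * Kp) * hB D h.1 h.2 0) := by
  unfold AOpen at ha
  push Not at ha
  obtain ⟨g, hg, h1⟩ := ha
  have h2 := off_le hg hh
  exact step_of_cell (okB_zero _ _ _ _) hg hh
    (cell_B hU hB0 hD hKp (by omega) (h1 h hh) g h e he)

end steps

/-! ### rounds -/

theorem round_split {k t : ℕ} (h1 : 1 ≤ t) (h2 : t ≤ k) :
    ∃ L1 L2, roundI k = L1 ++ ([.csw t] ++ stepI k ++ [.csw t]) ++ L2 ∧ Triv L1 ∧ Triv L2 := by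
  have ht : t ∈ List.range' 1 k := by
    rw [List.mem_range'_1]
    omega
  obtain ⟨s, s', hst⟩ := List.append_of_mem ht
  refine ⟨s.flatMap fun t => [.csw t] ++ stepI k ++ [.csw t],
    s'.flatMap fun t => [.csw t] ++ stepI k ++ [.csw t], ?_, ?_, ?_⟩
  · have h3 : roundI k = (s ++ t :: s').flatMap fun t => [.csw t] ++ stepI k ++ [.csw t] := by
      rw [← hst]
      rfl
    rw [h3, List.flatMap_append, List.flatMap_cons]
    simp only [List.append_assoc]
  · exact Triv.flatMap _ _ fun t _ => (Triv.stepI k).csw t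
  · exact Triv.flatMap _ _ fun t _ => (Triv.stepI k).csw t

open Classical in
/-- where the step `t` starts inside a round (with its `csw t`) -/
noncomputable def soff (k t : ℕ) : ℕ :=
  if H : 1 ≤ t ∧ t ≤ k then (Classical.choose (round_split H.1 H.2)).length else 0

theorem soff_spec {k t : ℕ} (h1 : 1 ≤ t) (h2 : t ≤ k) :
    ∃ L1 L2, roundI k = L1 ++ ([.csw t] ++ stepI k ++ [.csw t]) ++ L2 ∧ Triv L1 ∧ Triv L2 ∧
      L1.length = soff k t := by
  obtain ⟨L2, h3, h4, h5⟩ := Classical.choose_spec (round_split h1 h2)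
  refine ⟨_, L2, h3, h4, h5, ?_⟩
  unfold soff
  rw [dif_pos ⟨h1, h2⟩]

theorem soff_le {k t : ℕ} (h1 : 1 ≤ t) (h2 : t ≤ k) :
    soff k t + 1 + (stepI k).length + 1 ≤ roundLen k := by
  obtain ⟨L1, L2, h3, _, _, h4⟩ := soff_spec h1 h2
  unfold roundLen
  rw [h3, List.length_append, List.length_append, List.length_append, List.length_append, h4,
    List.length_singleton]
  omega

theorem round_of_step {P : ℕ → Item → ℤ → ℤ → Prop} {D : ℕ} (hP : ∀ a x, P a x 0 0) {k t : ℕ}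
    (h1 : 1 ≤ t) (h2 : t ≤ k) {a : ℕ} {x : Equiv.Perm (Rays 3)}
    (H : Rz P D (a + soff k t + 1) (stepI k) x) :
    Rz P D a (roundI k) (Cv D t * x * Cv D t) := by
  obtain ⟨L1, L2, h3, h4, h5, h6⟩ := soff_spec h1 h2
  rw [h3]
  rw [← h6] at H
  have h7 := ((Rz_csw (D := D) hP (a + L1.length) t).append H).append
    (Rz_csw (D := D) hP (a + L1.length + ([Item.csw t] ++ stepI k).length) t)
  have h8 := ((Rz.one (D := D) hP h4 a).append h7).append (Rz.one (D := D) hP h5 _)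
  rwa [one_mul, mul_one] at h8

theorem Rz_rounds {P : ℕ → Item → ℤ → ℤ → Prop} {D : ℕ} (hP : ∀ a x, P a x 0 0) (k : ℕ)
    (good : ℕ → Bool) (V : Set (Equiv.Perm (Rays 3)))
    (hV : ∀ ρ, good ρ = true → ∀ g ∈ V, Rz P D (ρ * roundLen k + 1) (roundI k) g) :
    ∀ (R ρ : ℕ) (gs : List (Equiv.Perm (Rays 3))), (∀ g ∈ gs, g ∈ V) →
      gs.length ≤ ((List.range' ρ R).filter good).length →
      Rz P D (ρ * roundLen k + 1) (List.replicate R (roundI k)).flatten gs.prod := by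
  intro R
  induction R with
  | zero =>
    intro ρ gs _ h2
    simp only [List.range'_zero, List.filter_nil, List.length_nil, Nat.le_zero,
      List.length_eq_zero_iff] at h2
    subst h2
    exact Rz.nil _
  | succ R ih =>
    intro ρ gs h1 h2
    rw [List.range'_succ] at h2
    have hnum : ρ * roundLen k + 1 + (roundI k).length = (ρ + 1) * roundLen k + 1 := by
      unfold roundLen
      ring
    rw [List.replicate_succ, List.flatten_cons]
    by_cases hg : good ρ = true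
    · rw [List.filter_cons_of_pos hg, List.length_cons] at h2
      rcases gs with _ | ⟨g, gs⟩
      · have h3 := ih (ρ + 1) [] (by simp) (by simp)
        rw [← hnum] at h3
        have h4 := (Rz.one (D := D) hP (Triv.roundI k) (ρ * roundLen k + 1)).append h3
        rwa [one_mul] at h4
      · have h3 := ih (ρ + 1) gs (fun x hx => h1 x (List.mem_cons_of_mem _ hx))
          (by simpa using h2)
        rw [← hnum] at h3
        rw [List.prod_cons]
        exact (hV ρ hg g (h1 g List.mem_cons_self)).append h3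
    · rw [List.filter_cons_of_neg hg] at h2
      have h3 := ih (ρ + 1) gs h1 h2
      rw [← hnum] at h3
      have h4 := (Rz.one (D := D) hP (Triv.roundI k) (ρ * roundLen k + 1)).append h3
      rwa [one_mul] at h4

end Pool.Agent.Lib.CoCF
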