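import Pool.Agent.Lib.CoCF.Defs

/-!
# The concrete words used against `H_3`

Points: `Rays 3` (three rays glued at the centre).  The letters evaluate to permutations of it.
-/

set_option autoImplicit false

namespace Pool.Agent.Lib.CoCF

/-- the alphabet; a trailing `i` means inverse -/
inductive Ltr where
  | s | si | r | ri | tau | tA | tB | a | ai | b | bi
  deriving DecidableEq

instance : Finite Ltr := by
  classical
  refine Finite.of_injective (fun l : Ltr => (match l with
    | .s => (0 : Fin 11) | .si => 1 | .r => 2 | .ri => 3 | .tau => 4 | .tA => 5 | .tB => 6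
    | .a => 7 | .ai => 8 | .b => 9 | .bi => 10)) ?_
  intro x y h
  cases x <;> cases y <;> first | rfl | (exact absurd h (by decide))

/-- the permutation `σ_j` of the three rays -/
noncomputable def sg (j : ZMod 3) : Equiv.Perm (Rays 3) :=
  (exists_perm_shift (n := 3) (by norm_num) j).choose

theorem sg_apply (j : ZMod 3) (x : Rays 3) : sg j x = shift j x :=
  (exists_perm_shift (n := 3) (by norm_num) j).choose_spec x

/-- the value of a letter -/
noncomputable def ev : Ltr → Equiv.Perm (Rays 3)
  | .s => sg 0
  | .si => (sg 0)⁻¹
  | .r => sg 1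
  | .ri => (sg 1)⁻¹
  | .tau => Equiv.swap none (some (0, 0))
  | .tA => Equiv.swap none (some (0, 1))
  | .tB => Equiv.swap none (some (0, 2))
  | .a => Equiv.swap none (some (0, 1)) * sg 0
  | .ai => (Equiv.swap none (some (0, 1)) * sg 0)⁻¹
  | .b => Equiv.swap none (some (0, 2)) * sg 1
  | .bi => (Equiv.swap none (some (0, 2)) * sg 1)⁻¹

/-- the value of a word -/
noncomputable def evw (w : List Ltr) : Equiv.Perm (Rays 3) := (w.map ev).prod

end Pool.Agent.Lib.CoCF
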