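import Pool.Agent.Lib.CoCF.Closure

/-!
# Reduction to a two-generator group of permutations of three stacks

The points are `(a, i)`, the entry at depth `i` of the stack `a ∈ {0, 1, 2}`; `mvE` moves the top of
stack `0` to stack `1` and `mvL` moves the top of stack `1` to stack `2`.
-/

set_option autoImplicit false

namespace Pool.Agent.Lib.CoCF

/-- the entry at depth `i` of stack `a` -/
abbrev Pt : Type := Fin 3 × ℕ

/-- the map moving the top of stack `a` to stack `b` -/
def mvFun (a b : Fin 3) : Pt → Pt := fun p =>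
  if p.1 = a then (if p.2 = 0 then (b, 0) else (a, p.2 - 1))
  else if p.1 = b then (b, p.2 + 1) else p

theorem mvFun_mvFun (a b : Fin 3) (hab : a ≠ b) (p : Pt) : mvFun b a (mvFun a b p) = p := by
  obtain ⟨c, i⟩ := p
  unfold mvFun
  by_cases h1 : c = a
  · subst h1
    by_cases h2 : i = 0
    · subst h2
      simp
    · have h3 : i - 1 + 1 = i := by omega
      simp [h2, hab, h3]
  · by_cases h2 : c = b
    · subst h2
      simp [h1]
    · simp [h1, h2]

/-- the permutation moving the top of stack `a` to stack `b` -/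
def mv (a b : Fin 3) (hab : a ≠ b) : Equiv.Perm Pt :=
  ⟨mvFun a b, mvFun b a, mvFun_mvFun a b hab, mvFun_mvFun b a hab.symm⟩

/-- the letter `e` -/
def mvE : Equiv.Perm Pt := mv 0 1 (by decide)

/-- the letter `l` -/
def mvL : Equiv.Perm Pt := mv 1 2 (by decide)

/-- the group generated by the two letters -/
def S3 : Subgroup (Equiv.Perm Pt) := Subgroup.closure {mvE, mvL}

/-- general reduction through an injective homomorphism of permutation groups -/
theorem SemiDetCoCF.isSemiDet_perm {Y : Type} {G : Subgroup (Equiv.Perm Y)}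
    (hG : SemiDetCoCF G) (f : Equiv.Perm Pt →* Equiv.Perm Y) (hf : Function.Injective f)
    (hE : f mvE ∈ G) (hL : f mvL ∈ G) {B : Type} [Finite B] (e : B → Equiv.Perm Pt)
    (he : ∀ b, e b ∈ S3) :
    IsSemiDet {w : List B | ∃ x : Pt, w.foldl (fun x b => e b x) x ≠ x} := by
  have hS3 : ∀ g ∈ S3, f g ∈ G := by
    intro g hg
    have h1 : S3 ≤ G.comap f := by
      unfold S3
      rw [Subgroup.closure_le]
      rintro _ (rfl | rfl)
      · exact hE
      · exact hL
    exact h1 hg
  let F : S3 →* G := (f.comp S3.subtype).codRestrict G fun g => hS3 g.1 g.2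
  have hF : Function.Injective F := by
    intro g h hgh
    apply Subtype.ext
    apply hf
    exact congrArg Subtype.val hgh
  have h1 := hG.isSemiDet F hF (B := B) (fun b => (⟨e b, he b⟩ : S3)⁻¹)
  have h2 : {w : List B | ∃ x : Pt, w.foldl (fun x b => e b x) x ≠ x} =
      {w : List B | (w.map fun b => (⟨e b, he b⟩ : S3)⁻¹).prod ≠ 1} := by
    ext w
    have h3 : ∀ (w : List B) (x : Pt),
        w.foldl (fun x b => e b x) x =
          ((((w.map fun b => (⟨e b, he b⟩ : S3)⁻¹).prod)⁻¹ : S3) : Equiv.Perm Pt) x := by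
      intro w
      induction w with
      | nil => intro x; simp
      | cons b w ih =>
        intro x
        rw [List.foldl_cons, ih]
        simp only [List.map_cons, List.prod_cons, mul_inv_rev, inv_inv, Subgroup.coe_mul,
          Equiv.Perm.coe_mul, Function.comp_apply]
    constructor
    · rintro ⟨x, hx⟩ h4
      apply hx
      rw [h3, h4]
      simp
    · intro h4
      by_contra hne
      have h5 : ∀ x : Pt, w.foldl (fun x b => e b x) x = x := by
        intro x
        by_contra h6
        exact hne ⟨x, h6⟩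
      apply h4
      have h6 : (((w.map fun b => (⟨e b, he b⟩ : S3)⁻¹).prod)⁻¹ : S3) = 1 := by
        apply Subtype.ext
        ext1 x
        rw [← h3, h5]
        rfl
      exact inv_eq_one.1 h6
  rw [h2]
  exact h1

/-! ### The groups of Houghton -/

/-- the three stacks as rays; the centre is the top of stack `1` -/
def toRays (n : ℕ) : Pt → Rays n
  | (0, i) => some (i, 0)
  | (1, 0) => none
  | (1, i + 1) => some (i, 1)
  | (2, i) => some (i, 2)

theorem cast_ne {n : ℕ} (hn : 3 ≤ n) : (0 : ZMod n) ≠ 1 ∧ (0 : ZMod n) ≠ 2 ∧ (1 : ZMod n) ≠ 2 := by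
  have key : ∀ a b : ℕ, a < n → b < n → a ≠ b → (a : ZMod n) ≠ (b : ZMod n) := by
    intro a b ha hb hab h
    rw [ZMod.natCast_eq_natCast_iff'] at h
    rw [Nat.mod_eq_of_lt ha, Nat.mod_eq_of_lt hb] at h
    exact hab h
  refine ⟨?_, ?_, ?_⟩
  · simpa using key 0 1 (by omega) (by omega) (by omega)
  · simpa using key 0 2 (by omega) (by omega) (by omega)
  · simpa using key 1 2 (by omega) (by omega) (by omega)

theorem toRays_injective {n : ℕ} (hn : 3 ≤ n) : Function.Injective (toRays n) := by
  obtain ⟨h01, h02, h12⟩ := cast_ne hn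
  rintro ⟨a, i⟩ ⟨b, j⟩ h
  fin_cases a <;> fin_cases b <;> rcases i with _ | i <;> rcases j with _ | j <;>
    simp_all [toRays, Prod.ext_iff]

theorem toRays_E {n : ℕ} (hn : 3 ≤ n) (p : Pt) : toRays n (mvE p) = shift 0 (toRays n p) := by
  obtain ⟨h01, h02, h12⟩ := cast_ne hn
  obtain ⟨a, i⟩ := p
  fin_cases a <;> rcases i with _ | _ | i <;>
    simp [toRays, mvE, mv, mvFun, shift, h01.symm, h02.symm, h12.symm]

theorem toRays_L {n : ℕ} (hn : 3 ≤ n) (p : Pt) : toRays n (mvL p) = shift 1 (toRays n p) := by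
  obtain ⟨h01, h02, h12⟩ := cast_ne hn
  have h11 : (1 : ZMod n) + 1 = 2 := by norm_num
  obtain ⟨a, i⟩ := p
  fin_cases a <;> rcases i with _ | _ | i <;>
    simp [toRays, mvL, mv, mvFun, shift, h11, h01, h02, h12.symm]

theorem shift_of_ne {n : ℕ} {j k : ZMod n} (h : k ≠ j) (h' : k ≠ j + 1) (i : ℕ) :
    shift j (some (i, k)) = some (i, k) := by
  rcases i with _ | i <;> simp [shift, h, h']

theorem notMem_toRays {n : ℕ} {x : Rays n} (hx : x ∉ Set.range (toRays n)) :
    ∃ i k, x = some (i, k) ∧ k ≠ 0 ∧ k ≠ 1 ∧ k ≠ 2 := by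
  rcases x with _ | ⟨i, k⟩
  · exact absurd ⟨(1, 0), rfl⟩ hx
  · refine ⟨i, k, rfl, ?_, ?_, ?_⟩
    · rintro rfl
      exact hx ⟨(0, i), rfl⟩
    · rintro rfl
      exact hx ⟨(1, i + 1), rfl⟩
    · rintro rfl
      exact hx ⟨(2, i), rfl⟩

theorem houghton_key {n : ℕ} (hn : 3 ≤ n) (g : Equiv.Perm Pt) (j : ZMod n)
    (h1 : ∀ p, toRays n (g p) = shift j (toRays n p))
    (h2 : ∀ i k, k ≠ 0 → k ≠ 1 → k ≠ 2 → shift j (some (i, k)) = some (i, k)) :
    Equiv.Perm.viaEmbeddingHom ⟨toRays n, toRays_injective hn⟩ g ∈ Houghton n := by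
  apply Subgroup.subset_closure
  left
  refine ⟨j, ?_⟩
  intro x
  rw [Equiv.Perm.viaEmbeddingHom_apply]
  by_cases hx : x ∈ Set.range (toRays n)
  · obtain ⟨p, rfl⟩ := hx
    exact (Equiv.Perm.viaEmbedding_apply g ⟨toRays n, toRays_injective hn⟩ p).trans (h1 p)
  · obtain ⟨i, k, rfl, h3, h4, h5⟩ := notMem_toRays hx
    rw [h2 i k h3 h4 h5]
    exact Equiv.Perm.viaEmbedding_apply_of_notMem g ⟨toRays n, toRays_injective hn⟩ _ hx

theorem houghton_E {n : ℕ} (hn : 3 ≤ n) :
    Equiv.Perm.viaEmbeddingHom ⟨toRays n, toRays_injective hn⟩ mvE ∈ Houghton n := by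
  refine houghton_key hn mvE 0 (toRays_E hn) ?_
  intro i k h0 h1 _
  exact shift_of_ne h0 (by rwa [zero_add]) i

theorem houghton_L {n : ℕ} (hn : 3 ≤ n) :
    Equiv.Perm.viaEmbeddingHom ⟨toRays n, toRays_injective hn⟩ mvL ∈ Houghton n := by
  have h11 : (1 : ZMod n) + 1 = 2 := by norm_num
  refine houghton_key hn mvL 1 (toRays_L hn) ?_
  intro i k _ h1 h2
  exact shift_of_ne h1 (by rwa [h11]) i

theorem houghton_isSemiDet {n : ℕ} (hn : 3 ≤ n) (hG : SemiDetCoCF (Houghton n)) {B : Type}
    [Finite B] (e : B → Equiv.Perm Pt) (he : ∀ b, e b ∈ S3) :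
    IsSemiDet {w : List B | ∃ x : Pt, w.foldl (fun x b => e b x) x ≠ x} :=
  hG.isSemiDet_perm _ (Equiv.Perm.viaEmbeddingHom_injective ⟨toRays n, toRays_injective hn⟩)
    (houghton_E hn) (houghton_L hn) e he

/-! ### The groups of Higman and Thompson -/

section HT

variable {n r : ℕ}

/-- the three cones -/
def stackWord (z o : Fin n) : Fin 3 → List (Fin n)
  | 0 => [z, z]
  | 1 => [z, o]
  | 2 => [o, z]

theorem stackWord_length (z o : Fin n) (a : Fin 3) : (stackWord z o a).length = 2 := by
  fin_cases a <;> rfl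

theorem stackWord_injective {z o : Fin n} (h : z ≠ o) : Function.Injective (stackWord z o) := by
  intro a b hab
  fin_cases a <;> fin_cases b <;> simp_all [stackWord]

theorem app_eq_of_length {l l' : List (Fin n)} {s s' : ℕ → Fin n} (h : app l s = app l' s')
    (hl : l.length = l'.length) : l = l' ∧ s = s' := by
  obtain ⟨t, t', h1, -⟩ := exists_common h
  obtain ⟨rfl, -⟩ := List.append_inj h1 hl
  exact ⟨rfl, app_injective _ h⟩

theorem app_head (s : ℕ → Fin n) : app [s 0] (fun j => s (j + 1)) = s := by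
  funext i
  rcases i with _ | i <;> simp [app]

/-- the tails of the digit sequences after their leading zeros -/
abbrev Tail (z : Fin n) : Type := {p : Fin n × (ℕ → Fin n) // p.1 ≠ z}

/-- the digit sequence with `i` leading zeros and the given tail -/
def blk (z : Fin n) (i : ℕ) (t : Tail z) : ℕ → Fin n :=
  app (List.replicate i z) (app [t.1.1] t.1.2)

theorem blk_succ (z : Fin n) (i : ℕ) (t : Tail z) : blk z (i + 1) t = app [z] (blk z i t) := by
  unfold blk
  rw [← app_append [z], List.replicate_succ]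
  rfl

theorem blk_zero (z : Fin n) (t : Tail z) : blk z 0 t = app [t.1.1] t.1.2 := by
  unfold blk
  rw [List.replicate_zero, app_nil]

theorem blk_injective {z : Fin n} {i j : ℕ} {t t' : Tail z} (h : blk z i t = blk z j t') :
    i = j ∧ t = t' := by
  induction i generalizing j with
  | zero =>
    rcases j with _ | j
    · rw [blk_zero, blk_zero] at h
      obtain ⟨h1, h2⟩ := app_eq_of_length h rfl
      refine ⟨rfl, Subtype.ext (Prod.ext ?_ h2)⟩
      exact (List.cons.inj h1).1
    · rw [blk_zero, blk_succ] at h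
      obtain ⟨h1, -⟩ := app_eq_of_length h rfl
      exact absurd (List.cons.inj h1).1 t.2
  | succ i ih =>
    rcases j with _ | j
    · rw [blk_zero, blk_succ] at h
      obtain ⟨h1, -⟩ := app_eq_of_length h rfl
      exact absurd (List.cons.inj h1).1.symm t'.2
    · rw [blk_succ, blk_succ] at h
      obtain ⟨h1, h2⟩ := ih (app_injective _ h)
      exact ⟨by rw [h1], h2⟩

theorem exists_blk (z : Fin n) (s : ℕ → Fin n) : s = (fun _ => z) ∨ ∃ i t, s = blk z i t := by
  by_cases h : ∀ i, s i = z
  · left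
    funext i
    exact h i
  · right
    rw [not_forall] at h
    obtain ⟨i, hi⟩ := h
    induction i generalizing s with
    | zero =>
      refine ⟨0, ⟨(s 0, fun j => s (j + 1)), hi⟩, ?_⟩
      rw [blk_zero]
      exact (app_head s).symm
    | succ i ih =>
      by_cases h0 : s 0 = z
      · obtain ⟨i', t, h1⟩ := ih (fun j => s (j + 1)) hi
        refine ⟨i' + 1, t, ?_⟩
        rw [blk_succ, ← h1, ← h0]
        exact (app_head s).symm
      · refine ⟨0, ⟨(s 0, fun j => s (j + 1)), h0⟩, ?_⟩
        rw [blk_zero]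
        exact (app_head s).symm

theorem const_ne_blk (z : Fin n) (i : ℕ) (t : Tail z) : (fun _ => z) ≠ blk z i t := by
  induction i with
  | zero =>
    intro h
    rw [blk_zero] at h
    have h1 := congrFun h 0
    exact t.2 (by simpa [app] using h1.symm)
  | succ i ih =>
    intro h
    apply ih
    rw [blk_succ] at h
    apply app_injective [z]
    rw [← h]
    funext j
    rcases j with _ | j <;> simp [app]

/-- the point with the digits `s` in the cone of stack `a` -/
def stk (ρ : Fin r) (z o : Fin n) (a : Fin 3) (s : ℕ → Fin n) : Cantor n r :=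
  (ρ, app (stackWord z o a) s)

theorem stk_injective {ρ : Fin r} {z o : Fin n} (h : z ≠ o) {a b : Fin 3} {s s' : ℕ → Fin n}
    (hs : stk ρ z o a s = stk ρ z o b s') : a = b ∧ s = s' := by
  obtain ⟨-, h1⟩ := Prod.mk.inj hs
  obtain ⟨h2, h3⟩ := app_eq_of_length h1 (by rw [stackWord_length, stackWord_length])
  exact ⟨stackWord_injective h h2, h3⟩

/-- the points used to code the entries of the stacks -/
def toCantor (ρ : Fin r) (z o : Fin n) : Pt × Tail z → Cantor n r := fun q =>
  stk ρ z o q.1.1 (blk z q.1.2 q.2)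

theorem toCantor_injective (ρ : Fin r) {z o : Fin n} (h : z ≠ o) :
    Function.Injective (toCantor ρ z o) := by
  rintro ⟨⟨a, i⟩, t⟩ ⟨⟨b, j⟩, t'⟩ hq
  obtain ⟨h1, h2⟩ := stk_injective h hq
  obtain ⟨h3, h4⟩ := blk_injective h2
  simp only at h1 h3 h4
  rw [h1, h3, h4]

/-- the permutations of the entries acting on entries with tails -/
def withTail (T : Type) : Equiv.Perm Pt →* Equiv.Perm (Pt × T) where
  toFun g := Equiv.prodCongr g (Equiv.refl T)
  map_one' := rfl
  map_mul' _ _ := rfl

theorem withTail_injective (T : Type) [Nonempty T] : Function.Injective (withTail T) := by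
  intro g h hgh
  obtain ⟨t⟩ := ‹Nonempty T›
  ext1 x
  have h1 := Equiv.congr_fun hgh (x, t)
  exact congrArg Prod.fst h1

/-- the permutations of the entries acting on the Cantor space -/
noncomputable def onCantor (ρ : Fin r) {z o : Fin n} (h : z ≠ o) :
    Equiv.Perm Pt →* Equiv.Perm (Cantor n r) :=
  (Equiv.Perm.viaEmbeddingHom ⟨toCantor ρ z o, toCantor_injective ρ h⟩).comp (withTail (Tail z))

theorem onCantor_injective (ρ : Fin r) {z o : Fin n} (h : z ≠ o) :
    Function.Injective (onCantor (r := r) ρ h) := by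
  have : Nonempty (Tail z) := ⟨⟨(o, fun _ => o), h.symm⟩⟩
  exact (Equiv.Perm.viaEmbeddingHom_injective _).comp (withTail_injective _)

theorem onCantor_apply (ρ : Fin r) {z o : Fin n} (h : z ≠ o) (g : Equiv.Perm Pt) (p : Pt)
    (t : Tail z) : onCantor ρ h g (toCantor ρ z o (p, t)) = toCantor ρ z o (g p, t) :=
  Equiv.Perm.viaEmbedding_apply (withTail (Tail z) g) ⟨toCantor ρ z o, toCantor_injective ρ h⟩ _

theorem onCantor_of_notMem (ρ : Fin r) {z o : Fin n} (h : z ≠ o) (g : Equiv.Perm Pt)
    {x : Cantor n r} (hx : x ∉ Set.range (toCantor ρ z o)) : onCantor ρ h g x = x :=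
  Equiv.Perm.viaEmbedding_apply_of_notMem (withTail (Tail z) g)
    ⟨toCantor ρ z o, toCantor_injective ρ h⟩ _ hx

theorem onCantor_const (ρ : Fin r) {z o : Fin n} (h : z ≠ o) (g : Equiv.Perm Pt) (a : Fin 3) :
    onCantor ρ h g (stk ρ z o a fun _ => z) = stk ρ z o a fun _ => z := by
  apply onCantor_of_notMem
  rintro ⟨⟨⟨b, i⟩, t⟩, hq⟩
  exact const_ne_blk z i t (stk_injective h hq).2.symm

theorem app_const (z : Fin n) : app [z] (fun _ => z) = fun _ => z := by
  funext j
  rcases j with _ | j <;> simp [app]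

theorem onCantor_mv (ρ : Fin r) {z o : Fin n} (h : z ≠ o) {a b : Fin 3} (hab : a ≠ b) :
    IsHT (onCantor ρ h (mv a b hab)) := by
  set g := onCantor ρ h (mv a b hab) with hg
  have hst : ∀ (c : Fin 3) (i : ℕ) (t : Tail z),
      g (stk ρ z o c (blk z i t)) = toCantor ρ z o (mv a b hab (c, i), t) :=
    fun c i t => onCantor_apply ρ h (mv a b hab) (c, i) t
  have h1 : ∀ s, g (stk ρ z o a (app [z] s)) = stk ρ z o a s := by
    intro s
    rcases exists_blk z s with rfl | ⟨i, t, rfl⟩
    · rw [app_const]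
      exact onCantor_const ρ h _ a
    · rw [← blk_succ, hst]
      have h2 : mv a b hab (a, i + 1) = (a, i) := by
        show mvFun a b (a, i + 1) = (a, i)
        simp [mvFun]
      rw [h2]
      rfl
  have h2 : ∀ d, d ≠ z → ∀ s, g (stk ρ z o a (app [d] s)) = stk ρ z o b (app [d] s) := by
    intro d hd s
    have h3 : app [d] s = blk z 0 ⟨(d, s), hd⟩ := by rw [blk_zero]
    rw [h3, hst]
    have h4 : mv a b hab (a, 0) = (b, 0) := by
      show mvFun a b (a, 0) = (b, 0)
      simp [mvFun]
    rw [h4]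
    rfl
  have h3 : ∀ s, g (stk ρ z o b s) = stk ρ z o b (app [z] s) := by
    intro s
    rcases exists_blk z s with rfl | ⟨i, t, rfl⟩
    · rw [app_const]
      exact onCantor_const ρ h _ b
    · rw [← blk_succ, hst]
      have h2 : mv a b hab (b, i) = (b, i + 1) := by
        show mvFun a b (b, i) = (b, i + 1)
        simp [mvFun, hab.symm]
      rw [h2]
      rfl
  have h4 : ∀ c, c ≠ a → c ≠ b → ∀ s, g (stk ρ z o c s) = stk ρ z o c s := by
    intro c hca hcb s
    rcases exists_blk z s with rfl | ⟨i, t, rfl⟩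
    · exact onCantor_const ρ h _ c
    · rw [hst]
      have h2 : mv a b hab (c, i) = (c, i) := by
        show mvFun a b (c, i) = (c, i)
        simp [mvFun, hca, hcb]
      rw [h2]
      rfl
  have h5 : ∀ (σ : Fin r) (c d : Fin n), (σ ≠ ρ ∨ ∀ a, [c, d] ≠ stackWord z o a) → ∀ s,
      g (σ, app [c, d] s) = (σ, app [c, d] s) := by
    intro σ c d hcd s
    apply onCantor_of_notMem
    rintro ⟨⟨⟨b', i⟩, t⟩, hq⟩
    obtain ⟨h6, h7⟩ := Prod.mk.inj hq
    rcases hcd with hcd | hcd
    · exact hcd h6.symm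
    · obtain ⟨h8, -⟩ := app_eq_of_length h7 (by rw [stackWord_length]; rfl)
      exact hcd _ h8.symm
  classical
  -- the partition into the words with three digits
  let v : Fin r × Fin n × Fin n × Fin n → Word n r := fun i =>
    if i.1 = ρ then
      if [i.2.1, i.2.2.1] = stackWord z o a then
        if i.2.2.2 = z then (ρ, stackWord z o a) else (ρ, stackWord z o b ++ [i.2.2.2])
      else if [i.2.1, i.2.2.1] = stackWord z o b then (ρ, stackWord z o b ++ [z] ++ [i.2.2.2])
      else (i.1, [i.2.1, i.2.2.1, i.2.2.2])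
    else (i.1, [i.2.1, i.2.2.1, i.2.2.2])
  refine isHT_of (fun i : Fin r × Fin n × Fin n × Fin n => (i.1, [i.2.1, i.2.2.1, i.2.2.2])) v
    ?_ ?_
  · rintro ⟨σ, s⟩
    refine ⟨(σ, s 0, s 1, s 2), ⟨fun j => s (j + 3), ?_⟩, ?_⟩
    · have h6 : app [s 0, s 1, s 2] (fun j => s (j + 3)) = s := by
        funext j
        rcases j with _ | _ | _ | j <;> simp [app]
      exact Prod.ext rfl h6
    · rintro ⟨σ', c, d, e⟩ ⟨s', hs'⟩
      obtain ⟨rfl, h6⟩ := Prod.mk.inj hs'
      have h7 := congrFun h6 0
      have h8 := congrFun h6 1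
      have h9 := congrFun h6 2
      simp only [app, List.length_cons, List.length_nil] at h7 h8 h9
      simp at h7 h8 h9
      rw [h7, h8, h9]
  · rintro ⟨σ, c, d, e⟩ s
    have h6 : pt (r := r) (σ, [c, d, e]) s = (σ, app [c, d] (app [e] s)) := by
      unfold pt
      rw [← app_append]
      rfl
    show g (pt (r := r) (σ, [c, d, e]) s) = pt (v (σ, c, d, e)) s
    by_cases hσ : σ = ρ
    · subst hσ
      by_cases ha : [c, d] = stackWord z o a
      · rw [h6, ha]
        by_cases he : e = z
        · have h7 : v (σ, c, d, e) = (σ, stackWord z o a) := by simp [v, ha, he]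
          rw [h7, he]
          exact h1 s
        · have h7 : v (σ, c, d, e) = (σ, stackWord z o b ++ [e]) := by simp [v, ha, he]
          rw [h7]
          refine (h2 e he s).trans ?_
          unfold stk pt
          rw [app_append]
      · by_cases hb : [c, d] = stackWord z o b
        · have h7 : v (σ, c, d, e) = (σ, stackWord z o b ++ [z] ++ [e]) := by
            simp only [v, if_true, if_neg ha, if_pos hb]
          rw [h7, h6, hb]
          refine (h3 (app [e] s)).trans ?_
          unfold stk pt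
          rw [app_append, app_append]
        · have h7 : v (σ, c, d, e) = (σ, [c, d, e]) := by
            simp only [v, if_true, if_neg ha, if_neg hb]
          rw [h7, h6]
          by_cases hc : ∃ c', [c, d] = stackWord z o c'
          · obtain ⟨c', hc'⟩ := hc
            rw [hc']
            refine h4 c' ?_ ?_ _
            · rintro rfl
              exact ha hc'
            · rintro rfl
              exact hb hc'
          · refine h5 σ c d (Or.inr ?_) _
            intro a' ha'
            exact hc ⟨a', ha'⟩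
    · have h7 : v (σ, c, d, e) = (σ, [c, d, e]) := by simp only [v, if_neg hσ]
      rw [h7, h6]
      exact h5 σ c d (Or.inl hσ) _

theorem higmanThompson_isSemiDet (hn : 2 ≤ n) (hr : 1 ≤ r)
    (hG : SemiDetCoCF (HigmanThompson n r)) {B : Type} [Finite B] (e : B → Equiv.Perm Pt)
    (he : ∀ b, e b ∈ S3) :
    IsSemiDet {w : List B | ∃ x : Pt, w.foldl (fun x b => e b x) x ≠ x} := by
  have h : (⟨0, by omega⟩ : Fin n) ≠ ⟨1, by omega⟩ := by
    intro h
    exact absurd (congrArg Fin.val h) (by simp)
  exact hG.isSemiDet_perm (onCantor (⟨0, by omega⟩ : Fin r) h) (onCantor_injective _ h)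
    (onCantor_mv _ h _) (onCantor_mv _ h _) e he

end HT

/-- The whole reduction: it suffices to find a finite family of elements of the group generated by
the two letters whose co-word problem is not semi-deterministic. -/
theorem reduction {B : Type} [Finite B] (e : B → Equiv.Perm Pt) (he : ∀ b, e b ∈ S3)
    (h : ¬ IsSemiDet {w : List B | ∃ x : Pt, w.foldl (fun x b => e b x) x ≠ x}) :
    (∀ n, 3 ≤ n → ¬ SemiDetCoCF (Houghton n)) ∧
      ∀ n r, 2 ≤ n → 1 ≤ r → ¬ SemiDetCoCF (HigmanThompson n r) :=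
  ⟨fun _ hn hG => h (houghton_isSemiDet hn hG e he),
    fun _ _ hn hr hG => h (higmanThompson_isSemiDet hn hr hG e he)⟩

end Pool.Agent.Lib.CoCF
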