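import Pool.Agent.Lib.CoCF.Reduce
import Pool.Agent.Lib.CoCF.Model

/-!
# The reduction, in terms of the letters of the model
-/

set_option autoImplicit false

namespace Pool.Agent.Lib.CoCF

theorem cc : (1 : ZMod 3) + 1 = 2 := by decide

/-- the two shifts generate all letters -/
theorem ev_mem (l : Ltr) : ev l ∈ Subgroup.closure ({sg 0, sg 1} : Set (Equiv.Perm (Rays 3))) := by
  set S := Subgroup.closure ({sg 0, sg 1} : Set (Equiv.Perm (Rays 3))) with hS
  have h0 : sg 0 ∈ S := Subgroup.subset_closure (by simp)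
  have h1 : sg 1 ∈ S := Subgroup.subset_closure (by simp)
  have htau : Equiv.swap none (some (0, 0)) ∈ S := by
    have h2 : Equiv.swap none (some (0, 0)) = (sg 1)⁻¹ * (sg 0)⁻¹ * sg 1 * sg 0 := by
      rw [← mul_inv_rev, mul_assoc, eq_comm, inv_mul_eq_iff_eq_mul]
      ext1 x
      simp only [Equiv.Perm.coe_mul, Function.comp_apply, sg_apply]
      obtain ⟨h01, h02, h12⟩ := cast_ne (n := 3) le_rfl
      rcases x with _ | ⟨i, k⟩
      · rw [Equiv.swap_apply_left]
        simp [shift, h01, h02, cc]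
      · by_cases hx : some (i, k) = some ((0 : ℕ), (0 : ZMod 3))
        · rw [hx, Equiv.swap_apply_right]
          simp [shift, h02.symm, h12.symm, cc]
        · rw [Equiv.swap_apply_of_ne_of_ne (by simp) hx]
          rcases (by decide : ∀ k : ZMod 3, k = 0 ∨ k = 1 ∨ k = 2) k with rfl | rfl | rfl
          · rcases i with _ | i
            · exact absurd rfl hx
            · simp [shift, h01, h02, cc]
              rcases i with _ | i <;> simp [h01, h02]
          · rcases i with _ | _ | i <;> simp [shift, h01.symm]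
          · rcases i with _ | _ | i <;> simp [shift, h02.symm, h12.symm, cc]
    rw [h2]
    exact S.mul_mem (S.mul_mem (S.mul_mem (S.inv_mem h1) (S.inv_mem h0)) h1) h0
  have htA : Equiv.swap none (some (0, 1)) ∈ S := by
    have h2 : Equiv.swap none (some (0, 1)) = sg 0 * Equiv.swap none (some (0, 0)) * (sg 0)⁻¹ := by
      have h3 := Equiv.swap_apply_apply (sg 0) none (some (0, 0))
      rw [← h3, Equiv.swap_comm, sg_apply, sg_apply]
      simp [shift]
    rw [h2]
    exact S.mul_mem (S.mul_mem h0 htau) (S.inv_mem h0)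
  have htB : Equiv.swap none (some (0, 2)) ∈ S := by
    have h2 : Equiv.swap none (some (0, 2)) = sg 1 * Equiv.swap none (some (0, 1)) * (sg 1)⁻¹ := by
      have h3 := Equiv.swap_apply_apply (sg 1) none (some (0, 1))
      rw [← h3, Equiv.swap_comm, sg_apply, sg_apply]
      simp [shift, cc]
    rw [h2]
    exact S.mul_mem (S.mul_mem h1 htA) (S.inv_mem h1)
  cases l with
  | s => exact h0
  | si => exact S.inv_mem h0
  | r => exact h1
  | ri => exact S.inv_mem h1
  | tau => exact htau
  | tA => exact htA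
  | tB => exact htB
  | a => exact S.mul_mem htA h0
  | ai => exact S.inv_mem (S.mul_mem htA h0)
  | b => exact S.mul_mem htB h1
  | bi => exact S.inv_mem (S.mul_mem htB h1)

theorem toRays_surjective : Function.Surjective (toRays 3) := by
  intro x
  by_contra h
  obtain ⟨i, k, -, h0, h1, h2⟩ := notMem_toRays (n := 3) (x := x) (by
    rintro ⟨y, hy⟩
    exact h ⟨y, hy⟩)
  fin_cases k
  · exact h0 rfl
  · exact h1 rfl
  · exact h2 rfl

/-- the three stacks are the three rays -/
noncomputable def stacksEquiv : Pt ≃ Rays 3 :=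
  Equiv.ofBijective (toRays 3) ⟨toRays_injective le_rfl, toRays_surjective⟩

theorem permCongr_sg0 : stacksEquiv.symm.permCongrHom (sg 0) = mvE := by
  ext1 x
  show stacksEquiv.symm (sg 0 (stacksEquiv x)) = mvE x
  rw [Equiv.symm_apply_eq, sg_apply]
  exact (toRays_E le_rfl x).symm

theorem permCongr_sg1 : stacksEquiv.symm.permCongrHom (sg 1) = mvL := by
  ext1 x
  show stacksEquiv.symm (sg 1 (stacksEquiv x)) = mvL x
  rw [Equiv.symm_apply_eq, sg_apply]
  exact (toRays_L le_rfl x).symm

theorem exists_machine {Y : Type} {G : Subgroup (Equiv.Perm Y)} (hG : SemiDetCoCF G)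
    (f : Equiv.Perm Pt →* Equiv.Perm Y) (hf : Function.Injective f) (hE : f mvE ∈ G)
    (hL : f mvL ∈ G) : ∃ M : DPDA Ltr, ∀ w, w ∈ M.guessLang ↔ (w.map ev).prod ≠ 1 := by
  let f' : Equiv.Perm (Rays 3) →* Equiv.Perm Y := f.comp stacksEquiv.symm.permCongrHom.toMonoidHom
  have hf' : Function.Injective f' :=
    hf.comp (stacksEquiv.symm.permCongrHom : Equiv.Perm (Rays 3) ≃* Equiv.Perm Pt).injective
  let S := Subgroup.closure ({sg 0, sg 1} : Set (Equiv.Perm (Rays 3)))
  have hS : ∀ g ∈ S, f' g ∈ G := by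
    intro g hg
    have h1 : S ≤ G.comap f' := by
      rw [Subgroup.closure_le]
      rintro _ (rfl | rfl)
      · show f (stacksEquiv.symm.permCongrHom (sg 0)) ∈ G
        rw [permCongr_sg0]
        exact hE
      · show f (stacksEquiv.symm.permCongrHom (sg 1)) ∈ G
        rw [permCongr_sg1]
        exact hL
    exact h1 hg
  let F : S →* G := (f'.comp S.subtype).codRestrict G fun g => hS g.1 g.2
  have hF : Function.Injective F := by
    intro g h hgh
    apply Subtype.ext
    apply hf'
    exact congrArg Subtype.val hgh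
  obtain ⟨M, hM⟩ := hG.isSemiDet F hF (B := Ltr) (fun l => (⟨ev l, ev_mem l⟩ : S))
  refine ⟨M, ?_⟩
  intro w
  rw [← hM]
  have h1 : (((w.map fun l => (⟨ev l, ev_mem l⟩ : S)).prod : S) : Equiv.Perm (Rays 3)) =
      (w.map ev).prod := by
    rw [← S.coe_subtype, map_list_prod, List.map_map]
    rfl
  show (w.map fun l => (⟨ev l, ev_mem l⟩ : S)).prod ≠ 1 ↔ _
  rw [← h1, not_iff_not]
  constructor
  · intro h2
    rw [h2]
    rfl
  · intro h2
    exact Subtype.ext h2

theorem reduction_houghton {n : ℕ} (hn : 3 ≤ n) (hG : SemiDetCoCF (Houghton n)) :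
    ∃ M : DPDA Ltr, ∀ w, w ∈ M.guessLang ↔ (w.map ev).prod ≠ 1 :=
  exists_machine hG _ (Equiv.Perm.viaEmbeddingHom_injective ⟨toRays n, toRays_injective hn⟩)
    (houghton_E hn) (houghton_L hn)

theorem reduction_higmanThompson {n r : ℕ} (hn : 2 ≤ n) (hr : 1 ≤ r)
    (hG : SemiDetCoCF (HigmanThompson n r)) :
    ∃ M : DPDA Ltr, ∀ w, w ∈ M.guessLang ↔ (w.map ev).prod ≠ 1 := by
  have h : (⟨0, by omega⟩ : Fin n) ≠ ⟨1, by omega⟩ := by
    intro h
    exact absurd (congrArg Fin.val h) (by simp)
  exact exists_machine hG (onCantor (⟨0, by omega⟩ : Fin r) h) (onCantor_injective _ h)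
    (onCantor_mv _ h _) (onCantor_mv _ h _)

end Pool.Agent.Lib.CoCF
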